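import Pool.Agent.H10.MW.Basic

/-!
# SM2-BAL: balancing of the areas of the cells of a grid
-/

set_option autoImplicit false

open Set Filter Topology Metric MeasureTheory
open scoped ContDiff

noncomputable section

namespace Pool.Agent.H597.SM2Bal

open Pool.Agent.H10.MW

/-! ### integrals over rectangles -/

/-- set integrals over rectangles are iterated integrals, outer variable `y` -/
theorem integral_CRect' {f : ℂ → ℝ} (hf : Continuous f) {a b c d : ℝ} (hab : a ≤ b) (hcd : c ≤ d) :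
    ∫ z in CRect a b c d, f z = ∫ y in c..d, ∫ x in a..b, f ⟨x, y⟩ := by
  rw [integral_CRect hf hab hcd]
  have hc : Continuous fun p : ℝ × ℝ => f ⟨p.1, p.2⟩ :=
    hf.comp Complex.equivRealProdCLM.symm.continuous
  rw [intervalIntegral.integral_of_le hab, intervalIntegral.integral_of_le hcd]
  simp only [intervalIntegral.integral_of_le hab, intervalIntegral.integral_of_le hcd]
  refine integral_integral_swap (f := fun x y => f ⟨x, y⟩) ?_
  rw [Measure.prod_restrict]
  have h1 : IntegrableOn (fun p : ℝ × ℝ => f ⟨p.1, p.2⟩) (Icc a b ×ˢ Icc c d)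
      (volume.prod volume) :=
    hc.continuousOn.integrableOn_compact (isCompact_Icc.prod isCompact_Icc)
  exact h1.mono_set (prod_mono Ioc_subset_Icc_self Ioc_subset_Icc_self)

theorem hasDerivAt_mk (x y : ℝ) : HasDerivAt (fun r : ℝ => (⟨r, y⟩ : ℂ)) 1 x := by
  have h : (fun r : ℝ => (⟨r, y⟩ : ℂ)) = fun r : ℝ => (r : ℂ) + y * Complex.I := by
    funext r
    exact Complex.mk_eq_add_mul_I r y
  rw [h]
  exact (Complex.ofRealCLM.hasDerivAt (x := x)).add_const _

theorem hasDerivAt_line (f : ℂ → ℝ) (hf : Differentiable ℝ f) (x y : ℝ) :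
    HasDerivAt (fun r : ℝ => f ⟨r, y⟩) (fderiv ℝ f ⟨x, y⟩ 1) x :=
  (hf ⟨x, y⟩).hasFDerivAt.comp_hasDerivAt x (hasDerivAt_mk x y)

theorem continuous_mk (y : ℝ) : Continuous fun r : ℝ => (⟨r, y⟩ : ℂ) :=
  (Complex.equivRealProdCLM.symm.continuous).comp (by fun_prop : Continuous fun r : ℝ => (r, y))

/-- change of variables along the horizontal lines -/
theorem integral_cell (g κ : ℂ ≃ₜ ℂ) (hg : ∀ z, Good g z) (hκ : ∀ z, Good κ z) (X : ℂ → ℝ)
    (hX : ContDiff ℝ ∞ X) (hκX : ∀ z, κ z = ⟨X z, z.im⟩) (hJ : ∀ z, J κ z = fderiv ℝ X z 1)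
    {a b c d : ℝ} (hab : a ≤ b) (hcd : c ≤ d) :
    ∫ z in CRect a b c d, J (fun z => g (κ z)) z =
      ∫ y in c..d, ∫ u in (X ⟨a, y⟩)..(X ⟨b, y⟩), J g ⟨u, y⟩ := by
  have hgs : ContDiff ℝ ∞ g := contDiff_of_good hg
  have hκs : ContDiff ℝ ∞ κ := contDiff_of_good hκ
  have hcomp : ContDiff ℝ ∞ fun z => g (κ z) := hgs.comp hκs
  rw [integral_CRect' (continuous_J hcomp) hab hcd]
  apply intervalIntegral.integral_congr
  intro y _
  show ∫ x in a..b, J (fun z => g (κ z)) ⟨x, y⟩ = ∫ u in (X ⟨a, y⟩)..(X ⟨b, y⟩), J g ⟨u, y⟩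
  have hXd : Differentiable ℝ X := hX.differentiable (by simp)
  have hXf : Continuous fun x : ℝ => fderiv ℝ X ⟨x, y⟩ 1 :=
    ((hX.continuous_fderiv (by simp)).comp (continuous_mk y)).clm_apply continuous_const
  have hJg : Continuous fun u : ℝ => J g ⟨u, y⟩ := (continuous_J hgs).comp (continuous_mk y)
  have h1 := intervalIntegral.integral_comp_mul_deriv (a := a) (b := b)
    (f := fun x : ℝ => X ⟨x, y⟩) (f' := fun x : ℝ => fderiv ℝ X ⟨x, y⟩ 1)
    (g := fun u : ℝ => J g ⟨u, y⟩) (fun x _ => hasDerivAt_line X hXd x y) hXf.continuousOn hJg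
  rw [← h1]
  apply intervalIntegral.integral_congr
  intro x _
  show J (fun z => g (κ z)) ⟨x, y⟩ = J g ⟨X ⟨x, y⟩, y⟩ * fderiv ℝ X ⟨x, y⟩ 1
  rw [J_comp (hg _).differentiableAt (hκ _).differentiableAt, hJ, hκX]

/-! ### the bump functions -/

/-- bump function in the direction `x` -/
def aB : ContDiffBump (0 : ℝ) := ⟨1 / 8, 1 / 4, by norm_num, by norm_num⟩

/-- bump function in the direction `y` -/
def bB : ContDiffBump (1 / 2 : ℝ) := ⟨1 / 4, 1 / 2, by norm_num, by norm_num⟩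

theorem aB_zero {x : ℝ} (h : 1 / 4 ≤ |x|) : aB x = 0 := by
  apply aB.zero_of_le_dist
  rw [Real.dist_eq, sub_zero]
  exact h

theorem aB_at_zero : aB 0 = 1 := by
  apply aB.one_of_mem_closedBall
  exact mem_closedBall_self (by show (0:ℝ) ≤ 1 / 8; norm_num)

theorem bB_zero {x : ℝ} (h : x ≤ 0 ∨ 1 ≤ x) : bB x = 0 := by
  apply bB.zero_of_le_dist
  rw [Real.dist_eq]
  show (1 / 2 : ℝ) ≤ |x - 1 / 2|
  rcases h with h | h
  · rw [abs_of_nonpos (by linarith)]; linarith
  · rw [abs_of_nonneg (by linarith)]; linarith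

theorem bB_one {x : ℝ} (h0 : 1 / 4 ≤ x) (h1 : x ≤ 3 / 4) : bB x = 1 := by
  apply bB.one_of_mem_closedBall
  rw [mem_closedBall, Real.dist_eq]
  show |x - 1 / 2| ≤ (1 / 4 : ℝ)
  rw [abs_le]
  constructor <;> linarith

/-- the derivative of the first bump function is bounded -/
theorem aB_deriv : ∃ A : ℝ, 0 < A ∧ ∀ x, |deriv aB x| ≤ A := by
  have hc : Continuous (deriv aB) := (aB.contDiff (n := 1)).continuous_deriv (by simp)
  have hs : HasCompactSupport (deriv aB) := aB.hasCompactSupport.deriv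
  obtain ⟨C, hC⟩ := hc.bounded_above_of_compact_support hs
  refine ⟨max C 1, by positivity, fun x => ?_⟩
  exact (hC x).trans (le_max_left _ _)

/-! ### the shift -/

/-- the first coordinate of the map which moves the vertical edges of the grid -/
def Xf (n : ℕ) (s x₀ y₀ : ℝ) (τ : ℕ → ℕ → ℝ) (z : ℂ) : ℝ :=
  z.re + ∑ i ∈ Finset.range (n + 1), ∑ j ∈ Finset.range n,
    τ i j * aB ((z.re - (x₀ + i * s)) / s) * bB ((z.im - (y₀ + j * s)) / s)

variable {n : ℕ} {s x₀ y₀ : ℝ} {τ : ℕ → ℕ → ℝ}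

theorem Xf_smooth : ContDiff ℝ ∞ (Xf n s x₀ y₀ τ) := by
  have hre : ContDiff ℝ ∞ fun z : ℂ => z.re := Complex.reCLM.contDiff
  have him : ContDiff ℝ ∞ fun z : ℂ => z.im := Complex.imCLM.contDiff
  unfold Xf
  refine hre.add (ContDiff.sum fun i _ => ContDiff.sum fun j _ => ?_)
  refine (contDiff_const.mul ?_).mul ?_
  · exact aB.contDiff.comp ((hre.sub contDiff_const).div_const s)
  · exact bB.contDiff.comp ((him.sub contDiff_const).div_const s)

theorem Xf_sub (z : ℂ) (t₀ : ℝ) (h : ∀ i j, |τ i j| ≤ t₀) :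
    |Xf n s x₀ y₀ τ z - z.re| ≤ (n + 1) * n * t₀ := by
  unfold Xf
  rw [add_sub_cancel_left]
  refine (Finset.abs_sum_le_sum_abs _ _).trans ?_
  calc ∑ i ∈ Finset.range (n + 1), |∑ j ∈ Finset.range n,
        τ i j * aB ((z.re - (x₀ + i * s)) / s) * bB ((z.im - (y₀ + j * s)) / s)|
      ≤ ∑ _i ∈ Finset.range (n + 1), (n : ℝ) * t₀ := by
        refine Finset.sum_le_sum fun i _ => ?_
        refine (Finset.abs_sum_le_sum_abs _ _).trans ?_
        calc ∑ j ∈ Finset.range n,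
            |τ i j * aB ((z.re - (x₀ + i * s)) / s) * bB ((z.im - (y₀ + j * s)) / s)|
            ≤ ∑ _j ∈ Finset.range n, t₀ := by
              refine Finset.sum_le_sum fun j _ => ?_
              rw [abs_mul, abs_mul, abs_of_nonneg (aB.nonneg' _), abs_of_nonneg (bB.nonneg' _)]
              have h1 := aB.le_one (x := (z.re - (x₀ + i * s)) / s)
              have h2 := bB.le_one (x := (z.im - (y₀ + j * s)) / s)
              have h3 := aB.nonneg' ((z.re - (x₀ + i * s)) / s)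
              have h4 := bB.nonneg' ((z.im - (y₀ + j * s)) / s)
              calc |τ i j| * aB ((z.re - (x₀ + i * s)) / s) * bB ((z.im - (y₀ + j * s)) / s)
                  ≤ |τ i j| * 1 * 1 := by
                    apply mul_le_mul _ h2 h4 (by positivity)
                    exact mul_le_mul_of_nonneg_left h1 (abs_nonneg _)
                _ ≤ t₀ := by rw [mul_one, mul_one]; exact h i j
          _ = n * t₀ := by rw [Finset.sum_const, Finset.card_range, nsmul_eq_mul]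
    _ = (n + 1) * n * t₀ := by
        rw [Finset.sum_const, Finset.card_range, nsmul_eq_mul]
        push_cast
        ring

theorem Xf_fderiv (z : ℂ) : fderiv ℝ (Xf n s x₀ y₀ τ) z 1 =
    1 + ∑ i ∈ Finset.range (n + 1), ∑ j ∈ Finset.range n,
      τ i j * (deriv aB ((z.re - (x₀ + i * s)) / s) / s) * bB ((z.im - (y₀ + j * s)) / s) := by
  have h1 := hasDerivAt_line (Xf n s x₀ y₀ τ) (Xf_smooth.differentiable (by simp)) z.re z.im
  have hz : (⟨z.re, z.im⟩ : ℂ) = z := rfl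
  rw [hz] at h1
  have h2 : HasDerivAt (fun r : ℝ => Xf n s x₀ y₀ τ ⟨r, z.im⟩)
      (1 + ∑ i ∈ Finset.range (n + 1), ∑ j ∈ Finset.range n,
      τ i j * (deriv aB ((z.re - (x₀ + i * s)) / s) / s) * bB ((z.im - (y₀ + j * s)) / s))
      z.re := by
    unfold Xf
    refine (hasDerivAt_id' z.re).add (HasDerivAt.fun_sum fun i _ => HasDerivAt.fun_sum fun j _ => ?_)
    have h3 : HasDerivAt aB (deriv aB ((z.re - (x₀ + i * s)) / s)) ((z.re - (x₀ + i * s)) / s) :=
      ((aB.contDiff (n := 1)).differentiable (by simp) _).hasDerivAt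
    have h4 : HasDerivAt (fun r : ℝ => (r - (x₀ + i * s)) / s) (1 / s) z.re :=
      ((hasDerivAt_id' z.re).sub_const _).div_const s
    have h5 : HasDerivAt (fun r : ℝ => aB ((r - (x₀ + i * s)) / s))
        (deriv aB ((z.re - (x₀ + i * s)) / s) * (1 / s)) z.re :=
      HasDerivAt.comp (h₂ := aB) (h := fun r : ℝ => (r - (x₀ + i * s)) / s) z.re h3 h4
    rw [mul_one_div] at h5
    exact (h5.const_mul (τ i j)).mul_const (bB ((z.im - (y₀ + j * s)) / s))
  exact h1.unique h2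

theorem Xf_pos (hs : 0 < s) (A t₀ : ℝ) (hA : ∀ x, |deriv aB x| ≤ A) (ht : 0 ≤ t₀)
    (h : ∀ i j, |τ i j| ≤ t₀) (hsm : (n + 1) * n * t₀ * A ≤ s / 2) (z : ℂ) :
    0 < fderiv ℝ (Xf n s x₀ y₀ τ) z 1 := by
  rw [Xf_fderiv]
  have hA0 : 0 ≤ A := (abs_nonneg _).trans (hA 0)
  have key : |∑ i ∈ Finset.range (n + 1), ∑ j ∈ Finset.range n,
      τ i j * (deriv aB ((z.re - (x₀ + i * s)) / s) / s) * bB ((z.im - (y₀ + j * s)) / s)| ≤
      (n + 1) * n * t₀ * A / s := by
    refine (Finset.abs_sum_le_sum_abs _ _).trans ?_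
    calc ∑ i ∈ Finset.range (n + 1), |∑ j ∈ Finset.range n,
          τ i j * (deriv aB ((z.re - (x₀ + i * s)) / s) / s) * bB ((z.im - (y₀ + j * s)) / s)|
        ≤ ∑ _i ∈ Finset.range (n + 1), (n : ℝ) * (t₀ * (A / s)) := by
          refine Finset.sum_le_sum fun i _ => ?_
          refine (Finset.abs_sum_le_sum_abs _ _).trans ?_
          calc ∑ j ∈ Finset.range n,
              |τ i j * (deriv aB ((z.re - (x₀ + i * s)) / s) / s) *
                bB ((z.im - (y₀ + j * s)) / s)|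
              ≤ ∑ _j ∈ Finset.range n, t₀ * (A / s) := by
                refine Finset.sum_le_sum fun j _ => ?_
                rw [abs_mul, abs_mul, abs_div, abs_of_pos hs, abs_of_nonneg (bB.nonneg' _)]
                have h2 := bB.le_one (x := (z.im - (y₀ + j * s)) / s)
                have h4 := bB.nonneg' ((z.im - (y₀ + j * s)) / s)
                calc |τ i j| * (|deriv aB ((z.re - (x₀ + i * s)) / s)| / s) *
                      bB ((z.im - (y₀ + j * s)) / s)
                    ≤ t₀ * (A / s) * 1 := by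
                      apply mul_le_mul _ h2 h4 (by positivity)
                      apply mul_le_mul (h i j) _ (by positivity) ht
                      exact div_le_div_of_nonneg_right (hA _) hs.le
                  _ = t₀ * (A / s) := mul_one _
            _ = n * (t₀ * (A / s)) := by rw [Finset.sum_const, Finset.card_range, nsmul_eq_mul]
      _ = (n + 1) * n * t₀ * A / s := by
          rw [Finset.sum_const, Finset.card_range, nsmul_eq_mul]
          push_cast
          ring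
  have h2 : (n + 1) * n * t₀ * A / s ≤ 1 / 2 := by
    rw [div_le_iff₀ hs]; linarith
  have := neg_le_of_abs_le (key.trans h2)
  linarith

/-- the value on the vertical lines of the grid -/
theorem Xf_line (hs : 0 < s) {i₀ j₀ : ℕ} (hi : i₀ ≤ n) (hj : j₀ < n) {y : ℝ}
    (hy0 : y₀ + j₀ * s ≤ y) (hy1 : y ≤ y₀ + (j₀ + 1) * s) :
    Xf n s x₀ y₀ τ ⟨x₀ + i₀ * s, y⟩ =
      x₀ + i₀ * s + τ i₀ j₀ * bB ((y - (y₀ + j₀ * s)) / s) := by
  unfold Xf
  have hzre : (⟨x₀ + i₀ * s, y⟩ : ℂ).re = x₀ + i₀ * s := rfl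
  have hzim : (⟨x₀ + i₀ * s, y⟩ : ℂ).im = y := rfl
  rw [hzre, hzim, Finset.sum_eq_single i₀, Finset.sum_eq_single j₀]
  · rw [sub_self, zero_div, aB_at_zero, mul_one]
  · intro j _ hne
    have hb : bB ((y - (y₀ + j * s)) / s) = 0 := by
      apply bB_zero
      rcases lt_or_gt_of_ne hne with h | h
      · right
        rw [le_div_iff₀ hs]
        have h1 : (j : ℝ) + 1 ≤ j₀ := by exact_mod_cast h
        nlinarith
      · left
        apply div_nonpos_of_nonpos_of_nonneg _ hs.le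
        have h1 : (j₀ : ℝ) + 1 ≤ j := by exact_mod_cast h
        nlinarith
    rw [hb, mul_zero]
  · intro h
    exact absurd (Finset.mem_range.2 hj) h
  · intro i _ hne
    apply Finset.sum_eq_zero
    intro j _
    have ha : aB ((x₀ + i₀ * s - (x₀ + i * s)) / s) = 0 := by
      apply aB_zero
      have e : (x₀ + i₀ * s - (x₀ + i * s)) / s = (i₀ : ℝ) - i := by
        field_simp
        ring
      rw [e]
      have h1 : (1 : ℝ) ≤ |(i₀ : ℝ) - i| := by
        have h2 : (1 : ℤ) ≤ |(i₀ : ℤ) - i| := Int.one_le_abs (by omega)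
        exact_mod_cast h2
      linarith
    rw [ha]
    ring
  · intro h
    exact absurd (Finset.mem_range.2 (by omega)) h

/-- the map has compact support -/
theorem Xf_supp (hs : 0 < s) (z : ℂ)
    (hz : 2 * (|x₀| + |y₀| + (n + 2) * s) ≤ ‖z‖) : Xf n s x₀ y₀ τ z = z.re := by
  unfold Xf
  have h0 : ∑ i ∈ Finset.range (n + 1), ∑ j ∈ Finset.range n,
      τ i j * aB ((z.re - (x₀ + i * s)) / s) * bB ((z.im - (y₀ + j * s)) / s) = 0 := by
    apply Finset.sum_eq_zero
    intro i hi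
    apply Finset.sum_eq_zero
    intro j hj
    have hi' : (i : ℝ) ≤ n := by
      have := Finset.mem_range.1 hi
      exact_mod_cast (by omega : i ≤ n)
    have hj' : (j : ℝ) + 1 ≤ n := by
      have := Finset.mem_range.1 hj
      exact_mod_cast (by omega : j + 1 ≤ n)
    have hi0 : (0 : ℝ) ≤ i := Nat.cast_nonneg _
    have hj0 : (0 : ℝ) ≤ j := Nat.cast_nonneg _
    have hn0 : (0 : ℝ) ≤ n := Nat.cast_nonneg _
    have h1 : ‖z‖ ≤ |z.re| + |z.im| := Complex.norm_le_abs_re_add_abs_im z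
    have hcase : |x₀| + |y₀| + (n + 2) * s ≤ |z.re| ∨ |x₀| + |y₀| + (n + 2) * s ≤ |z.im| := by
      by_contra hcon
      push Not at hcon
      linarith [hcon.1, hcon.2]
    rcases hcase with h | h
    · have ha : aB ((z.re - (x₀ + i * s)) / s) = 0 := by
        apply aB_zero
        rw [abs_div, abs_of_pos hs, le_div_iff₀ hs]
        have h2 : |z.re| - |x₀ + i * s| ≤ |z.re - (x₀ + i * s)| := abs_sub_abs_le_abs_sub _ _
        have h3 : |x₀ + i * s| ≤ |x₀| + i * s := by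
          refine (abs_add_le _ _).trans ?_
          rw [abs_of_nonneg (mul_nonneg hi0 hs.le)]
        nlinarith [abs_nonneg y₀]
      rw [ha]; ring
    · have hb : bB ((z.im - (y₀ + j * s)) / s) = 0 := by
        apply bB_zero
        rcases le_total 0 z.im with h0 | h0
        · right
          rw [abs_of_nonneg h0] at h
          rw [le_div_iff₀ hs]
          nlinarith [abs_nonneg x₀, le_abs_self y₀]
        · left
          rw [abs_of_nonpos h0] at h
          apply div_nonpos_of_nonpos_of_nonneg _ hs.le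
          nlinarith [abs_nonneg x₀, neg_abs_le y₀]
      rw [hb]; ring
  rw [h0, add_zero]

/-! ### the masses -/

/-- the mass to the left of the moved edge -/
def Ms (g : ℂ → ℂ) (s x₀ y₀ : ℝ) (i j : ℕ) (t : ℝ) : ℝ :=
  ∫ y in (y₀ + j * s)..(y₀ + (j + 1) * s),
    ∫ u in x₀..(x₀ + i * s + t * bB ((y - (y₀ + j * s)) / s)), J g ⟨u, y⟩

theorem cont2 {g : ℂ → ℂ} (hg : ContDiff ℝ ∞ g) :
    Continuous (Function.uncurry fun y u : ℝ => J g ⟨u, y⟩) := by
  have h : Continuous fun p : ℝ × ℝ => J g ⟨p.2, p.1⟩ :=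
    (continuous_J hg).comp (Complex.equivRealProdCLM.symm.continuous.comp continuous_swap)
  exact h

theorem cont_inner {g : ℂ → ℂ} (hg : ContDiff ℝ ∞ g) {φ ψ : ℝ → ℝ} (hφ : Continuous φ)
    (hψ : Continuous ψ) : Continuous fun y : ℝ => ∫ u in (φ y)..(ψ y), J g ⟨u, y⟩ := by
  have h1 : Continuous fun y : ℝ => ∫ u in (0:ℝ)..(ψ y), J g ⟨u, y⟩ :=
    intervalIntegral.continuous_parametric_intervalIntegral_of_continuous (cont2 hg) hψ
  have h2 : Continuous fun y : ℝ => ∫ u in (0:ℝ)..(φ y), J g ⟨u, y⟩ :=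
    intervalIntegral.continuous_parametric_intervalIntegral_of_continuous (cont2 hg) hφ
  have h3 : (fun y : ℝ => ∫ u in (φ y)..(ψ y), J g ⟨u, y⟩) = fun y : ℝ =>
      (∫ u in (0:ℝ)..(ψ y), J g ⟨u, y⟩) - ∫ u in (0:ℝ)..(φ y), J g ⟨u, y⟩ := by
    funext y
    have hc : Continuous fun u : ℝ => J g ⟨u, y⟩ := (continuous_J hg).comp (continuous_mk y)
    rw [intervalIntegral.integral_interval_sub_left (hc.intervalIntegrable _ _)
      (hc.intervalIntegrable _ _)]
  rw [h3]
  exact h1.sub h2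

theorem Ms_cont {g : ℂ → ℂ} (hg : ContDiff ℝ ∞ g) (i j : ℕ) :
    Continuous (Ms g s x₀ y₀ i j) := by
  unfold Ms
  apply intervalIntegral.continuous_parametric_intervalIntegral_of_continuous'
    (f := fun t y => ∫ u in x₀..(x₀ + i * s + t * bB ((y - (y₀ + j * s)) / s)), J g ⟨u, y⟩)
  have h1 : Continuous (Function.uncurry fun (p : ℝ × ℝ) (u : ℝ) => J g ⟨u, p.2⟩) := by
    have h2 : Continuous fun p : (ℝ × ℝ) × ℝ => J g ⟨p.2, p.1.2⟩ :=
      (continuous_J hg).comp (Complex.equivRealProdCLM.symm.continuous.comp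
        (by fun_prop : Continuous fun p : (ℝ × ℝ) × ℝ => (p.2, p.1.2)))
    exact h2
  have hbc : Continuous bB := (bB.contDiff (n := 0)).continuous
  have h3 : Continuous fun p : ℝ × ℝ => x₀ + i * s + p.1 * bB ((p.2 - (y₀ + j * s)) / s) := by
    fun_prop
  exact intervalIntegral.continuous_parametric_intervalIntegral_of_continuous h1 h3

theorem bB_cont : Continuous bB := (bB.contDiff (n := 0)).continuous

theorem Jint {g : ℂ → ℂ} (hg : ContDiff ℝ ∞ g) (y a b : ℝ) :
    IntervalIntegrable (fun u : ℝ => J g ⟨u, y⟩) volume a b :=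
  ((continuous_J hg).comp (continuous_mk y)).intervalIntegrable _ _

/-- `Ms` as a sum of the mass of a rectangle and the mass of the bump -/
theorem Ms_eq {g : ℂ → ℂ} (hg : ContDiff ℝ ∞ g) (hs : 0 < s) (i j : ℕ) (t : ℝ) :
    Ms g s x₀ y₀ i j t = (∫ z in CRect x₀ (x₀ + i * s) (y₀ + j * s) (y₀ + (j + 1) * s), J g z) +
      ∫ y in (y₀ + j * s)..(y₀ + (j + 1) * s),
        ∫ u in (x₀ + i * s)..(x₀ + i * s + t * bB ((y - (y₀ + j * s)) / s)), J g ⟨u, y⟩ := by
  have hi : (0:ℝ) ≤ i * s := by positivity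
  rw [integral_CRect' (continuous_J hg) (by linarith) (by nlinarith)]
  unfold Ms
  have hφ : Continuous fun y : ℝ => x₀ + i * s + t * bB ((y - (y₀ + j * s)) / s) := by
    have := bB_cont
    fun_prop
  rw [← intervalIntegral.integral_add]
  · apply intervalIntegral.integral_congr
    intro y _
    show ∫ u in x₀..(x₀ + i * s + t * bB ((y - (y₀ + j * s)) / s)), J g ⟨u, y⟩ =
      (∫ x in x₀..(x₀ + i * s), J g ⟨x, y⟩) +
      ∫ u in (x₀ + i * s)..(x₀ + i * s + t * bB ((y - (y₀ + j * s)) / s)), J g ⟨u, y⟩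
    rw [intervalIntegral.integral_add_adjacent_intervals (Jint hg _ _ _) (Jint hg _ _ _)]
  · exact (cont_inner hg continuous_const continuous_const).intervalIntegrable _ _
  · exact (cont_inner hg continuous_const hφ).intervalIntegrable _ _

/-- the mass of the bump, from below -/
theorem bump_lower {g : ℂ → ℂ} (hg : ContDiff ℝ ∞ g) (hpos : ∀ z, 0 < J g z) (hs : 0 < s)
    (X : ℝ) (j : ℕ) {t : ℝ} (ht : 0 ≤ t) :
    ∫ z in CRect X (X + t) (y₀ + j * s + s / 4) (y₀ + j * s + 3 * s / 4), J g z ≤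
      ∫ y in (y₀ + j * s)..(y₀ + (j + 1) * s),
        ∫ u in X..(X + t * bB ((y - (y₀ + j * s)) / s)), J g ⟨u, y⟩ := by
  rw [integral_CRect' (continuous_J hg) (by linarith) (by linarith)]
  have hφ : Continuous fun y : ℝ => X + t * bB ((y - (y₀ + j * s)) / s) := by
    have := bB_cont
    fun_prop
  have e : ∫ y in (y₀ + j * s + s / 4)..(y₀ + j * s + 3 * s / 4), ∫ x in X..(X + t), J g ⟨x, y⟩ =
      ∫ y in (y₀ + j * s + s / 4)..(y₀ + j * s + 3 * s / 4),
        ∫ u in X..(X + t * bB ((y - (y₀ + j * s)) / s)), J g ⟨u, y⟩ := by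
    apply intervalIntegral.integral_congr
    intro y hy
    rw [uIcc_of_le (by linarith)] at hy
    have hb : bB ((y - (y₀ + j * s)) / s) = 1 := by
      apply bB_one
      · rw [le_div_iff₀ hs]; linarith [hy.1]
      · rw [div_le_iff₀ hs]; linarith [hy.2]
    show ∫ x in X..(X + t), J g ⟨x, y⟩ = ∫ u in X..(X + t * bB ((y - (y₀ + j * s)) / s)), J g ⟨u, y⟩
    rw [hb, mul_one]
  rw [e]
  apply intervalIntegral.integral_mono_interval (by linarith) (by linarith) (by nlinarith)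
  · refine Filter.Eventually.of_forall fun y => ?_
    show (0:ℝ) ≤ ∫ u in X..(X + t * bB ((y - (y₀ + j * s)) / s)), J g ⟨u, y⟩
    apply intervalIntegral.integral_nonneg
    · have := mul_nonneg ht (bB.nonneg' ((y - (y₀ + j * s)) / s))
      linarith
    · intro u _
      exact (hpos _).le
  · exact (cont_inner hg continuous_const hφ).intervalIntegrable _ _

/-- the mass of the bump, from above -/
theorem bump_upper {g : ℂ → ℂ} (hg : ContDiff ℝ ∞ g) (hpos : ∀ z, 0 < J g z) (hs : 0 < s)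
    (X : ℝ) (j : ℕ) {t : ℝ} (ht : 0 ≤ t) :
    ∫ y in (y₀ + j * s)..(y₀ + (j + 1) * s),
        ∫ u in X..(X + -t * bB ((y - (y₀ + j * s)) / s)), J g ⟨u, y⟩ ≤
    -∫ z in CRect (X - t) X (y₀ + j * s + s / 4) (y₀ + j * s + 3 * s / 4), J g z := by
  rw [integral_CRect' (continuous_J hg) (by linarith) (by linarith)]
  have hφ : Continuous fun y : ℝ => X + -t * bB ((y - (y₀ + j * s)) / s) := by
    have := bB_cont
    fun_prop
  have e : ∫ y in (y₀ + j * s + s / 4)..(y₀ + j * s + 3 * s / 4), ∫ x in (X - t)..X, J g ⟨x, y⟩ =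
      ∫ y in (y₀ + j * s + s / 4)..(y₀ + j * s + 3 * s / 4),
        -∫ u in X..(X + -t * bB ((y - (y₀ + j * s)) / s)), J g ⟨u, y⟩ := by
    apply intervalIntegral.integral_congr
    intro y hy
    rw [uIcc_of_le (by linarith)] at hy
    have hb : bB ((y - (y₀ + j * s)) / s) = 1 := by
      apply bB_one
      · rw [le_div_iff₀ hs]; linarith [hy.1]
      · rw [div_le_iff₀ hs]; linarith [hy.2]
    show ∫ x in (X - t)..X, J g ⟨x, y⟩ =
      -∫ u in X..(X + -t * bB ((y - (y₀ + j * s)) / s)), J g ⟨u, y⟩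
    rw [hb, mul_one, ← intervalIntegral.integral_symm, sub_eq_add_neg]
  rw [e, le_neg]
  rw [← intervalIntegral.integral_neg]
  apply intervalIntegral.integral_mono_interval (by linarith) (by linarith) (by nlinarith)
  · refine Filter.Eventually.of_forall fun y => ?_
    show (0:ℝ) ≤ -∫ u in X..(X + -t * bB ((y - (y₀ + j * s)) / s)), J g ⟨u, y⟩
    rw [← intervalIntegral.integral_symm]
    apply intervalIntegral.integral_nonneg
    · have := mul_nonneg ht (bB.nonneg' ((y - (y₀ + j * s)) / s))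
      linarith
    · intro u _
      exact (hpos _).le
  · exact (cont_inner hg continuous_const hφ).neg.intervalIntegrable _ _

/-- the choice of the shifts -/
theorem exists_shift {g : ℂ → ℂ} (hg : ContDiff ℝ ∞ g) (hpos : ∀ z, 0 < J g z) (hs : 0 < s)
    {t₀ δ : ℝ} (ht : 0 < t₀) (hts : t₀ ≤ s) (hδ : δ ≤ t₀ * s / 4)
    (hm : ∀ a b c d : ℝ, x₀ ≤ a → a ≤ b → b ≤ x₀ + (n + 1) * s → y₀ ≤ c → c ≤ d → d ≤ y₀ + n * s →
      |(∫ z in CRect a b c d, J g z) - (b - a) * (d - c)| ≤ δ) (i j : ℕ) (hi : i ≤ n)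
    (hj : j < n) : ∃ t : ℝ, |t| ≤ t₀ ∧ Ms g s x₀ y₀ i j t = i * s ^ 2 := by
  have hi' : (i : ℝ) ≤ n := by exact_mod_cast hi
  have hj' : (j : ℝ) + 1 ≤ n := by exact_mod_cast hj
  have hi0 : (0 : ℝ) ≤ i := Nat.cast_nonneg _
  have hj0 : (0 : ℝ) ≤ j := Nat.cast_nonneg _
  rcases Nat.eq_zero_or_pos i with rfl | hipos
  · refine ⟨0, by rw [abs_zero]; exact ht.le, ?_⟩
    unfold Ms
    have : ∀ y : ℝ, ∫ u in x₀..(x₀ + ((0 : ℕ) : ℝ) * s + 0 * bB ((y - (y₀ + j * s)) / s)),
        J g ⟨u, y⟩ = 0 := by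
      intro y
      rw [Nat.cast_zero, zero_mul, zero_mul, add_zero, add_zero]
      exact intervalIntegral.integral_same
    simp only [this]
    simp
  have hi1 : (1 : ℝ) ≤ i := by exact_mod_cast hipos
  have hcont := Ms_cont (x₀ := x₀) (y₀ := y₀) (s := s) hg i j
  have hA := hm x₀ (x₀ + i * s) (y₀ + j * s) (y₀ + (j + 1) * s) le_rfl (by nlinarith)
    (by nlinarith) (by nlinarith) (by nlinarith) (by nlinarith)
  have e1 : (x₀ + i * s - x₀) * (y₀ + (j + 1) * s - (y₀ + j * s)) = i * s ^ 2 := by ring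
  rw [e1] at hA
  have hB := hm (x₀ + i * s) (x₀ + i * s + t₀) (y₀ + j * s + s / 4) (y₀ + j * s + 3 * s / 4)
    (by nlinarith) (by linarith) (by nlinarith) (by nlinarith) (by linarith) (by nlinarith)
  have e2 : (x₀ + i * s + t₀ - (x₀ + i * s)) *
      (y₀ + j * s + 3 * s / 4 - (y₀ + j * s + s / 4)) = t₀ * s / 2 := by ring
  rw [e2] at hB
  have hC := hm (x₀ + i * s - t₀) (x₀ + i * s) (y₀ + j * s + s / 4) (y₀ + j * s + 3 * s / 4)
    (by nlinarith) (by linarith) (by nlinarith) (by nlinarith) (by linarith) (by nlinarith)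
  have e3 : (x₀ + i * s - (x₀ + i * s - t₀)) *
      (y₀ + j * s + 3 * s / 4 - (y₀ + j * s + s / 4)) = t₀ * s / 2 := by ring
  rw [e3] at hC
  have hup : (i : ℝ) * s ^ 2 ≤ Ms g s x₀ y₀ i j t₀ := by
    rw [Ms_eq hg hs]
    have h1 := bump_lower (y₀ := y₀) hg hpos hs (x₀ + i * s) j ht.le
    have h2 := abs_le.1 hA
    have h3 := abs_le.1 hB
    linarith [h2.1, h3.1]
  have hlo : Ms g s x₀ y₀ i j (-t₀) ≤ (i : ℝ) * s ^ 2 := by
    rw [Ms_eq hg hs]
    have h1 := bump_upper (y₀ := y₀) hg hpos hs (x₀ + i * s) j ht.le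
    have h2 := abs_le.1 hA
    have h3 := abs_le.1 hC
    linarith [h2.2, h3.1]
  obtain ⟨t, ht1, ht2⟩ := intermediate_value_Icc (a := -t₀) (b := t₀) (by linarith)
    hcont.continuousOn ⟨hlo, hup⟩
  exact ⟨t, abs_le.2 ⟨ht1.1, ht1.2⟩, ht2⟩

/-- **SM2-BAL** -/
theorem main (hh : S_FIBH) : S_BAL := by
  intro n s x₀ y₀ η hn hs hη
  obtain ⟨A, hA0, hA⟩ := aB_deriv
  have hN : (0 : ℝ) < (n + 1) * n := by
    have : (0:ℝ) < n := by exact_mod_cast hn
    positivity
  obtain ⟨t₀, ht0, hts, htη, htA⟩ : ∃ t₀ : ℝ, 0 < t₀ ∧ t₀ ≤ s ∧ (n + 1) * n * t₀ ≤ η ∧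
      (n + 1) * n * t₀ * A ≤ s / 2 := by
    refine ⟨min s (min (η / ((n + 1) * n)) (s / 2 / A / ((n + 1) * n))), by positivity,
      min_le_left _ _, ?_, ?_⟩
    · have h1 : min s (min (η / ((n + 1) * n)) (s / 2 / A / ((n + 1) * n))) ≤ η / ((n + 1) * n) :=
        (min_le_right _ _).trans (min_le_left _ _)
      rw [le_div_iff₀ hN] at h1
      linarith
    · have h1 : min s (min (η / ((n + 1) * n)) (s / 2 / A / ((n + 1) * n))) ≤
          s / 2 / A / ((n + 1) * n) :=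
        (min_le_right _ _).trans (min_le_right _ _)
      rw [le_div_iff₀ hN, le_div_iff₀ hA0] at h1
      linarith
  refine ⟨t₀ * s / 4, by positivity, fun g hg hm => ?_⟩
  have hgs : ContDiff ℝ ∞ g := contDiff_of_good hg
  have hpos : ∀ z, 0 < J g z := fun z => (hg z).pos
  have hex : ∀ i j : ℕ, ∃ t : ℝ, |t| ≤ t₀ ∧
      (i ≤ n → j < n → Ms g s x₀ y₀ i j t = i * s ^ 2) := by
    intro i j
    by_cases h : i ≤ n ∧ j < n
    · obtain ⟨t, h1, h2⟩ := exists_shift hgs hpos hs ht0 hts le_rfl hm i j h.1 h.2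
      exact ⟨t, h1, fun _ _ => h2⟩
    · exact ⟨0, by rw [abs_zero]; exact ht0.le, fun h1 h2 => absurd ⟨h1, h2⟩ h⟩
  choose τ hτ1 hτ2 using hex
  have hXs : ContDiff ℝ ∞ (Xf n s x₀ y₀ τ) := Xf_smooth
  obtain ⟨κ, hκ1, hκ2, hκ3⟩ := hh (Xf n s x₀ y₀ τ) ((n + 1) * n * t₀) hXs
    (fun z => Xf_pos hs A t₀ hA ht0.le hτ1 htA z) (fun z => Xf_sub z t₀ hτ1)
  refine ⟨κ, ⟨2 * (|x₀| + |y₀| + (n + 2) * s), fun z hz => ?_⟩, hκ2, fun z => ?_, ?_⟩
  · rw [hκ1, Xf_supp hs z hz]
  · rw [hκ1]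
    have h1 : (⟨Xf n s x₀ y₀ τ z, z.im⟩ : ℂ) - z = ((Xf n s x₀ y₀ τ z - z.re : ℝ) : ℂ) := by
      apply Complex.ext <;> simp
    rw [h1, Complex.norm_real, Real.norm_eq_abs]
    exact (Xf_sub z t₀ hτ1).trans htη
  · intro i j hi hj
    rw [integral_cell g κ hg hκ2 _ hXs hκ1 hκ3 (by nlinarith) (by nlinarith)]
    have h1 := hτ2 i j hi.le hj
    have h2 := hτ2 (i + 1) j hi hj
    have hbc := bB_cont
    have hc1 : Continuous fun y : ℝ => x₀ + i * s + τ i j * bB ((y - (y₀ + j * s)) / s) := by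
      fun_prop
    have hc2 : Continuous fun y : ℝ =>
        x₀ + (i + 1 : ℕ) * s + τ (i + 1) j * bB ((y - (y₀ + j * s)) / s) := by
      fun_prop
    have key : ∫ y in (y₀ + j * s)..(y₀ + (j + 1) * s),
        ∫ u in (Xf n s x₀ y₀ τ ⟨x₀ + i * s, y⟩)..(Xf n s x₀ y₀ τ ⟨x₀ + (i + 1) * s, y⟩),
          J g ⟨u, y⟩ = Ms g s x₀ y₀ (i + 1) j (τ (i + 1) j) - Ms g s x₀ y₀ i j (τ i j) := by
      unfold Ms
      rw [← intervalIntegral.integral_sub
        ((cont_inner hgs continuous_const hc2).intervalIntegrable _ _)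
        ((cont_inner hgs continuous_const hc1).intervalIntegrable _ _)]
      apply intervalIntegral.integral_congr
      intro y hy
      rw [uIcc_of_le (by nlinarith)] at hy
      show ∫ u in (Xf n s x₀ y₀ τ ⟨x₀ + i * s, y⟩)..(Xf n s x₀ y₀ τ ⟨x₀ + (i + 1) * s, y⟩),
          J g ⟨u, y⟩ =
        (∫ u in x₀..(x₀ + (i + 1 : ℕ) * s + τ (i + 1) j * bB ((y - (y₀ + j * s)) / s)),
          J g ⟨u, y⟩) -
        ∫ u in x₀..(x₀ + i * s + τ i j * bB ((y - (y₀ + j * s)) / s)), J g ⟨u, y⟩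
      rw [intervalIntegral.integral_interval_sub_left (Jint hgs _ _ _) (Jint hgs _ _ _),
        ← Xf_line hs hi.le hj hy.1 hy.2, ← Xf_line (τ := τ) hs (Nat.succ_le_of_lt hi) hj hy.1 hy.2]
      push_cast
      rfl
    rw [key, h1, h2]
    push_cast
    ring

end Pool.Agent.H597.SM2Bal
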