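import Pool.Agent.H10.MW.Basic
import Pool.Graph.R_pool_sql_team_seeded_63374d34.N550.KH.A2C
import Pool.Graph.R_pool_sql_team_seeded_63374d34.N550.KH.Cut
import Pool.Graph.R_pool_sql_team_seeded_63374d34.N550.KH.Disc
import Pool.Graph.R_pool_sql_team_seeded_63374d34.N550.KH.Hol
import Pool.Graph.R_pool_sql_team_seeded_63374d34.N550.KH.Mod
import Pool.Graph.R_pool_sql_team_seeded_63374d34.N550.KH.Rat
import Pool.Graph.R_pool_sql_team_seeded_63374d34.N550.KH.Refl
import Pool.Graph.R_pool_sql_team_seeded_63374d34.N550.KH.Trig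
import Pool.Graph.R_seed8.Helper202.Riemann

/-!
# Project SM2, part CELL (helper677): the 2-handle
-/

set_option autoImplicit false

open Set Filter Topology Metric MeasureTheory
open scoped ContDiff

noncomputable section

namespace Pool.Agent.H677.SM2

open Pool.Agent.H10.MW

theorem a2c : Pool.Agent.N550.KH.S_A2C :=
  Pool.Agent.N550.KH.A2C.main
    (Pool.Agent.N550.KH.Hol.main (Pool.Agent.N550.KH.Mod.main Pool.Agent.N550.KH.Cut.main)
      (Pool.Agent.N550.KH.Rat.main Pool.Agent.N550.KH.Trig.main))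
    Pool.Agent.N550.KH.Refl.main
    (Pool.Agent.N550.KH.Disc.main (Pool.Agent.N550.KH.Mod.main Pool.Agent.N550.KH.Cut.main))

/-- orientation preserving diffeomorphisms of `U` onto `V` -/
structure DD (U V : Set ℂ) where
  f : ℂ → ℂ
  f' : ℂ → ℂ
  hf : MapsTo f U V
  hf' : MapsTo f' V U
  l : ∀ z ∈ U, f' (f z) = z
  r : ∀ z ∈ V, f (f' z) = z
  g : ∀ z ∈ U, Good f z
  g' : ∀ z ∈ V, Good f' z

def DD.symm {U V : Set ℂ} (d : DD U V) : DD V U :=
  ⟨d.f', d.f, d.hf', d.hf, d.r, d.l, d.g', d.g⟩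

def DD.trans {U V W : Set ℂ} (d : DD U V) (e : DD V W) : DD U W where
  f := fun z => e.f (d.f z)
  f' := fun z => d.f' (e.f' z)
  hf := fun _ hz => e.hf (d.hf hz)
  hf' := fun _ hz => d.hf' (e.hf' hz)
  l := fun z hz => by rw [e.l _ (d.hf hz), d.l _ hz]
  r := fun z hz => by rw [d.r _ (e.hf' hz), e.r _ hz]
  g := fun z hz => Good.comp (e.g _ (d.hf hz)) (d.g _ hz)
  g' := fun z hz => Good.comp (d.g' _ (e.hf' hz)) (e.g' _ hz)

/-- the inverse of a bijective map with positive Jacobian determinant -/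
theorem DD.ofBij {U V : Set ℂ} {f : ℂ → ℂ} (hU : IsOpen U) (hb : BijOn f U V)
    (hg : ∀ z ∈ U, Good f z) : ∃ d : DD U V, d.f = f := by
  classical
  have hl : ∀ z ∈ U, Function.invFunOn f U (f z) = z := fun z hz =>
    hb.injOn.leftInvOn_invFunOn hz
  have hr : ∀ z ∈ V, f (Function.invFunOn f U z) = z := fun z hz =>
    Function.invFunOn_eq (hb.surjOn hz)
  have hm : MapsTo (Function.invFunOn f U) V U := fun z hz =>
    Function.invFunOn_mem (hb.surjOn hz)
  have key : ∀ z ∈ U, ContDiffAt ℝ ∞ (Function.invFunOn f U) (f z) ∧ V ∈ 𝓝 (f z) := by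
    intro z hz
    have hw := hg z hz
    obtain ⟨e, he'⟩ : ∃ e : ℂ ≃L[ℝ] ℂ, (e : ℂ →L[ℝ] ℂ) = fderiv ℝ f z :=
      ⟨(fderiv ℝ f z).toContinuousLinearEquivOfDetNeZero hw.pos.ne',
        ContinuousLinearMap.coe_toContinuousLinearEquivOfDetNeZero _ _⟩
    have he : HasFDerivAt f (e : ℂ →L[ℝ] ℂ) z := by
      rw [he']
      exact hw.differentiableAt.hasFDerivAt
    have hs : HasStrictFDerivAt f (e : ℂ →L[ℝ] ℂ) z :=
      hw.contDiffAt.hasStrictFDerivAt' he (by simp)
    constructor
    · have h1 := hw.contDiffAt.to_localInverse he (by simp)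
      refine h1.congr_of_eventuallyEq ?_
      have h2 : ∀ᶠ x in 𝓝 z, Function.invFunOn f U (f x) = x := by
        filter_upwards [hU.mem_nhds hz] with x hx using hl x hx
      exact hs.localInverse_unique h2
    · have h1 := hs.map_nhds_eq_of_equiv
      rw [← h1, mem_map]
      filter_upwards [hU.mem_nhds hz] with x hx using hb.mapsTo hx
  have key2 : ∀ z ∈ U, 0 < (fderiv ℝ (Function.invFunOn f U) (f z)).det := by
    intro z hz
    have hw := hg z hz
    have h2 : DifferentiableAt ℝ (Function.invFunOn f U) (f z) :=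
      (key z hz).1.differentiableAt (by simp)
    have h3 := J_comp (f := f) (g := Function.invFunOn f U) h2 hw.differentiableAt
    have h4 : J (fun z => Function.invFunOn f U (f z)) z = 1 := by
      rw [← J_id z]
      refine J_congr ?_
      filter_upwards [hU.mem_nhds hz] with x hx using hl x hx
    rw [h4] at h3
    have h5 := hw.pos
    by_contra h6
    have h7 : J (Function.invFunOn f U) (f z) ≤ 0 := not_lt.1 h6
    nlinarith
  refine ⟨⟨f, Function.invFunOn f U, hb.mapsTo, hm, hl, hr, hg, ?_⟩, rfl⟩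
  intro w hw
  have h0 : V ∈ 𝓝 w := by
    have := (key _ (hm hw)).2
    rwa [hr w hw] at this
  unfold Good
  filter_upwards [h0] with v hv
  have h1 := (key _ (hm hv)).1
  have h2 := key2 _ (hm hv)
  rw [hr v hv] at h1 h2
  exact ⟨h1, h2⟩

/-- the sign of the determinant on a connected set -/
theorem det_pos {U : Set ℂ} (hU : IsOpen U) (hc : IsPreconnected U) {f f' : ℂ → ℂ}
    (hf : ContDiffOn ℝ ∞ f U) (hf' : ∀ z ∈ U, DifferentiableAt ℝ f' (f z))
    (hl : ∀ z ∈ U, f' (f z) = z) {p : ℂ} (hp : p ∈ U) (h0 : 0 < J f p) : ∀ z ∈ U, 0 < J f z := by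
  have hne : ∀ z ∈ U, J f z ≠ 0 := by
    intro z hz h
    have h1 : DifferentiableAt ℝ f z := (hf.contDiffAt (hU.mem_nhds hz)).differentiableAt (by simp)
    have h3 := J_comp (f := f) (g := f') (hf' z hz) h1
    have h4 : J (fun z => f' (f z)) z = 1 := by
      rw [← J_id z]
      refine J_congr ?_
      filter_upwards [hU.mem_nhds hz] with x hx using hl x hx
    rw [h4, h, mul_zero] at h3
    exact one_ne_zero h3
  have hcont : ContinuousOn (J f) U := by
    unfold J
    exact (ContinuousLinearMap.continuous_det (𝕜 := ℝ) (E := ℂ)).comp_continuousOn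
      (hf.continuousOn_fderiv_of_isOpen hU (by simp))
  intro z hz
  by_contra hneg
  have h1 : (0 : ℝ) ∈ J f '' U := by
    have := hc.image _ hcont
    exact this.ordConnected.out ⟨z, hz, rfl⟩ ⟨p, hp, rfl⟩ ⟨not_lt.1 hneg, h0.le⟩
  obtain ⟨x, hx, hx2⟩ := h1
  exact hne x hx hx2

/-- the plane and a disc -/
theorem exists_disc (r : ℝ) (hr : 0 < r) : Nonempty (DD univ (ball (0 : ℂ) r)) := by
  have hs : ContDiff ℝ ∞ (OpenPartialHomeomorph.univBall (0 : ℂ) r) :=
    OpenPartialHomeomorph.contDiff_univBall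
  have hs' : ContDiffOn ℝ ∞ (OpenPartialHomeomorph.univBall (0 : ℂ) r).symm (ball 0 r) :=
    OpenPartialHomeomorph.contDiffOn_univBall_symm
  have hb : BijOn (OpenPartialHomeomorph.univBall (0 : ℂ) r) univ (ball 0 r) := by
    have := (OpenPartialHomeomorph.univBall (0 : ℂ) r).bijOn
    rwa [OpenPartialHomeomorph.univBall_source, OpenPartialHomeomorph.univBall_target _ hr] at this
  have hJ : ∀ z ∈ (univ : Set ℂ), 0 < J (OpenPartialHomeomorph.univBall (0 : ℂ) r) z := by
    refine det_pos (f' := (OpenPartialHomeomorph.univBall (0 : ℂ) r).symm) isOpen_univ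
      isPreconnected_univ hs.contDiffOn ?_ ?_ (mem_univ 0) ?_
    · intro z hz
      exact (hs'.contDiffAt (isOpen_ball.mem_nhds (hb.mapsTo hz))).differentiableAt (by simp)
    · intro z _
      exact (OpenPartialHomeomorph.univBall (0 : ℂ) r).left_inv (by simp)
    · have h1 : HasFDerivAt (OpenPartialHomeomorph.univBall (0 : ℂ) r)
          (r • ContinuousLinearMap.id ℝ ℂ) 0 := by
        have e1 : (OpenPartialHomeomorph.univBall (0 : ℂ) r : ℂ → ℂ) =
            fun x : ℂ => (r * (√(1 + ‖x‖ ^ 2 : ℝ))⁻¹) • x := by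
          funext x
          unfold OpenPartialHomeomorph.univBall
          rw [dif_pos hr]
          simp [OpenPartialHomeomorph.univUnitBall, OpenPartialHomeomorph.unitBallBall, mul_assoc]
        have h2 : ContDiff ℝ ∞ fun x : ℂ => (r * (√(1 + ‖x‖ ^ 2 : ℝ))⁻¹) := by
          have h : ∀ x : ℂ, (0 : ℝ) < (1 : ℝ) + ‖x‖ ^ 2 := fun x => by positivity
          refine contDiff_const.mul (ContDiff.inv ?_ fun x => Real.sqrt_ne_zero'.mpr (h x))
          exact (contDiff_const.add <| contDiff_norm_sq ℝ).sqrt fun x => (h x).ne'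
        have h3 := (h2.differentiable (by simp) (0 : ℂ)).hasFDerivAt.smul
          (hasFDerivAt_id (𝕜 := ℝ) (0 : ℂ))
        rw [e1]
        refine h3.congr_fderiv ?_
        ext
        simp
      unfold J
      rw [h1.fderiv]
      have h4 : (r • ContinuousLinearMap.id ℝ ℂ).det = r ^ 2 := by
        change LinearMap.det (r • LinearMap.id) = _
        rw [LinearMap.det_smul]
        simp
      rw [h4]
      positivity
  obtain ⟨d, -⟩ := DD.ofBij isOpen_univ hb (fun z hz => good_of_contDiff hs (fun w => hJ w (mem_univ w)) z)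
  exact ⟨d⟩

/-- the line and an interval -/
def sg (a b x : ℝ) : ℝ := (a + b) / 2 + (b - a) / 2 * (x / √(1 + x ^ 2))

theorem contDiff_sg (a b : ℝ) : ContDiff ℝ ∞ (sg a b) := by
  have h : ∀ x : ℝ, (0 : ℝ) < (1 : ℝ) + x ^ 2 := fun x => by positivity
  unfold sg
  refine contDiff_const.add (contDiff_const.mul (contDiff_id.div ?_ fun x =>
    Real.sqrt_ne_zero'.mpr (h x)))
  exact (contDiff_const.add (contDiff_id.pow 2)).sqrt fun x => (h x).ne'

theorem hasDerivAt_sg (a b x : ℝ) :
    HasDerivAt (sg a b) ((b - a) / 2 * ((1 + x ^ 2) * √(1 + x ^ 2))⁻¹) x := by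
  have h : (0 : ℝ) < (1 : ℝ) + x ^ 2 := by positivity
  have hq : √(1 + x ^ 2) ^ 2 = 1 + x ^ 2 := Real.sq_sqrt h.le
  have hq0 : 0 < √(1 + x ^ 2) := Real.sqrt_pos.2 h
  have h1 : HasDerivAt (fun x : ℝ => 1 + x ^ 2) (2 * x) x := by
    have := ((hasDerivAt_id x).pow 2).const_add 1
    simpa using this
  have h2 := h1.sqrt h.ne'
  have h3 := (((hasDerivAt_id x).div h2 hq0.ne').const_mul ((b - a) / 2)).const_add ((a + b) / 2)
  refine h3.congr_deriv ?_
  congr 1
  simp only [id]
  rw [← hq]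
  rw [Real.sqrt_sq hq0.le]
  field_simp
  rw [hq]
  ring

theorem bijOn_sg {a b : ℝ} (h : a < b) : BijOn (sg a b) univ (Ioo a b) := by
  have hb : ∀ x : ℝ, |x / √(1 + x ^ 2)| < 1 := by
    intro x
    have h0 : (0 : ℝ) < (1 : ℝ) + x ^ 2 := by positivity
    have hq0 : 0 < √(1 + x ^ 2) := Real.sqrt_pos.2 h0
    rw [abs_div, abs_of_pos hq0, div_lt_one hq0]
    apply Real.lt_sqrt_of_sq_lt
    rw [sq_abs]
    linarith
  have hmono : StrictMono (sg a b) := by
    refine strictMono_of_deriv_pos fun x => ?_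
    rw [(hasDerivAt_sg a b x).deriv]
    have h0 : (0 : ℝ) < (1 : ℝ) + x ^ 2 := by positivity
    have hq0 : 0 < √(1 + x ^ 2) := Real.sqrt_pos.2 h0
    have : 0 < b - a := by linarith
    positivity
  refine ⟨?_, hmono.injective.injOn, ?_⟩
  · intro x _
    have h1 := abs_lt.1 (hb x)
    have h2 : 0 < (b - a) / 2 := by linarith
    constructor
    · unfold sg
      nlinarith [h1.1]
    · unfold sg
      nlinarith [h1.2]
  · intro y hy
    obtain ⟨t, ht⟩ : ∃ t, t = (y - (a + b) / 2) / ((b - a) / 2) := ⟨_, rfl⟩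
    have h2 : 0 < (b - a) / 2 := by linarith
    have hy' : y = (a + b) / 2 + (b - a) / 2 * t := by
      have hba : b - a ≠ 0 := by
        intro h
        linarith
      rw [ht]
      field_simp
      ring
    have ht1 : |t| < 1 := by
      rw [abs_lt]
      have h3 := hy.1
      have h4 := hy.2
      constructor
      · by_contra hc
        have : t ≤ -1 := not_lt.1 hc
        nlinarith
      · by_contra hc
        have : 1 ≤ t := not_lt.1 hc
        nlinarith
    have ht2 : 0 < 1 - t ^ 2 := by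
      have := sq_lt_one_iff_abs_lt_one t |>.2 ht1
      linarith
    refine ⟨t / √(1 - t ^ 2), mem_univ _, ?_⟩
    rw [hy']
    unfold sg
    congr 2
    have hs : √(1 - t ^ 2) ^ 2 = 1 - t ^ 2 := Real.sq_sqrt ht2.le
    have hs0 : 0 < √(1 - t ^ 2) := Real.sqrt_pos.2 ht2
    have h5 : 1 + (t / √(1 - t ^ 2)) ^ 2 = (√(1 - t ^ 2))⁻¹ ^ 2 := by
      rw [div_pow, inv_pow, hs]
      field_simp
      ring
    rw [h5, Real.sqrt_sq (by positivity)]
    field_simp

theorem exists_rect {a b c d : ℝ} (hab : a < b) (hcd : c < d) :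
    Nonempty (DD univ (Rect a b c d)) := by
  obtain ⟨P, hP⟩ : ∃ P : ℂ → ℂ, P = fun z => ⟨sg a b z.re, sg c d z.im⟩ := ⟨_, rfl⟩
  have hPe : P = fun z => Complex.equivRealProdCLM.symm (sg a b z.re, sg c d z.im) := by
    rw [hP]
    rfl
  have hs : ContDiff ℝ ∞ P := by
    rw [hPe]
    exact Complex.equivRealProdCLM.symm.contDiff.comp
      (((contDiff_sg a b).comp Complex.reCLM.contDiff).prodMk
        ((contDiff_sg c d).comp Complex.imCLM.contDiff))
  have hJ : ∀ z, 0 < (fderiv ℝ P z).det := by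
    intro z
    have h1 : HasFDerivAt (fun z : ℂ => sg a b z.re)
        (((b - a) / 2 * ((1 + z.re ^ 2) * √(1 + z.re ^ 2))⁻¹) • Complex.reCLM) z :=
      (hasDerivAt_sg a b z.re).comp_hasFDerivAt z Complex.reCLM.hasFDerivAt
    have h2 : HasFDerivAt (fun z : ℂ => sg c d z.im)
        (((d - c) / 2 * ((1 + z.im ^ 2) * √(1 + z.im ^ 2))⁻¹) • Complex.imCLM) z :=
      (hasDerivAt_sg c d z.im).comp_hasFDerivAt z Complex.imCLM.hasFDerivAt
    have h3 := Complex.equivRealProdCLM.symm.hasFDerivAt.comp z (h1.prodMk h2)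
    rw [hPe]
    change 0 < (fderiv ℝ (Complex.equivRealProdCLM.symm ∘
      fun x : ℂ => (sg a b x.re, sg c d x.im)) z).det
    rw [h3.fderiv]
    change 0 < LinearMap.det _
    rw [← LinearMap.det_toMatrix Complex.basisOneI, Matrix.det_fin_two]
    have hx : (0 : ℝ) < (1 : ℝ) + z.re ^ 2 := by positivity
    have hx0 : 0 < √(1 + z.re ^ 2) := Real.sqrt_pos.2 hx
    have hy : (0 : ℝ) < (1 : ℝ) + z.im ^ 2 := by positivity
    have hy0 : 0 < √(1 + z.im ^ 2) := Real.sqrt_pos.2 hy
    have hab' : 0 < b - a := by linarith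
    have hcd' : 0 < d - c := by linarith
    simp [LinearMap.toMatrix_apply, Complex.basisOneI]
    positivity
  have hb : BijOn P univ (Rect a b c d) := by
    refine ⟨?_, ?_, ?_⟩
    · intro z _
      rw [hP]
      have h1 := (bijOn_sg hab).mapsTo (mem_univ z.re)
      have h2 := (bijOn_sg hcd).mapsTo (mem_univ z.im)
      exact ⟨h1.1, h1.2, h2.1, h2.2⟩
    · intro z _ w _ hzw
      rw [hP] at hzw
      have h1 := congrArg Complex.re hzw
      have h2 := congrArg Complex.im hzw
      exact Complex.ext ((bijOn_sg hab).injOn (mem_univ _) (mem_univ _) h1)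
        ((bijOn_sg hcd).injOn (mem_univ _) (mem_univ _) h2)
    · intro w hw
      obtain ⟨x, -, hx⟩ := (bijOn_sg hab).surjOn ⟨hw.1, hw.2.1⟩
      obtain ⟨y, -, hy⟩ := (bijOn_sg hcd).surjOn ⟨hw.2.2.1, hw.2.2.2⟩
      refine ⟨⟨x, y⟩, mem_univ _, ?_⟩
      rw [hP]
      exact Complex.ext hx hy
  obtain ⟨e, -⟩ := DD.ofBij isOpen_univ hb (fun z _ => good_of_contDiff hs hJ z)
  exact ⟨e⟩

theorem convex_Rect (a b c d : ℝ) : Convex ℝ (Rect a b c d) := by
  have h1 : Rect a b c d = Complex.reLm ⁻¹' Ioo a b ∩ Complex.imLm ⁻¹' Ioo c d := by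
    ext z
    simp only [Rect, Set.mem_ofPred_eq, mem_inter_iff, mem_preimage, mem_Ioo, Complex.reLm_coe,
      Complex.imLm_coe]
    tauto
  rw [h1]
  exact ((convex_Ioo a b).linear_preimage _).inter ((convex_Ioo c d).linear_preimage _)

theorem simplyConnected_Rect {a b c d : ℝ} (hab : a < b) (hcd : c < d) :
    IsSimplyConnected (Rect a b c d) := by
  have hne : (Rect a b c d).Nonempty := by
    refine ⟨⟨(a + b) / 2, (c + d) / 2⟩, ?_, ?_, ?_, ?_⟩
    · change a < (a + b) / 2
      linarith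
    · change (a + b) / 2 < b
      linarith
    · change c < (c + d) / 2
      linarith
    · change (c + d) / 2 < d
      linarith
  have : ContractibleSpace (Rect a b c d) := (convex_Rect a b c d).contractibleSpace hne
  exact SimplyConnectedSpace.ofContractible _

/-- extension of a homeomorphism of an open set by the identity -/
theorem extend {C K' : Set ℂ} (hC : IsOpen C) (hK' : IsClosed K') (hKC : K' ⊆ C) (k k' : ℂ → ℂ)
    (h1 : MapsTo k C C) (h2 : MapsTo k' C C) (h3 : ∀ z ∈ C, k' (k z) = z)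
    (h4 : ∀ z ∈ C, k (k' z) = z) (h5 : ∀ z ∈ C, ContinuousAt k z)
    (h6 : ∀ z ∈ C, ContinuousAt k' z) (h7 : ∀ z ∈ C, z ∉ K' → k z = z) :
    ∃ κ : ℂ ≃ₜ ℂ, (∀ z ∈ C, κ z = k z) ∧ ∀ z, z ∉ K' → κ z = z := by
  classical
  have h8 : ∀ z ∈ C, z ∉ K' → k' z = z := by
    intro z hz hzK
    have := h7 z hz hzK
    rw [← this, h3 z hz, this]
  have cont : ∀ q : ℂ → ℂ, (∀ z ∈ C, ContinuousAt q z) → (∀ z ∈ C, z ∉ K' → q z = z) →
      Continuous fun z => if z ∈ C then q z else z := by
    intro q hq hq2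
    rw [continuous_iff_continuousAt]
    intro z
    by_cases hz : z ∈ C
    · refine (hq z hz).congr ?_
      filter_upwards [hC.mem_nhds hz] with w hw
      rw [if_pos hw]
    · have hzK : z ∉ K' := fun h => hz (hKC h)
      refine continuousAt_id.congr ?_
      filter_upwards [hK'.isOpen_compl.mem_nhds hzK] with w hw
      by_cases hw2 : w ∈ C
      · rw [if_pos hw2, hq2 w hw2 hw]
        rfl
      · rw [if_neg hw2]
        rfl
  refine ⟨{ toFun := fun z => if z ∈ C then k z else z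
            invFun := fun z => if z ∈ C then k' z else z
            left_inv := ?_
            right_inv := ?_
            continuous_toFun := cont k h5 h7
            continuous_invFun := cont k' h6 h8 }, ?_, ?_⟩
  · intro z
    by_cases hz : z ∈ C
    · simp only [if_pos hz, if_pos (h1 hz), h3 z hz]
    · simp only [if_neg hz]
  · intro z
    by_cases hz : z ∈ C
    · simp only [if_pos hz, if_pos (h2 hz), h4 z hz]
    · simp only [if_neg hz]
  · intro z hz
    change (if z ∈ C then k z else z) = k z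
    rw [if_pos hz]
  · intro z hz
    change (if z ∈ C then k z else z) = z
    by_cases hz2 : z ∈ C
    · rw [if_pos hz2, h7 z hz2 hz]
    · rw [if_neg hz2]

/-- CELL -/
theorem main : S_CELL := by
  intro F a b c d K hab hcd hK hKs hG
  obtain ⟨C, hC⟩ : ∃ C, C = Rect a b c d := ⟨_, rfl⟩
  rw [← hC] at hKs hG ⊢
  have hCo : IsOpen C := hC ▸ isOpen_Rect a b c d
  have hCsc : IsSimplyConnected C := hC ▸ simplyConnected_Rect hab hcd
  have hVo : IsOpen (F '' C) := F.isOpenMap _ hCo
  have hVsc : IsSimplyConnected (F '' C) := F.isSimplyConnected_image.2 hCsc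
  have hVne : F '' C ≠ univ := by
    intro h
    have h1 : F ⟨a, c⟩ ∈ F '' C := by
      rw [h]
      exact mem_univ _
    obtain ⟨w, hw, hw2⟩ := h1
    have h2 := F.injective hw2
    rw [h2, hC] at hw
    exact lt_irrefl _ hw.1
  obtain ⟨p, hp⟩ := hCsc.nonempty
  obtain ⟨g, φ, hgd, hgb, hgd', -, -, -, -, -⟩ :=
    Pool.Agent.Helper202.Riemann.riemann_inv hVo hVsc hVne ⟨p, hp, rfl⟩
  obtain ⟨dg, -⟩ := DD.ofBij isOpen_ball hgb (fun z hz => good_holo isOpen_ball hgd hgd' hz)
  obtain ⟨d1⟩ := exists_disc 1 one_pos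
  obtain ⟨d2⟩ := exists_disc 2 two_pos
  obtain ⟨dr⟩ := exists_rect hab hcd
  rw [← hC] at dr
  obtain ⟨D⟩ : Nonempty (DD (F '' C) univ) := ⟨dg.symm.trans d1.symm⟩
  obtain ⟨T⟩ : Nonempty (DD (ball (0 : ℂ) 2) C) := ⟨d2.symm.trans dr⟩
  have hTK : IsCompact (T.f' '' K) :=
    hK.image_of_continuousOn fun z hz => (T.g' z (hKs hz)).continuousAt.continuousWithinAt
  have hTKs : T.f' '' K ⊆ ball (0 : ℂ) 2 := by
    rintro _ ⟨z, hz, rfl⟩
    exact T.hf' (hKs hz)
  obtain ⟨r₀, hr₀, hKr⟩ := exists_pos_lt_subset_ball two_pos hTK.isClosed hTKs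
  obtain ⟨r₁, hr₁⟩ : ∃ r₁, r₁ = (r₀ + 2) / 2 := ⟨_, rfl⟩
  have hr₁0 : r₀ < r₁ := by
    have := hr₀.2
    linarith
  have hr₁2 : r₁ < 2 := by
    have := hr₀.2
    linarith
  have mF : ∀ {z : ℂ}, z ∈ ball (0 : ℂ) 2 → F (T.f z) ∈ F '' C := fun hz => ⟨_, T.hf hz, rfl⟩
  have mD : ∀ w : ℂ, F.symm (D.f' w) ∈ C := by
    intro w
    obtain ⟨v, hv, hv2⟩ := D.hf' (mem_univ w)
    rw [← hv2, F.symm_apply_apply]
    exact hv
  let e : OpenPartialHomeomorph ℂ ℂ :=
    { toFun := fun z => D.f (F (T.f z))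
      invFun := fun w => T.f' (F.symm (D.f' w))
      source := ball 0 2
      target := univ
      map_source' := fun z hz => D.hf (mF hz)
      map_target' := fun w _ => T.hf' (mD w)
      left_inv' := fun z hz => by
        rw [D.l _ (mF hz), F.symm_apply_apply, T.l _ hz]
      right_inv' := fun w _ => by
        rw [T.r _ (mD w), F.apply_symm_apply, D.r _ (mem_univ w)]
      open_source := isOpen_ball
      open_target := isOpen_univ
      continuousOn_toFun := fun z hz => by
        refine ContinuousAt.continuousWithinAt ?_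
        exact ContinuousAt.comp (f := fun z => F (T.f z)) (D.g _ (mF hz)).continuousAt
          (F.continuous.continuousAt.comp (T.g _ hz).continuousAt)
      continuousOn_invFun := fun w hw => by
        refine ContinuousAt.continuousWithinAt ?_
        exact ContinuousAt.comp (f := fun z => F.symm (D.f' z)) (T.g' _ (mD w)).continuousAt
          (F.symm.continuous.continuousAt.comp (D.g' _ (mem_univ w)).continuousAt) }
  have he : ∀ z, e z = D.f (F (T.f z)) := fun z => rfl
  have hgood : ∀ z : ℂ, r₀ < ‖z‖ → ‖z‖ < 2 → Good e z := by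
    intro z hz1 hz2
    have hz : z ∈ ball (0 : ℂ) 2 := mem_ball_zero_iff.2 hz2
    have h1 : T.f z ∉ K := by
      intro h
      have := hKr ⟨_, h, rfl⟩
      rw [T.l z hz, mem_ball_zero_iff] at this
      linarith
    have h2 : Good F (T.f z) := hG _ (T.hf hz) h1
    exact Good.comp (f := fun z => F (T.f z)) (D.g _ (mF hz)) (Good.comp (f := T.f) h2 (T.g _ hz))
  obtain ⟨e', hb, hs, hd, heq⟩ := a2c e r₀ r₁ hr₀.1 hr₁0 hr₁2 rfl rfl
    (fun z hz => (hgood z hz.1 hz.2).contDiffAt.contDiffWithinAt)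
    (fun z h1 h2 => (hgood z h1 h2).pos)
  have hg' : ∀ z ∈ ball (0 : ℂ) 2, Good e' z := fun z hz => good_of_isOpen isOpen_ball hs hd hz
  obtain ⟨E, hE⟩ := DD.ofBij isOpen_ball hb hg'
  have hEf : ∀ z, E.f z = e' z := fun z => by rw [hE]
  -- the homeomorphism
  have hK'c : IsCompact (T.f '' closedBall 0 r₁) := by
    refine (isCompact_closedBall 0 r₁).image_of_continuousOn fun z hz => ?_
    exact (T.g z (closedBall_subset_ball hr₁2 hz)).continuousAt.continuousWithinAt
  have hK's : T.f '' closedBall 0 r₁ ⊆ C := by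
    rintro _ ⟨z, hz, rfl⟩
    exact T.hf (closedBall_subset_ball hr₁2 hz)
  obtain ⟨κ, hκ1, hκ2⟩ := extend hCo hK'c.isClosed hK's
    (fun z => F.symm (D.f' (E.f (T.f' z)))) (fun z => T.f (E.f' (D.f (F z))))
    (fun z _ => mD _) (fun z hz => T.hf (E.hf' (mem_univ _)))
    (fun z hz => by
      have h1 : E.f (T.f' z) ∈ (univ : Set ℂ) := mem_univ _
      rw [F.apply_symm_apply, D.r _ h1, E.l _ (T.hf' hz), T.r _ hz])
    (fun z hz => by
      have h1 : D.f (F z) ∈ (univ : Set ℂ) := mem_univ _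
      rw [T.l _ (E.hf' h1), E.r _ h1, D.l _ ⟨z, hz, rfl⟩, F.symm_apply_apply])
    (fun z hz => by
      refine F.symm.continuous.continuousAt.comp ?_
      exact (Good.comp (D.g' _ (mem_univ _)) (Good.comp (E.g _ (T.hf' hz)) (T.g' _ hz))).continuousAt)
    (fun z hz => by
      have h1 : ContinuousAt (fun w => D.f (F w)) z :=
        ContinuousAt.comp (f := F) (D.g _ ⟨z, hz, rfl⟩).continuousAt F.continuous.continuousAt
      have h2 : ContinuousAt (fun w => T.f (E.f' w)) (D.f (F z)) :=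
        (Good.comp (T.g _ (E.hf' (mem_univ _))) (E.g' _ (mem_univ _))).continuousAt
      exact ContinuousAt.comp (f := fun w => D.f (F w)) h2 h1)
    (fun z hz hzK => by
      have h1 : r₁ < ‖T.f' z‖ := by
        by_contra h
        exact hzK ⟨T.f' z, mem_closedBall_zero_iff.2 (not_lt.1 h), T.r z hz⟩
      have h2 : ‖T.f' z‖ < 2 := mem_ball_zero_iff.1 (T.hf' hz)
      rw [hEf, heq _ h1.le h2, he, T.r _ hz, D.l _ ⟨z, hz, rfl⟩, F.symm_apply_apply])
  refine ⟨κ, T.f '' closedBall 0 r₁, hK'c, hK's, hκ2, fun z hz => ?_⟩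
  have h1 : Good (fun z => D.f' (E.f (T.f' z))) z :=
    Good.comp (D.g' _ (mem_univ _)) (Good.comp (E.g _ (T.hf' hz)) (T.g' _ hz))
  refine h1.congr ?_
  filter_upwards [hCo.mem_nhds hz] with w hw
  rw [hκ1 w hw, F.apply_symm_apply]

end Pool.Agent.H677.SM2
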