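import Pool.Agent.H10.MW.Basic

/-!
# Smooth cone extension of a circle homeomorphism (project SM2 of helper10, part CONE)

Adapted from the library file `N935/SH/Cir.lean` (cut-off replaced by a smooth one).
-/

set_option autoImplicit false

open Set Filter Topology Metric MeasureTheory
open scoped ContDiff

noncomputable section

namespace Pool.Agent.H282.SM2

open Pool.Agent.Helper11.PlaneEuler Pool.Agent.H10.MW

/-- the cut-off -/
def tau (t : ℝ) : ℝ := Real.smoothTransition (2 * t - 1 / 2)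

theorem tau_contDiff : ContDiff ℝ ∞ tau := by
  unfold tau
  exact Real.smoothTransition.contDiff.comp (by fun_prop)

theorem tau_cont : Continuous tau := tau_contDiff.continuous

theorem tau_zero {t : ℝ} (ht : t ≤ 1 / 4) : tau t = 0 :=
  Real.smoothTransition.zero_of_nonpos (by linarith)

theorem tau_one {t : ℝ} (ht : 3 / 4 ≤ t) : tau t = 1 :=
  Real.smoothTransition.one_of_one_le (by linarith)

theorem tau_nonneg (t : ℝ) : 0 ≤ tau t := Real.smoothTransition.nonneg _

theorem tau_le (t : ℝ) : tau t ≤ 1 := Real.smoothTransition.le_one _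

section

variable (h : C(ℝ, ℝ))

/-- the displacement -/
def kap (x : ℝ) : ℝ := h x - x

variable {h}

theorem kap_cont : Continuous (kap h) := by unfold kap; fun_prop

theorem kap_per (hper : ∀ x, h (x + 2 * Real.pi) = h x + 2 * Real.pi) :
    Function.Periodic (kap h) (2 * Real.pi) := by
  intro x
  unfold kap
  rw [hper]
  ring

theorem kapA_cont (hper : ∀ x, h (x + 2 * Real.pi) = h x + 2 * Real.pi) :
    Continuous (fun θ : Real.Angle => (kap_per hper).lift θ) :=
  (kap_cont (h := h)).quotient_liftOn' _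

variable (h)

/-- the extension -/
def SS (z : ℂ) : ℂ :=
  z * Complex.exp (((tau ‖z‖ * kap h z.arg : ℝ) : ℂ) * Complex.I)

variable {h}

theorem norm_SS (z : ℂ) : ‖SS h z‖ = ‖z‖ := by
  unfold SS
  rw [norm_mul, Complex.norm_exp_ofReal_mul_I, mul_one]

theorem SS_small {z : ℂ} (hz : ‖z‖ ≤ 1 / 4) : SS h z = z := by
  unfold SS
  rw [tau_zero hz]
  simp

theorem SS_cont (hper : ∀ x, h (x + 2 * Real.pi) = h x + 2 * Real.pi) : Continuous (SS h) := by
  rw [continuous_iff_continuousAt]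
  intro z
  by_cases hz : ‖z‖ < 1 / 4
  · have h1 : (fun w : ℂ => w) =ᶠ[𝓝 z] SS h := by
      have hopen : IsOpen {w : ℂ | ‖w‖ < 1 / 4} := isOpen_lt continuous_norm continuous_const
      filter_upwards [hopen.mem_nhds hz] with w hw
      exact (SS_small (le_of_lt hw)).symm
    exact continuousAt_id.congr h1
  · have hz0 : z ≠ 0 := by
      rintro rfl
      apply hz
      rw [norm_zero]
      norm_num
    have h1 : ContinuousAt (fun w : ℂ => kap h w.arg) z := by
      have h2 : ContinuousAt (fun w : ℂ => (kap_per hper).lift ((w.arg : ℝ) : Real.Angle)) z :=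
        (kapA_cont hper).continuousAt.comp (Complex.continuousAt_arg_coe_angle hz0)
      exact h2
    unfold SS
    refine continuousAt_id.mul (Complex.continuous_exp.continuousAt.comp
      (ContinuousAt.mul (Complex.continuous_ofReal.continuousAt.comp
        (ContinuousAt.mul ?_ h1)) continuousAt_const))
    exact (tau_cont.comp continuous_norm).continuousAt

/-- the lift of the circle map -/
def HH (h : C(ℝ, ℝ)) (t x : ℝ) : ℝ := x + tau t * kap h x

theorem HH_cont (t : ℝ) : Continuous (HH h t) := by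
  have := kap_cont (h := h)
  unfold HH; fun_prop

theorem HH_mono (hm : StrictMono h) (t : ℝ) : StrictMono (HH h t) := by
  intro x y hxy
  have h1 := hm hxy
  have h2 := tau_nonneg t
  have h3 := tau_le t
  unfold HH kap
  rcases h3.eq_or_lt with h3 | h3
  · rw [h3]; linarith
  · nlinarith [mul_nonneg h2 (sub_nonneg.2 h1.le)]

theorem HH_per (hper : ∀ x, h (x + 2 * Real.pi) = h x + 2 * Real.pi) (t x : ℝ) (m : ℤ) :
    HH h t (x + m * (2 * Real.pi)) = HH h t x + m * (2 * Real.pi) := by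
  unfold HH
  have : kap h (x + m * (2 * Real.pi)) = kap h x := (kap_per hper).int_mul m x
  rw [this]
  ring

theorem SS_polar (hper : ∀ x, h (x + 2 * Real.pi) = h x + 2 * Real.pi) {t : ℝ} (ht : 0 < t)
    (x : ℝ) : SS h ((t : ℂ) * Circle.exp x) = (t : ℂ) * Circle.exp (HH h t x) := by
  have hn : ‖(t : ℂ) * (Circle.exp x : ℂ)‖ = t := by
    rw [norm_mul, Circle.norm_coe, mul_one, Complex.norm_real, Real.norm_of_nonneg ht.le]
  have harg : kap h ((t : ℂ) * (Circle.exp x : ℂ)).arg = kap h x := by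
    rw [Complex.arg_real_mul _ ht]
    obtain ⟨m, hm⟩ := Circle.exp_eq_exp.1 (Circle.exp_arg (Circle.exp x))
    rw [hm]
    exact (kap_per hper).int_mul m x
  unfold SS
  rw [hn, harg, mul_assoc]
  congr 1
  rw [Circle.coe_exp, Circle.coe_exp, ← Complex.exp_add]
  congr 1
  unfold HH
  push_cast
  ring

theorem exists_polar (z : ℂ) : ∃ x : ℝ, z = ((‖z‖ : ℝ) : ℂ) * Circle.exp x := by
  refine ⟨z.arg, ?_⟩
  rw [Circle.coe_exp]
  exact (Complex.norm_mul_exp_arg_mul_I z).symm

theorem SS_inj (hm : StrictMono h) (hper : ∀ x, h (x + 2 * Real.pi) = h x + 2 * Real.pi) :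
    Function.Injective (SS h) := by
  intro z w hzw
  have hn : ‖z‖ = ‖w‖ := by rw [← norm_SS (h := h) z, hzw, norm_SS]
  by_cases hz : z = 0
  · rw [hz, norm_zero] at hn
    rw [hz, norm_eq_zero.1 hn.symm]
  · have hw : w ≠ 0 := by
      rintro rfl
      rw [norm_zero, norm_eq_zero] at hn
      exact hz hn
    have ht : 0 < ‖z‖ := norm_pos_iff.2 hz
    obtain ⟨x, hx⟩ := exists_polar z
    obtain ⟨y, hy⟩ := exists_polar w
    rw [← hn] at hy
    rw [hx, hy, SS_polar hper ht, SS_polar hper ht] at hzw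
    have h1 : Circle.exp (HH h ‖z‖ x) = Circle.exp (HH h ‖z‖ y) := by
      apply Circle.coe_injective
      have : ((‖z‖ : ℝ) : ℂ) ≠ 0 := by exact_mod_cast ht.ne'
      exact mul_left_cancel₀ this hzw
    obtain ⟨m, hm'⟩ := Circle.exp_eq_exp.1 h1
    rw [← HH_per hper] at hm'
    have h2 := (HH_mono hm ‖z‖).injective hm'
    have h3 : Circle.exp x = Circle.exp y := Circle.exp_eq_exp.2 ⟨m, h2⟩
    rw [hx, hy, h3]

theorem SS_surj (hper : ∀ x, h (x + 2 * Real.pi) = h x + 2 * Real.pi) :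
    Function.Surjective (SS h) := by
  intro w
  by_cases hw : w = 0
  · exact ⟨0, by rw [hw]; unfold SS; rw [zero_mul]⟩
  · have ht : 0 < ‖w‖ := norm_pos_iff.2 hw
    obtain ⟨y, hy⟩ := exists_polar w
    have h1 : y ∈ Set.range (HH h ‖w‖) := by
      have hpi := Real.pi_pos
      apply mem_range_of_exists_le_of_exists_ge (HH_cont ‖w‖)
      · obtain ⟨m, hm⟩ := exists_int_gt ((HH h ‖w‖ 0 - y) / (2 * Real.pi))
        refine ⟨0 + ((-m : ℤ) : ℝ) * (2 * Real.pi), ?_⟩
        rw [HH_per hper]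
        rw [div_lt_iff₀ (by positivity)] at hm
        push_cast
        linarith
      · obtain ⟨m, hm⟩ := exists_int_gt ((y - HH h ‖w‖ 0) / (2 * Real.pi))
        refine ⟨0 + (m : ℝ) * (2 * Real.pi), ?_⟩
        rw [HH_per hper]
        rw [div_lt_iff₀ (by positivity)] at hm
        linarith
    obtain ⟨x, hx⟩ := h1
    exact ⟨((‖w‖ : ℝ) : ℂ) * Circle.exp x, by rw [SS_polar hper ht, hx, ← hy]⟩

theorem SS_closed (hper : ∀ x, h (x + 2 * Real.pi) = h x + 2 * Real.pi) :
    IsClosedMap (SS h) := by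
  apply IsProperMap.isClosedMap
  rw [isProperMap_iff_tendsto_cocompact]
  refine ⟨SS_cont hper, ?_⟩
  rw [← Metric.cobounded_eq_cocompact]
  rw [← tendsto_norm_atTop_iff_cobounded]
  have : (fun z => ‖SS h z‖) = fun z : ℂ => ‖z‖ := funext norm_SS
  rw [this]
  exact tendsto_norm_cobounded_atTop

/-! ### The smooth part -/

/-- determinant of a real linear map of the plane -/
theorem det_eq (L : ℂ →L[ℝ] ℂ) :
    L.det = (L 1).re * (L Complex.I).im - (L Complex.I).re * (L 1).im := by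
  change LinearMap.det _ = _
  rw [← LinearMap.det_toMatrix Complex.basisOneI, Matrix.det_fin_two]
  simp [LinearMap.toMatrix_apply, Complex.basisOneI]

/-- the map in logarithmic coordinates -/
def AA (h : C(ℝ, ℝ)) (ζ : ℂ) : ℂ :=
  ζ + (((tau (Real.exp ζ.re) * kap h ζ.im : ℝ) : ℂ)) * Complex.I

theorem AA_contDiffAt {ζ : ℂ} (hs : ContDiffAt ℝ ∞ h ζ.im) : ContDiffAt ℝ ∞ (AA h) ζ := by
  have hre : ContDiff ℝ ∞ (fun z : ℂ => z.re) := Complex.reCLM.contDiff
  have him : ContDiff ℝ ∞ (fun z : ℂ => z.im) := Complex.imCLM.contDiff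
  have hof : ContDiff ℝ ∞ (fun x : ℝ => (x : ℂ)) := Complex.ofRealCLM.contDiff
  have h1 : ContDiffAt ℝ ∞ (fun z : ℂ => tau (Real.exp z.re)) ζ :=
    (tau_contDiff.comp (Real.contDiff_exp.comp hre)).contDiffAt
  have h2 : ContDiffAt ℝ ∞ (fun z : ℂ => kap h z.im) ζ := by
    unfold kap
    exact (ContDiffAt.comp ζ hs him.contDiffAt).sub him.contDiffAt
  have h3 : ContDiffAt ℝ ∞ (fun z : ℂ => ((tau (Real.exp z.re) * kap h z.im : ℝ) : ℂ)) ζ :=
    hof.contDiffAt.comp ζ (h1.mul h2)
  unfold AA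
  exact contDiffAt_id.add (h3.mul contDiffAt_const)

theorem AA_det {ζ : ℂ} (hs : ContDiffAt ℝ ∞ h ζ.im) :
    (fderiv ℝ (AA h) ζ).det = 1 + tau (Real.exp ζ.re) * (deriv h ζ.im - 1) := by
  have hre : HasFDerivAt (fun z : ℂ => z.re) Complex.reCLM ζ := Complex.reCLM.hasFDerivAt
  have him : HasFDerivAt (fun z : ℂ => z.im) Complex.imCLM ζ := Complex.imCLM.hasFDerivAt
  have h1 : HasDerivAt (fun s : ℝ => tau (Real.exp s))
      (deriv (fun s : ℝ => tau (Real.exp s)) ζ.re) ζ.re := by
    have : ContDiff ℝ ∞ (fun s : ℝ => tau (Real.exp s)) := tau_contDiff.comp Real.contDiff_exp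
    exact (this.differentiable (by simp)).differentiableAt.hasDerivAt
  have h2 : HasDerivAt (fun s : ℝ => kap h s) (deriv h ζ.im - 1) ζ.im := by
    unfold kap
    exact (hs.differentiableAt (by simp)).hasDerivAt.sub (hasDerivAt_id _)
  have h1' := h1.comp_hasFDerivAt ζ hre
  have h2' := h2.comp_hasFDerivAt ζ him
  have h3 := h1'.mul h2'
  have h4 : HasFDerivAt (fun z : ℂ => ((tau (Real.exp z.re) * kap h z.im : ℝ) : ℂ))
      (Complex.ofRealCLM.comp (tau (Real.exp ζ.re) • ((deriv h ζ.im - 1) • Complex.imCLM) +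
        kap h ζ.im • (deriv (fun s : ℝ => tau (Real.exp s)) ζ.re • Complex.reCLM))) ζ :=
    Complex.ofRealCLM.hasFDerivAt.comp ζ h3
  have h5 := (hasFDerivAt_id (𝕜 := ℝ) ζ).add (h4.mul_const Complex.I)
  have h6 : fderiv ℝ (AA h) ζ = _ := h5.fderiv
  rw [h6, det_eq]
  simp

theorem good_AA {ζ : ℂ} (hs : ∀ᶠ y in 𝓝 ζ.im, ContDiffAt ℝ ∞ h y ∧ 0 < deriv h y) :
    Good (AA h) ζ := by
  unfold Good
  have h1 : Tendsto (fun z : ℂ => z.im) (𝓝 ζ) (𝓝 ζ.im) := Complex.continuous_im.continuousAt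
  filter_upwards [h1.eventually hs] with w hw
  refine ⟨AA_contDiffAt hw.1, ?_⟩
  rw [AA_det hw.1]
  have h2 := tau_nonneg (Real.exp w.re)
  have h3 := tau_le (Real.exp w.re)
  rcases h3.eq_or_lt with h3 | h3
  · rw [h3]; linarith [hw.2]
  · nlinarith [mul_nonneg h2 hw.2.le]

theorem SS_good (hper : ∀ x, h (x + 2 * Real.pi) = h x + 2 * Real.pi) {t x : ℝ} (ht : 0 < t)
    (hs : ∀ᶠ y in 𝓝 x, ContDiffAt ℝ ∞ h y ∧ 0 < deriv h y) :
    Good (SS h) (t * Complex.exp (x * Complex.I)) := by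
  set z₀ : ℂ := t * Complex.exp (x * Complex.I) with hz₀
  have htc : (t : ℂ) ≠ 0 := by exact_mod_cast ht.ne'
  have hz : z₀ ≠ 0 := mul_ne_zero htc (Complex.exp_ne_zero _)
  set ζ₀ : ℂ := (Real.log t : ℂ) + x * Complex.I with hζ₀
  have hexp : Complex.exp ζ₀ = z₀ := by
    rw [hζ₀, Complex.exp_add, ← Complex.ofReal_exp, Real.exp_log ht]
  have him : ζ₀.im = x := by simp [hζ₀]
  set U : Set ℂ := {z | z / z₀ ∈ Complex.slitPlane} with hU
  have hUo : IsOpen U := Complex.isOpen_slitPlane.preimage (by fun_prop)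
  have hz₀U : z₀ ∈ U := by
    show z₀ / z₀ ∈ Complex.slitPlane
    rw [div_self hz]
    exact Complex.one_mem_slitPlane
  have hne : ∀ z ∈ U, z ≠ 0 := by
    rintro z hz1 rfl
    have : (0 : ℂ) / z₀ ∈ Complex.slitPlane := hz1
    rw [zero_div] at this
    exact Complex.slitPlane_ne_zero this rfl
  set Z : ℂ → ℂ := fun z => Complex.log (z / z₀) + ζ₀ with hZ
  have hZd : ∀ z ∈ U, HasDerivAt Z (z⁻¹) z := by
    intro z hzU
    have h1 : HasDerivAt (fun z : ℂ => z / z₀) (1 / z₀) z := (hasDerivAt_id z).div_const z₀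
    have h2 := (h1.clog hzU).add_const ζ₀
    have h3 : (1 / z₀) / (z / z₀) = z⁻¹ := by
      have := hne z hzU
      field_simp
    rw [h3] at h2
    exact h2
  have hZ0 : Z z₀ = ζ₀ := by
    simp [hZ, div_self hz]
  have hZexp : ∀ z ∈ U, Complex.exp (Z z) = z := by
    intro z hzU
    have h1 : z / z₀ ≠ 0 := div_ne_zero (hne z hzU) hz
    rw [hZ]
    simp only
    rw [Complex.exp_add, Complex.exp_log h1, hexp, div_mul_cancel₀ _ hz]
  have gZ : Good Z z₀ := good_holo hUo
    (fun z hzU => (hZd z hzU).differentiableAt.differentiableWithinAt)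
    (fun z hzU => by rw [(hZd z hzU).deriv]; exact inv_ne_zero (hne z hzU)) hz₀U
  have gE : ∀ w, Good Complex.exp w := fun w => good_holo isOpen_univ
    Complex.differentiable_exp.differentiableOn
    (fun z _ => by rw [Complex.deriv_exp]; exact Complex.exp_ne_zero _) (mem_univ w)
  have gA : Good (AA h) (Z z₀) := by
    rw [hZ0]
    apply good_AA
    rw [him]
    exact hs
  have g1 : Good (fun z => AA h (Z z)) z₀ := Good.comp (g := AA h) (f := Z) gA gZ
  have g2 : Good (fun z => Complex.exp (AA h (Z z))) z₀ :=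
    Good.comp (g := Complex.exp) (f := fun z => AA h (Z z)) (gE _) g1
  refine g2.congr ?_
  filter_upwards [hUo.mem_nhds hz₀U] with z hzU
  have e1 : z = ((Real.exp (Z z).re : ℝ) : ℂ) * Circle.exp (Z z).im := by
    conv_lhs => rw [← hZexp z hzU]
    rw [Circle.coe_exp, Complex.ofReal_exp, ← Complex.exp_add, Complex.re_add_im]
  have e2 := SS_polar hper (Real.exp_pos (Z z).re) (Z z).im
  rw [← e1] at e2
  rw [e2, Circle.coe_exp, Complex.ofReal_exp, ← Complex.exp_add]
  congr 1
  unfold AA HH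
  conv_lhs => rw [← Complex.re_add_im (Z z)]
  simp only [Complex.add_re, Complex.add_im, Complex.mul_re, Complex.mul_im, Complex.ofReal_re,
    Complex.ofReal_im, Complex.I_re, Complex.I_im]
  push_cast
  ring_nf

end

theorem main : S_CONE := by
  intro h hm hper
  let e : ℂ ≃ ℂ := Equiv.ofBijective (SS h) ⟨SS_inj hm hper, SS_surj hper⟩
  refine ⟨e.toHomeomorphOfContinuousClosed (SS_cont hper) (SS_closed hper), fun z => norm_SS z,
    fun z hz => SS_small hz, fun t x ht => ?_, fun t x ht hs => SS_good hper ht hs⟩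
  have h1 := SS_polar hper (by linarith : (0 : ℝ) < t) x
  rw [Circle.coe_exp, Circle.coe_exp] at h1
  have h2 : HH h t x = h x := by
    unfold HH kap
    rw [tau_one ht]
    ring
  rw [h2] at h1
  exact h1

end Pool.Agent.H282.SM2

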