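import Pool.Agent.H10.MW.Basic

/-!
# SM2-CORR: correction of the area on a square
-/

set_option autoImplicit false

open Set Filter Topology Metric MeasureTheory
open scoped ContDiff

noncomputable section

namespace Pool.Agent.H114.SM2.Corr

open Pool.Agent.H10.MW

theorem near_id {ι : Type*} {T : Finset ι} {C : ι → Set ℂ} {K : ℂ → ℂ} {z : ℂ}
    (hc : ∀ i ∈ T, IsClosed (C i)) (hz : ∀ i ∈ T, z ∉ C i)
    (h : ∀ w, (∀ i ∈ T, w ∉ C i) → K w = w) : K =ᶠ[𝓝 z] fun w => w := by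
  have h1 : ∀ᶠ w in 𝓝 z, ∀ i ∈ T, w ∉ C i :=
    (Filter.eventually_all_finset T).2 fun i hi => (hc i hi).isOpen_compl.mem_nhds (hz i hi)
  filter_upwards [h1] with w hw
  exact h w hw

theorem J_eq (f : ℂ → ℂ) (z : ℂ) : J f z =
    (fderiv ℝ f z 1).re * (fderiv ℝ f z Complex.I).im -
      (fderiv ℝ f z 1).im * (fderiv ℝ f z Complex.I).re := by
  unfold J
  change LinearMap.det _ = _
  rw [← LinearMap.det_toMatrix Complex.basisOneI, Matrix.det_fin_two]
  simp [LinearMap.toMatrix_apply, Complex.basisOneI]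
  ring

theorem contDiff_J {f : ℂ → ℂ} (h : ContDiff ℝ ∞ f) : ContDiff ℝ ∞ (J f) := by
  have h1 : ContDiff ℝ ∞ (fderiv ℝ f) := h.fderiv_right (by simp)
  have h2 : ∀ v : ℂ, ContDiff ℝ ∞ fun z => fderiv ℝ f z v := fun v => h1.clm_apply contDiff_const
  have hre : ContDiff ℝ ∞ Complex.re := Complex.reCLM.contDiff
  have him : ContDiff ℝ ∞ Complex.im := Complex.imCLM.contDiff
  have h3 : J f = fun z => (fderiv ℝ f z 1).re * (fderiv ℝ f z Complex.I).im -
      (fderiv ℝ f z 1).im * (fderiv ℝ f z Complex.I).re := funext (J_eq f)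
  rw [h3]
  exact ((hre.comp (h2 1)).mul (him.comp (h2 Complex.I))).sub
    ((him.comp (h2 1)).mul (hre.comp (h2 Complex.I)))

/-- the index of a cell -/
theorem exists_index {n : ℕ} (hn : 0 < n) {s x₀ x : ℝ} (hs : 0 < s) (h1 : x₀ ≤ x)
    (h2 : x ≤ x₀ + n * s) : ∃ i : ℕ, i < n ∧ x₀ + i * s ≤ x ∧ x ≤ x₀ + (i + 1) * s := by
  rcases lt_or_ge ⌊(x - x₀) / s⌋₊ n with h | h
  · refine ⟨_, h, ?_, ?_⟩
    · have h3 := Nat.floor_le (div_nonneg (sub_nonneg.2 h1) hs.le)
      rw [le_div_iff₀ hs] at h3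
      linarith
    · have h3 := Nat.lt_floor_add_one ((x - x₀) / s)
      rw [div_lt_iff₀ hs] at h3
      linarith
  · have h3 : (n : ℝ) ≤ (x - x₀) / s := by
      refine le_trans ?_ (Nat.floor_le (div_nonneg (sub_nonneg.2 h1) hs.le))
      exact_mod_cast h
    rw [le_div_iff₀ hs] at h3
    obtain ⟨k, rfl⟩ : ∃ k, n = k + 1 := ⟨n - 1, by omega⟩
    refine ⟨k, by omega, ?_, ?_⟩
    · push_cast at h3
      nlinarith
    · push_cast at h2
      linarith

theorem main (hb : S_BAL) (hl : S_LINES) (hm : S_MOSER) : S_CORR := by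
  intro L η hL hη
  obtain ⟨n, hn⟩ := exists_nat_gt (max (2 * L) (8 * L / η))
  have hn1 : 2 * L < n := lt_of_le_of_lt (le_max_left _ _) hn
  have hn2 : 8 * L / η < n := lt_of_le_of_lt (le_max_right _ _) hn
  have hn0 : (0 : ℝ) < n := by linarith
  have hn0' : 0 < n := by exact_mod_cast hn0
  set s : ℝ := 2 * L / n with hs'
  have hs : 0 < s := by positivity
  have hns : (n : ℝ) * s = 2 * L := by
    rw [hs']
    field_simp
  have hs1 : s ≤ 1 := by
    rw [hs', div_le_one hn0]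
    exact hn1.le
  have hs2 : s ≤ η / 4 := by
    rw [div_lt_iff₀ hη] at hn2
    rw [hs', div_le_iff₀ hn0]
    linarith
  obtain ⟨δ, hδ, hbal⟩ := hb n s (-L) (-L) (η / 2) hn0' hs (by positivity)
  refine ⟨δ, hδ, fun g hg hgC hmass => ?_⟩
  obtain ⟨κ₁, hκ₁C, hκ₁G, hκ₁d, hκ₁m⟩ := hbal g hg (fun a b c d h1 h2 h3 h4 h5 h6 =>
    hmass a b c d (by linarith) h2 (by linarith) (by linarith) h5 (by linarith))
  set g₁ : ℂ ≃ₜ ℂ := κ₁.trans g with hg₁
  have hg₁G : ∀ z, Good g₁ z := fun z => (hg (κ₁ z)).comp (hκ₁G z)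
  have hg₁C : CSupp g₁ := hκ₁C.trans hgC
  obtain ⟨κ₂, hκ₂C, hκ₂G, hκ₂c, hκ₂J⟩ := hl n s (-L) (-L) g₁ hs hg₁G hg₁C
  set g₂ : ℂ ≃ₜ ℂ := κ₂.trans g₁ with hg₂
  have hg₂G : ∀ z, Good g₂ z := fun z => (hg₁G (κ₂ z)).comp (hκ₂G z)
  have hg₂J : ContDiff ℝ ∞ (J g₂) := contDiff_J (contDiff_of_good hg₂G)
  -- cells
  set R : ℕ × ℕ → Set ℂ := fun e =>
    Rect (-L + e.1 * s) (-L + (e.1 + 1) * s) (-L + e.2 * s) (-L + (e.2 + 1) * s) with hR
  set CR : ℕ × ℕ → Set ℂ := fun e =>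
    CRect (-L + e.1 * s) (-L + (e.1 + 1) * s) (-L + e.2 * s) (-L + (e.2 + 1) * s) with hCR
  set T : Finset (ℕ × ℕ) := Finset.range n ×ˢ Finset.range n with hT
  have hTm : ∀ e : ℕ × ℕ, e ∈ T ↔ e.1 < n ∧ e.2 < n := fun e => by
    rw [hT, Finset.mem_product, Finset.mem_range, Finset.mem_range]
  have hRC : ∀ e, R e ⊆ CR e := fun e => Rect_subset_CRect _ _ _ _
  have hRo : ∀ e, IsOpen (R e) := fun e => isOpen_Rect _ _ _ _
  have hCc : ∀ e, IsCompact (CR e) := fun e => isCompact_CRect _ _ _ _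
  have hmass₂ : ∀ e ∈ T, ∫ z in CR e, J g₂ z = s ^ 2 := by
    intro e he
    rw [hTm] at he
    have h1 := hκ₁m e.1 e.2 he.1 he.2
    have h2 := integral_J_comp g₁ κ₂ hg₁G hκ₂G
      (measurableSet_CRect (-L + e.1 * s) (-L + (e.1 + 1) * s) (-L + e.2 * s) (-L + (e.2 + 1) * s))
    rw [hκ₂c e.1 e.2 he.1 he.2] at h2
    exact h2.trans h1
  -- boundary points
  have hbdry : ∀ e ∈ T, ∀ z ∈ CR e, z ∉ R e → ∀ᶠ w in 𝓝 z, J g₂ w = 1 := by
    intro e he z hz hz'
    rw [hTm] at he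
    refine hκ₂J z ?_
    obtain ⟨h1, h2, h3, h4⟩ := hz
    rcases h1.eq_or_lt with h1 | h1
    · exact Or.inl ⟨e.1, he.1.le, h1.symm⟩
    rcases h2.eq_or_lt with h2 | h2
    · exact Or.inl ⟨e.1 + 1, he.1, by rw [h2]; push_cast; ring⟩
    rcases h3.eq_or_lt with h3 | h3
    · exact Or.inr ⟨e.2, he.2.le, h3.symm⟩
    rcases h4.eq_or_lt with h4 | h4
    · exact Or.inr ⟨e.2 + 1, he.2, by rw [h4]; push_cast; ring⟩
    exact absurd ⟨h1, h2, h3, h4⟩ hz'
  have hdis : ∀ e ∈ T, ∀ e' ∈ T, e ≠ e' → Disjoint (R e) (R e') := by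
    intro e _ e' _ hne
    rw [Set.disjoint_left]
    rintro z ⟨h1, h2, h3, h4⟩ ⟨g1, g2, g3, g4⟩
    apply hne
    have key : ∀ (x : ℝ) (k l : ℕ), -L + k * s < x → x < -L + (k + 1) * s → -L + l * s < x →
        x < -L + (l + 1) * s → k = l := by
      intro x k l a1 a2 a3 a4
      have b1 : (k : ℝ) < l + 1 := by
        by_contra hcon
        push Not at hcon
        nlinarith
      have b2 : (l : ℝ) < k + 1 := by
        by_contra hcon
        push Not at hcon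
        nlinarith
      have b1' : k < l + 1 := by exact_mod_cast b1
      have b2' : l < k + 1 := by exact_mod_cast b2
      omega
    exact Prod.ext (key _ _ _ h1 h2 g1 g2) (key _ _ _ h3 h4 g3 g4)
  -- the corrections in the cells
  have key : ∀ e, e ∈ T → ∃ (κ : ℂ ≃ₜ ℂ) (K' : Set ℂ), IsCompact K' ∧ K' ⊆ R e ∧
      (∀ z, z ∉ K' → κ z = z) ∧ (∀ z, Good κ z) ∧ ∀ z ∈ R e, J κ z = J g₂ z := by
    classical
    intro e he
    set ρ : ℂ → ℝ := fun z => if z ∈ R e then J g₂ z else 1 with hρ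
    have hρC : ∀ z ∈ CR e, ρ z = J g₂ z := by
      intro z hz
      by_cases hzr : z ∈ R e
      · simp only [hρ, hzr, if_true]
      · simp only [hρ, hzr, if_false]
        exact (hbdry e he z hz hzr).self_of_nhds.symm
    have hsm : ContDiff ℝ ∞ ρ := by
      rw [contDiff_iff_contDiffAt]
      intro z
      by_cases hzr : z ∈ R e
      · refine hg₂J.contDiffAt.congr_of_eventuallyEq ?_
        filter_upwards [(hRo e).mem_nhds hzr] with w hw
        simp only [hρ, hw, if_true]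
      · refine (contDiffAt_const (c := (1 : ℝ))).congr_of_eventuallyEq ?_
        by_cases hzc : z ∈ CR e
        · filter_upwards [hbdry e he z hzc hzr] with w hw
          by_cases hwr : w ∈ R e
          · simp only [hρ, hwr, if_true]
            exact hw
          · simp only [hρ, hwr, if_false]
        · filter_upwards [(hCc e).isClosed.isOpen_compl.mem_nhds hzc] with w hw
          have hwr : w ∉ R e := fun h => hw (hRC e h)
          simp only [hρ, hwr, if_false]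
    have hcl : IsClosed {z | ¬ ∀ᶠ w in 𝓝 z, J g₂ w = 1} := by
      rw [← isOpen_compl_iff]
      have : ({z | ¬ ∀ᶠ w in 𝓝 z, J g₂ w = 1} : Set ℂ)ᶜ = {z | ∀ᶠ w in 𝓝 z, J g₂ w = 1} := by
        ext z
        simp
      rw [this]
      exact isOpen_setOfPred_eventually_nhds
    obtain ⟨κ, K', h1, h2, h3, h4, h5⟩ := hm ρ (-L + e.1 * s) (-L + (e.1 + 1) * s)
      (-L + e.2 * s) (-L + (e.2 + 1) * s) (CR e ∩ {z | ¬ ∀ᶠ w in 𝓝 z, J g₂ w = 1})
      (by nlinarith) (by nlinarith) hsm (fun z => by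
        by_cases hzr : z ∈ R e
        · simp only [hρ, hzr, if_true]
          exact (hg₂G z).pos
        · simp only [hρ, hzr, if_false]
          exact one_pos)
      ((hCc e).inter_right hcl)
      (fun z hz => by
        by_contra hzr
        exact hz.2 (hbdry e he z hz.1 hzr))
      (fun z hz => by
        by_cases hzr : z ∈ R e
        · simp only [hρ, hzr, if_true]
          have : ∀ᶠ w in 𝓝 z, J g₂ w = 1 := by
            by_contra hcon
            exact hz ⟨hRC e hzr, hcon⟩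
          exact this.self_of_nhds
        · simp only [hρ, hzr, if_false])
      (by
        have h6 := setIntegral_congr_fun (μ := volume) (measurableSet_CRect (-L + e.1 * s)
          (-L + (e.1 + 1) * s) (-L + e.2 * s) (-L + (e.2 + 1) * s)) hρC
        refine h6.trans ((hmass₂ e he).trans ?_)
        ring)
    refine ⟨κ, K', h1, h2, h3, h4, fun z hz => ?_⟩
    rw [h5, hρC z (hRC e hz)]
  have hne : Nonempty (ℂ ≃ₜ ℂ) := ⟨Homeomorph.refl ℂ⟩
  choose! κ K' hK'c hK'r hκid hκG hκJ using key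
  obtain ⟨κ₃, hκ₃1, hκ₃2⟩ := glue T κ R (fun e he z hz => hκid e he z fun h => hz (hK'r e he h)) hdis
  -- away from the cells `κ₃` is the identity near the point
  have hκ₃near : ∀ z, (∀ e ∈ T, z ∉ R e) → (κ₃ : ℂ → ℂ) =ᶠ[𝓝 z] fun w => w := by
    intro z hz
    refine near_id (T := T) (C := K') (fun e hE => (hK'c e hE).isClosed)
      (fun e hE hzK => hz e hE (hK'r e hE hzK)) (fun w hw => ?_)
    by_cases hwe : ∃ e ∈ T, w ∈ R e
    · obtain ⟨e, hE, hwe⟩ := hwe
      rw [hκ₃1 e hE w hwe, hκid e hE w (hw e hE)]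
    · push Not at hwe
      exact hκ₃2 w hwe
  have hκ₃in : ∀ e ∈ T, ∀ z ∈ R e, (κ₃ : ℂ → ℂ) =ᶠ[𝓝 z] κ e := by
    intro e he z hz
    filter_upwards [(hRo e).mem_nhds hz] with w hw
    exact hκ₃1 e he w hw
  have hκ₃G : ∀ z, Good κ₃ z := by
    intro z
    by_cases hz : ∃ e ∈ T, z ∈ R e
    · obtain ⟨e, he, hze⟩ := hz
      exact (hκG e he z).congr (hκ₃in e he z hze).symm
    · push Not at hz
      exact (good_id z).congr (hκ₃near z hz).symm
  -- the closed square is covered by the closed cells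
  have hcov : ∀ z ∈ CRect (-L) L (-L) L, ∃ e ∈ T, z ∈ CR e := by
    rintro z ⟨h1, h2, h3, h4⟩
    obtain ⟨i, hi, hi1, hi2⟩ := exists_index hn0' hs h1 (by linarith)
    obtain ⟨j, hj, hj1, hj2⟩ := exists_index hn0' hs h3 (by linarith)
    exact ⟨(i, j), (hTm _).2 ⟨hi, hj⟩, hi1, hi2, hj1, hj2⟩
  have hκ₃J : ∀ z ∈ CRect (-L) L (-L) L, J κ₃ z = J g₂ z := by
    intro z hz
    by_cases hze : ∃ e ∈ T, z ∈ R e
    · obtain ⟨e, he, hze⟩ := hze
      rw [J_congr (hκ₃in e he z hze), hκJ e he z hze]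
    · push Not at hze
      obtain ⟨e, he, hzc⟩ := hcov z hz
      rw [J_congr (hκ₃near z hze), J_id, (hbdry e he z hzc (hze e he)).self_of_nhds]
  -- `κ₃⁻¹` preserves the closed cells
  have hsymm : ∀ z ∈ CRect (-L) L (-L) L, ∃ e ∈ T, z ∈ CR e ∧ κ₃.symm z ∈ CR e := by
    intro z hz
    by_cases hze : ∃ e ∈ T, z ∈ R e
    · obtain ⟨e, he, hze⟩ := hze
      refine ⟨e, he, hRC e hze, hRC e ?_⟩
      have h1 : κ₃.symm z = (κ e).symm z := by
        have h2 : (κ e).symm z ∈ R e := by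
          refine supp_mem (κ := (κ e).symm) (U := R e) (fun w hw => ?_) hze
          exact supp_symm (fun v hv => hκid e he v fun h => hv (hK'r e he h)) w hw
        rw [Homeomorph.symm_apply_eq, hκ₃1 e he _ h2, Homeomorph.apply_symm_apply]
      rw [h1]
      refine supp_mem (κ := (κ e).symm) (U := R e) (fun w hw => ?_) hze
      exact supp_symm (fun v hv => hκid e he v fun h => hv (hK'r e he h)) w hw
    · push Not at hze
      obtain ⟨e, he, hzc⟩ := hcov z hz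
      refine ⟨e, he, hzc, ?_⟩
      have h1 : κ₃.symm z = z := by
        rw [Homeomorph.symm_apply_eq, hκ₃2 z hze]
      rwa [h1]
  have hCRsub : ∀ e ∈ T, CR e ⊆ CRect (-L) L (-L) L := by
    rintro e he z ⟨h1, h2, h3, h4⟩
    rw [hTm] at he
    have e1 : ((e.1 : ℝ) + 1) * s ≤ n * s := by
      have : ((e.1 : ℝ) + 1) ≤ n := by exact_mod_cast he.1
      nlinarith
    have e2 : ((e.2 : ℝ) + 1) * s ≤ n * s := by
      have : ((e.2 : ℝ) + 1) ≤ n := by exact_mod_cast he.2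
      nlinarith
    have e3 : 0 ≤ (e.1 : ℝ) * s := by positivity
    have e4 : 0 ≤ (e.2 : ℝ) * s := by positivity
    exact ⟨by linarith, by linarith, by linarith, by linarith⟩
  have hκ₃C : CSupp κ₃ := by
    obtain ⟨r, hr⟩ := (isCompact_CRect (-L) L (-L) L).isBounded.subset_ball 0
    refine ⟨r, fun z hz => hκ₃2 z fun e he hze => ?_⟩
    have := hr (hCRsub e he (hRC e hze))
    rw [mem_ball_zero_iff] at this
    linarith
  refine ⟨κ₃.symm.trans (κ₂.trans κ₁), hκ₃C.symm.trans (hκ₂C.trans hκ₁C), fun z => ?_,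
    fun z hz => ?_, fun z hz => ?_⟩
  · exact ((hκ₁G _).comp (hκ₂G _)).comp (good_symm κ₃ hκ₃G z)
  · obtain ⟨e, he, hz1, hz2⟩ := hsymm z hz
    have he' := (hTm e).1 he
    have h1 : κ₂ (κ₃.symm z) ∈ CR e := by
      have := hκ₂c e.1 e.2 he'.1 he'.2
      show κ₂ (κ₃.symm z) ∈ CRect _ _ _ _
      rw [← this]
      exact mem_image_of_mem _ hz2
    have h2 : ‖κ₂ (κ₃.symm z) - z‖ ≤ 2 * s := by
      refine le_trans (Complex.norm_le_abs_re_add_abs_im _) ?_
      obtain ⟨a1, a2, a3, a4⟩ := h1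
      obtain ⟨b1, b2, b3, b4⟩ := hz1
      have c1 : |(κ₂ (κ₃.symm z) - z).re| ≤ s := by
        rw [Complex.sub_re]
        exact abs_le.2 ⟨by linarith, by linarith⟩
      have c2 : |(κ₂ (κ₃.symm z) - z).im| ≤ s := by
        rw [Complex.sub_im]
        exact abs_le.2 ⟨by linarith, by linarith⟩
      linarith
    have h3 := hκ₁d (κ₂ (κ₃.symm z))
    show ‖κ₁ (κ₂ (κ₃.symm z)) - z‖ ≤ η
    have h4 : κ₁ (κ₂ (κ₃.symm z)) - z =
      (κ₁ (κ₂ (κ₃.symm z)) - κ₂ (κ₃.symm z)) + (κ₂ (κ₃.symm z) - z) := by ring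
    rw [h4]
    refine le_trans (norm_add_le _ _) ?_
    linarith
  · -- the Jacobian determinant
    have hz' : z ∈ CRect (-L) L (-L) L := Rect_subset_CRect _ _ _ _ hz
    obtain ⟨e, he, hz1, hz2⟩ := hsymm z hz'
    set w := κ₃.symm z with hw
    have hwz : κ₃ w = z := κ₃.apply_symm_apply z
    have h1 : J (fun z => g₂ (κ₃.symm z)) z = J g₂ (κ₃.symm z) * J κ₃.symm z :=
      J_comp (hg₂G _).differentiableAt (good_symm κ₃ hκ₃G z).differentiableAt
    have h2 := J_symm κ₃ (hκ₃G w)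
    rw [hwz, hκ₃J w (hCRsub e he hz2)] at h2
    show J (fun z => g₂ (κ₃.symm z)) z = 1
    rw [h1, ← hw, mul_comm]
    exact h2

end Pool.Agent.H114.SM2.Corr
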