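import Pool.Agent.H10.MW.Basic

/-!
# Project SM2 (helper10): EDGE from EDGE0 by an affine change of coordinates
-/

set_option autoImplicit false

open Set Filter Topology Metric MeasureTheory
open scoped ContDiff

noncomputable section

namespace Pool.Agent.H484.SM2

open Pool.Agent.H10.MW

/-- the affine homeomorphism -/
def aff (m a : ℂ) (ha : a ≠ 0) : ℂ ≃ₜ ℂ where
  toFun z := m + a * z
  invFun z := (z - m) / a
  left_inv z := by field_simp; ring
  right_inv z := by field_simp; ring
  continuous_toFun := by fun_prop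
  continuous_invFun := by fun_prop

lemma aff_apply (m a : ℂ) (ha : a ≠ 0) (z : ℂ) : aff m a ha z = m + a * z := rfl
lemma aff_symm_apply (m a : ℂ) (ha : a ≠ 0) (z : ℂ) : (aff m a ha).symm z = (z - m) / a := rfl

lemma good_aff (m a : ℂ) (ha : a ≠ 0) (z : ℂ) : Good (aff m a ha) z := by
  refine good_holo isOpen_univ (g := aff m a ha) ?_ ?_ (mem_univ z)
  · intro w _
    have : DifferentiableAt ℂ (fun z : ℂ => m + a * z) w := by fun_prop
    exact this.differentiableWithinAt
  · intro w _
    have h : HasDerivAt (fun z : ℂ => m + a * z) a w := by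
      simpa using ((hasDerivAt_id w).const_mul a).const_add m
    have h2 : deriv (aff m a ha) w = a := h.deriv
    rw [h2]; exact ha

lemma trans_aux (F : ℂ ≃ₜ ℂ) (m a e : ℂ) (ha : a ≠ 0) (h : TransAt F (m + a * e)) :
    TransAt ((aff m a ha).trans (F.trans (aff 0 a ha).symm)) e := by
  obtain ⟨δ, hδ, c, hc⟩ := h
  have hn : 0 < ‖a‖ := norm_pos_iff.mpr ha
  refine ⟨δ / ‖a‖, by positivity, (m + c) / a, fun z hz => ?_⟩
  have h1 : ‖(m + a * z) - (m + a * e)‖ < δ := by
    have : (m + a * z) - (m + a * e) = a * (z - e) := by ring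
    rw [this, norm_mul]
    rw [lt_div_iff₀ hn] at hz
    linarith
  have h2 := hc (m + a * z) h1
  simp only [Homeomorph.trans_apply, aff_apply, aff_symm_apply]
  rw [h2]
  field_simp
  ring

/-- **EDGE** -/
theorem main (h : S_EDGE0) : S_EDGE := by
  intro F m a ha hp hm
  have hn : 0 < ‖a‖ := norm_pos_iff.mpr ha
  set F1 : ℂ ≃ₜ ℂ := (aff m a ha).trans (F.trans (aff 0 a ha).symm) with hF1
  have t1 : TransAt F1 1 := trans_aux F m a 1 ha (by rwa [mul_one])
  have t2 : TransAt F1 (-1) := trans_aux F m a (-1) ha (by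
    rw [mul_neg, mul_one, ← sub_eq_add_neg]; exact hm)
  obtain ⟨κ1, h1, ⟨δ, hδ, h2⟩, h3⟩ := h F1 t1 t2
  have hval : ∀ z, ((aff m a ha).symm.trans (κ1.trans (aff m a ha))) z = m + a * κ1 ((z - m) / a) :=
    fun z => rfl
  have hfix : ∀ z, κ1 ((z - m) / a) = (z - m) / a →
      ((aff m a ha).symm.trans (κ1.trans (aff m a ha))) z = z := by
    intro z hz
    rw [hval, hz]
    field_simp
    ring
  refine ⟨(aff m a ha).symm.trans (κ1.trans (aff m a ha)), fun z hz => ?_,
    ⟨δ * ‖a‖, by positivity, fun z hz => ?_⟩, fun x hx => ?_⟩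
  · apply hfix
    apply h1
    rw [norm_div, le_div_iff₀ hn]
    linarith
  · apply hfix
    apply h2
    rcases hz with hz | hz
    · left
      have : (z - m) / a - 1 = (z - (m + a)) / a := by field_simp; ring
      rw [this, norm_div, div_lt_iff₀ hn]
      exact hz
    · right
      have : (z - m) / a + 1 = (z - (m - a)) / a := by field_simp; ring
      rw [this, norm_div, div_lt_iff₀ hn]
      exact hz
  · have e1 : (aff m a ha).symm (m + x * a) = (x : ℂ) := by
      rw [aff_symm_apply]; field_simp; ring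
    have g1 : Good (aff m a ha).symm (m + x * a) := good_symm _ (good_aff m a ha) _
    have g2 : Good (fun z => F1 (κ1 z)) ((aff m a ha).symm (m + x * a)) := by
      rw [e1]; exact h3 x hx
    have g4 : Good (fun z => F1 (κ1 ((aff m a ha).symm z))) (m + x * a) :=
      Good.comp (g := fun z => F1 (κ1 z)) g2 g1
    have g3 := Good.comp (f := fun z => F1 (κ1 ((aff m a ha).symm z)))
      (g := aff 0 a ha) (good_aff 0 a ha _) g4
    refine g3.congr (Eventually.of_forall fun z => ?_)
    simp only [hF1, Homeomorph.trans_apply, aff_apply, aff_symm_apply]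
    field_simp
    ring

end Pool.Agent.H484.SM2
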