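import Pool.Agent.H10.MW.Basic

/-! # S_FIBV, S_FIBH (helper225 for helper10) -/

set_option autoImplicit false

open Set Filter Topology Metric MeasureTheory
open scoped ContDiff

noncomputable section

namespace Pool.Agent.H225.SM2

open Pool.Agent.H10.MW

/-- a bijective smooth map with positive Jacobian determinant is a homeomorphism -/
theorem homeo_of (f : ℂ → ℂ) (hs : ContDiff ℝ ∞ f) (hd : ∀ z, 0 < (fderiv ℝ f z).det)
    (hb : Function.Bijective f) : ∃ κ : ℂ ≃ₜ ℂ, ∀ z, κ z = f z := by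
  have hopen : IsOpenMap f := by
    have h : ∀ z, HasStrictFDerivAt f
        (((fderiv ℝ f z).toContinuousLinearEquivOfDetNeZero (hd z).ne' : ℂ ≃L[ℝ] ℂ) : ℂ →L[ℝ] ℂ) z := by
      intro z
      rw [ContinuousLinearMap.coe_toContinuousLinearEquivOfDetNeZero]
      exact hs.contDiffAt.hasStrictFDerivAt (by simp)
    exact isOpenMap_of_hasStrictFDerivAt_equiv h
  exact ⟨(Equiv.ofBijective f hb).toHomeomorphOfContinuousOpen hs.continuous hopen, fun z => rfl⟩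

theorem assemble (f : ℂ → ℂ) (D : ℂ → ℝ) (hs : ContDiff ℝ ∞ f) (hJ : ∀ z, J f z = D z)
    (hD : ∀ z, 0 < D z) (hb : Function.Bijective f) :
    ∃ κ : ℂ ≃ₜ ℂ, (∀ z, κ z = f z) ∧ (∀ z, Good κ z) ∧ ∀ z, J κ z = D z := by
  have hd : ∀ z, 0 < (fderiv ℝ f z).det := fun z => by
    have := hJ z
    unfold J at this
    rw [this]
    exact hD z
  obtain ⟨κ, hκ⟩ := homeo_of f hs hd hb
  have e : (κ : ℂ → ℂ) = f := funext hκ
  refine ⟨κ, hκ, fun z => ?_, fun z => ?_⟩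
  · rw [e]; exact good_of_contDiff hs hd z
  · rw [e]; exact hJ z

/-- the complex number with given coordinates -/
def mk2 : ℝ × ℝ →L[ℝ] ℂ := (Complex.equivRealProdCLM.symm : ℝ × ℝ →L[ℝ] ℂ)

theorem mk2_apply (a b : ℝ) : mk2 (a, b) = ⟨a, b⟩ := by
  unfold mk2
  apply Complex.ext <;> simp

theorem contDiff_mk {a b : ℂ → ℝ} (ha : ContDiff ℝ ∞ a) (hb : ContDiff ℝ ∞ b) :
    ContDiff ℝ ∞ (fun z => (⟨a z, b z⟩ : ℂ)) := by
  have h : (fun z => (⟨a z, b z⟩ : ℂ)) = fun z => mk2 (a z, b z) := by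
    funext z
    rw [mk2_apply]
  rw [h]
  exact mk2.contDiff.comp (ha.prodMk hb)

theorem J_mk {a b : ℂ → ℝ} {z : ℂ} (ha : DifferentiableAt ℝ a z) (hb : DifferentiableAt ℝ b z) :
    J (fun z => (⟨a z, b z⟩ : ℂ)) z = fderiv ℝ a z 1 * fderiv ℝ b z Complex.I -
      fderiv ℝ a z Complex.I * fderiv ℝ b z 1 := by
  have h : (fun z => (⟨a z, b z⟩ : ℂ)) = fun z => mk2 (a z, b z) := by
    funext z
    rw [mk2_apply]
  have h1 : HasFDerivAt (fun z => (⟨a z, b z⟩ : ℂ))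
      (mk2.comp ((fderiv ℝ a z).prod (fderiv ℝ b z))) z := by
    rw [h]
    exact mk2.hasFDerivAt.comp z (ha.hasFDerivAt.prodMk hb.hasFDerivAt)
  unfold J
  rw [h1.fderiv]
  change LinearMap.det _ = _
  rw [← LinearMap.det_toMatrix Complex.basisOneI, Matrix.det_fin_two]
  simp [LinearMap.toMatrix_apply, Complex.basisOneI, mk2_apply]

theorem strict_and_surj (g g' : ℝ → ℝ) (C : ℝ) (h : ∀ x, HasDerivAt g (g' x) x) (hg : ∀ x, 0 < g' x)
    (hC : ∀ x, |g x - x| ≤ C) : StrictMono g ∧ ∀ c, ∃ x, g x = c := by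
  have hc : Continuous g := continuous_iff_continuousAt.2 fun x => (h x).continuousAt
  refine ⟨strictMono_of_hasDerivAt_pos h hg, fun c => ?_⟩
  have h1 : g (c - C) ≤ c := by
    have := (abs_le.1 (hC (c - C))).2
    linarith
  have h2 : c ≤ g (c + C) := by
    have := (abs_le.1 (hC (c + C))).1
    linarith
  exact mem_range_of_exists_le_of_exists_ge hc ⟨_, h1⟩ ⟨_, h2⟩

theorem hasDeriv_im (Y : ℂ → ℝ) (hY : ContDiff ℝ ∞ Y) (x y : ℝ) :
    HasDerivAt (fun y : ℝ => Y ⟨x, y⟩) (fderiv ℝ Y ⟨x, y⟩ Complex.I) y := by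
  have h1 : HasDerivAt (fun y : ℝ => (⟨x, y⟩ : ℂ)) Complex.I y := by
    have e : (fun y : ℝ => (⟨x, y⟩ : ℂ)) = fun y : ℝ => (x : ℂ) + (y : ℂ) * Complex.I := by
      funext y
      apply Complex.ext <;> simp
    rw [e]
    have h2 : HasDerivAt (fun y : ℝ => (y : ℂ)) 1 y := Complex.ofRealCLM.hasDerivAt
    simpa using (h2.mul_const Complex.I).const_add (x : ℂ)
  exact ((hY.differentiable (by simp) _).hasFDerivAt).comp_hasDerivAt y h1

theorem hasDeriv_re (X : ℂ → ℝ) (hX : ContDiff ℝ ∞ X) (x y : ℝ) :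
    HasDerivAt (fun x : ℝ => X ⟨x, y⟩) (fderiv ℝ X ⟨x, y⟩ 1) x := by
  have h1 : HasDerivAt (fun x : ℝ => (⟨x, y⟩ : ℂ)) 1 x := by
    have e : (fun x : ℝ => (⟨x, y⟩ : ℂ)) = fun x : ℝ => (x : ℂ) + (y : ℂ) * Complex.I := by
      funext x
      apply Complex.ext <;> simp
    rw [e]
    have h2 : HasDerivAt (fun x : ℝ => (x : ℂ)) 1 x := Complex.ofRealCLM.hasDerivAt
    simpa using h2.add_const ((y : ℂ) * Complex.I)
  exact ((hX.differentiable (by simp) _).hasFDerivAt).comp_hasDerivAt x h1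

theorem fibv : S_FIBV := by
  intro Y C hY hpos hC
  have hre : ContDiff ℝ ∞ (fun z : ℂ => z.re) := Complex.reCLM.contDiff
  have hsm : ∀ x : ℝ, StrictMono (fun y : ℝ => Y ⟨x, y⟩) ∧ ∀ c, ∃ y : ℝ, Y ⟨x, y⟩ = c := fun x =>
    strict_and_surj (fun y : ℝ => Y ⟨x, y⟩) _ C (fun y => hasDeriv_im Y hY x y)
      (fun y => hpos _) (fun y => hC ⟨x, y⟩)
  refine assemble (fun z => ⟨z.re, Y z⟩) (fun z => fderiv ℝ Y z Complex.I) (contDiff_mk hre hY)
    (fun z => ?_) hpos ⟨?_, ?_⟩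
  · rw [J_mk (hre.differentiable (by simp) z) (hY.differentiable (by simp) z)]
    have e : fderiv ℝ (fun z : ℂ => z.re) z = Complex.reCLM := Complex.reCLM.hasFDerivAt.fderiv
    rw [e]
    simp
  · intro z w hzw
    have h1 : z.re = w.re := (Complex.ext_iff.1 hzw).1
    have h2 : Y z = Y w := (Complex.ext_iff.1 hzw).2
    have h3 : z.im = w.im := by
      apply (hsm z.re).1.injective
      show Y ⟨z.re, z.im⟩ = Y ⟨z.re, w.im⟩
      have e : (⟨z.re, w.im⟩ : ℂ) = w := by rw [h1]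
      rw [e]
      exact h2
    exact Complex.ext h1 h3
  · intro w
    obtain ⟨y, hy⟩ := (hsm w.re).2 w.im
    refine ⟨⟨w.re, y⟩, ?_⟩
    exact Complex.ext rfl hy

theorem fibh : S_FIBH := by
  intro X C hX hpos hC
  have him : ContDiff ℝ ∞ (fun z : ℂ => z.im) := Complex.imCLM.contDiff
  have hsm : ∀ y : ℝ, StrictMono (fun x : ℝ => X ⟨x, y⟩) ∧ ∀ c, ∃ x : ℝ, X ⟨x, y⟩ = c := fun y =>
    strict_and_surj (fun x : ℝ => X ⟨x, y⟩) _ C (fun x => hasDeriv_re X hX x y)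
      (fun x => hpos _) (fun x => hC ⟨x, y⟩)
  refine assemble (fun z => ⟨X z, z.im⟩) (fun z => fderiv ℝ X z 1) (contDiff_mk hX him)
    (fun z => ?_) hpos ⟨?_, ?_⟩
  · rw [J_mk (hX.differentiable (by simp) z) (him.differentiable (by simp) z)]
    have e : fderiv ℝ (fun z : ℂ => z.im) z = Complex.imCLM := Complex.imCLM.hasFDerivAt.fderiv
    rw [e]
    simp
  · intro z w hzw
    have h1 : z.im = w.im := (Complex.ext_iff.1 hzw).2
    have h2 : X z = X w := (Complex.ext_iff.1 hzw).1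
    have h3 : z.re = w.re := by
      apply (hsm z.im).1.injective
      show X ⟨z.re, z.im⟩ = X ⟨w.re, z.im⟩
      have e : (⟨w.re, z.im⟩ : ℂ) = w := by rw [h1]
      rw [e]
      exact h2
    exact Complex.ext h3 h1
  · intro w
    obtain ⟨x, hx⟩ := (hsm w.im).2 w.re
    refine ⟨⟨x, w.im⟩, ?_⟩
    exact Complex.ext hx rfl

end Pool.Agent.H225.SM2
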