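import Pool.Agent.H10.MW.Basic

/-!
# Project SM2 (helper10): assembly of the approximation theorem
-/

set_option autoImplicit false

open Set Filter Topology Metric MeasureTheory
open scoped ContDiff

noncomputable section

namespace Pool.Agent.H10.MW

theorem norm_le_of_CRect {M : ℝ} {z : ℂ} (hz : z ∈ CRect (-M) M (-M) M) : ‖z‖ ≤ 2 * M := by
  obtain ⟨h1, h2, h3, h4⟩ := hz
  have h5 := Complex.norm_le_abs_re_add_abs_im z
  have h6 : |z.re| ≤ M := abs_le.2 ⟨h1, h2⟩
  have h7 : |z.im| ≤ M := abs_le.2 ⟨h3, h4⟩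
  linarith

theorem mem_CRect_of_norm {a b c d δ : ℝ} {z w : ℂ} (hz : z ∈ CRect a b c d)
    (h : ‖w - z‖ ≤ δ) : w ∈ CRect (a - δ) (b + δ) (c - δ) (d + δ) := by
  obtain ⟨h1, h2, h3, h4⟩ := hz
  have h5 := (abs_le.1 ((Complex.abs_re_le_norm (w - z)).trans h))
  have h6 := (abs_le.1 ((Complex.abs_im_le_norm (w - z)).trans h))
  simp only [Complex.sub_re, Complex.sub_im] at h5 h6
  exact ⟨by linarith, by linarith, by linarith, by linarith⟩

/-- the area of the image of a rectangle under a homeomorphism close to the identity -/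
theorem area_close (κ : ℂ ≃ₜ ℂ) (δ M : ℝ) (hδ : 0 < δ) (hδ1 : δ ≤ 1) (hM : 0 ≤ M)
    (hκ : ∀ z, ‖κ z - z‖ ≤ δ) (a b c d : ℝ) (ha : -M ≤ a) (hab : a ≤ b) (hb : b ≤ M)
    (hc : -M ≤ c) (hcd : c ≤ d) (hd : d ≤ M) :
    |(volume (κ '' CRect a b c d)).toReal - (b - a) * (d - c)| ≤ δ * (8 * M + 4) := by
  have hcpt : IsCompact (κ '' CRect a b c d) := (isCompact_CRect a b c d).image κ.continuous
  have hfin : volume (κ '' CRect a b c d) ≠ ⊤ := hcpt.measure_lt_top.ne
  rw [abs_le]
  constructor
  · -- lower bound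
    by_cases h1 : b - a < 2 * δ ∨ d - c < 2 * δ
    · have h2 : 0 ≤ (volume (κ '' CRect a b c d)).toReal := ENNReal.toReal_nonneg
      have h3 : (b - a) * (d - c) ≤ 2 * δ * (2 * M) := by
        rcases h1 with h1 | h1
        · exact mul_le_mul h1.le (by linarith) (by linarith) (by linarith)
        · rw [mul_comm]
          exact mul_le_mul h1.le (by linarith) (by linarith) (by linarith)
      nlinarith
    · push Not at h1
      have h2 : CRect (a + δ) (b - δ) (c + δ) (d - δ) ⊆ κ '' CRect a b c d := by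
        intro z hz
        refine ⟨κ.symm z, ?_, κ.apply_symm_apply z⟩
        have h3 : ‖κ.symm z - z‖ ≤ δ := by
          have := hκ (κ.symm z)
          rwa [κ.apply_symm_apply, norm_sub_rev] at this
        have h4 := mem_CRect_of_norm hz h3
        have e1 : a + δ - δ = a := by ring
        have e2 : b - δ + δ = b := by ring
        have e3 : c + δ - δ = c := by ring
        have e4 : d - δ + δ = d := by ring
        rwa [e1, e2, e3, e4] at h4
      have h3 := ENNReal.toReal_mono hfin (measure_mono h2)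
      rw [volume_CRect _ _ _ _ (by linarith) (by linarith), ENNReal.toReal_ofReal (by
        apply mul_nonneg <;> linarith)] at h3
      nlinarith
  · have h2 : κ '' CRect a b c d ⊆ CRect (a - δ) (b + δ) (c - δ) (d + δ) := by
      rintro _ ⟨z, hz, rfl⟩
      exact mem_CRect_of_norm hz (hκ z)
    have hfin2 : volume (CRect (a - δ) (b + δ) (c - δ) (d + δ)) ≠ ⊤ :=
      (isCompact_CRect _ _ _ _).measure_lt_top.ne
    have h3 := ENNReal.toReal_mono hfin2 (measure_mono h2)
    rw [volume_CRect _ _ _ _ (by linarith) (by linarith), ENNReal.toReal_ofReal (by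
        apply mul_nonneg <;> linarith)] at h3
    nlinarith

theorem volume_image_of_mp (F : ℂ ≃ₜ ℂ) (hF : MeasurePreserving F) {A : Set ℂ}
    (hA : IsCompact A) : volume (F '' A) = volume A := by
  have h1 := hF.measure_preimage ((hA.image F.continuous).measurableSet.nullMeasurableSet)
  rw [F.preimage_image] at h1
  exact h1.symm

theorem fin (hinf : S_INF) (hsm : S_SMOOTH) (hcorr : S_CORR) (hrad : S_RADIAL) : S_FIN := by
  intro F hOP hmp r ε hε
  set L : ℝ := max r 0 + 1 with hLdef
  have hr0 : 0 ≤ max r 0 := le_max_right _ _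
  have hrL : r ≤ max r 0 := le_max_left _ _
  have hL : 0 < L := by linarith
  set R : ℝ := 2 * (L + 1) + 2 with hR
  obtain ⟨F', hF', hF'c⟩ := hinf F hOP R
  -- uniform continuity
  have huc : UniformContinuousOn F (closedBall 0 R) :=
    (isCompact_closedBall (0 : ℂ) R).uniformContinuousOn_of_continuous F.continuous.continuousOn
  rw [Metric.uniformContinuousOn_iff] at huc
  obtain ⟨η₀, hη₀, huc⟩ := huc ε hε
  set η : ℝ := min 1 (η₀ / 4) with hη
  have hη0 : 0 < η := lt_min one_pos (by positivity)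
  have hη1 : η ≤ 1 := min_le_left _ _
  have hη2 : η ≤ η₀ / 4 := min_le_right _ _
  obtain ⟨δ, hδ, hcorr⟩ := hcorr L η hL hη0
  set δ' : ℝ := min η (δ / (8 * (L + 1) + 4)) with hδ'
  have hδ'0 : 0 < δ' := lt_min hη0 (by positivity)
  have hδ'1 : δ' ≤ η := min_le_left _ _
  have hδ'2 : δ' * (8 * (L + 1) + 4) ≤ δ := by
    have := min_le_right η (δ / (8 * (L + 1) + 4))
    rwa [le_div_iff₀ (by positivity)] at this
  obtain ⟨κs, hκc, hκd, hκg⟩ := hsm F' hF'c δ' hδ'0
  have hgood : ∀ z, Good (κs.trans F') z := hκg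
  have hcs : CSupp (κs.trans F') := hκc.trans hF'c
  obtain ⟨κc, hcc, hcg, hcd, hcJ⟩ := hcorr (κs.trans F') hgood hcs (by
    intro a b c d ha hab hb hc hcd hd
    rw [integral_J _ hgood (measurableSet_CRect a b c d)]
    have h1 : (κs.trans F') '' CRect a b c d = F '' (κs '' CRect a b c d) := by
      rw [← image_comp]
      apply image_congr
      intro z hz
      show F' (κs z) = F (κs z)
      apply hF'
      have h2 : z ∈ CRect (-(L + 1)) (L + 1) (-(L + 1)) (L + 1) :=
        ⟨by linarith [hz.1], by linarith [hz.2.1], by linarith [hz.2.2.1], by linarith [hz.2.2.2]⟩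
      have h3 := norm_le_of_CRect h2
      have h4 := hκd z
      have h5 := norm_add_le (κs z - z) z
      rw [sub_add_cancel] at h5
      linarith
    rw [h1, volume_image_of_mp F hmp ((isCompact_CRect a b c d).image κs.continuous)]
    exact (area_close κs δ' (L + 1) hδ'0 (by linarith) (by linarith) hκd a b c d ha hab hb hc hcd
      hd).trans hδ'2)
  have hcs2 : CSupp (κc.trans (κs.trans F')) := hcc.trans hcs
  have hgood2 : ∀ z, Good (κc.trans (κs.trans F')) z := fun z =>
    Good.comp (g := κs.trans F') (hgood (κc z)) (hcg z)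
  obtain ⟨h, hh1, hh2, hh3⟩ := hrad (κc.trans (κs.trans F')) L hL hgood2 hcs2 (by
    intro z hz
    refine hcJ z ?_
    have h1 := (abs_lt.1 ((Complex.abs_re_le_norm z).trans_lt hz))
    have h2 := (abs_lt.1 ((Complex.abs_im_le_norm z).trans_lt hz))
    exact ⟨h1.1, h1.2, h2.1, h2.2⟩)
  refine ⟨h, hh1, hh2, fun z hz => ?_⟩
  have hzL : ‖z‖ < L := by linarith
  rw [hh3 z hzL]
  show ‖F' (κs (κc z)) - F z‖ < ε
  have h1 := (abs_lt.1 ((Complex.abs_re_le_norm z).trans_lt hzL))
  have h2 := (abs_lt.1 ((Complex.abs_im_le_norm z).trans_lt hzL))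
  have h3 := hcd z ⟨h1.1.le, h1.2.le, h2.1.le, h2.2.le⟩
  have h4 := hκd (κc z)
  have h5 : ‖κs (κc z) - z‖ ≤ 2 * η := by
    have : κs (κc z) - z = (κs (κc z) - κc z) + (κc z - z) := by ring
    rw [this]
    exact (norm_add_le _ _).trans (by linarith)
  have h6 : ‖κs (κc z)‖ ≤ R := by
    have h7 := norm_add_le (κs (κc z) - z) z
    rw [sub_add_cancel] at h7
    linarith
  rw [hF' _ h6, ← dist_eq_norm]
  apply huc
  · rw [mem_closedBall_zero_iff]; exact h6
  · rw [mem_closedBall_zero_iff]; linarith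
  · rw [dist_eq_norm]; linarith

end Pool.Agent.H10.MW
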