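import Pool.Agent.H10.MW.Basic

/-!
# Project SM2 (helper10): extension of a germ which fixes the real line (S_GERM), by helper249

The germ is factored into germs close to the identity; `id` plus a contraction is a homeomorphism.
-/

set_option autoImplicit false

open Set Filter Topology Metric MeasureTheory
open scoped ContDiff NNReal

noncomputable section

namespace Pool.Agent.H249.SM2.Germ

open Pool.Agent.H10.MW

/-- the determinant -/
theorem det_eq (A : ℂ →L[ℝ] ℂ) :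
    A.det = (A 1).re * (A Complex.I).im - (A Complex.I).re * (A 1).im := by
  have h : A.det = LinearMap.det (A : ℂ →ₗ[ℝ] ℂ) := rfl
  rw [h, ← LinearMap.det_toMatrix Complex.basisOneI, Matrix.det_fin_two]
  simp [LinearMap.toMatrix_apply]

theorem det_pos {A : ℂ →L[ℝ] ℂ} (hA : ‖A‖ ≤ 1 / 4) :
    0 < (ContinuousLinearMap.id ℝ ℂ + A).det := by
  rw [det_eq]
  have h1 : ‖A 1‖ ≤ 1 / 4 := by
    have h := A.le_opNorm 1
    rw [norm_one, mul_one] at h
    exact h.trans hA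
  have h2 : ‖A Complex.I‖ ≤ 1 / 4 := by
    have h := A.le_opNorm Complex.I
    rw [Complex.norm_I, mul_one] at h
    exact h.trans hA
  have a1 := abs_le.1 ((Complex.abs_re_le_norm (A 1)).trans h1)
  have a2 := abs_le.1 ((Complex.abs_im_le_norm (A 1)).trans h1)
  have a3 := abs_le.1 ((Complex.abs_re_le_norm (A Complex.I)).trans h2)
  have a4 := abs_le.1 ((Complex.abs_im_le_norm (A Complex.I)).trans h2)
  have e1 : ((ContinuousLinearMap.id ℝ ℂ + A) 1).re = 1 + (A 1).re := by simp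
  have e2 : ((ContinuousLinearMap.id ℝ ℂ + A) 1).im = (A 1).im := by simp
  have e3 : ((ContinuousLinearMap.id ℝ ℂ + A) Complex.I).re = (A Complex.I).re := by simp
  have e4 : ((ContinuousLinearMap.id ℝ ℂ + A) Complex.I).im = 1 + (A Complex.I).im := by simp
  rw [e1, e2, e3, e4]
  nlinarith

/-- the properties of the extensions -/
def Pr (ε : ℝ) (K : ℂ ≃ₜ ℂ) : Prop :=
  (∀ z, Good K z) ∧ (∀ z, ε ≤ ‖z‖ → K z = z) ∧ (∀ z, z.im = 0 → K z = z) ∧
    ∀ z, 0 < z.im → 0 < (K z).im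

theorem Pr.comp {ε : ℝ} {K K' : ℂ ≃ₜ ℂ} (h : Pr ε K) (h' : Pr ε K') : Pr ε (K.trans K') := by
  obtain ⟨a1, a2, a3, a4⟩ := h
  obtain ⟨b1, b2, b3, b4⟩ := h'
  refine ⟨fun z => ?_, fun z hz => ?_, fun z hz => ?_, fun z hz => ?_⟩
  · exact (b1 (K z)).comp (a1 z)
  · show K' (K z) = z
    rw [a2 z hz, b2 z hz]
  · show K' (K z) = z
    rw [a3 z hz, b3 z hz]
  · exact b4 _ (a4 z hz)

theorem Pr.refl (ε : ℝ) : Pr ε (Homeomorph.refl ℂ) :=
  ⟨good_id, fun _ _ => rfl, fun _ _ => rfl, fun _ h => h⟩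

/-- the identity plus a contraction -/
theorem mk {ε : ℝ} (E : ℂ → ℂ) (hE : ContDiff ℝ ∞ E) (hb : ∀ z, ‖fderiv ℝ E z‖ ≤ 1 / 4)
    (h0 : ∀ z, ε ≤ ‖z‖ → E z = 0) (hr : ∀ z, z.im = 0 → E z = 0) :
    ∃ K : ℂ ≃ₜ ℂ, Pr ε K ∧ ∀ z, K z = z + E z := by
  have hdiff : Differentiable ℝ E := hE.differentiable (by simp)
  have hlip : LipschitzWith (1 / 4) E := by
    refine lipschitzWith_of_nnnorm_fderiv_le hdiff fun x => ?_
    rw [← NNReal.coe_le_coe]
    exact_mod_cast hb x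
  have hl : ∀ x y, ‖E x - E y‖ ≤ 1 / 4 * ‖x - y‖ := by
    intro x y
    have h := hlip.dist_le_mul x y
    rw [dist_eq_norm, dist_eq_norm] at h
    exact_mod_cast h
  have happ : ApproximatesLinearOn (fun z => z + E z)
      ((ContinuousLinearEquiv.refl ℝ ℂ : ℂ ≃L[ℝ] ℂ) : ℂ →L[ℝ] ℂ) univ (1 / 4) := by
    intro x _ y _
    have e : (x + E x) - (y + E y) -
        ((ContinuousLinearEquiv.refl ℝ ℂ : ℂ ≃L[ℝ] ℂ) : ℂ →L[ℝ] ℂ) (x - y) = E x - E y := by
      show (x + E x) - (y + E y) - (x - y) = E x - E y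
      ring
    show ‖(x + E x) - (y + E y) -
        ((ContinuousLinearEquiv.refl ℝ ℂ : ℂ ≃L[ℝ] ℂ) : ℂ →L[ℝ] ℂ) (x - y)‖ ≤ _
    rw [e]
    have h := hl x y
    exact_mod_cast h
  have hc : Subsingleton ℂ ∨ (1 / 4 : ℝ≥0) <
      ‖((ContinuousLinearEquiv.refl ℝ ℂ).symm : ℂ →L[ℝ] ℂ)‖₊⁻¹ := by
    right
    have h1 : ‖((ContinuousLinearEquiv.refl ℝ ℂ).symm : ℂ →L[ℝ] ℂ)‖₊ = 1 := by
      rw [← NNReal.coe_inj, coe_nnnorm]
      exact ContinuousLinearMap.norm_id
    rw [h1, inv_one, ← NNReal.coe_lt_coe]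
    norm_num
  refine ⟨happ.toHomeomorph _ hc, ⟨?_, ?_, ?_, ?_⟩, fun z => rfl⟩
  · refine good_of_contDiff (contDiff_fun_id.add hE) fun w => ?_
    have h1 : HasFDerivAt (fun z => z + E z) (ContinuousLinearMap.id ℝ ℂ + fderiv ℝ E w) w :=
      (hasFDerivAt_id w).add (hdiff w).hasFDerivAt
    have h2 : fderiv ℝ (fun z => z + E z) w = ContinuousLinearMap.id ℝ ℂ + fderiv ℝ E w := h1.fderiv
    have h3 := det_pos (hb w)
    rw [← h2] at h3
    exact h3
  · intro z hz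
    show z + E z = z
    rw [h0 z hz, add_zero]
  · intro z hz
    show z + E z = z
    rw [hr z hz, add_zero]
  · intro z hz
    show 0 < (z + E z).im
    have h1 := hl z (z.re : ℂ)
    rw [hr (z.re : ℂ) (Complex.ofReal_im _), sub_zero] at h1
    have h2 : ‖z - (z.re : ℂ)‖ = z.im := by
      have e : z - (z.re : ℂ) = (z.im : ℂ) * Complex.I := by
        apply Complex.ext <;> simp
      rw [e, norm_mul, Complex.norm_I, mul_one, Complex.norm_real, Real.norm_eq_abs,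
        abs_of_pos hz]
    rw [h2] at h1
    have h3 := abs_le.1 ((Complex.abs_im_le_norm (E z)).trans h1)
    rw [Complex.add_im]
    linarith

/-- cutoff functions -/
theorem cut {s : ℝ} (hs : 0 < s) : ∃ φ : ℂ → ℝ, ContDiff ℝ ∞ φ ∧
    (∀ z, ‖z‖ ≤ s / 2 → φ z = 1) ∧ (∀ z, s ≤ ‖z‖ → φ z = 0) ∧ (∀ z, 0 ≤ φ z ∧ φ z ≤ 1) := by
  obtain ⟨f, hf1, hf2⟩ : ∃ f : ContDiffBump (0 : ℂ), f.rIn = s / 2 ∧ f.rOut = s :=
    ⟨⟨s / 2, s, by linarith, by linarith⟩, rfl, rfl⟩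
  refine ⟨f, f.contDiff, fun z hz => ?_, fun z hz => ?_, fun z => ⟨f.nonneg, f.le_one⟩⟩
  · refine f.one_of_mem_closedBall ?_
    rw [mem_closedBall_zero_iff, hf1]
    exact hz
  · refine f.zero_of_le_dist ?_
    rw [dist_zero_right, hf2]
    exact hz

theorem bdd_fderiv {φ : ℂ → ℝ} {s : ℝ} (h : ContDiff ℝ ∞ φ) (h0 : ∀ z, s ≤ ‖z‖ → φ z = 0) :
    ∃ B : ℝ, 0 ≤ B ∧ ∀ z, ‖fderiv ℝ φ z‖ ≤ B := by
  have hc : HasCompactSupport φ := by
    refine HasCompactSupport.intro (isCompact_closedBall (0 : ℂ) s) fun z hz => ?_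
    rw [mem_closedBall_zero_iff, not_le] at hz
    exact h0 z hz.le
  obtain ⟨B, hB⟩ := (hc.fderiv (𝕜 := ℝ)).exists_bound_of_continuous
    (h.continuous_fderiv (by simp))
  exact ⟨B, (norm_nonneg _).trans (hB 0), hB⟩

/-- linear germs near the identity -/
theorem small {ε : ℝ} (hε : 0 < ε) : ∃ η : ℝ, 0 < η ∧ ∀ c : ℂ, ‖c‖ ≤ η →
    ∃ K : ℂ ≃ₜ ℂ, Pr ε K ∧ ∃ δ : ℝ, 0 < δ ∧ ∀ z, ‖z‖ < δ → K z = z + (z.im : ℂ) * c := by
  obtain ⟨φ, h1, h2, h3, h4⟩ := cut hε
  have hψ : ContDiff ℝ ∞ (fun z : ℂ => φ z * z.im) := h1.mul Complex.imCLM.contDiff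
  obtain ⟨B, hB0, hB⟩ := bdd_fderiv (s := ε) hψ fun z hz => by rw [h3 z hz, zero_mul]
  refine ⟨1 / (4 * (B + 1)), by positivity, fun c hc => ?_⟩
  have hE : ContDiff ℝ ∞ (fun z : ℂ => (φ z * z.im) • c) := hψ.smul contDiff_const
  have hmk := mk (ε := ε) (fun z : ℂ => (φ z * z.im) • c) hE ?_ ?_ ?_
  · obtain ⟨K, hK, hK'⟩ := hmk
    refine ⟨K, hK, ε / 2, by linarith, fun z hz => ?_⟩
    rw [hK' z, h2 z hz.le, one_mul, Complex.real_smul]
  · intro z
    have h5 : HasFDerivAt (fun z : ℂ => (φ z * z.im) • c)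
        ((fderiv ℝ (fun z : ℂ => φ z * z.im) z).smulRight c) z :=
      ((hψ.differentiable (by simp)) z).hasFDerivAt.smul_const c
    rw [h5.fderiv, ContinuousLinearMap.norm_smulRight_apply]
    calc ‖fderiv ℝ (fun z : ℂ => φ z * z.im) z‖ * ‖c‖ ≤ B * (1 / (4 * (B + 1))) :=
          mul_le_mul (hB z) hc (norm_nonneg _) hB0
      _ ≤ 1 / 4 := by
          rw [mul_one_div, div_le_iff₀ (by positivity)]
          linarith
  · intro z hz
    show (φ z * z.im) • c = 0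
    rw [h3 z hz, zero_mul, zero_smul]
  · intro z hz
    show (φ z * z.im) • c = 0
    rw [hz, mul_zero, zero_smul]

/-- linear germs -/
theorem lin {ε : ℝ} (hε : 0 < ε) (c : ℂ) (hc : -1 < c.im) :
    ∃ K : ℂ ≃ₜ ℂ, Pr ε K ∧ ∃ δ : ℝ, 0 < δ ∧ ∀ z, ‖z‖ < δ → K z = z + (z.im : ℂ) * c := by
  obtain ⟨η, hη, hs⟩ := small hε
  have hm : 0 < min 1 (1 + c.im) := lt_min one_pos (by linarith)
  obtain ⟨n, hn⟩ := exists_nat_gt (‖c‖ / (η * min 1 (1 + c.im)))
  have hn0 : (0 : ℝ) < n := lt_of_le_of_lt (by positivity) hn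
  have hn1 : ‖c‖ ≤ η * min 1 (1 + c.im) * n := by
    rw [div_lt_iff₀ (by positivity)] at hn
    linarith
  have key : ∀ i : ℕ, i ≤ n → ∃ K : ℂ ≃ₜ ℂ, Pr ε K ∧ ∃ δ : ℝ, 0 < δ ∧ ∀ z, ‖z‖ < δ →
      K z = z + (z.im : ℂ) * (((i / n : ℝ) : ℂ) * c) := by
    intro i
    induction i with
    | zero =>
      intro _
      refine ⟨Homeomorph.refl ℂ, Pr.refl ε, 1, one_pos, fun z _ => ?_⟩
      show z = _
      simp
    | succ i ih =>
      intro hi
      obtain ⟨K, hK, δ, hδ, hK'⟩ := ih (by omega)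
      have hin : (i : ℝ) / n ≤ 1 := by
        rw [div_le_one hn0]
        exact_mod_cast (by omega : i ≤ n)
      have hin0 : 0 ≤ (i : ℝ) / n := by positivity
      obtain ⟨r, hr⟩ : ∃ r : ℝ, r = 1 + (i : ℝ) / n * c.im := ⟨_, rfl⟩
      have hr1 : min 1 (1 + c.im) ≤ r := by
        rcases le_or_gt 0 c.im with h | h
        · refine (min_le_left _ _).trans ?_
          rw [hr]
          nlinarith
        · refine (min_le_right _ _).trans ?_
          rw [hr]
          nlinarith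
      have hr0 : 0 < r := lt_of_lt_of_le hm hr1
      obtain ⟨K2, hK2, δ2, hδ2, hK2'⟩ := hs (((1 / (n * r) : ℝ) : ℂ) * c) (by
        rw [norm_mul, Complex.norm_real, Real.norm_eq_abs, abs_of_pos (by positivity),
          one_div, inv_mul_le_iff₀ (by positivity)]
        calc ‖c‖ ≤ η * min 1 (1 + c.im) * n := hn1
          _ ≤ η * r * n := by gcongr
          _ = n * r * η := by ring)
      have hK0 : K 0 = 0 := hK.2.2.1 0 rfl
      have hcont : ∀ᶠ z in 𝓝 (0 : ℂ), ‖K z‖ < δ2 := by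
        have h5 : ContinuousAt (fun z => ‖K z‖) 0 := K.continuous.norm.continuousAt
        refine h5.eventually_lt_const ?_
        show ‖K 0‖ < δ2
        rw [hK0, norm_zero]
        exact hδ2
      obtain ⟨δ3, hδ3, hsub⟩ := Metric.eventually_nhds_iff.1 hcont
      refine ⟨K.trans K2, hK.comp hK2, min δ δ3, lt_min hδ hδ3, fun z hz => ?_⟩
      show K2 (K z) = _
      have h6 : ‖K z‖ < δ2 := hsub (by
        rw [dist_zero_right]
        exact lt_of_lt_of_le hz (min_le_right _ _))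
      rw [hK2' _ h6, hK' z (lt_of_lt_of_le hz (min_le_left _ _))]
      have h7 : (z + (z.im : ℂ) * (((i / n : ℝ) : ℂ) * c)).im = z.im * r := by
        rw [hr, Complex.add_im, Complex.im_ofReal_mul, Complex.im_ofReal_mul]
        ring
      rw [h7]
      have h8 : ((z.im * r : ℝ) : ℂ) * (((1 / (n * r) : ℝ) : ℂ) * c) =
          (z.im : ℂ) * (((1 / n : ℝ) : ℂ) * c) := by
        rw [← mul_assoc, ← mul_assoc, ← Complex.ofReal_mul, ← Complex.ofReal_mul]
        congr 2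
        field_simp
      rw [h8]
      push_cast
      ring
  obtain ⟨K, hK, δ, hδ, hK'⟩ := key n le_rfl
  refine ⟨K, hK, δ, hδ, fun z hz => ?_⟩
  rw [hK' z hz, div_self hn0.ne', Complex.ofReal_one, one_mul]

/-- germs with derivative one -/
theorem near {k : ℂ → ℂ} {δ ε : ℝ} (hδ : 0 < δ) (hε : 0 < ε) (hk : ContDiffOn ℝ ∞ k (ball 0 δ))
    (hr : ∀ z ∈ ball (0 : ℂ) δ, z.im = 0 → k z = z)
    (hd : fderiv ℝ k 0 = ContinuousLinearMap.id ℝ ℂ) :
    ∃ K : ℂ ≃ₜ ℂ, Pr ε K ∧ ∃ δ' : ℝ, 0 < δ' ∧ ∀ z, ‖z‖ < δ' → K z = k z := by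
  obtain ⟨φ, h1, h2, h3, h4⟩ := cut one_pos
  obtain ⟨B, hB0, hB⟩ := bdd_fderiv h1 h3
  have hE : ContDiffOn ℝ ∞ (fun z => k z - z) (ball 0 δ) := hk.sub contDiffOn_fun_id
  have hEd : ∀ z ∈ ball (0 : ℂ) δ, DifferentiableAt ℝ (fun z => k z - z) z := fun z hz =>
    (hE.differentiableOn (by simp)).differentiableAt (isOpen_ball.mem_nhds hz)
  have h0 : (0 : ℂ) ∈ ball (0 : ℂ) δ := mem_ball_self hδ
  have hE0 : fderiv ℝ (fun z => k z - z) 0 = 0 := by
    have h5 : DifferentiableAt ℝ k 0 :=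
      (hk.differentiableOn (by simp)).differentiableAt (isOpen_ball.mem_nhds h0)
    have h6 : HasFDerivAt (fun z => k z - z) (fderiv ℝ k 0 - ContinuousLinearMap.id ℝ ℂ) 0 :=
      h5.hasFDerivAt.sub (hasFDerivAt_id 0)
    rw [h6.fderiv, hd, sub_self]
  have hcont : ContinuousAt (fun z => ‖fderiv ℝ (fun z => k z - z) z‖) 0 :=
    ((hE.continuousOn_fderiv_of_isOpen isOpen_ball (by simp)).continuousAt
      (isOpen_ball.mem_nhds h0)).norm
  have hτ : 0 < 1 / (4 * (1 + B)) := by positivity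
  have hev : ∀ᶠ z in 𝓝 (0 : ℂ), ‖fderiv ℝ (fun z => k z - z) z‖ < 1 / (4 * (1 + B)) := by
    refine hcont.eventually_lt_const ?_
    show ‖fderiv ℝ (fun z => k z - z) 0‖ < _
    rw [hE0, norm_zero]
    exact hτ
  obtain ⟨s0, hs0, hsub⟩ := Metric.eventually_nhds_iff.1 hev
  obtain ⟨s, hs⟩ : ∃ s : ℝ, s = min s0 (min δ ε) / 2 := ⟨_, rfl⟩
  have hm : 0 < min s0 (min δ ε) := lt_min hs0 (lt_min hδ hε)
  have hs1 : 0 < s := by rw [hs]; linarith
  have hs2 : s < s0 := by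
    have := min_le_left s0 (min δ ε)
    linarith
  have hs3 : s < δ := by
    have := (min_le_right s0 (min δ ε)).trans (min_le_left _ _)
    linarith
  have hs4 : s < ε := by
    have := (min_le_right s0 (min δ ε)).trans (min_le_right _ _)
    linarith
  have hD : ∀ z, ‖z‖ ≤ s → ‖fderiv ℝ (fun z => k z - z) z‖ ≤ 1 / (4 * (1 + B)) := fun z hz =>
    (hsub (by rw [dist_zero_right]; exact lt_of_le_of_lt hz hs2)).le
  have hEb : ∀ z, ‖z‖ ≤ s → ‖k z - z‖ ≤ 1 / (4 * (1 + B)) * s := by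
    intro z hz
    have h5 := (convex_closedBall (0 : ℂ) s).norm_image_sub_le_of_norm_fderiv_le
      (f := fun z => k z - z) (C := 1 / (4 * (1 + B))) (𝕜 := ℝ)
      (fun x hx => hEd x (closedBall_subset_ball hs3 hx))
      (fun x hx => hD x (mem_closedBall_zero_iff.1 hx))
      (mem_closedBall_self hs1.le) (mem_closedBall_zero_iff.2 hz)
    rw [hr 0 h0 rfl, sub_self, sub_zero, sub_zero] at h5
    exact h5.trans (mul_le_mul_of_nonneg_left hz hτ.le)
  have hφs : ContDiff ℝ ∞ (fun z : ℂ => φ (s⁻¹ • z)) := h1.comp (contDiff_const_smul _)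
  have hzero : ∀ z : ℂ, s ≤ ‖z‖ → φ (s⁻¹ • z) = 0 := by
    intro z hz
    refine h3 _ ?_
    rw [norm_smul, norm_inv, Real.norm_eq_abs, abs_of_pos hs1, ← div_eq_inv_mul, le_div_iff₀ hs1,
      one_mul]
    exact hz
  have hout : ∀ z : ℂ, s < ‖z‖ → (fun z : ℂ => φ (s⁻¹ • z) • (k z - z)) =ᶠ[𝓝 z] fun _ => 0 := by
    intro z hz
    have h5 : ∀ᶠ w in 𝓝 z, s < ‖w‖ := continuousAt_id.norm.eventually_const_lt hz
    filter_upwards [h5] with w hw
    rw [hzero w hw.le, zero_smul]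
  have hmk := mk (ε := ε) (fun z : ℂ => φ (s⁻¹ • z) • (k z - z)) ?_ ?_ ?_ ?_
  · obtain ⟨K, hK, hK'⟩ := hmk
    refine ⟨K, hK, s / 2, by linarith, fun z hz => ?_⟩
    rw [hK' z, h2 (s⁻¹ • z), one_smul]
    · ring
    · rw [norm_smul, norm_inv, Real.norm_eq_abs, abs_of_pos hs1, ← div_eq_inv_mul,
        div_le_iff₀ hs1]
      linarith
  · rw [contDiff_iff_contDiffAt]
    intro z
    rcases lt_or_ge s ‖z‖ with h | h
    · exact contDiffAt_const.congr_of_eventuallyEq (hout z h)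
    · have hz : z ∈ ball (0 : ℂ) δ := by
        rw [mem_ball_zero_iff]
        linarith
      exact hφs.contDiffAt.smul (hE.contDiffAt (isOpen_ball.mem_nhds hz))
  · intro z
    rcases lt_or_ge s ‖z‖ with h | h
    · rw [(hout z h).fderiv_eq, fderiv_const_apply, norm_zero]
      norm_num
    · have hz : z ∈ ball (0 : ℂ) δ := by
        rw [mem_ball_zero_iff]
        linarith
      have hφd : HasFDerivAt (fun z : ℂ => φ (s⁻¹ • z))
          ((fderiv ℝ φ (s⁻¹ • z)).comp (s⁻¹ • ContinuousLinearMap.id ℝ ℂ)) z :=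
        ((h1.differentiable (by simp)) _).hasFDerivAt.comp z ((hasFDerivAt_id z).const_smul s⁻¹)
      have h5 : HasFDerivAt (fun z : ℂ => φ (s⁻¹ • z) • (k z - z))
          (φ (s⁻¹ • z) • fderiv ℝ (fun z => k z - z) z +
            ((fderiv ℝ φ (s⁻¹ • z)).comp (s⁻¹ • ContinuousLinearMap.id ℝ ℂ)).smulRight
              (k z - z)) z := hφd.smul (hEd z hz).hasFDerivAt
      rw [h5.fderiv]
      have h6 : ‖φ (s⁻¹ • z) • fderiv ℝ (fun z => k z - z) z‖ ≤ 1 / (4 * (1 + B)) := by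
        rw [norm_smul, Real.norm_eq_abs, abs_of_nonneg (h4 _).1]
        calc φ (s⁻¹ • z) * ‖fderiv ℝ (fun z => k z - z) z‖ ≤ 1 * (1 / (4 * (1 + B))) :=
              mul_le_mul (h4 _).2 (hD z h) (norm_nonneg _) zero_le_one
          _ = _ := one_mul _
      have h7 : ‖((fderiv ℝ φ (s⁻¹ • z)).comp (s⁻¹ • ContinuousLinearMap.id ℝ ℂ)).smulRight
          (k z - z)‖ ≤ B * s⁻¹ * (1 / (4 * (1 + B)) * s) := by
        rw [ContinuousLinearMap.norm_smulRight_apply]
        refine mul_le_mul ?_ (hEb z h) (norm_nonneg _) (by positivity)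
        refine (ContinuousLinearMap.opNorm_comp_le _ _).trans ?_
        refine mul_le_mul (hB _) ?_ (norm_nonneg _) hB0
        rw [norm_smul, norm_inv, Real.norm_eq_abs, abs_of_pos hs1]
        calc s⁻¹ * ‖ContinuousLinearMap.id ℝ ℂ‖ ≤ s⁻¹ * 1 := by
              gcongr
              exact ContinuousLinearMap.norm_id_le
          _ = s⁻¹ := mul_one _
      refine (norm_add_le _ _).trans ((add_le_add h6 h7).trans ?_)
      have h8 : B * s⁻¹ * (1 / (4 * (1 + B)) * s) = B * (1 / (4 * (1 + B))) := by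
        field_simp
      rw [h8]
      have h9 : 1 / (4 * (1 + B)) + B * (1 / (4 * (1 + B))) = 1 / 4 := by
        field_simp
      rw [h9]
  · intro z hz
    show φ (s⁻¹ • z) • (k z - z) = 0
    rw [hzero z (by linarith), zero_smul]
  · intro z hz
    show φ (s⁻¹ • z) • (k z - z) = 0
    rcases lt_or_ge ‖z‖ δ with h | h
    · rw [hr z (mem_ball_zero_iff.2 h) hz, sub_self, smul_zero]
    · rw [hzero z (by linarith), zero_smul]

theorem main : S_GERM := by
  intro k δ ε hδ hε hk hr hdet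
  have h0 : (0 : ℂ) ∈ ball (0 : ℂ) δ := mem_ball_self hδ
  have hkd : DifferentiableAt ℝ k 0 :=
    (hk.differentiableOn (by simp)).differentiableAt (isOpen_ball.mem_nhds h0)
  have hk0 : k 0 = 0 := hr 0 h0 rfl
  obtain ⟨D, hD⟩ : ∃ D : ℂ →L[ℝ] ℂ, D = fderiv ℝ k 0 := ⟨_, rfl⟩
  have hD1 : D 1 = 1 := by
    have e1 : HasDerivAt (fun t : ℝ => k (t : ℂ)) (D 1) 0 := by
      have e2 : HasFDerivAt k D ((0 : ℝ) : ℂ) := by
        rw [Complex.ofReal_zero, hD]
        exact hkd.hasFDerivAt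
      exact e2.comp_hasDerivAt (0 : ℝ) Complex.ofRealCLM.hasDerivAt
    have e3 : HasDerivAt (fun t : ℝ => (t : ℂ)) 1 0 := Complex.ofRealCLM.hasDerivAt
    have e4 : (fun t : ℝ => k (t : ℂ)) =ᶠ[𝓝 0] fun t : ℝ => (t : ℂ) := by
      have e5 : ∀ᶠ t : ℝ in 𝓝 0, (t : ℂ) ∈ ball (0 : ℂ) δ :=
        Complex.continuous_ofReal.continuousAt.eventually
          (isOpen_ball.mem_nhds (by rw [Complex.ofReal_zero]; exact h0))
      filter_upwards [e5] with t ht
      exact hr t ht (Complex.ofReal_im t)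
    exact (e1.congr_of_eventuallyEq e4.symm).unique e3
  have hDz : ∀ z : ℂ, D z = z + (z.im : ℂ) * (D Complex.I - Complex.I) := by
    intro z
    have e1 : z = z.re • (1 : ℂ) + z.im • Complex.I := by
      rw [Complex.real_smul, Complex.real_smul, mul_one]
      exact (Complex.re_add_im z).symm
    have e2 : D z = z.re • D 1 + z.im • D Complex.I := by
      rw [← map_smul, ← map_smul, ← map_add, ← e1]
    rw [e2, hD1, Complex.real_smul, Complex.real_smul]
    have e3 := (Complex.re_add_im z).symm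
    linear_combination -e3
  have hcim : -1 < (D Complex.I - Complex.I).im := by
    rw [← hD, det_eq, hD1] at hdet
    rw [Complex.sub_im, Complex.I_im]
    simp only [Complex.one_re, Complex.one_im] at hdet
    linarith
  obtain ⟨K1, hK1, δ1, hδ1, hK1'⟩ := lin hε _ hcim
  have hK10 : K1 0 = 0 := hK1.2.2.1 0 rfl
  have hs0 : K1.symm 0 = 0 := by rw [Homeomorph.symm_apply_eq, hK10]
  have hK1d : HasFDerivAt K1 D 0 := by
    refine D.hasFDerivAt.congr_of_eventuallyEq ?_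
    filter_upwards [isOpen_ball.mem_nhds (mem_ball_self hδ1)] with z hz
    rw [mem_ball_zero_iff] at hz
    rw [hK1' z hz, hDz z]
  have hsg := good_symm K1 hK1.1
  have hev : ∀ᶠ z in 𝓝 (0 : ℂ), K1.symm z ∈ ball (0 : ℂ) δ :=
    K1.symm.continuous.continuousAt.eventually
      (isOpen_ball.mem_nhds (by rw [hs0]; exact h0))
  obtain ⟨δ2, hδ2, hsub⟩ := Metric.eventually_nhds_iff_ball.1 hev
  have hnear := near (k := fun z => k (K1.symm z)) hδ2 hε ?_ ?_ ?_
  · obtain ⟨K2, hK2, δ3, hδ3, hK2'⟩ := hnear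
    have hev3 : ∀ᶠ z in 𝓝 (0 : ℂ), ‖K1 z‖ < δ3 := by
      have h5 : ContinuousAt (fun z => ‖K1 z‖) 0 := K1.continuous.norm.continuousAt
      refine h5.eventually_lt_const ?_
      show ‖K1 0‖ < δ3
      rw [hK10, norm_zero]
      exact hδ3
    obtain ⟨δ4, hδ4, hsub4⟩ := Metric.eventually_nhds_iff.1 hev3
    obtain ⟨a1, a2, a3, a4⟩ := hK1.comp hK2
    refine ⟨K1.trans K2, a1, a2, a3, a4, δ4, hδ4, fun z hz => ?_⟩
    show K2 (K1 z) = k z
    rw [hK2' (K1 z) (hsub4 (by rw [dist_zero_right]; exact hz)), K1.symm_apply_apply]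
  · intro z hz
    apply ContDiffAt.contDiffWithinAt
    exact (hk.contDiffAt (isOpen_ball.mem_nhds (hsub z hz))).comp z (hsg z).contDiffAt
  · intro z hz hzi
    have e1 : K1.symm z = z := by rw [Homeomorph.symm_apply_eq, hK1.2.2.1 z hzi]
    show k (K1.symm z) = z
    have e2 := hsub z hz
    rw [e1] at e2 ⊢
    exact hr z e2 hzi
  · have e1 : HasFDerivAt K1.symm (fderiv ℝ K1.symm 0) 0 := (hsg 0).differentiableAt.hasFDerivAt
    have e2 : HasFDerivAt (fun z => K1 (K1.symm z)) (D.comp (fderiv ℝ K1.symm 0)) 0 := by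
      have e3 : HasFDerivAt K1 D (K1.symm 0) := by
        rw [hs0]
        exact hK1d
      exact e3.comp (0 : ℂ) e1
    have e4 : (fun z => K1 (K1.symm z)) = fun z => z := funext fun z => K1.apply_symm_apply z
    rw [e4] at e2
    have e5 : D.comp (fderiv ℝ K1.symm 0) = ContinuousLinearMap.id ℝ ℂ :=
      e2.unique (hasFDerivAt_id 0)
    have e6 : HasFDerivAt (fun z => k (K1.symm z)) (D.comp (fderiv ℝ K1.symm 0)) 0 := by
      have e7 : HasFDerivAt k D (K1.symm 0) := by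
        rw [hs0, hD]
        exact hkd.hasFDerivAt
      exact e7.comp (0 : ℂ) e1
    rw [e6.fderiv, e5]

end Pool.Agent.H249.SM2.Germ
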