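import Pool.Agent.H10.MW.Basic
import Pool.Graph.R_pool_sql_team_seeded_63374d34.N311.SH.Fin

/-!
# Project SM2 (helper10): (VTX) and (INF)
-/

set_option autoImplicit false

open Set Filter Topology Metric MeasureTheory
open scoped OnePoint

noncomputable section

namespace Pool.Agent.H331.SM2

open Pool.Agent.H10.MW

/-- the local normal form -/
theorem t_KL : Pool.Agent.N311.SH.S_KL :=
  Pool.Agent.N296.SH.kl Pool.Agent.N311.SH.klc_all Pool.Agent.N413.SH.lin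

theorem vtx (ha : S_OPA) (hb : S_OPB) : S_VTX := by
  intro F hF p r hr
  let T : ℂ ≃ₜ ℂ := ((Homeomorph.addRight p).trans F).trans (Homeomorph.addRight (-F p))
  have hT : ∀ z, T z = F (z + p) - F p := fun z => rfl
  have hT0 : Pool.Agent.N311.SH.ext T ((0 : ℂ) : Pool.Agent.N311.SH.Sph) =
      ((0 : ℂ) : Pool.Agent.N311.SH.Sph) := by
    rw [Pool.Agent.N311.SH.ext_coe, hT, zero_add, sub_self]
  obtain ⟨k, hk, hk0, δ, e, hδ, hkδ⟩ := t_KL (Pool.Agent.N311.SH.ext T) hT0 r hr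
  let κ : ℂ ≃ₜ ℂ := ((Homeomorph.addRight (-p)).trans k).trans (Homeomorph.addRight p)
  have hκ : ∀ z, κ z = k (z - p) + p := fun z => rfl
  have hκr : ∀ z, r ≤ ‖z - p‖ → κ z = z := by
    intro z hz
    rw [hκ, hk _ hz, sub_add_cancel]
  have hFκ : ∀ z, ‖z - p‖ < δ → F (κ z) = Pool.Agent.N311.SH.cj e (z - p) + F p := by
    intro z hz
    have h1 := hkδ (z - p) hz
    rw [Pool.Agent.N311.SH.ext_coe] at h1
    have h2 := OnePoint.coe_injective h1
    rw [hT] at h2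
    rw [hκ, ← h2]
    ring
  refine ⟨κ, hκr, ?_⟩
  cases e with
  | false =>
    refine ⟨δ, hδ, F p - p, fun z hz => ?_⟩
    show F (κ z) = _
    rw [hFκ z hz, Pool.Agent.N311.SH.cj_false]
    ring
  | true =>
    exfalso
    have hκO : OP κ := by
      refine ha κ (p + ((r + 1 : ℝ) : ℂ)) 1 one_pos fun z hz => hκr z ?_
      have h1 : ‖((r + 1 : ℝ) : ℂ)‖ = r + 1 := by
        rw [Complex.norm_real, Real.norm_eq_abs, abs_of_pos (by linarith)]
      have h2 : ‖((r + 1 : ℝ) : ℂ)‖ ≤ ‖z - p‖ + ‖z - (p + ((r + 1 : ℝ) : ℂ))‖ := by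
        have e1 : ((r + 1 : ℝ) : ℂ) = (z - p) - (z - (p + ((r + 1 : ℝ) : ℂ))) := by ring
        conv_lhs => rw [e1]
        exact norm_sub_le _ _
      linarith
    refine hb (κ.trans F) (hκO.trans hF) p (F p) δ hδ fun z hz => ?_
    show F (κ z) = _
    rw [hFκ z hz, Pool.Agent.N311.SH.cj_true]

theorem inf (ha : S_OPA) (hb : S_OPB) : S_INF := by
  intro F hF R
  set R' := max R 0 with hR'
  have hR0 : 0 ≤ R' := le_max_right _ _
  have hRR : R ≤ R' := le_max_left _ _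
  let f : Pool.Agent.N311.SH.Sph ≃ₜ Pool.Agent.N311.SH.Sph :=
    Pool.Agent.N311.SH.J * Pool.Agent.N311.SH.ext F * Pool.Agent.N311.SH.J
  have hf : ∀ x, f x = Pool.Agent.N311.SH.J (Pool.Agent.N311.SH.ext F (Pool.Agent.N311.SH.J x)) :=
    fun x => rfl
  have hf0 : f ((0 : ℂ) : Pool.Agent.N311.SH.Sph) = ((0 : ℂ) : Pool.Agent.N311.SH.Sph) := by
    rw [hf, Pool.Agent.N311.SH.J_zero, Pool.Agent.N311.SH.ext_infty, Pool.Agent.N311.SH.J_infty]
  obtain ⟨k, hk, hk0, δ, e, hδ, hkδ⟩ := t_KL f hf0 (1 / (R' + 1)) (by positivity)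
  obtain ⟨κ, hκ⟩ := Pool.Agent.N296.SH.res
    (Pool.Agent.N311.SH.J * Pool.Agent.N311.SH.ext k * Pool.Agent.N311.SH.J) (by
      show Pool.Agent.N311.SH.J (Pool.Agent.N311.SH.ext k (Pool.Agent.N311.SH.J ∞)) = ∞
      rw [Pool.Agent.N311.SH.J_infty, Pool.Agent.N311.SH.ext_coe, hk0,
        Pool.Agent.N311.SH.J_zero])
  have hκ' : ∀ z : ℂ, Pool.Agent.N311.SH.J (Pool.Agent.N311.SH.ext k
      (Pool.Agent.N311.SH.J (z : Pool.Agent.N311.SH.Sph))) =
      ((κ z : ℂ) : Pool.Agent.N311.SH.Sph) := hκ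
  have hκ0 : κ 0 = 0 := by
    apply OnePoint.coe_injective
    rw [← hκ', Pool.Agent.N311.SH.J_zero, Pool.Agent.N311.SH.ext_infty,
      Pool.Agent.N311.SH.J_infty]
  have hkne : ∀ z, z ≠ 0 → k z ≠ 0 := fun z hz h => hz (k.injective (by rw [h, hk0]))
  have hκne : ∀ z, z ≠ 0 → κ z = (k z⁻¹)⁻¹ := by
    intro z hz
    apply OnePoint.coe_injective
    rw [← hκ', Pool.Agent.N311.SH.J_coe hz, Pool.Agent.N311.SH.ext_coe,
      Pool.Agent.N311.SH.J_coe (hkne _ (inv_ne_zero hz))]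
  have hκid : ∀ z, ‖z‖ ≤ R' + 1 → κ z = z := by
    intro z hz
    by_cases h0 : z = 0
    · rw [h0, hκ0]
    · rw [hκne z h0, hk, inv_inv]
      rw [norm_inv, one_div]
      exact inv_anti₀ (norm_pos_iff.2 h0) hz
  have hFκ : ∀ z, 1 / δ < ‖z‖ → F (κ z) = Pool.Agent.N311.SH.cj e z := by
    intro z hz
    have hz0 : 0 < ‖z‖ := lt_trans (by positivity) hz
    have h0 : z ≠ 0 := norm_pos_iff.1 hz0
    have h1 : ‖z⁻¹‖ < δ := by
      rw [norm_inv]
      rw [one_div] at hz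
      exact inv_lt_of_inv_lt₀ hδ hz
    have h2 := hkδ z⁻¹ h1
    rw [hf, Pool.Agent.N311.SH.J_coe (hkne _ (inv_ne_zero h0)), ← hκne z h0,
      Pool.Agent.N311.SH.ext_coe] at h2
    have h3 := congrArg Pool.Agent.N311.SH.J h2
    have h4 : Pool.Agent.N311.SH.cj e z⁻¹ ≠ 0 := by
      rw [Ne, Pool.Agent.N311.SH.cj_eq_zero]
      exact inv_ne_zero h0
    rw [Pool.Agent.N311.SH.J_J, Pool.Agent.N311.SH.J_coe h4, Pool.Agent.N311.SH.cj_inv,
      inv_inv] at h3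
    exact OnePoint.coe_injective h3
  have hκO : OP κ := by
    refine ha κ 0 1 one_pos fun z hz => hκid z ?_
    rw [sub_zero] at hz
    linarith
  refine ⟨κ.trans F, fun z hz => ?_, ?_⟩
  · show F (κ z) = F z
    rw [hκid z (by linarith)]
  · cases e with
    | false =>
      refine ⟨1 / δ + 1, fun z hz => ?_⟩
      show F (κ z) = z
      rw [hFκ z (by linarith), Pool.Agent.N311.SH.cj_false]
    | true =>
      exfalso
      refine hb (κ.trans F) (hκO.trans hF) ((1 / δ + 2 : ℝ) : ℂ)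
        ((starRingEnd ℂ) ((1 / δ + 2 : ℝ) : ℂ)) 1 one_pos fun z hz => ?_
      show F (κ z) = _
      rw [hFκ z, Pool.Agent.N311.SH.cj_true, ← map_add, sub_add_cancel]
      have hpos : 0 < 1 / δ := by positivity
      have h1 : ‖((1 / δ + 2 : ℝ) : ℂ)‖ = 1 / δ + 2 := by
        rw [Complex.norm_real, Real.norm_eq_abs, abs_of_pos (by linarith)]
      have h2 : ‖((1 / δ + 2 : ℝ) : ℂ)‖ ≤ ‖z‖ + ‖z - ((1 / δ + 2 : ℝ) : ℂ)‖ := by
        have e1 : ((1 / δ + 2 : ℝ) : ℂ) = z - (z - ((1 / δ + 2 : ℝ) : ℂ)) := by ring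
        conv_lhs => rw [e1]
        exact norm_sub_le _ _
      linarith

end Pool.Agent.H331.SM2
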