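import Pool.Agent.H10.MW.Basic
import Pool.Graph.R_seed8.H66R2.RZ_Par
import Pool.Graph.R_pool_sql_team_seeded_63374d34.N550.KH.Cut

/-!
# Project SM2 (helper10): `S_LINES` from `S_FIBV` and `S_FIBH`
-/

set_option autoImplicit false

open Set Filter Topology Metric MeasureTheory
open scoped ContDiff

noncomputable section

namespace Pool.Agent.H356.SM2.Lines

open Pool.Agent.H10.MW

/-! ### smoothness of the primitive in the second variable -/

theorem prim_contDiff (f : ℝ × ℝ → ℝ) (hf : ContDiff ℝ ∞ f) (c : ℝ) :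
    ContDiff ℝ ∞ (fun p : ℝ × ℝ => ∫ t in c..p.2, f (p.1, t)) := by
  have e : (fun p : ℝ × ℝ => ∫ t in c..p.2, f (p.1, t)) =
      fun p : ℝ × ℝ => (p.2 - c) * ∫ τ in (0 : ℝ)..1, f (p.1, c + (p.2 - c) * τ) := by
    funext p
    rw [← smul_eq_mul, intervalIntegral.smul_integral_comp_add_mul (fun t => f (p.1, t)) (p.2 - c) c]
    simp
  rw [e]
  have h1 : ContDiff ℝ ∞ (fun q : (ℝ × ℝ) × ℝ => f (q.1.1, c + (q.1.2 - c) * q.2)) := by
    refine hf.comp ?_
    fun_prop
  have h2 := Pool.Agent.H66R2.RZPar.contDiff_int 0 1 (ℝ × ℝ) ℝ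
    (fun q : (ℝ × ℝ) × ℝ => f (q.1.1, c + (q.1.2 - c) * q.2)) h1
  exact (contDiff_snd.sub contDiff_const).mul h2

theorem prim_deriv (f : ℝ × ℝ → ℝ) (hf : Continuous f) (c x y : ℝ) :
    HasDerivAt (fun t => ∫ u in c..t, f (x, u)) (f (x, y)) y := by
  have hc : Continuous fun u => f (x, u) := by fun_prop
  exact (hc.integral_hasStrictDerivAt c y).hasDerivAt

theorem prim_bound (f : ℝ × ℝ → ℝ) (C : ℝ) (hC : ∀ p, |f p| ≤ C) (c x y : ℝ) :
    |∫ u in c..y, f (x, u)| ≤ C * |y - c| := by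
  have := intervalIntegral.norm_integral_le_of_norm_le_const (a := c) (b := y) (C := C)
    (f := fun u => f (x, u)) (fun u _ => by simpa using hC (x, u))
  simpa using this

/-! ### the function -/

theorem funL (n : ℕ) (s y₀ : ℝ) (hs : 0 < s) (r : ℝ × ℝ → ℝ) (hr : ContDiff ℝ ∞ r) (C m : ℝ)
    (hC : 0 ≤ C) (hm : 0 < m) (hm1 : m ≤ 1) (hrm : ∀ p, m ≤ r p) (hrC : ∀ p, |r p - 1| ≤ C) :
    ∃ (Y D : ℝ × ℝ → ℝ) (τ : ℝ), 0 < τ ∧ ContDiff ℝ ∞ Y ∧
      (∀ x y, HasDerivAt (fun t => Y (x, t)) (D (x, y)) y) ∧ (∀ p, m / 2 ≤ D p) ∧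
      (∀ p, |Y p - p.2| ≤ (n + 1) * (C * s)) ∧
      (∀ x y, ∀ j : ℕ, j ≤ n → y = y₀ + j * s → Y (x, y) = y) ∧
      (∀ x y, ∀ j : ℕ, j ≤ n → |y - (y₀ + j * s)| < τ → D (x, y) = r (x, y)) ∧
      (∀ x, (∀ t, r (x, t) = 1) → ∀ y, Y (x, y) = y) ∧
      (∀ x y, |y₀| + (n + 1) * s ≤ |y| → Y (x, y) = y) := by
  obtain ⟨χ, ρ, hχ, hρ, hρs, h1, h0, h01, hb⟩ :=
    Pool.Agent.N550.KH.Cut.main (m / (2 * (C + 1))) (s / 3) (by positivity) (by positivity)
  have hχ0 : ∀ t, s / 3 < |t| → deriv χ t = 0 := by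
    intro t ht
    have : χ =ᶠ[𝓝 t] fun _ => (0 : ℝ) := by
      have ho : IsOpen {u : ℝ | s / 3 < |u|} := isOpen_lt continuous_const continuous_abs
      filter_upwards [ho.mem_nhds ht] with u hu
      exact h0 u (le_of_lt hu)
    rw [this.deriv_eq]
    simp
  have hχ1 : ∀ t, |t| < ρ → deriv χ t = 0 := by
    intro t ht
    have : χ =ᶠ[𝓝 t] fun _ => (1 : ℝ) := by
      have ho : IsOpen {u : ℝ | |u| < ρ} := isOpen_lt continuous_abs continuous_const
      filter_upwards [ho.mem_nhds ht] with u hu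
      exact h1 u (le_of_lt hu)
    rw [this.deriv_eq]
    simp
  set f : ℝ × ℝ → ℝ := fun p => r p - 1 with hf
  have hfs : ContDiff ℝ ∞ f := hr.sub contDiff_const
  set G : ℕ → ℝ × ℝ → ℝ := fun j p => ∫ t in (y₀ + j * s)..p.2, f (p.1, t) with hG
  have hGs : ∀ j, ContDiff ℝ ∞ (G j) := fun j => prim_contDiff f hfs _
  have hGd : ∀ j x y, HasDerivAt (fun t => G j (x, t)) (f (x, y)) y := fun j x y =>
    prim_deriv f hfs.continuous _ x y
  have hGb : ∀ j x y, |G j (x, y)| ≤ C * |y - (y₀ + j * s)| := fun j x y =>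
    prim_bound f C hrC _ x y
  set Y : ℝ × ℝ → ℝ := fun p => p.2 +
    ∑ j ∈ Finset.range (n + 1), χ (p.2 - (y₀ + j * s)) * G j p with hY
  set D : ℝ × ℝ → ℝ := fun p => 1 + ∑ j ∈ Finset.range (n + 1),
    (deriv χ (p.2 - (y₀ + j * s)) * G j p + χ (p.2 - (y₀ + j * s)) * f p) with hD
  -- at most one index contributes
  have hone : ∀ (y : ℝ) (j k : ℕ), j ≠ k → |y - (y₀ + j * s)| < s / 2 →
      s / 3 < |y - (y₀ + k * s)| := by
    intro y j k hjk h
    have h2 : s ≤ |((j : ℝ) - k) * s| := by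
      rw [abs_mul, abs_of_pos hs]
      have h3 : (1 : ℝ) ≤ |(j : ℝ) - k| := by
        have : (1 : ℤ) ≤ |(j : ℤ) - k| := by
          rcases Nat.lt_or_gt_of_ne hjk with h | h
          · rw [abs_of_nonpos (by omega)]; omega
          · rw [abs_of_nonneg (by omega)]; omega
        exact_mod_cast this
      nlinarith
    have h3 : |((j : ℝ) - k) * s| ≤ |y - (y₀ + k * s)| + |y - (y₀ + j * s)| := by
      have : ((j : ℝ) - k) * s = (y - (y₀ + k * s)) - (y - (y₀ + j * s)) := by ring
      rw [this]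
      exact abs_sub _ _
    linarith
  have hDs : ∀ x y, ∀ j : ℕ, j ≤ n → |y - (y₀ + j * s)| < s / 2 →
      D (x, y) = 1 + (deriv χ (y - (y₀ + j * s)) * G j (x, y) +
        χ (y - (y₀ + j * s)) * f (x, y)) := by
    intro x y j hj h
    rw [hD]
    simp only
    rw [Finset.sum_eq_single j]
    · intro k _ hk
      have := hone y j k (Ne.symm hk) h
      rw [hχ0 _ this, h0 _ this.le]
      ring
    · intro hk
      exact absurd (Finset.mem_range.2 (by omega)) hk
  have hD1 : ∀ x y, (∀ j : ℕ, j ≤ n → s / 2 ≤ |y - (y₀ + j * s)|) → D (x, y) = 1 := by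
    intro x y h
    rw [hD]
    simp only
    rw [Finset.sum_eq_zero]
    · ring
    · intro k hk
      have h2 := h k (by have := Finset.mem_range.1 hk; omega)
      have : s / 3 < |y - (y₀ + k * s)| := by linarith
      rw [hχ0 _ this, h0 _ this.le]
      ring
  refine ⟨Y, D, ρ, hρ, ?_, ?_, ?_, ?_, ?_, ?_, ?_, ?_⟩
  · refine contDiff_snd.add (ContDiff.sum fun j _ => ?_)
    refine ContDiff.mul ?_ (hGs j)
    exact hχ.comp (contDiff_snd.sub contDiff_const)
  · intro x y
    have h3 : ∀ j ∈ Finset.range (n + 1), HasDerivAt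
        (fun t : ℝ => χ (t - (y₀ + j * s)) * G j (x, t))
        (deriv χ (y - (y₀ + j * s)) * G j (x, y) + χ (y - (y₀ + j * s)) * f (x, y)) y := by
      intro j _
      have h4 : HasDerivAt (fun t : ℝ => χ (t - (y₀ + j * s)))
          (deriv χ (y - (y₀ + j * s))) y := by
        have h5 : HasDerivAt χ (deriv χ (y - (y₀ + j * s))) (y - (y₀ + j * s)) :=
          (hχ.differentiable (by simp)).differentiableAt.hasDerivAt
        have h6 := h5.comp_sub_const y (y₀ + j * s)
        exact h6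
      exact h4.mul (hGd j x y)
    have h4 := HasDerivAt.fun_sum h3
    exact (hasDerivAt_id y).add h4
  · rintro ⟨x, y⟩
    by_cases hy : ∃ j : ℕ, j ≤ n ∧ |y - (y₀ + j * s)| < s / 2
    · obtain ⟨j, hj, h⟩ := hy
      rw [hDs x y j hj h]
      set t := y - (y₀ + j * s)
      have h3 : |deriv χ t * G j (x, y)| ≤ m / 2 := by
        rw [abs_mul]
        calc |deriv χ t| * |G j (x, y)| ≤ |deriv χ t| * (C * |t|) :=
              mul_le_mul_of_nonneg_left (hGb j x y) (abs_nonneg _)
          _ = C * (|t| * |deriv χ t|) := by ring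
          _ ≤ C * (m / (2 * (C + 1))) := mul_le_mul_of_nonneg_left (hb t) hC
          _ ≤ m / 2 := by
              rw [mul_div_assoc', div_le_div_iff₀ (by positivity) (by norm_num)]
              nlinarith
      have h4 := (abs_le.1 h3).1
      have h5 : m ≤ 1 + χ t * f (x, y) := by
        rw [hf]
        simp only
        have h6 := hrm (x, y)
        obtain ⟨h7, h8⟩ := h01 t
        nlinarith
      linarith
    · push Not at hy
      rw [hD1 x y hy]
      linarith
  · rintro ⟨x, y⟩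
    have h3 : Y (x, y) - y = ∑ j ∈ Finset.range (n + 1), χ (y - (y₀ + j * s)) * G j (x, y) := by
      rw [hY]
      simp only
      ring
    simp only
    rw [h3]
    have h4 : |∑ j ∈ Finset.range (n + 1), χ (y - (y₀ + j * s)) * G j (x, y)| ≤
        ∑ j ∈ Finset.range (n + 1), C * s := by
      refine (Finset.abs_sum_le_sum_abs _ _).trans (Finset.sum_le_sum fun j _ => ?_)
      by_cases h5 : s / 3 ≤ |y - (y₀ + j * s)|
      · rw [h0 _ h5, zero_mul, abs_zero]
        positivity
      · push Not at h5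
        rw [abs_mul]
        have h6 := hGb j x y
        obtain ⟨h7, h8⟩ := h01 (y - (y₀ + j * s))
        rw [abs_of_nonneg h7]
        have h9 : C * |y - (y₀ + j * s)| ≤ C * s := mul_le_mul_of_nonneg_left (by linarith) hC
        have h10 := abs_nonneg (G j (x, y))
        calc χ (y - (y₀ + j * s)) * |G j (x, y)| ≤ 1 * |G j (x, y)| :=
              mul_le_mul_of_nonneg_right h8 h10
          _ ≤ C * s := by linarith
    simpa using h4
  · intro x y j hj hy
    rw [hY]
    simp only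
    rw [Finset.sum_eq_single j]
    · have : G j (x, y) = 0 := by
        rw [hG]
        simp only
        rw [hy, intervalIntegral.integral_same]
      rw [this]
      ring
    · intro k _ hk
      have h3 : |y - (y₀ + j * s)| < s / 2 := by
        rw [hy]
        simp
        positivity
      have := hone y j k (Ne.symm hk) h3
      rw [h0 _ this.le]
      ring
    · intro hk
      exact absurd (Finset.mem_range.2 (by omega)) hk
  · intro x y j hj h
    rw [hDs x y j hj (by linarith), hχ1 _ h, h1 _ h.le, hf]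
    simp only
    ring
  · intro x hx y
    have h3 : ∀ j, G j (x, y) = 0 := by
      intro j
      rw [hG]
      simp only
      have : (fun t => f (x, t)) = fun _ => (0 : ℝ) := by
        funext t
        rw [hf]
        simp only
        rw [hx t, sub_self]
      rw [this]
      simp
    rw [hY]
    simp only [h3]
    simp
  · intro x y h
    rw [hY]
    simp only
    rw [Finset.sum_eq_zero, add_zero]
    intro j hj
    have hj' : (j : ℝ) ≤ n := by
      have := Finset.mem_range.1 hj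
      exact_mod_cast (by omega : j ≤ n)
    have h3 : s / 3 ≤ |y - (y₀ + j * s)| := by
      have h4 : |y| ≤ |y - (y₀ + j * s)| + |y₀ + j * s| := by
        have := abs_add_le (y - (y₀ + j * s)) (y₀ + j * s)
        simpa using this
      have h5 : |y₀ + j * s| ≤ |y₀| + j * s := by
        refine (abs_add_le _ _).trans ?_
        rw [abs_of_nonneg (by positivity : (0 : ℝ) ≤ j * s)]
      nlinarith
    rw [h0 _ h3, zero_mul]

/-! ### the Jacobian determinant is smooth -/

theorem det_formula (L : ℂ →L[ℝ] ℂ) :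
    L.det = (L 1).re * (L Complex.I).im - (L Complex.I).re * (L 1).im := by
  change LinearMap.det _ = _
  rw [← LinearMap.det_toMatrix Complex.basisOneI, Matrix.det_fin_two]
  simp [LinearMap.toMatrix_apply, Complex.basisOneI]

theorem contDiff_J {g : ℂ → ℂ} (hg : ContDiff ℝ ∞ g) : ContDiff ℝ ∞ (J g) := by
  have h1 : ContDiff ℝ ∞ (fderiv ℝ g) := hg.fderiv_right (m := ∞) (by simp)
  have h2 : ∀ v : ℂ, ContDiff ℝ ∞ fun z => fderiv ℝ g z v := fun v => h1.clm_apply contDiff_const
  have h3 : ∀ v : ℂ, ContDiff ℝ ∞ fun z => (fderiv ℝ g z v).re := fun v =>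
    Complex.reCLM.contDiff.comp (h2 v)
  have h4 : ∀ v : ℂ, ContDiff ℝ ∞ fun z => (fderiv ℝ g z v).im := fun v =>
    Complex.imCLM.contDiff.comp (h2 v)
  have e : J g = fun z => (fderiv ℝ g z 1).re * (fderiv ℝ g z Complex.I).im -
      (fderiv ℝ g z Complex.I).re * (fderiv ℝ g z 1).im := by
    funext z
    exact det_formula _
  rw [e]
  exact ((h3 1).mul (h4 _)).sub ((h3 _).mul (h4 1))

/-! ### correction in one direction -/

theorem step (P : ℂ →L[ℝ] ℝ × ℝ) (E : ℝ × ℝ →L[ℝ] ℂ) (v : ℂ) (hEP : ∀ z, E (P z) = z)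
    (hPE : ∀ p, P (E p) = p) (hv : P v = (0, 1)) (hP : ∀ z, ‖P z‖ ≤ ‖z‖)
    (hP2 : ∀ z, ‖z‖ ≤ 2 * ‖P z‖)
    (hfib : ∀ (Y : ℂ → ℝ) (C : ℝ), ContDiff ℝ ∞ Y → (∀ z, 0 < fderiv ℝ Y z v) →
      (∀ z, |Y z - (P z).2| ≤ C) →
      ∃ κ : ℂ ≃ₜ ℂ, (∀ z, κ z = E ((P z).1, Y z)) ∧ (∀ z, Good κ z) ∧
        ∀ z, J κ z = fderiv ℝ Y z v)
    (n : ℕ) (s y₀ : ℝ) (hs : 0 < s) (g : ℂ ≃ₜ ℂ) (hg : ∀ z, Good g z) (hgc : CSupp g) :
    ∃ (κ : ℂ ≃ₜ ℂ) (τ : ℝ), 0 < τ ∧ CSupp κ ∧ (∀ z, Good κ z) ∧
      (∀ z, (P (κ z)).1 = (P z).1) ∧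
      (∀ z, ∀ j : ℕ, j ≤ n → (y₀ + j * s ≤ (P (κ z)).2 ↔ y₀ + j * s ≤ (P z).2)) ∧
      (∀ z, ∀ j : ℕ, j ≤ n → ((P (κ z)).2 ≤ y₀ + j * s ↔ (P z).2 ≤ y₀ + j * s)) ∧
      (∀ z, (∀ w, (P w).1 = (P z).1 → J g w = 1) → κ z = z) ∧
      (∀ z, ∀ j : ℕ, j ≤ n → |(P z).2 - (y₀ + j * s)| < τ →
        J (fun z => g (κ.symm z)) z = 1) := by
  obtain ⟨R₀, hR₀⟩ := hgc
  set R : ℝ := max R₀ 0 + 1 with hRdef
  have hR1 : 1 ≤ R := by
    have := le_max_right R₀ 0
    linarith
  have hJR : ∀ z, R ≤ ‖z‖ → J g z = 1 := by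
    intro z hz
    have h1 : g =ᶠ[𝓝 z] fun z => z := by
      have ho : IsOpen {w : ℂ | R₀ < ‖w‖} := isOpen_lt continuous_const continuous_norm
      have hm : z ∈ {w : ℂ | R₀ < ‖w‖} := by
        have := le_max_left R₀ 0
        simp only [Set.mem_ofPred_eq]
        linarith
      filter_upwards [ho.mem_nhds hm] with w hw
      exact hR₀ w (le_of_lt hw)
    rw [J_congr h1]
    exact J_id z
  have hgs : ContDiff ℝ ∞ g := contDiff_of_good hg
  have hJs : ContDiff ℝ ∞ (J g) := contDiff_J hgs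
  have hK : IsCompact (closedBall (0 : ℂ) R) := isCompact_closedBall 0 R
  -- the bounds
  obtain ⟨C₀, hC₀⟩ := hK.exists_bound_of_continuousOn
    (hJs.continuous.sub continuous_const : Continuous fun z => J g z - 1).continuousOn
  obtain ⟨z₁, hz₁, hmin⟩ := hK.exists_isMinOn ⟨0, by simp; linarith⟩ hJs.continuous.continuousOn
  set C : ℝ := max C₀ 0 with hCdef
  set m : ℝ := min (J g z₁) 1 with hmdef
  have hC : 0 ≤ C := le_max_right _ _
  have hm : 0 < m := lt_min (hg z₁).pos one_pos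
  have hm1 : m ≤ 1 := min_le_right _ _
  have hJm : ∀ z, m ≤ J g z := by
    intro z
    by_cases hz : R ≤ ‖z‖
    · rw [hJR z hz]
      exact hm1
    · have hz' : z ∈ closedBall (0 : ℂ) R := by
        simp only [mem_closedBall, dist_zero_right]
        linarith
      exact (min_le_left _ _).trans (hmin hz')
  have hJC : ∀ z, |J g z - 1| ≤ C := by
    intro z
    by_cases hz : R ≤ ‖z‖
    · rw [hJR z hz, sub_self, abs_zero]
      exact hC
    · have hz' : z ∈ closedBall (0 : ℂ) R := by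
        simp only [mem_closedBall, dist_zero_right]
        linarith
      exact (hC₀ z hz').trans (le_max_left _ _)
  obtain ⟨Y, D, ρ, hρ, hYs, hYD, hDm, hYC, hYl, hDr, hYx, hYy⟩ := funL n s y₀ hs
    (fun p => J g (E p)) (hJs.comp E.contDiff) C m hC hm hm1 (fun p => hJm _) (fun p => hJC _)
  -- derivative
  have hfd : ∀ z, fderiv ℝ (fun z => Y (P z)) z v = D (P z) := by
    intro z
    have h1 : HasFDerivAt (fun z => Y (P z)) ((fderiv ℝ Y (P z)).comp P) z :=
      ((hYs.differentiable (by simp)).differentiableAt.hasFDerivAt).comp z P.hasFDerivAt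
    rw [h1.fderiv, ContinuousLinearMap.comp_apply, hv]
    have h2 : HasDerivAt (fun t : ℝ => ((P z).1, t)) ((0 : ℝ), (1 : ℝ)) (P z).2 :=
      (hasDerivAt_const _ _).prodMk (hasDerivAt_id _)
    have h3 : HasFDerivAt Y (fderiv ℝ Y (P z)) ((P z).1, (P z).2) :=
      (hYs.differentiable (by simp)).differentiableAt.hasFDerivAt
    have h4 : HasDerivAt (fun t : ℝ => Y ((P z).1, t)) (fderiv ℝ Y (P z) (0, 1)) (P z).2 :=
      h3.comp_hasDerivAt _ h2
    exact h4.unique (hYD (P z).1 (P z).2)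
  obtain ⟨κ, hκ, hκg, hκJ⟩ := hfib (fun z => Y (P z)) ((n + 1) * (C * s)) (hYs.comp P.contDiff)
    (fun z => by rw [hfd z]; have := hDm (P z); linarith) (fun z => hYC (P z))
  have hκ1 : ∀ z, (P (κ z)).1 = (P z).1 := fun z => by rw [hκ, hPE]
  have hκ2 : ∀ z, (P (κ z)).2 = Y (P z) := fun z => by rw [hκ, hPE]
  -- growth
  have hgrow : ∀ x y y', y ≤ y' → m / 2 * (y' - y) ≤ Y (x, y') - Y (x, y) := by
    intro x y y' hy
    refine mul_sub_le_image_sub_of_le_deriv (f := fun t => Y (x, t)) ?_ ?_ hy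
    · exact fun t => (hYD x t).differentiableAt
    · intro t
      rw [(hYD x t).deriv]
      exact hDm _
  have hup : ∀ z, ∀ j : ℕ, j ≤ n → y₀ + j * s ≤ (P z).2 →
      m / 2 * ((P z).2 - (y₀ + j * s)) ≤ (P (κ z)).2 - (y₀ + j * s) := by
    intro z j hj h
    have h1 := hgrow (P z).1 _ _ h
    rw [hYl (P z).1 (y₀ + j * s) j hj rfl] at h1
    rw [hκ2]
    exact h1
  have hdn : ∀ z, ∀ j : ℕ, j ≤ n → (P z).2 ≤ y₀ + j * s →
      m / 2 * (y₀ + j * s - (P z).2) ≤ y₀ + j * s - (P (κ z)).2 := by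
    intro z j hj h
    have h1 := hgrow (P z).1 _ _ h
    rw [hYl (P z).1 (y₀ + j * s) j hj rfl] at h1
    rw [hκ2]
    exact h1
  have hm2 : 0 < m / 2 := by linarith
  refine ⟨κ, m / 2 * ρ, by positivity, ?_, hκg, hκ1, ?_, ?_, ?_, ?_⟩
  · -- compact support
    refine ⟨2 * (R + (|y₀| + (n + 1) * s)), fun z hz => ?_⟩
    have h1 : R + (|y₀| + (n + 1) * s) ≤ ‖P z‖ := by
      have := hP2 z
      linarith
    have h2 : Y (P z) = (P z).2 := by
      rw [Prod.norm_def] at h1
      rcases le_max_iff.1 h1 with h1 | h1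
      · refine hYx (P z).1 (fun t => ?_) (P z).2
        refine hJR _ ?_
        refine le_trans ?_ (hP (E ((P z).1, t)))
        rw [hPE]
        refine le_trans ?_ (norm_fst_le _)
        have : 0 ≤ |y₀| + (n + 1) * s := by positivity
        linarith
      · refine hYy (P z).1 (P z).2 ?_
        rw [Real.norm_eq_abs] at h1
        linarith
    rw [hκ, h2]
    exact hEP z
  · intro z j hj
    constructor
    · intro h
      by_contra h1
      push Not at h1
      have := hdn z j hj h1.le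
      nlinarith
    · intro h
      have := hup z j hj h
      nlinarith
  · intro z j hj
    constructor
    · intro h
      by_contra h1
      push Not at h1
      have := hup z j hj h1.le
      nlinarith
    · intro h
      have := hdn z j hj h
      nlinarith
  · intro z hz
    have h2 : Y (P z) = (P z).2 := by
      refine hYx (P z).1 (fun t => ?_) (P z).2
      refine hz _ ?_
      rw [hPE]
    rw [hκ, h2]
    exact hEP z
  · intro w j hj hw
    set z := κ.symm w with hz
    have hzw : κ z = w := κ.apply_symm_apply w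
    have h1 : |(P z).2 - (y₀ + j * s)| < ρ := by
      rw [← hzw] at hw
      have h2 := abs_lt.1 hw
      rw [abs_lt]
      rcases le_total (y₀ + j * s) (P z).2 with h | h
      · have h3 := hup z j hj h
        constructor
        · linarith
        · have : m / 2 * ((P z).2 - (y₀ + j * s)) < m / 2 * ρ := by linarith
          exact lt_of_mul_lt_mul_left this hm2.le
      · have h3 := hdn z j hj h
        constructor
        · have : m / 2 * (y₀ + j * s - (P z).2) < m / 2 * ρ := by linarith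
          have := lt_of_mul_lt_mul_left this hm2.le
          linarith
        · linarith
    have h2 : J κ z = J g z := by
      rw [hκJ, hfd]
      have := hDr (P z).1 (P z).2 j hj h1
      rw [this, hEP]
    have h3 : J (fun z => g (κ.symm z)) w = J g z * J κ.symm w :=
      J_comp (hg _).differentiableAt (good_symm κ hκg w).differentiableAt
    have h4 := J_symm κ (hκg z)
    rw [hzw, h2] at h4
    rw [h3, mul_comm]
    exact h4

/-! ### the theorem -/

theorem main (hv : S_FIBV) (hh : S_FIBH) : S_LINES := by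
  intro n s x₀ y₀ g hs hg hgc
  -- vertical direction
  obtain ⟨κH, τ, hτ, hHc, hHg, hH1, hHu, hHd, -, hHJ⟩ := step
    (Complex.reCLM.prod Complex.imCLM)
    (Complex.equivRealProdCLM.symm : ℝ × ℝ →L[ℝ] ℂ) Complex.I
    (fun z => by simp [Complex.ext_iff]) (fun p => by simp) (by simp)
    (fun z => by
      simp only [ContinuousLinearMap.prod_apply, Complex.reCLM_apply, Complex.imCLM_apply,
        Prod.norm_def, Real.norm_eq_abs]
      exact max_le (Complex.abs_re_le_norm z) (Complex.abs_im_le_norm z))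
    (fun z => by
      simp only [ContinuousLinearMap.prod_apply, Complex.reCLM_apply, Complex.imCLM_apply,
        Prod.norm_def, Real.norm_eq_abs]
      have h1 := Complex.norm_le_abs_re_add_abs_im z
      have h2 := le_max_left |z.re| |z.im|
      have h3 := le_max_right |z.re| |z.im|
      linarith)
    (fun Y C h1 h2 h3 => by
      obtain ⟨κ, k1, k2, k3⟩ := hv Y C h1 h2 (fun z => by simpa using h3 z)
      exact ⟨κ, fun z => by rw [k1 z]; simp [Complex.ext_iff], k2, k3⟩)
    n s y₀ hs g hg hgc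
  simp only [ContinuousLinearMap.prod_apply, Complex.reCLM_apply, Complex.imCLM_apply] at *
  -- horizontal direction
  set g₁ : ℂ ≃ₜ ℂ := κH.symm.trans g with hg₁
  have hg₁g : ∀ z, Good g₁ z := fun z => (hg _).comp (good_symm κH hHg z)
  obtain ⟨κV, σ, hσ, hVc, hVg, hV1, hVu, hVd, hVid, hVJ⟩ := step
    (Complex.imCLM.prod Complex.reCLM)
    ((Complex.equivRealProdCLM.symm : ℝ × ℝ →L[ℝ] ℂ).comp
      ((ContinuousLinearMap.snd ℝ ℝ ℝ).prod (ContinuousLinearMap.fst ℝ ℝ ℝ))) 1
    (fun z => by simp [Complex.ext_iff]) (fun p => by simp) (by simp)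
    (fun z => by
      simp only [ContinuousLinearMap.prod_apply, Complex.reCLM_apply, Complex.imCLM_apply,
        Prod.norm_def, Real.norm_eq_abs]
      exact max_le (Complex.abs_im_le_norm z) (Complex.abs_re_le_norm z))
    (fun z => by
      simp only [ContinuousLinearMap.prod_apply, Complex.reCLM_apply, Complex.imCLM_apply,
        Prod.norm_def, Real.norm_eq_abs]
      have h1 := Complex.norm_le_abs_re_add_abs_im z
      have h2 := le_max_left |z.im| |z.re|
      have h3 := le_max_right |z.im| |z.re|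
      linarith)
    (fun X C h1 h2 h3 => by
      obtain ⟨κ, k1, k2, k3⟩ := hh X C h1 h2 (fun z => by simpa using h3 z)
      exact ⟨κ, fun z => by rw [k1 z]; simp [Complex.ext_iff], k2, k3⟩)
    n s x₀ hs g₁ hg₁g (hHc.symm.trans hgc)
  simp only [ContinuousLinearMap.prod_apply, Complex.reCLM_apply, Complex.imCLM_apply] at *
  have hJ₁ : ∀ z : ℂ, ∀ j : ℕ, j ≤ n → |z.im - (y₀ + j * s)| < τ → J g₁ z = 1 := hHJ
  have hstrip : ∀ z : ℂ, ∀ j : ℕ, j ≤ n → |z.im - (y₀ + j * s)| < τ → κV z = z := by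
    intro z j hj hz
    refine hVid z fun w hw => ?_
    refine hJ₁ w j hj ?_
    rw [hw]
    exact hz
  refine ⟨κV.symm.trans κH.symm, hVc.symm.trans hHc.symm, fun z =>
    (good_symm κH hHg _).comp (good_symm κV hVg z), ?_, ?_⟩
  · intro i j hi hj
    have hi1 : ((i + 1 : ℕ) : ℝ) = (i : ℝ) + 1 := by push_cast; ring
    have hj1 : ((j + 1 : ℕ) : ℝ) = (j : ℝ) + 1 := by push_cast; ring
    set Q := CRect (x₀ + i * s) (x₀ + (i + 1) * s) (y₀ + j * s) (y₀ + (j + 1) * s) with hQ
    have hHQ : ∀ z, κH z ∈ Q ↔ z ∈ Q := by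
      intro z
      rw [hQ]
      unfold CRect
      simp only [Set.mem_ofPred_eq]
      have e1 := hH1 z
      have e2 := hHu z j hj.le
      have e3 := hHd z (j + 1) hj
      rw [hj1] at e3
      rw [e1, e2, e3]
    have hVQ : ∀ z, κV z ∈ Q ↔ z ∈ Q := by
      intro z
      rw [hQ]
      unfold CRect
      simp only [Set.mem_ofPred_eq]
      have e1 := hV1 z
      have e2 := hVu z i hi.le
      have e3 := hVd z (i + 1) hi
      rw [hi1] at e3
      rw [e1, e2, e3]
    ext w
    constructor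
    · rintro ⟨z, hz, rfl⟩
      rw [Homeomorph.trans_apply, ← hHQ, Homeomorph.apply_symm_apply, ← hVQ,
        Homeomorph.apply_symm_apply]
      exact hz
    · intro hw
      refine ⟨κV (κH w), ?_, ?_⟩
      · rw [hVQ, hHQ]
        exact hw
      · simp
  · have hx : ∀ w : ℂ, ∀ i : ℕ, i ≤ n → |w.re - (x₀ + i * s)| < σ →
        J (fun z => g ((κV.symm.trans κH.symm) z)) w = 1 := hVJ
    have hy : ∀ w : ℂ, ∀ j : ℕ, j ≤ n → |w.im - (y₀ + j * s)| < τ →
        J (fun z => g ((κV.symm.trans κH.symm) z)) w = 1 := by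
      intro w j hj hw
      have h1 : (fun z => g ((κV.symm.trans κH.symm) z)) =ᶠ[𝓝 w] g₁ := by
        have ho : IsOpen {u : ℂ | |u.im - (y₀ + j * s)| < τ} :=
          isOpen_lt (by fun_prop) continuous_const
        filter_upwards [ho.mem_nhds hw] with u hu
        have h2 : κV.symm u = u := by
          rw [Homeomorph.symm_apply_eq]
          exact (hstrip u j hj hu).symm
        show g (κH.symm (κV.symm u)) = g (κH.symm u)
        rw [h2]
      rw [J_congr h1]
      exact hJ₁ w j hj hw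
    intro z hz
    rcases hz with ⟨i, hi, hz⟩ | ⟨j, hj, hz⟩
    · have ho : IsOpen {u : ℂ | |u.re - (x₀ + i * s)| < σ} :=
        isOpen_lt (by fun_prop) continuous_const
      have hm : z ∈ {u : ℂ | |u.re - (x₀ + i * s)| < σ} := by
        simp only [Set.mem_ofPred_eq]
        rw [hz, sub_self, abs_zero]
        exact hσ
      filter_upwards [ho.mem_nhds hm] with w hw
      exact hx w i hi hw
    · have ho : IsOpen {u : ℂ | |u.im - (y₀ + j * s)| < τ} :=
        isOpen_lt (by fun_prop) continuous_const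
      have hm : z ∈ {u : ℂ | |u.im - (y₀ + j * s)| < τ} := by
        simp only [Set.mem_ofPred_eq]
        rw [hz, sub_self, abs_zero]
        exact hτ
      filter_upwards [ho.mem_nhds hm] with w hw
      exact hy w j hj hw

end Pool.Agent.H356.SM2.Lines

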