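import Pool.Agent.H10.MW.Basic
import Pool.Graph.R_seed8.H66R2.RZ_Par

/-!
# SM2-MOSER: densities with the right total mass are Jacobian determinants
-/

set_option autoImplicit false

open Set Filter Topology Metric MeasureTheory
open scoped ContDiff

noncomputable section

namespace Pool.Agent.H811.SM2.Moser

open Pool.Agent.H10.MW Pool.Agent.Helper11.PlaneEuler

/-- the primitive in the vertical direction -/
def prim (φ : ℂ → ℝ) (c : ℝ) (z : ℂ) : ℝ := ∫ t in c..z.im, φ ⟨z.re, t⟩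

theorem contDiff_mk {E : Type} [NormedAddCommGroup E] [NormedSpace ℝ E] {f g : E → ℝ}
    (hf : ContDiff ℝ ∞ f) (hg : ContDiff ℝ ∞ g) : ContDiff ℝ ∞ (fun w => (⟨f w, g w⟩ : ℂ)) :=
  Complex.equivRealProdCLM.symm.contDiff.comp (hf.prodMk hg)

theorem prim_smooth {φ : ℂ → ℝ} (hφ : ContDiff ℝ ∞ φ) (c : ℝ) : ContDiff ℝ ∞ (prim φ c) := by
  have h1 : prim φ c = fun z => (z.im - c) *
      ∫ τ in (0 : ℝ)..1, φ ⟨z.re, (z.im - c) * τ + c⟩ := by
    funext z
    unfold prim
    have := intervalIntegral.mul_integral_comp_mul_add (a := 0) (b := 1)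
      (f := fun t => φ ⟨z.re, t⟩) (c := z.im - c) (d := c)
    rw [this]
    congr 1 <;> ring
  rw [h1]
  refine (Complex.imCLM.contDiff.sub contDiff_const).mul ?_
  refine Pool.Agent.H66R2.RZPar.contDiff_int 0 1 ℂ ℝ
    (fun p => φ ⟨p.1.re, (p.1.im - c) * p.2 + c⟩) (hφ.comp (contDiff_mk ?_ ?_))
  · exact Complex.reCLM.contDiff.comp contDiff_fst
  · exact (((Complex.imCLM.contDiff.comp contDiff_fst).sub contDiff_const).mul contDiff_snd).add
      contDiff_const

theorem hasDerivAt_mk (x y : ℝ) : HasDerivAt (fun y : ℝ => (⟨x, y⟩ : ℂ)) Complex.I y := by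
  have h1 : (fun y : ℝ => (⟨x, y⟩ : ℂ)) = fun y : ℝ => (x : ℂ) + (y : ℂ) * Complex.I := by
    funext y
    exact Complex.mk_eq_add_mul_I x y
  rw [h1]
  have := (((hasDerivAt_id' y).ofReal_comp).mul_const Complex.I).const_add (x : ℂ)
  simpa using this

theorem continuous_slice {φ : ℂ → ℝ} (hφ : Continuous φ) (x : ℝ) :
    Continuous fun t : ℝ => φ ⟨x, t⟩ :=
  hφ.comp (Complex.equivRealProdCLM.symm.continuous.comp (continuous_const.prodMk continuous_id))

theorem prim_deriv {φ : ℂ → ℝ} (hφ : ContDiff ℝ ∞ φ) (c : ℝ) (z : ℂ) :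
    fderiv ℝ (prim φ c) z Complex.I = φ z := by
  have h1 : HasDerivAt (fun y : ℝ => prim φ c ⟨z.re, y⟩) (φ z) z.im :=
    ((continuous_slice hφ.continuous z.re).integral_hasStrictDerivAt c z.im).hasDerivAt
  have h0 : HasFDerivAt (prim φ c) (fderiv ℝ (prim φ c) z) ⟨z.re, z.im⟩ :=
    ((prim_smooth hφ c).differentiable (by simp) z).hasFDerivAt
  have h2 : HasDerivAt (fun y : ℝ => prim φ c ⟨z.re, y⟩) (fderiv ℝ (prim φ c) z Complex.I) z.im :=
    HasFDerivAt.comp_hasDerivAt (l := prim φ c) (f := fun y : ℝ => (⟨z.re, y⟩ : ℂ)) z.im h0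
      (hasDerivAt_mk z.re z.im)
  exact h2.unique h1

/-- primitives of smooth functions of one variable -/
theorem prim1 {h : ℝ → ℝ} (hh : ContDiff ℝ ∞ h) (a : ℝ) :
    ContDiff ℝ ∞ (fun x => ∫ t in a..x, h t) ∧
      ∀ x, HasDerivAt (fun x => ∫ t in a..x, h t) (h x) x := by
  have h1 : ∀ x, HasDerivAt (fun x => ∫ t in a..x, h t) (h x) x := fun x =>
    (hh.continuous.integral_hasStrictDerivAt a x).hasDerivAt
  refine ⟨?_, h1⟩
  rw [contDiff_infty_iff_deriv]
  refine ⟨fun x => (h1 x).differentiableAt, ?_⟩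
  have : deriv (fun x => ∫ t in a..x, h t) = h := funext fun x => (h1 x).deriv
  rw [this]
  exact hh

theorem exists_box {K : Set ℂ} (hK : IsCompact K) {a b c d : ℝ} (hKR : K ⊆ Rect a b c d)
    (hab : a < b) (hcd : c < d) : ∃ a' b' c' d' : ℝ, a < a' ∧ a' ≤ b' ∧ b' < b ∧ c < c' ∧
      c' ≤ d' ∧ d' < d ∧ K ⊆ CRect a' b' c' d' := by
  rcases K.eq_empty_or_nonempty with rfl | hne
  · exact ⟨(a + b) / 2, (a + b) / 2, (c + d) / 2, (c + d) / 2, by linarith, le_rfl, by linarith,
      by linarith, le_rfl, by linarith, empty_subset _⟩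
  · obtain ⟨z1, hz1, h1⟩ := hK.exists_isMinOn hne Complex.continuous_re.continuousOn
    obtain ⟨z2, hz2, h2⟩ := hK.exists_isMaxOn hne Complex.continuous_re.continuousOn
    obtain ⟨z3, hz3, h3⟩ := hK.exists_isMinOn hne Complex.continuous_im.continuousOn
    obtain ⟨z4, hz4, h4⟩ := hK.exists_isMaxOn hne Complex.continuous_im.continuousOn
    refine ⟨z1.re, z2.re, z3.im, z4.im, (hKR hz1).1, h1 hz2, (hKR hz2).2.1, (hKR hz3).2.2.1,
      h3 hz4, (hKR hz4).2.2.2, fun z hz => ⟨h1 hz, h2 hz, h3 hz, h4 hz⟩⟩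

theorem exists_eta (c d m0 : ℝ) (h0 : 0 < m0) (h1 : m0 ≤ d - c) :
    ∃ (η : ℝ → ℝ) (e : ℝ), 0 < e ∧ c + e ≤ d - e ∧ ContDiff ℝ ∞ η ∧ (∀ y, 0 ≤ η y) ∧
      (∀ y, y ≤ c + e → η y = 0) ∧ (∀ y, d - e ≤ y → η y = 0) ∧ (∫ y in c..d, η y) = 1 ∧
      ∀ y, (d - c - m0) * η y < 1 := by
  obtain ⟨e, he⟩ : ∃ e, e = m0 / 8 := ⟨_, rfl⟩
  have he0 : 0 < e := by rw [he]; positivity
  obtain ⟨β, hβ⟩ : ∃ β : ℝ → ℝ, β = fun y => Real.smoothTransition ((y - (c + e)) / e) *
    Real.smoothTransition (((d - e) - y) / e) := ⟨_, rfl⟩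
  have hβs : ContDiff ℝ ∞ β := by
    rw [hβ]
    exact (Real.smoothTransition.contDiff.comp ((contDiff_id.sub contDiff_const).div_const e)).mul
      (Real.smoothTransition.contDiff.comp ((contDiff_const.sub contDiff_id).div_const e))
  have hβ0 : ∀ y, 0 ≤ β y := fun y => by
    rw [hβ]
    exact mul_nonneg (Real.smoothTransition.nonneg _) (Real.smoothTransition.nonneg _)
  have hβ1 : ∀ y, β y ≤ 1 := fun y => by
    rw [hβ]
    exact mul_le_one₀ (Real.smoothTransition.le_one _) (Real.smoothTransition.nonneg _)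
      (Real.smoothTransition.le_one _)
  have hβl : ∀ y, y ≤ c + e → β y = 0 := fun y hy => by
    rw [hβ]
    have : Real.smoothTransition ((y - (c + e)) / e) = 0 :=
      Real.smoothTransition.zero_of_nonpos (div_nonpos_of_nonpos_of_nonneg (by linarith) he0.le)
    simp only [this, zero_mul]
  have hβr : ∀ y, d - e ≤ y → β y = 0 := fun y hy => by
    rw [hβ]
    have : Real.smoothTransition (((d - e) - y) / e) = 0 :=
      Real.smoothTransition.zero_of_nonpos (div_nonpos_of_nonpos_of_nonneg (by linarith) he0.le)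
    simp only [this, mul_zero]
  have hβm : ∀ y, c + 2 * e ≤ y → y ≤ d - 2 * e → β y = 1 := fun y h2 h3 => by
    rw [hβ]
    have e1 : Real.smoothTransition ((y - (c + e)) / e) = 1 :=
      Real.smoothTransition.one_of_one_le (by rw [le_div_iff₀ he0]; linarith)
    have e2 : Real.smoothTransition (((d - e) - y) / e) = 1 :=
      Real.smoothTransition.one_of_one_le (by rw [le_div_iff₀ he0]; linarith)
    simp only [e1, e2, mul_one]
  have hint : ∀ x y : ℝ, IntervalIntegrable β volume x y := fun x y =>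
    hβs.continuous.intervalIntegrable x y
  have hI : d - c - m0 / 2 ≤ ∫ y in c..d, β y := by
    have e1 := intervalIntegral.integral_add_adjacent_intervals (hint c (c + 2 * e))
      (hint (c + 2 * e) (d - 2 * e))
    have e2 := intervalIntegral.integral_add_adjacent_intervals (hint c (d - 2 * e))
      (hint (d - 2 * e) d)
    have e3 : 0 ≤ ∫ y in c..(c + 2 * e), β y :=
      intervalIntegral.integral_nonneg (by linarith) (fun y _ => hβ0 y)
    have e4 : 0 ≤ ∫ y in (d - 2 * e)..d, β y :=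
      intervalIntegral.integral_nonneg (by linarith) (fun y _ => hβ0 y)
    have e5 : ∫ y in (c + 2 * e)..(d - 2 * e), β y = (d - 2 * e) - (c + 2 * e) := by
      have : ∫ y in (c + 2 * e)..(d - 2 * e), β y = ∫ y in (c + 2 * e)..(d - 2 * e), (1 : ℝ) := by
        refine intervalIntegral.integral_congr fun y hy => ?_
        rw [uIcc_of_le (by linarith)] at hy
        exact hβm y hy.1 hy.2
      rw [this]
      simp
    rw [e5] at e1
    linarith
  obtain ⟨I, hIdef⟩ : ∃ I, I = ∫ y in c..d, β y := ⟨_, rfl⟩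
  rw [← hIdef] at hI
  have hI0 : 0 < I := by linarith
  refine ⟨fun y => β y / I, e, he0, by linarith, hβs.div_const I, fun y =>
    div_nonneg (hβ0 y) hI0.le, fun y hy => by
    show β y / I = 0
    rw [hβl y hy, zero_div], fun y hy => by
    show β y / I = 0
    rw [hβr y hy, zero_div], ?_, fun y => ?_⟩
  · rw [intervalIntegral.integral_div, ← hIdef, div_self hI0.ne']
  · rw [← mul_div_assoc, div_lt_one hI0]
    have h2 := hβ1 y
    have h3 : (d - c - m0) * β y ≤ (d - c - m0) * 1 :=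
      mul_le_mul_of_nonneg_left h2 (by linarith)
    linarith

theorem main (hv : S_FIBV) (hh : S_FIBH) : S_MOSER := by
  intro ρ a b c d K hab hcd hρ hpos hK hKR hoff hmass
  obtain ⟨a', b', c', d', ha', hab', hb', hc', hcd', hd', hKC⟩ := exists_box hK hKR hab hcd
  have hone : ∀ x y : ℝ, (x < a' ∨ b' < x ∨ y < c' ∨ d' < y) → ρ ⟨x, y⟩ = 1 := by
    intro x y h
    apply hoff
    intro hm
    obtain ⟨h1, h2, h3, h4⟩ := hKC hm
    simp only at h1 h2 h3 h4
    rcases h with h | h | h | h <;> linarith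
  have hφ : ContDiff ℝ ∞ (fun z => ρ z - 1) := hρ.sub contDiff_const
  have hφc : ∀ x : ℝ, Continuous fun t : ℝ => ρ ⟨x, t⟩ - 1 := fun x =>
    continuous_slice hφ.continuous x
  have hii : ∀ x s t : ℝ, IntervalIntegrable (fun t : ℝ => ρ ⟨x, t⟩ - 1) volume s t :=
    fun x s t => (hφc x).intervalIntegrable s t
  obtain ⟨G, hG⟩ : ∃ G : ℂ → ℝ, G = prim (fun z => ρ z - 1) c := ⟨_, rfl⟩
  have hGs : ContDiff ℝ ∞ G := by rw [hG]; exact prim_smooth hφ c
  have hGI : ∀ z, fderiv ℝ G z Complex.I = ρ z - 1 := fun z => by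
    rw [hG]; exact prim_deriv hφ c z
  have hGz : ∀ z : ℂ, G z = ∫ t in c..z.im, (ρ ⟨z.re, t⟩ - 1) := fun z => by rw [hG]; rfl
  obtain ⟨h, hh'⟩ : ∃ h : ℝ → ℝ, h = fun x => ∫ t in c..d, (ρ ⟨x, t⟩ - 1) := ⟨_, rfl⟩
  have hhx : ∀ x, h x = ∫ t in c..d, (ρ ⟨x, t⟩ - 1) := fun x => by rw [hh']
  have hhs : ContDiff ℝ ∞ h := by
    rw [hh']
    exact Pool.Agent.H66R2.RZPar.contDiff_int c d ℝ ℝ (fun p => ρ ⟨p.1, p.2⟩ - 1)
      (hφ.comp (contDiff_mk contDiff_fst contDiff_snd))
  have hh0 : ∀ x, (x < a' ∨ b' < x) → h x = 0 := by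
    intro x hx
    rw [hhx]
    have : ∀ t : ℝ, ρ ⟨x, t⟩ - 1 = 0 := fun t => by
      rw [hone x t (by tauto)]; ring
    simp [this]
  have hG0 : ∀ z : ℂ, (z.re < a' ∨ b' < z.re) → G z = 0 := by
    intro z hz
    rw [hGz]
    have : ∀ t : ℝ, ρ ⟨z.re, t⟩ - 1 = 0 := fun t => by
      rw [hone z.re t (by tauto)]; ring
    simp [this]
  have hGl : ∀ z : ℂ, z.im < c' → G z = 0 := by
    intro z hz
    rw [hGz]
    have : ∫ t in c..z.im, (ρ ⟨z.re, t⟩ - 1) = ∫ t in c..z.im, (0 : ℝ) := by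
      refine intervalIntegral.integral_congr fun t ht => ?_
      have ht2 : t < c' := ht.2.trans_lt (max_lt hc' hz)
      show ρ ⟨z.re, t⟩ - 1 = 0
      rw [hone z.re t (by tauto)]; ring
    rw [this]; simp
  have hGu : ∀ z : ℂ, d' < z.im → G z = h z.re := by
    intro z hz
    rw [hGz, hhx, ← intervalIntegral.integral_add_adjacent_intervals (hii z.re c d)
      (hii z.re d z.im)]
    have : ∫ t in d..z.im, (ρ ⟨z.re, t⟩ - 1) = ∫ t in d..z.im, (0 : ℝ) := by
      refine intervalIntegral.integral_congr fun t ht => ?_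
      have ht2 : d' < t := (lt_min hd' hz).trans_le ht.1
      show ρ ⟨z.re, t⟩ - 1 = 0
      rw [hone z.re t (by tauto)]; ring
    rw [this]; simp
  -- bounds
  obtain ⟨Ch, hCh⟩ : ∃ C : ℝ, ∀ x, |h x| ≤ C := by
    obtain ⟨C, hC⟩ := (isCompact_Icc (a := a') (b := b')).exists_bound_of_continuousOn
      hhs.continuous.continuousOn
    refine ⟨max C 0, fun x => ?_⟩
    by_cases hx : x < a' ∨ b' < x
    · rw [hh0 x hx, abs_zero]; exact le_max_right _ _
    · push Not at hx
      exact (hC x hx).trans (le_max_left _ _)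
  obtain ⟨CG, hCG⟩ : ∃ C : ℝ, ∀ z, |G z| ≤ C := by
    obtain ⟨C, hC⟩ := (isCompact_CRect a' b' c' d').exists_bound_of_continuousOn
      hGs.continuous.continuousOn
    refine ⟨max C (max Ch 0), fun z => ?_⟩
    by_cases hx : z.re < a' ∨ b' < z.re
    · rw [hG0 z hx, abs_zero]; exact (le_max_right _ _).trans (le_max_right _ _)
    by_cases hy : z.im < c'
    · rw [hGl z hy, abs_zero]; exact (le_max_right _ _).trans (le_max_right _ _)
    by_cases hy' : d' < z.im
    · rw [hGu z hy']; exact (hCh _).trans ((le_max_left _ _).trans (le_max_right _ _))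
    · push Not at hx hy hy'
      exact (hC z ⟨hx.1, hx.2, hy, hy'⟩).trans (le_max_left _ _)
  -- mass
  have hM : ∀ x, h x = (∫ t in c..d, ρ ⟨x, t⟩) - (d - c) := by
    intro x
    rw [hhx, intervalIntegral.integral_sub
      ((continuous_slice hρ.continuous x).intervalIntegrable _ _) (by simp)]
    simp
  have hMpos : ∀ x, -(d - c) < h x := by
    intro x
    rw [hM]
    have : 0 < ∫ t in c..d, ρ ⟨x, t⟩ :=
      intervalIntegral.intervalIntegral_pos_of_pos
        ((continuous_slice hρ.continuous x).intervalIntegrable _ _) (fun t => hpos _) hcd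
    linarith
  have hint0 : ∫ x in a..b, h x = 0 := by
    have h1 := integral_CRect hρ.continuous hab.le hcd.le
    rw [hmass] at h1
    have h2 : ∫ x in a..b, h x = ∫ x in a..b, ((∫ t in c..d, ρ ⟨x, t⟩) - (d - c)) :=
      intervalIntegral.integral_congr fun x _ => hM x
    have h3 : Continuous fun x : ℝ => ∫ t in c..d, ρ ⟨x, t⟩ := by
      have : (fun x : ℝ => ∫ t in c..d, ρ ⟨x, t⟩) = fun x => h x + (d - c) := by
        funext x; rw [hM]; ring
      rw [this]
      exact hhs.continuous.add continuous_const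
    rw [h2, intervalIntegral.integral_sub (h3.intervalIntegrable _ _) (by simp), ← h1]
    simp
    ring
  obtain ⟨m0, hm0, hm1, hm2⟩ : ∃ m0 : ℝ, 0 < m0 ∧ m0 ≤ d - c ∧ ∀ x, m0 - (d - c) ≤ h x := by
    obtain ⟨x0, -, hx0⟩ := (isCompact_Icc (a := a') (b := b')).exists_isMinOn
      (nonempty_Icc.2 hab') hhs.continuous.continuousOn
    refine ⟨min (h x0 + (d - c)) (d - c), lt_min (by linarith [hMpos x0]) (by linarith),
      min_le_right _ _, fun x => ?_⟩
    by_cases hx : x < a' ∨ b' < x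
    · rw [hh0 x hx]
      linarith [min_le_right (h x0 + (d - c)) (d - c)]
    · push Not at hx
      have h1 : h x0 ≤ h x := hx0 hx
      linarith [min_le_left (h x0 + (d - c)) (d - c)]
  obtain ⟨η, e, he, hce, hηs, hη0, hηl, hηr, hηint, hη1⟩ := exists_eta c d m0 hm0 hm1
  have hpos1 : ∀ x y, 0 < 1 + h x * η y := by
    intro x y
    have h1 := hη1 y
    have h2 := mul_le_mul_of_nonneg_right (hm2 x) (hη0 y)
    have h3 : (m0 - (d - c)) * η y = -((d - c - m0) * η y) := by ring
    linarith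
  -- primitives
  obtain ⟨N, hN⟩ : ∃ N : ℝ → ℝ, N = fun y => ∫ t in c..y, η t := ⟨_, rfl⟩
  obtain ⟨hNs, hNd⟩ := prim1 hηs c
  rw [← hN] at hNs hNd
  obtain ⟨H, hH⟩ : ∃ H : ℝ → ℝ, H = fun x => ∫ t in a..x, h t := ⟨_, rfl⟩
  obtain ⟨hHs, hHd⟩ := prim1 hhs a
  rw [← hH] at hHs hHd
  have hNl : ∀ y, y ≤ c + e → N y = 0 := by
    intro y hy
    rw [hN]
    have : ∫ t in c..y, η t = ∫ t in c..y, (0 : ℝ) := by
      refine intervalIntegral.integral_congr fun t ht => ?_
      have ht2 : t ≤ c + e := ht.2.trans (max_le (by linarith) hy)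
      exact hηl t ht2
    simp only [this]; simp
  have hNr : ∀ y, d - e ≤ y → N y = 1 := by
    intro y hy
    rw [hN]
    simp only
    rw [← intervalIntegral.integral_add_adjacent_intervals
      (hηs.continuous.intervalIntegrable c d) (hηs.continuous.intervalIntegrable d y), hηint]
    have : ∫ t in d..y, η t = ∫ t in d..y, (0 : ℝ) := by
      refine intervalIntegral.integral_congr fun t ht => ?_
      have ht2 : d - e ≤ t := (le_min (by linarith) hy).trans ht.1
      exact hηr t ht2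
    rw [this]; simp
  obtain ⟨CN, hCN⟩ : ∃ C : ℝ, ∀ y, |N y| ≤ C := by
    obtain ⟨C, hC⟩ := (isCompact_Icc (a := c + e) (b := d - e)).exists_bound_of_continuousOn
      hNs.continuous.continuousOn
    refine ⟨max C 1, fun y => ?_⟩
    by_cases hy : y ≤ c + e
    · rw [hNl y hy, abs_zero]; exact zero_le_one.trans (le_max_right _ _)
    by_cases hy' : d - e ≤ y
    · rw [hNr y hy', abs_one]; exact le_max_right _ _
    · push Not at hy hy'
      exact (hC y ⟨hy.le, hy'.le⟩).trans (le_max_left _ _)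
  have hHl : ∀ x, x < a' → H x = 0 := by
    intro x hx
    rw [hH]
    have : ∫ t in a..x, h t = ∫ t in a..x, (0 : ℝ) := by
      refine intervalIntegral.integral_congr fun t ht => ?_
      have ht2 : t < a' := ht.2.trans_lt (max_lt ha' hx)
      exact hh0 t (Or.inl ht2)
    simp only [this]; simp
  have hHr : ∀ x, b' < x → H x = 0 := by
    intro x hx
    rw [hH]
    simp only
    rw [← intervalIntegral.integral_add_adjacent_intervals
      (hhs.continuous.intervalIntegrable a b) (hhs.continuous.intervalIntegrable b x), hint0]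
    have : ∫ t in b..x, h t = ∫ t in b..x, (0 : ℝ) := by
      refine intervalIntegral.integral_congr fun t ht => ?_
      have ht2 : b' < t := (lt_min hb' hx).trans_le ht.1
      exact hh0 t (Or.inr ht2)
    rw [this]; simp
  obtain ⟨CH, hCH⟩ : ∃ C : ℝ, ∀ x, |H x| ≤ C := by
    obtain ⟨C, hC⟩ := (isCompact_Icc (a := a') (b := b')).exists_bound_of_continuousOn
      hHs.continuous.continuousOn
    refine ⟨max C 0, fun x => ?_⟩
    by_cases hx : x < a'
    · rw [hHl x hx, abs_zero]; exact le_max_right _ _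
    by_cases hx' : b' < x
    · rw [hHr x hx', abs_zero]; exact le_max_right _ _
    · push Not at hx hx'
      exact (hC x ⟨hx, hx'⟩).trans (le_max_left _ _)
  obtain ⟨Cη, hCη⟩ : ∃ C : ℝ, ∀ y, |η y| ≤ C := by
    obtain ⟨C, hC⟩ := (isCompact_Icc (a := c + e) (b := d - e)).exists_bound_of_continuousOn
      hηs.continuous.continuousOn
    refine ⟨max C 0, fun y => ?_⟩
    by_cases hy : y ≤ c + e
    · rw [hηl y hy, abs_zero]; exact le_max_right _ _
    by_cases hy' : d - e ≤ y
    · rw [hηr y hy', abs_zero]; exact le_max_right _ _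
    · push Not at hy hy'
      exact (hC y ⟨hy.le, hy'.le⟩).trans (le_max_left _ _)
  -- the three maps
  have hre : ∀ z : ℂ, HasFDerivAt (fun z : ℂ => z.re) Complex.reCLM z := fun z =>
    Complex.reCLM.hasFDerivAt
  have him : ∀ z : ℂ, HasFDerivAt (fun z : ℂ => z.im) Complex.imCLM z := fun z =>
    Complex.imCLM.hasFDerivAt
  have hY1 : ∀ z, fderiv ℝ (fun z : ℂ => z.im + G z) z Complex.I = ρ z := by
    intro z
    have h1 : HasFDerivAt (fun z : ℂ => z.im + G z) (Complex.imCLM + fderiv ℝ G z) z :=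
      (him z).add ((hGs.differentiable (by simp)) z).hasFDerivAt
    rw [h1.fderiv]
    simp only [add_apply, Complex.imCLM_apply, Complex.I_im, hGI]
    ring
  obtain ⟨κ1, hκ1, hg1, hJ1⟩ := hv (fun z => z.im + G z) CG
    (Complex.imCLM.contDiff.add hGs) (fun z => by rw [hY1]; exact hpos z)
    (fun z => by simpa using hCG z)
  have hY2 : ∀ z, fderiv ℝ (fun z : ℂ => z.im + h z.re * N z.im) z Complex.I =
      1 + h z.re * η z.im := by
    intro z
    have h1 : HasFDerivAt (fun z : ℂ => h z.re) (deriv h z.re • Complex.reCLM) z :=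
      (((hhs.differentiable (by simp)) z.re).hasDerivAt).comp_hasFDerivAt z (hre z)
    have h2 : HasFDerivAt (fun z : ℂ => N z.im) (η z.im • Complex.imCLM) z :=
      (hNd z.im).comp_hasFDerivAt z (him z)
    have h3 : HasFDerivAt (fun z : ℂ => z.im + h z.re * N z.im) (Complex.imCLM +
        (h z.re • (η z.im • Complex.imCLM) + N z.im • (deriv h z.re • Complex.reCLM))) z :=
      (him z).add (h1.mul h2)
    rw [h3.fderiv]
    simp
  obtain ⟨κ2, hκ2, hg2, hJ2⟩ := hv (fun z => z.im + h z.re * N z.im) (Ch * CN)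
    (Complex.imCLM.contDiff.add ((hhs.comp Complex.reCLM.contDiff).mul
      (hNs.comp Complex.imCLM.contDiff))) (fun z => by rw [hY2]; exact hpos1 _ _)
    (fun z => by
      simp only [add_sub_cancel_left]
      rw [abs_mul]
      exact mul_le_mul (hCh _) (hCN _) (abs_nonneg _) ((abs_nonneg _).trans (hCh 0)))
  have hX : ∀ z, fderiv ℝ (fun z : ℂ => z.re + η z.im * H z.re) z 1 =
      1 + h z.re * η z.im := by
    intro z
    have h1 : HasFDerivAt (fun z : ℂ => η z.im) (deriv η z.im • Complex.imCLM) z :=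
      (((hηs.differentiable (by simp)) z.im).hasDerivAt).comp_hasFDerivAt z (him z)
    have h2 : HasFDerivAt (fun z : ℂ => H z.re) (h z.re • Complex.reCLM) z :=
      (hHd z.re).comp_hasFDerivAt z (hre z)
    have h3 : HasFDerivAt (fun z : ℂ => z.re + η z.im * H z.re) (Complex.reCLM +
        (η z.im • (h z.re • Complex.reCLM) + H z.re • (deriv η z.im • Complex.imCLM))) z :=
      (hre z).add (h1.mul h2)
    rw [h3.fderiv]
    simp
    ring
  obtain ⟨κ3, hκ3, hg3, hJ3⟩ := hh (fun z => z.re + η z.im * H z.re) (Cη * CH)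
    (Complex.reCLM.contDiff.add ((hηs.comp Complex.imCLM.contDiff).mul
      (hHs.comp Complex.reCLM.contDiff))) (fun z => by rw [hX]; exact hpos1 _ _)
    (fun z => by
      simp only [add_sub_cancel_left]
      rw [abs_mul]
      exact mul_le_mul (hCη _) (hCH _) (abs_nonneg _) ((abs_nonneg _).trans (hCη 0)))
  refine ⟨(κ1.trans κ2.symm).trans κ3, CRect a' b' (min c' (c + e)) (max d' (d - e)),
    isCompact_CRect _ _ _ _, ?_, ?_, ?_, ?_⟩
  · rintro z ⟨h1, h2, h3, h4⟩
    exact ⟨by linarith, by linarith, (lt_min hc' (by linarith)).trans_le h3,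
      h4.trans_lt (max_lt hd' (by linarith))⟩
  · intro z hz
    have hcases : z.re < a' ∨ b' < z.re ∨ z.im < min c' (c + e) ∨ max d' (d - e) < z.im := by
      by_contra hcon
      push Not at hcon
      exact hz ⟨hcon.1, hcon.2.1, hcon.2.2.1, hcon.2.2.2⟩
    have hK1 : κ2.symm (κ1 z) = z := by
      rw [Homeomorph.symm_apply_eq, hκ1, hκ2]
      congr 1
      rcases hcases with h1 | h1 | h1 | h1
      · rw [hG0 z (Or.inl h1), hh0 _ (Or.inl h1)]; ring
      · rw [hG0 z (Or.inr h1), hh0 _ (Or.inr h1)]; ring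
      · rw [hGl z (h1.trans_le (min_le_left _ _)),
          hNl _ (h1.le.trans (min_le_right _ _))]; ring
      · rw [hGu z ((le_max_left _ _).trans_lt h1), hNr _ ((le_max_right _ _).trans h1.le)]; ring
    show κ3 (κ2.symm (κ1 z)) = z
    rw [hK1, hκ3]
    have h0 : η z.im * H z.re = 0 := by
      rcases hcases with h1 | h1 | h1 | h1
      · rw [hHl _ h1, mul_zero]
      · rw [hHr _ h1, mul_zero]
      · rw [hηl _ (h1.le.trans (min_le_right _ _)), zero_mul]
      · rw [hηr _ ((le_max_right _ _).trans h1.le), zero_mul]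
    simp only [h0, add_zero]
  · intro z
    exact (hg3 _).comp ((good_symm κ2 hg2 _).comp (hg1 z))
  · intro z
    have hs2 := good_symm κ2 hg2
    have h1 : J (fun z => κ2.symm (κ1 z)) z = J κ2.symm (κ1 z) * J κ1 z :=
      J_comp (hs2 _).differentiableAt (hg1 z).differentiableAt
    have h2 : J (fun z => κ3 (κ2.symm (κ1 z))) z =
        J κ3 (κ2.symm (κ1 z)) * J (fun z => κ2.symm (κ1 z)) z :=
      J_comp (hg3 _).differentiableAt ((hs2 _).comp (hg1 z)).differentiableAt
    show J (fun z => κ3 (κ2.symm (κ1 z))) z = ρ z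
    have h3 := J_symm κ2 (hg2 (κ2.symm (κ1 z)))
    rw [κ2.apply_symm_apply, hJ2, hY2] at h3
    rw [h2, h1, hJ3, hX, hJ1, hY1]
    linear_combination (ρ z) * h3

end Pool.Agent.H811.SM2.Moser
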