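import Pool.Agent.H10.MW.Basic

/-!
# Project SM2 (helper10, MP_cbfcf7_gt): orientation
-/

set_option autoImplicit false

open Set Filter Topology

noncomputable section

namespace Pool.Agent.H553.SM2

open Pool.Agent.H10.MW
open Pool.Agent.Helper11.PlaneEuler

theorem opa : S_OPA := by
  intro κ p δ hδ h
  have h1 : HasStrictFDerivAt (κ : ℂ → ℂ) (ContinuousLinearMap.id ℝ ℂ) p := by
    refine (hasStrictFDerivAt_id (𝕜 := ℝ) p).congr_of_eventuallyEq ?_
    have h2 : ∀ᶠ z in 𝓝 p, ‖z - p‖ < δ := by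
      have := Metric.ball_mem_nhds p hδ
      filter_upwards [this] with z hz
      rwa [Metric.mem_ball, dist_eq_norm] at hz
    filter_upwards [h2] with z hz
    exact (h z hz).symm
  obtain ⟨F, hF, -⟩ := exists_lift κ p h1
  exact ⟨F, hF⟩

/-- the pair of points -/
def pt (p : ℂ) (r : ℝ) (hr : 0 < r) (θ : ℝ) : Conf :=
  ⟨(p, p + r * Complex.exp (θ * Complex.I)), by
    simp only [ne_eq]
    intro h
    have h1 : (r : ℂ) * Complex.exp (θ * Complex.I) = 0 := by
      have := h.symm
      rwa [add_eq_left] at this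
    rcases mul_eq_zero.1 h1 with h2 | h2
    · exact hr.ne' (by exact_mod_cast h2)
    · exact Complex.exp_ne_zero _ h2⟩

theorem pt_cont (p : ℂ) (r : ℝ) (hr : 0 < r) : Continuous (pt p r hr) := by
  unfold pt
  refine Continuous.subtype_mk ?_ _
  fun_prop

theorem pt_per (p : ℂ) (r : ℝ) (hr : 0 < r) (θ : ℝ) :
    pt p r hr (θ + 2 * Real.pi) = pt p r hr θ := by
  unfold pt
  refine Subtype.ext ?_
  simp only [Prod.mk.injEq, true_and]
  congr 2
  have : ((θ + 2 * Real.pi : ℝ) : ℂ) * Complex.I = θ * Complex.I + 2 * Real.pi * Complex.I := by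
    push_cast
    ring
  rw [this, Complex.exp_add, Complex.exp_two_pi_mul_I, mul_one]

theorem opb : S_OPB := by
  rintro F ⟨L, hL⟩ p c δ hδ h
  set r : ℝ := δ / 2 with hr
  have hr0 : 0 < r := by positivity
  have hrδ : r < δ := by rw [hr]; linarith
  set A : ℝ → ℝ := fun θ => L.angle (pt p r hr0 θ) with hA
  have hAc : Continuous A := L.angle.continuous.comp (pt_cont p r hr0)
  -- the value of the quotient
  have hexp : ∀ θ : ℝ, Complex.exp (A θ * Complex.I) = Complex.exp (-(2 * θ) * Complex.I) := by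
    intro θ
    have h1 := L.spec (pt p r hr0 θ)
    rw [hL] at h1
    have hrc : (r : ℂ) ≠ 0 := by exact_mod_cast hr0.ne'
    have hz : (r : ℂ) * Complex.exp (θ * Complex.I) ≠ 0 := mul_ne_zero hrc (Complex.exp_ne_zero _)
    have hn : ‖(r : ℂ) * Complex.exp (θ * Complex.I)‖ < δ := by
      rw [norm_mul, Complex.norm_exp_ofReal_mul_I, mul_one, Complex.norm_real, Real.norm_eq_abs,
        abs_of_pos hr0]
      exact hrδ
    have e1 : F (pt p r hr0 θ).1.2 - F (pt p r hr0 θ).1.1 =
        (r : ℂ) * Complex.exp (-(θ * Complex.I)) := by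
      show F (p + r * Complex.exp (θ * Complex.I)) - F p = _
      rw [h (p + r * Complex.exp (θ * Complex.I)) (by rw [add_sub_cancel_left]; exact hn),
        h p (by rw [sub_self, norm_zero]; exact hδ), add_sub_cancel_left, sub_self, map_zero,
        zero_add, add_sub_cancel_right, map_mul, Complex.conj_ofReal, ← Complex.exp_conj]
      congr 2
      rw [map_mul, Complex.conj_ofReal, Complex.conj_I]
      ring
    have e2 : (pt p r hr0 θ).1.2 - (pt p r hr0 θ).1.1 = (r : ℂ) * Complex.exp (θ * Complex.I) := by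
      show (p + r * Complex.exp (θ * Complex.I)) - p = _
      rw [add_sub_cancel_left]
    have e3 : (r : ℂ) * Complex.exp (-(θ * Complex.I)) / ((r : ℂ) * Complex.exp (θ * Complex.I)) =
        Complex.exp (-(2 * θ) * Complex.I) := by
      rw [mul_div_mul_left _ _ hrc, ← Complex.exp_sub]
      congr 1
      ring
    rw [e1, e2, e3] at h1
    have e4 : ‖Complex.exp (-(2 * θ) * Complex.I)‖ = 1 := by
      have : (-(2 * θ) * Complex.I : ℂ) = ((-(2 * θ) : ℝ) : ℂ) * Complex.I := by push_cast; ring
      rw [this, Complex.norm_exp_ofReal_mul_I]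
    rw [e4] at h1
    rw [h1]
    simp [hA]
  have h2 : ∀ θ : ℝ, Circle.exp (A θ + 2 * θ) = 1 := by
    intro θ
    apply Circle.ext
    rw [Circle.coe_exp]
    have : ((A θ + 2 * θ : ℝ) : ℂ) * Complex.I = A θ * Complex.I + 2 * θ * Complex.I := by
      push_cast
      ring
    rw [this, Complex.exp_add, hexp, ← Complex.exp_add]
    have : (-(2 * θ) * Complex.I + 2 * θ * Complex.I : ℂ) = 0 := by ring
    rw [this, Complex.exp_zero]
    rfl
  have h3 : ∀ x y : ℝ, A x + 2 * x = A y + 2 * y := by
    intro x y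
    exact Circle.isCoveringMap_exp.const_of_comp (g := fun x => A x + 2 * x)
      (by fun_prop) (fun a b => by rw [h2, h2]) x y
  have h4 := h3 (0 + 2 * Real.pi) 0
  have h5 : A (0 + 2 * Real.pi) = A 0 := by
    rw [hA]
    dsimp only
    rw [pt_per]
  rw [h5] at h4
  have := Real.pi_pos
  linarith

end Pool.Agent.H553.SM2
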