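import Pool.Agent.H10.MW.Basic
import Pool.Graph.R_pool_sql_team_668148b0.Helper647.SewHolo
import Pool.Graph.R_pool_sql_team_seeded_63374d34.N550.KH.Disc

set_option autoImplicit false

open Set Filter Topology Metric MeasureTheory
open scoped ContDiff ComplexConjugate

noncomputable section

namespace Pool.Agent.H287.SM2.RL

open Pool.Agent.H10.MW

theorem main : S_RL := by
  intro w δ hδ hwc hwd hwi hwr hwp
  set W : ℂ → ℂ := fun z => if 0 ≤ z.im then w z else conj (w (conj z)) with hW
  have hcB : ∀ z ∈ ball (0 : ℂ) δ, conj z ∈ ball (0 : ℂ) δ := by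
    intro z hz
    rw [mem_ball_zero_iff] at hz ⊢
    rwa [RCLike.norm_conj]
  have hWu : ∀ z : ℂ, 0 ≤ z.im → W z = w z := fun z hz => if_pos hz
  have hWl : ∀ z ∈ ball (0 : ℂ) δ, z.im ≤ 0 → W z = conj (w (conj z)) := by
    intro z hz hzi
    rcases hzi.lt_or_eq with h | h
    · exact if_neg (not_le.2 h)
    · rw [hWu z h.ge]
      have h1 : conj z = z := Complex.conj_eq_iff_im.2 h
      rw [h1]
      exact (Complex.conj_eq_iff_im.2 (hwr z hz h)).symm
  have hUo : IsOpen {z : ℂ | 0 < z.im} := isOpen_lt continuous_const Complex.continuous_im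
  have hLo : IsOpen {z : ℂ | z.im < 0} := isOpen_lt Complex.continuous_im continuous_const
  -- differentiability off the real line
  have hdu : ∀ z ∈ ball (0 : ℂ) δ, 0 < z.im → DifferentiableAt ℂ w z := fun z hz hzi =>
    hwd.differentiableAt ((hUo.inter isOpen_ball).mem_nhds ⟨hzi, hz⟩)
  have hdW : ∀ z ∈ ball (0 : ℂ) δ, z.im ≠ 0 → DifferentiableAt ℂ W z := by
    intro z hz hzi
    rcases lt_or_gt_of_ne hzi with h | h
    · have h1 : DifferentiableAt ℂ w (conj z) := hdu _ (hcB z hz) (by simpa using h)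
      have h2 : DifferentiableAt ℂ (conj ∘ w ∘ conj) z := by
        have := h1.conj_conj
        simpa using this
      refine h2.congr_of_eventuallyEq ?_
      filter_upwards [hLo.mem_nhds h] with y hy
      exact if_neg (not_le.2 hy)
    · refine (hdu z hz h).congr_of_eventuallyEq ?_
      filter_upwards [hUo.mem_nhds h] with y hy
      exact if_pos (le_of_lt hy)
  -- continuity
  have hcW : ContinuousOn W (ball 0 δ) := by
    intro z hz
    refine ContinuousAt.continuousWithinAt ?_
    by_cases hzi : z.im = 0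
    · have hcz : conj z = z := Complex.conj_eq_iff_im.2 hzi
      have h1 : ContinuousWithinAt w {z | 0 ≤ z.im} z := by
        have h2 := hwc z ⟨hzi.ge, hz⟩
        exact (continuousWithinAt_inter (isOpen_ball.mem_nhds hz)).1 h2
      have h3 : ContinuousWithinAt W {z | 0 ≤ z.im} z :=
        h1.congr (fun y hy => hWu y hy) (hWu z hzi.ge)
      have h4 : ContinuousWithinAt W {z | z.im ≤ 0} z := by
        have h5 : ContinuousWithinAt (fun y => conj (w (conj y))) {z : ℂ | z.im ≤ 0} z := by
          have h6 : ContinuousWithinAt (fun y : ℂ => w (conj y)) {z : ℂ | z.im ≤ 0} z := by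
            have h7 : ContinuousWithinAt w {z | 0 ≤ z.im} (conj z) := by rwa [hcz]
            refine h7.comp Complex.continuous_conj.continuousWithinAt ?_
            intro y hy
            have : y.im ≤ 0 := hy
            simpa using this
          exact Complex.continuous_conj.continuousAt.comp_continuousWithinAt h6
        have h8 : ContinuousWithinAt W ({z : ℂ | z.im ≤ 0} ∩ ball 0 δ) z :=
          (h5.mono inter_subset_left).congr (fun y hy => hWl y hy.2 hy.1) (hWl z hz hzi.le)
        exact (continuousWithinAt_inter (isOpen_ball.mem_nhds hz)).1 h8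
      have h9 := h3.union h4
      have h10 : ({z : ℂ | 0 ≤ z.im} ∪ {z : ℂ | z.im ≤ 0}) = univ := by
        ext y
        simp only [mem_union, Set.mem_ofPred_eq, mem_univ, iff_true]
        exact le_total _ _
      rw [h10, continuousWithinAt_univ] at h9
      exact h9
    · exact (hdW z hz hzi).continuousAt
  have hDW : DifferentiableOn ℂ W (ball 0 δ) :=
    Pool.Agent.Helper647.Sew.differentiableOn_of_off_real isOpen_ball hcW hdW
  -- signs
  have hsu : ∀ z ∈ ball (0 : ℂ) δ, 0 ≤ z.im → 0 ≤ (W z).im := by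
    intro z hz hzi
    rw [hWu z hzi]
    rcases hzi.lt_or_eq with h | h
    · exact (hwp z hz h).le
    · exact (hwr z hz h.symm).ge
  have hsl : ∀ z ∈ ball (0 : ℂ) δ, z.im < 0 → (W z).im < 0 := by
    intro z hz hzi
    rw [hWl z hz hzi.le, Complex.conj_im, neg_lt_zero]
    exact hwp _ (hcB z hz) (by simpa using hzi)
  -- injectivity
  have hWi : InjOn W (ball 0 δ) := by
    intro a ha b hb hab
    rcases le_or_gt 0 a.im with h1 | h1
    · rcases le_or_gt 0 b.im with h2 | h2
      · rw [hWu a h1, hWu b h2] at hab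
        exact hwi ⟨h1, ha⟩ ⟨h2, hb⟩ hab
      · have h3 := hsu a ha h1
        have h4 := hsl b hb h2
        rw [hab] at h3
        exact absurd h4 (not_lt.2 h3)
    · rcases le_or_gt 0 b.im with h2 | h2
      · have h3 := hsu b hb h2
        have h4 := hsl a ha h1
        rw [← hab] at h3
        exact absurd h4 (not_lt.2 h3)
      · rw [hWl a ha h1.le, hWl b hb h2.le] at hab
        have h3 := (starRingEnd ℂ).injective hab
        have h4 := hwi ⟨by simpa using h1.le, hcB a ha⟩ ⟨by simpa using h2.le, hcB b hb⟩ h3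
        exact (starRingEnd ℂ).injective h4
  refine ⟨W, hDW, fun z _ hz => hWu z hz, fun x hx => ?_⟩
  have hxB : (x : ℂ) ∈ ball (0 : ℂ) δ := by
    rw [mem_ball_zero_iff, Complex.norm_real]
    exact hx
  have hd0 : deriv W (x : ℂ) ≠ 0 := Pool.Agent.N550.KH.Disc.inj_deriv' isOpen_ball hDW hWi hxB
  have hda : HasDerivAt W (deriv W x) (x : ℂ) :=
    (hDW.differentiableAt (isOpen_ball.mem_nhds hxB)).hasDerivAt
  set d := deriv W (x : ℂ) with hd
  -- the derivative is real
  have him : d.im = 0 := by
    have h1 : HasDerivAt (fun t : ℝ => W t) d x := hda.comp_ofReal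
    have h2 : HasDerivAt (fun t : ℝ => (W t).im) d.im x :=
      Complex.imCLM.hasFDerivAt.comp_hasDerivAt x h1
    have h3 : (fun t : ℝ => (W t).im) =ᶠ[𝓝 x] fun _ => 0 := by
      have h4 : ∀ᶠ t : ℝ in 𝓝 x, |t| < δ := (continuous_abs.continuousAt).eventually_lt
        continuousAt_const hx
      filter_upwards [h4] with t ht
      have htB : (t : ℂ) ∈ ball (0 : ℂ) δ := by
        rw [mem_ball_zero_iff, Complex.norm_real]
        exact ht
      rw [hWu _ (by simp)]
      exact hwr _ htB (by simp)
    have h5 := h2.congr_of_eventuallyEq h3.symm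
    exact h5.unique (hasDerivAt_const x (0 : ℝ))
  -- vertical direction
  have hre : 0 ≤ d.re := by
    have h1 : HasDerivAt (fun t : ℝ => (x : ℂ) + t * Complex.I) Complex.I 0 := by
      have h2 : HasDerivAt (fun t : ℝ => (t : ℂ)) 1 0 := Complex.ofRealCLM.hasDerivAt
      simpa using (h2.mul_const Complex.I).const_add (x : ℂ)
    have h2 : HasDerivAt (fun t : ℝ => W ((x : ℂ) + t * Complex.I)) (d * Complex.I) 0 := by
      have h3 : HasDerivAt W d ((x : ℂ) + ((0 : ℝ) : ℂ) * Complex.I) := by simpa using hda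
      exact h3.comp (0 : ℝ) h1
    have h4 : HasDerivAt (fun t : ℝ => (W ((x : ℂ) + t * Complex.I)).im) d.re 0 := by
      have h4' : HasDerivAt (fun t : ℝ => (W ((x : ℂ) + t * Complex.I)).im)
          (d * Complex.I).im 0 := Complex.imCLM.hasFDerivAt.comp_hasDerivAt (0 : ℝ) h2
      have e0 : (d * Complex.I).im = d.re := by simp
      rwa [e0] at h4'
    have h5 : Tendsto (slope (fun t : ℝ => (W ((x : ℂ) + t * Complex.I)).im) 0) (𝓝[>] 0)
        (𝓝 d.re) := by
      exact (hasDerivWithinAt_iff_tendsto_slope' (by simp)).1 (h4.hasDerivWithinAt (s := Ioi 0))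
    have h8 : ∀ᶠ t : ℝ in 𝓝[>] 0, ((x : ℂ) + t * Complex.I) ∈ ball (0 : ℂ) δ := by
      have h9 : ContinuousAt (fun t : ℝ => (x : ℂ) + t * Complex.I) 0 := by fun_prop
      have h10 : ball (0 : ℂ) δ ∈ 𝓝 ((x : ℂ) + ((0 : ℝ) : ℂ) * Complex.I) := by
        refine isOpen_ball.mem_nhds ?_
        simpa using hxB
      exact (h9.eventually h10).filter_mono nhdsWithin_le_nhds
    refine ge_of_tendsto h5 ?_
    filter_upwards [h8, self_mem_nhdsWithin] with t ht ht0
    have ht0' : 0 < t := ht0
    rw [slope_def_field]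
    have e1 : (W ((x : ℂ) + ((0 : ℝ) : ℂ) * Complex.I)).im = 0 := by
      rw [Complex.ofReal_zero, zero_mul, add_zero, hWu _ (by simp)]
      exact hwr _ hxB (by simp)
    rw [e1, sub_zero, sub_zero]
    exact div_nonneg (hsu _ ht (by simpa using ht0'.le)) ht0'.le
  refine ⟨d.re, ?_, ?_⟩
  · refine lt_of_le_of_ne hre fun h => hd0 ?_
    exact Complex.ext h.symm him
  · exact Complex.ext (by simp) (by simpa using him)

end Pool.Agent.H287.SM2.RL
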