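import Pool.Agent.H10.MW.Basic

/-!
# SM2-SMOOTH: smoothing of homeomorphisms with compact support (assembly over a grid)
-/

set_option autoImplicit false

open Set Filter Topology Metric MeasureTheory
open scoped ContDiff

noncomputable section

namespace Pool.Agent.H114.SM2

open Pool.Agent.H10.MW

theorem far {F : ℂ ≃ₜ ℂ} {R : ℝ} (h : ∀ z, R ≤ ‖z‖ → F z = z) {z : ℂ} (hz : R < ‖z‖) :
    (F : ℂ → ℂ) =ᶠ[𝓝 z] fun w => w := by
  have h1 : ∀ᶠ w : ℂ in 𝓝 z, R < ‖w‖ := continuous_norm.continuousAt.eventually (lt_mem_nhds hz)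
  filter_upwards [h1] with w hw
  exact h w hw.le

theorem TransAt.congr' {f g : ℂ → ℂ} {p : ℂ} (h : TransAt f p) (hfg : f =ᶠ[𝓝 p] g) :
    TransAt g p := by
  obtain ⟨δ, hδ, c, hc⟩ := h
  obtain ⟨ε, hε, hb⟩ := Metric.eventually_nhds_iff.1 hfg
  refine ⟨min δ ε, lt_min hδ hε, c, fun z hz => ?_⟩
  rw [← hb (by rw [dist_eq_norm]; exact lt_of_lt_of_le hz (min_le_right _ _)),
    hc z (lt_of_lt_of_le hz (min_le_left _ _))]

theorem transAt_id {f : ℂ → ℂ} {p : ℂ} (h : f =ᶠ[𝓝 p] fun w => w) : TransAt f p := by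
  have : TransAt (fun w : ℂ => w) p := ⟨1, one_pos, 0, fun z _ => by simp⟩
  exact TransAt.congr' this h.symm

theorem comp_near {F K : ℂ ≃ₜ ℂ} {z : ℂ} (h : (K : ℂ → ℂ) =ᶠ[𝓝 z] fun w => w) :
    (F : ℂ → ℂ) =ᶠ[𝓝 z] fun w => F (K w) := by
  filter_upwards [h] with w hw
  rw [hw]

theorem good_near {F : ℂ → ℂ} {z : ℂ} (h : F =ᶠ[𝓝 z] fun w => w) : Good F z :=
  (good_id z).congr h.symm

theorem glue' {ι : Type*} (T : Finset ι) (κ : ι → ℂ ≃ₜ ℂ) (U : ι → Set ℂ) (D : ℝ) (hD : 0 ≤ D)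
    (h : ∀ i ∈ T, ∀ z, z ∉ U i → κ i z = z)
    (hd : ∀ i ∈ T, ∀ j ∈ T, i ≠ j → Disjoint (U i) (U j))
    (hb : ∀ i ∈ T, Bornology.IsBounded (U i))
    (hD' : ∀ i ∈ T, ∀ z ∈ U i, ∀ w ∈ U i, ‖z - w‖ ≤ D) :
    ∃ K : ℂ ≃ₜ ℂ, CSupp K ∧ (∀ z, ‖K z - z‖ ≤ D) ∧
      (∀ i ∈ T, ∀ z ∈ U i, K z = κ i z) ∧ ∀ z, (∀ i ∈ T, z ∉ U i) → K z = z := by
  obtain ⟨K, h1, h2⟩ := glue T κ U h hd
  have hbd : Bornology.IsBounded (⋃ i ∈ T, U i) := (Bornology.isBounded_biUnion_finset T).2 hb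
  obtain ⟨R, hR⟩ := hbd.subset_ball 0
  refine ⟨K, ⟨R, fun z hz => h2 z fun i hi hzi => ?_⟩, fun z => ?_, h1, h2⟩
  · have := hR (mem_biUnion hi hzi)
    rw [mem_ball_zero_iff] at this
    linarith
  · by_cases hz : ∃ i ∈ T, z ∈ U i
    · obtain ⟨i, hi, hzi⟩ := hz
      rw [h1 i hi z hzi]
      exact hD' i hi _ (supp_mem (h i hi) hzi) _ hzi
    · push Not at hz
      rw [h2 z hz]
      simpa using hD

/-- if `z` is outside the closed sets `C i` -/
theorem near_id {ι : Type*} {T : Finset ι} {C : ι → Set ℂ} {K : ℂ → ℂ} {z : ℂ}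
    (hc : ∀ i ∈ T, IsClosed (C i)) (hz : ∀ i ∈ T, z ∉ C i)
    (h : ∀ w, (∀ i ∈ T, w ∉ C i) → K w = w) : K =ᶠ[𝓝 z] fun w => w := by
  have h1 : ∀ᶠ w in 𝓝 z, ∀ i ∈ T, w ∉ C i :=
    (Filter.eventually_all_finset T).2 fun i hi => (hc i hi).isOpen_compl.mem_nhds (hz i hi)
  filter_upwards [h1] with w hw
  exact h w hw

/-! ### vertices -/

theorem verts (hv : S_VTX) {ι : Type*} (T : Finset ι) (p : ι → ℂ) (s : ℝ) (hs : 0 < s)
    (hp : ∀ v ∈ T, ∀ v' ∈ T, v ≠ v' → s ≤ ‖p v - p v'‖) (F : ℂ ≃ₜ ℂ) (hF : OP F) :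
    ∃ K : ℂ ≃ₜ ℂ, CSupp K ∧ (∀ z, ‖K z - z‖ ≤ s) ∧
      (∀ v ∈ T, TransAt (fun z => F (K z)) (p v)) ∧
      ∀ z, (∀ v ∈ T, s / 2 ≤ ‖z - p v‖) → (K : ℂ → ℂ) =ᶠ[𝓝 z] fun w => w := by
  choose κ hκ1 hκ2 using fun v : ι => hv F hF (p v) (s / 4) (by positivity)
  obtain ⟨K, hK1, hK2, hK3, hK4⟩ := glue' T κ (fun v => ball (p v) (s / 4)) s hs.le
    (fun v _ z hz => hκ1 v z (by
      rw [mem_ball, dist_eq_norm, not_lt] at hz
      exact hz))
    (fun v hv' w hw hne => by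
      refine Metric.ball_disjoint_ball ?_
      rw [dist_eq_norm]
      have := hp v hv' w hw hne
      linarith)
    (fun v _ => isBounded_ball)
    (fun v _ z hz w hw => by
      rw [mem_ball, dist_eq_norm] at hz hw
      have h1 : ‖z - w‖ ≤ ‖z - p v‖ + ‖w - p v‖ := by
        have := norm_sub_le (z - p v) (w - p v)
        simpa using this
      linarith)
  refine ⟨K, hK1, hK2, fun v hv' => ?_, fun z hz => ?_⟩
  · refine TransAt.congr' (hκ2 v) ?_
    filter_upwards [isOpen_ball.mem_nhds (mem_ball_self (x := p v) (by positivity : 0 < s / 4))]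
      with w hw
    rw [hK3 v hv' w hw]
  · refine near_id (T := T) (C := fun v => closedBall (p v) (s / 4))
      (fun v _ => isClosed_closedBall) (fun v hv' hzv => ?_) (fun w hw => hK4 w fun v hv' hwv =>
        hw v hv' (ball_subset_closedBall hwv))
    rw [mem_closedBall, dist_eq_norm] at hzv
    have := hz v hv'
    linarith

/-! ### edges -/

theorem edge1 (he : S_EDGE) (m u : ℂ) (s : ℝ) (hs : 0 < s) (hu : ‖u‖ = s / 2) (F : ℂ ≃ₜ ℂ)
    (h1 : TransAt F (m + u)) (h2 : TransAt F (m - u)) :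
    ∃ (t : ℝ) (κ : ℂ ≃ₜ ℂ), 0 < t ∧ t < 1 ∧ (∀ z, (1 - t) * (s / 2) ≤ ‖z - m‖ → κ z = z) ∧
      (∀ x : ℝ, |x| ≤ 1 - t → Good (fun z => F (κ z)) (m + x * u)) ∧
      (∀ x : ℝ, 1 - t < |x| → |x| ≤ 1 → Good F (m + x * u)) := by
  obtain ⟨δ₁, hδ₁, c₁, hc₁⟩ := h1
  obtain ⟨δ₂, hδ₂, c₂, hc₂⟩ := h2
  set d : ℝ := min δ₁ δ₂ with hd
  have hd0 : 0 < d := lt_min hδ₁ hδ₂
  have hd1 : d ≤ δ₁ := min_le_left _ _
  have hd2 : d ≤ δ₂ := min_le_right _ _
  set t : ℝ := min (1 / 2) (d / s) with ht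
  have ht0 : 0 < t := lt_min (by norm_num) (by positivity)
  have ht1 : t < 1 := lt_of_le_of_lt (min_le_left _ _) (by norm_num)
  have hts : t * (s / 2) ≤ d / 2 := by
    have h3 : t ≤ d / s := min_le_right _ _
    have h4 : t * s ≤ d := by rwa [le_div_iff₀ hs] at h3
    linarith
  set a : ℂ := ((1 - t : ℝ) : ℂ) * u with ha
  have hna : ‖a‖ = (1 - t) * (s / 2) := by
    rw [ha, norm_mul, hu, Complex.norm_real, Real.norm_of_nonneg (by linarith)]
  have ha0 : a ≠ 0 := by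
    rw [← norm_pos_iff, hna]
    have : 0 < 1 - t := by linarith
    positivity
  have hau : ‖a - u‖ ≤ d / 2 := by
    have : a - u = ((-t : ℝ) : ℂ) * u := by
      rw [ha]; push_cast; ring
    rw [this, norm_mul, hu, Complex.norm_real, Real.norm_eq_abs, abs_neg, abs_of_pos ht0]
    exact hts
  have hA : TransAt F (m + a) := by
    refine ⟨d / 2, by positivity, c₁, fun z hz => hc₁ z ?_⟩
    have : ‖z - (m + u)‖ ≤ ‖z - (m + a)‖ + ‖a - u‖ := by
      have := norm_add_le (z - (m + a)) (a - u)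
      have e : z - (m + a) + (a - u) = z - (m + u) := by ring
      rwa [e] at this
    linarith
  have hB : TransAt F (m - a) := by
    refine ⟨d / 2, by positivity, c₂, fun z hz => hc₂ z ?_⟩
    have : ‖z - (m - u)‖ ≤ ‖z - (m - a)‖ + ‖a - u‖ := by
      have := norm_sub_le (z - (m - a)) (a - u)
      have e : z - (m - a) - (a - u) = z - (m - u) := by ring
      rwa [e] at this
    linarith
  obtain ⟨κ, hκ1, -, hκ3⟩ := he F m a ha0 hA hB
  refine ⟨t, κ, ht0, ht1, fun z hz => hκ1 z (by rwa [hna]), fun x hx => ?_, fun x hx hx1 => ?_⟩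
  · have h0 : 0 < 1 - t := by linarith
    have := hκ3 (x / (1 - t)) (by
      rw [abs_div, abs_of_pos h0, div_le_one h0]
      exact hx)
    have e : m + ((x / (1 - t) : ℝ) : ℂ) * a = m + x * u := by
      rw [ha]
      have h0' : ((1 - t : ℝ) : ℂ) ≠ 0 := by
        exact_mod_cast h0.ne'
      rw [Complex.ofReal_div]
      field_simp
    rwa [e] at this
  · rcases le_or_gt 0 x with h0 | h0
    · rw [abs_of_nonneg h0] at hx hx1
      have hT : TransAt F (m + x * u) := by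
        refine ⟨d / 2, by positivity, c₁, fun z hz => hc₁ z ?_⟩
        have h3 : ‖(x : ℂ) * u - u‖ ≤ d / 2 := by
          have e : (x : ℂ) * u - u = ((x - 1 : ℝ) : ℂ) * u := by push_cast; ring
          rw [e, norm_mul, hu, Complex.norm_real, Real.norm_eq_abs, abs_of_nonpos (by linarith)]
          nlinarith
        have : ‖z - (m + u)‖ ≤ ‖z - (m + x * u)‖ + ‖(x : ℂ) * u - u‖ := by
          have := norm_add_le (z - (m + x * u)) (x * u - u)
          have e : z - (m + x * u) + (x * u - u) = z - (m + u) := by ring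
          rwa [e] at this
        linarith
      exact hT.good
    · rw [abs_of_neg h0] at hx hx1
      have hT : TransAt F (m + x * u) := by
        refine ⟨d / 2, by positivity, c₂, fun z hz => hc₂ z ?_⟩
        have h3 : ‖(x : ℂ) * u + u‖ ≤ d / 2 := by
          have e : (x : ℂ) * u + u = ((x + 1 : ℝ) : ℂ) * u := by push_cast; ring
          rw [e, norm_mul, hu, Complex.norm_real, Real.norm_eq_abs, abs_of_nonneg (by linarith)]
          nlinarith
        have : ‖z - (m - u)‖ ≤ ‖z - (m + x * u)‖ + ‖(x : ℂ) * u + u‖ := by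
          have := norm_add_le (z - (m + x * u)) (x * u + u)
          have e : z - (m + x * u) + (x * u + u) = z - (m - u) := by ring
          rwa [e] at this
        linarith
      exact hT.good

theorem edges (he : S_EDGE) {ι : Type*} (T : Finset ι) (m u : ι → ℂ) (s : ℝ) (hs : 0 < s)
    (hu : ∀ e ∈ T, ‖u e‖ = s / 2)
    (hm : ∀ e ∈ T, ∀ e' ∈ T, e ≠ e' → s ≤ ‖m e - m e'‖)
    (F : ℂ ≃ₜ ℂ) (h1 : ∀ e ∈ T, TransAt F (m e + u e)) (h2 : ∀ e ∈ T, TransAt F (m e - u e)) :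
    ∃ K : ℂ ≃ₜ ℂ, CSupp K ∧ (∀ z, ‖K z - z‖ ≤ s) ∧
      (∀ e ∈ T, ∀ x : ℝ, |x| ≤ 1 → Good (fun z => F (K z)) (m e + x * u e)) ∧
      ∀ z, (∀ e ∈ T, s / 2 ≤ ‖z - m e‖) → (K : ℂ → ℂ) =ᶠ[𝓝 z] fun w => w := by
  classical
  have key : ∀ e, e ∈ T → ∃ (t : ℝ) (κ : ℂ ≃ₜ ℂ), 0 < t ∧ t < 1 ∧
      (∀ z, (1 - t) * (s / 2) ≤ ‖z - m e‖ → κ z = z) ∧
      (∀ x : ℝ, |x| ≤ 1 - t → Good (fun z => F (κ z)) (m e + x * u e)) ∧
      (∀ x : ℝ, 1 - t < |x| → |x| ≤ 1 → Good F (m e + x * u e)) := fun e hE =>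
    edge1 he (m e) (u e) s hs (hu e hE) F (h1 e hE) (h2 e hE)
  have hne : Nonempty (ℂ ≃ₜ ℂ) := ⟨Homeomorph.refl ℂ⟩
  choose! t κ ht0 ht1 hκ1 hκ2 hκ3 using key
  have hr : ∀ e ∈ T, (1 - t e) * (s / 2) < s / 2 := fun e hE => by
    have := ht0 e hE
    nlinarith
  obtain ⟨K, hK1, hK2, hK3, hK4⟩ := glue' T κ (fun e => ball (m e) ((1 - t e) * (s / 2))) s hs.le
    (fun e hE z hz => hκ1 e hE z (by
      rw [mem_ball, dist_eq_norm, not_lt] at hz
      exact hz))
    (fun e hE e' hE' hne => by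
      refine Metric.ball_disjoint_ball ?_
      rw [dist_eq_norm]
      have := hm e hE e' hE' hne
      have h3 := hr e hE
      have h4 := hr e' hE'
      linarith)
    (fun e _ => isBounded_ball)
    (fun e hE z hz w hw => by
      rw [mem_ball, dist_eq_norm] at hz hw
      have h1 : ‖z - w‖ ≤ ‖z - m e‖ + ‖w - m e‖ := by
        have := norm_sub_le (z - m e) (w - m e)
        simpa using this
      have h3 := hr e hE
      linarith)
  have hnear : ∀ z, (∀ e ∈ T, (1 - t e) * (s / 2) < ‖z - m e‖) →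
      (K : ℂ → ℂ) =ᶠ[𝓝 z] fun w => w := by
    intro z hz
    refine near_id (T := T) (C := fun e => closedBall (m e) ((1 - t e) * (s / 2)))
      (fun v _ => isClosed_closedBall) (fun v hv' hzv => ?_) (fun w hw => hK4 w fun v hv' hwv =>
        hw v hv' (ball_subset_closedBall hwv))
    rw [mem_closedBall, dist_eq_norm] at hzv
    have := hz v hv'
    linarith
  have hother : ∀ e ∈ T, ∀ z, ‖z - m e‖ ≤ s / 2 → ∀ e' ∈ T, e' ≠ e → s / 2 ≤ ‖z - m e'‖ := by
    intro e hE z hz e' hE' hne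
    have h3 := hm e' hE' e hE hne
    have h4 : ‖m e' - m e‖ ≤ ‖z - m e‖ + ‖z - m e'‖ := by
      have := norm_sub_le (z - m e) (z - m e')
      simpa using this
    linarith
  refine ⟨K, hK1, hK2, fun e hE x hx => ?_, fun z hz => hnear z fun e hE =>
    lt_of_lt_of_le (hr e hE) (hz e hE)⟩
  have hzn : ‖m e + x * u e - m e‖ = |x| * (s / 2) := by
    rw [add_sub_cancel_left, norm_mul, hu e hE, Complex.norm_real, Real.norm_eq_abs]
  rcases le_or_gt |x| (1 - t e) with hxt | hxt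
  · refine (hκ2 e hE x hxt).congr ?_
    have h3 : ∀ᶠ w in 𝓝 (m e + x * u e), ∀ e' ∈ T.erase e,
        w ∉ closedBall (m e') ((1 - t e') * (s / 2)) := by
      refine (Filter.eventually_all_finset _).2 fun e' he' =>
        isClosed_closedBall.isOpen_compl.mem_nhds ?_
      rw [Finset.mem_erase] at he'
      intro hc
      rw [mem_closedBall, dist_eq_norm] at hc
      have h4 := hother e hE (m e + x * u e) (by rw [hzn]; nlinarith) e' he'.2 he'.1
      have h5 := hr e' he'.2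
      linarith
    filter_upwards [h3] with w hw
    by_cases hwe : w ∈ ball (m e) ((1 - t e) * (s / 2))
    · rw [hK3 e hE w hwe]
    · have h6 : κ e w = w := hκ1 e hE w (by
        rw [mem_ball, dist_eq_norm, not_lt] at hwe
        exact hwe)
      have h7 : K w = w := hK4 w fun e' hE' hc => by
        by_cases hee : e' = e
        · rw [hee] at hc
          exact hwe hc
        · exact hw e' (Finset.mem_erase.2 ⟨hee, hE'⟩) (ball_subset_closedBall hc)
      rw [h6, h7]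
  · refine (hκ3 e hE x hxt hx).congr (comp_near (hnear _ fun e' hE' => ?_))
    by_cases hee : e' = e
    · rw [hee, hzn]
      have : 0 < s / 2 := by positivity
      nlinarith
    · exact lt_of_lt_of_le (hr e' hE') (hother e hE _ (by rw [hzn]; nlinarith) e' hE' hee)

/-! ### cells -/

theorem cells (hc : S_CELL) {ι : Type*} (T : Finset ι) (a b c d : ι → ℝ) (D : ℝ) (hD : 0 ≤ D)
    (hab : ∀ e ∈ T, a e < b e) (hcd : ∀ e ∈ T, c e < d e)
    (hdis : ∀ e ∈ T, ∀ e' ∈ T, e ≠ e' →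
      Disjoint (Rect (a e) (b e) (c e) (d e)) (Rect (a e') (b e') (c e') (d e')))
    (hD' : ∀ e ∈ T, (b e - a e) + (d e - c e) ≤ D)
    (F : ℂ ≃ₜ ℂ) (hF : ∀ z, (∀ e ∈ T, z ∉ Rect (a e) (b e) (c e) (d e)) → Good F z)
    (hF2 : ∀ e ∈ T, ∀ z ∈ CRect (a e) (b e) (c e) (d e), z ∉ Rect (a e) (b e) (c e) (d e) →
      Good F z) :
    ∃ K : ℂ ≃ₜ ℂ, CSupp K ∧ (∀ z, ‖K z - z‖ ≤ D) ∧ ∀ z, Good (fun z => F (K z)) z := by
  have key : ∀ e, e ∈ T → ∃ (κ : ℂ ≃ₜ ℂ) (K' : Set ℂ), IsCompact K' ∧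
      K' ⊆ Rect (a e) (b e) (c e) (d e) ∧ (∀ z, z ∉ K' → κ z = z) ∧
      ∀ z ∈ Rect (a e) (b e) (c e) (d e), Good (fun z => F (κ z)) z := by
    intro e hE
    refine hc F (a e) (b e) (c e) (d e) (CRect (a e) (b e) (c e) (d e) ∩ {z | Good F z}ᶜ)
      (hab e hE) (hcd e hE)
      ((isCompact_CRect _ _ _ _).inter_right (isOpen_good F).isClosed_compl) ?_ ?_
    · intro z hz
      by_contra hzr
      exact hz.2 (hF2 e hE z hz.1 hzr)
    · intro z hz hzn
      by_contra hg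
      exact hzn ⟨Rect_subset_CRect _ _ _ _ hz, hg⟩
  have hne : Nonempty (ℂ ≃ₜ ℂ) := ⟨Homeomorph.refl ℂ⟩
  choose! κ K' hK1' hK2' hκ1 hκ2 using key
  obtain ⟨K, hK1, hK2, hK3, hK4⟩ := glue' T κ (fun e => Rect (a e) (b e) (c e) (d e)) D hD
    (fun e hE z hz => hκ1 e hE z fun h => hz (hK2' e hE h)) hdis
    (fun e hE => (isCompact_CRect (a e) (b e) (c e) (d e)).isBounded.subset
      (Rect_subset_CRect _ _ _ _))
    (fun e hE z hz w hw => by
      refine le_trans ?_ (hD' e hE)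
      refine le_trans (Complex.norm_le_abs_re_add_abs_im _) ?_
      obtain ⟨h1, h2, h3, h4⟩ := hz
      obtain ⟨g1, g2, g3, g4⟩ := hw
      rw [Complex.sub_re, Complex.sub_im]
      refine add_le_add (abs_le.2 ⟨by linarith, by linarith⟩) (abs_le.2 ⟨by linarith, by linarith⟩))
  refine ⟨K, hK1, hK2, fun z => ?_⟩
  by_cases hz : ∃ e ∈ T, z ∈ Rect (a e) (b e) (c e) (d e)
  · obtain ⟨e, hE, hze⟩ := hz
    refine (hκ2 e hE z hze).congr ?_
    filter_upwards [(isOpen_Rect _ _ _ _).mem_nhds hze] with w hw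
    rw [hK3 e hE w hw]
  · push Not at hz
    refine (hF z hz).congr (comp_near ?_)
    refine near_id (T := T) (C := K') (fun e hE => (hK1' e hE).isClosed)
      (fun e hE hzK => hz e hE (hK2' e hE hzK)) (fun w hw => ?_)
    by_cases hwe : ∃ e ∈ T, w ∈ Rect (a e) (b e) (c e) (d e)
    · obtain ⟨e, hE, hwe⟩ := hwe
      rw [hK3 e hE w hwe, hκ1 e hE w (hw e hE)]
    · push Not at hwe
      exact hK4 w hwe

/-! ### the grid -/

/-- shifted lattice points -/
def q (s α β : ℝ) (e : ℤ × ℤ) : ℂ := ⟨s * (e.1 + α), s * (e.2 + β)⟩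

theorem abs_int_ge {s : ℝ} (hs : 0 < s) {k : ℤ} (hk : k ≠ 0) : s ≤ |s * k| := by
  rw [abs_mul, abs_of_pos hs]
  have h1 : (1 : ℝ) ≤ |(k : ℝ)| := by
    have := Int.one_le_abs hk
    exact_mod_cast this
  nlinarith

theorem abs_half_ge {s : ℝ} (hs : 0 < s) (k : ℤ) : s / 2 ≤ |s * (k + 1 / 2)| := by
  rw [abs_mul, abs_of_pos hs]
  have h1 : (1 : ℝ) / 2 ≤ |(k : ℝ) + 1 / 2| := by
    rcases le_or_gt 0 k with h | h
    · have : (0 : ℝ) ≤ k := by exact_mod_cast h
      rw [abs_of_nonneg (by linarith)]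
      linarith
    · have : (k : ℝ) ≤ -1 := by exact_mod_cast (Int.le_sub_one_of_lt h : k ≤ 0 - 1)
      rw [abs_of_nonpos (by linarith)]
      linarith
  nlinarith

theorem q_sep {s : ℝ} (hs : 0 < s) (α β : ℝ) {e e' : ℤ × ℤ} (h : e ≠ e') :
    s ≤ ‖q s α β e - q s α β e'‖ := by
  by_cases h1 : e.1 = e'.1
  · have h2 : e.2 ≠ e'.2 := fun h2 => h (Prod.ext h1 h2)
    refine le_trans ?_ (Complex.abs_im_le_norm _)
    have h3 : (q s α β e - q s α β e').im = s * ((e.2 - e'.2 : ℤ) : ℝ) := by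
      simp only [q, Complex.sub_im]
      push_cast
      ring
    rw [h3]
    exact abs_int_ge hs (sub_ne_zero.2 h2)
  · refine le_trans ?_ (Complex.abs_re_le_norm _)
    have h3 : (q s α β e - q s α β e').re = s * ((e.1 - e'.1 : ℤ) : ℝ) := by
      simp only [q, Complex.sub_re]
      push_cast
      ring
    rw [h3]
    exact abs_int_ge hs (sub_ne_zero.2 h1)

/-- the box of indices -/
def box (N : ℕ) : Finset (ℤ × ℤ) := Finset.Icc (-(N : ℤ)) N ×ˢ Finset.Icc (-(N : ℤ)) N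

theorem not_mem_box {N : ℕ} {e : ℤ × ℤ} (h : e ∉ box N) :
    e.1 + 1 ≤ -(N : ℤ) ∨ (N : ℤ) + 1 ≤ e.1 ∨ e.2 + 1 ≤ -(N : ℤ) ∨ (N : ℤ) + 1 ≤ e.2 := by
  unfold box at h
  rw [Finset.mem_product, Finset.mem_Icc, Finset.mem_Icc] at h
  omega

/-- points in the closed cell of an index outside of the box are far away -/
theorem far_cell {s : ℝ} (hs : 0 < s) {N : ℕ} {e : ℤ × ℤ} (h : e ∉ box N) {z : ℂ}
    (h1 : s * e.1 ≤ z.re) (h2 : z.re ≤ s * (e.1 + 1)) (h3 : s * e.2 ≤ z.im)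
    (h4 : z.im ≤ s * (e.2 + 1)) : s * N ≤ ‖z‖ := by
  rcases not_mem_box h with h | h | h | h
  · have h' : (e.1 : ℝ) + 1 ≤ -(N : ℝ) := by exact_mod_cast h
    refine le_trans ?_ (Complex.abs_re_le_norm _)
    refine le_trans ?_ (neg_le_abs _)
    nlinarith
  · have h' : (N : ℝ) + 1 ≤ (e.1 : ℝ) := by exact_mod_cast h
    refine le_trans ?_ (Complex.abs_re_le_norm _)
    refine le_trans ?_ (le_abs_self _)
    nlinarith
  · have h' : (e.2 : ℝ) + 1 ≤ -(N : ℝ) := by exact_mod_cast h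
    refine le_trans ?_ (Complex.abs_im_le_norm _)
    refine le_trans ?_ (neg_le_abs _)
    nlinarith
  · have h' : (N : ℝ) + 1 ≤ (e.2 : ℝ) := by exact_mod_cast h
    refine le_trans ?_ (Complex.abs_im_le_norm _)
    refine le_trans ?_ (le_abs_self _)
    nlinarith

theorem floor_cell {s : ℝ} (hs : 0 < s) (x : ℝ) :
    s * (⌊x / s⌋ : ℤ) ≤ x ∧ x < s * ((⌊x / s⌋ : ℤ) + 1) := by
  constructor
  · have := Int.floor_le (x / s)
    rw [le_div_iff₀ hs] at this
    linarith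
  · have := Int.lt_floor_add_one (x / s)
    rw [div_lt_iff₀ hs] at this
    linarith

theorem exists_box {s : ℝ} (hs : 0 < s) (R : ℝ) : ∃ N : ℕ, R < s * N := by
  obtain ⟨N, hN⟩ := exists_nat_gt (R / s)
  refine ⟨N, ?_⟩
  rw [div_lt_iff₀ hs] at hN
  linarith

theorem main (ha : S_OPA) (hv : S_VTX) (he : S_EDGE) (hc : S_CELL) : S_SMOOTH := by
  intro F hF δ hδ
  set s : ℝ := δ / 5 with hs'
  have hs : 0 < s := by positivity
  obtain ⟨R₀, hR₀⟩ := hF
  -- F preserves the orientation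
  have hOP : OP F := by
    refine ha F ((|R₀| + 1 : ℝ) : ℂ) 1 one_pos fun z hz => hR₀ z ?_
    have h1 : ‖((|R₀| + 1 : ℝ) : ℂ)‖ = |R₀| + 1 := by
      rw [Complex.norm_real, Real.norm_of_nonneg (by positivity)]
    have h2 : ‖((|R₀| + 1 : ℝ) : ℂ)‖ ≤ ‖z‖ + ‖z - ((|R₀| + 1 : ℝ) : ℂ)‖ := by
      have := norm_sub_le z (z - ((|R₀| + 1 : ℝ) : ℂ))
      simpa using this
    have h3 := le_abs_self R₀
    linarith
  -- step 1: vertices
  obtain ⟨N₁, hN₁⟩ := exists_box hs R₀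
  obtain ⟨K₁, hK₁, hd₁, hT₁, hI₁⟩ := verts hv (box N₁) (q s 0 0) s hs
    (fun v _ v' _ h => q_sep hs 0 0 h) F hOP
  set F₁ : ℂ ≃ₜ ℂ := K₁.trans F with hF₁
  have hF₁C : CSupp F₁ := CSupp.trans hK₁ ⟨R₀, hR₀⟩
  have hF₁T : ∀ v : ℤ × ℤ, TransAt F₁ (q s 0 0 v) := by
    intro v
    by_cases hvb : v ∈ box N₁
    · exact hT₁ v hvb
    · have h1 : (K₁ : ℂ → ℂ) =ᶠ[𝓝 (q s 0 0 v)] fun w => w := hI₁ _ fun v' hv' => by
        have := q_sep hs 0 0 (e := v) (e' := v') (by rintro rfl; exact hvb hv')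
        linarith
      have h2 : (F : ℂ → ℂ) =ᶠ[𝓝 (q s 0 0 v)] fun w => w := by
        refine far hR₀ (lt_of_lt_of_le hN₁ (far_cell hs hvb ?_ ?_ ?_ ?_)) <;>
          simp only [q] <;> nlinarith
      exact transAt_id ((comp_near (F := F) h1).symm.trans h2)
  obtain ⟨R₁, hR₁⟩ := hF₁C
  -- step 2: horizontal edges
  obtain ⟨N₂, hN₂⟩ := exists_box hs R₁
  have hu2 : ∀ e : ℤ × ℤ, q s (1 / 2) 0 e + ((s / 2 : ℝ) : ℂ) = q s 0 0 (e.1 + 1, e.2) := by
    intro e
    apply Complex.ext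
    · simp only [q, Complex.add_re, Complex.ofReal_re]
      push_cast
      ring
    · simp only [q, Complex.add_im, Complex.ofReal_im]
      ring
  have hu2' : ∀ e : ℤ × ℤ, q s (1 / 2) 0 e - ((s / 2 : ℝ) : ℂ) = q s 0 0 e := by
    intro e
    apply Complex.ext
    · simp only [q, Complex.sub_re, Complex.ofReal_re]
      ring
    · simp only [q, Complex.sub_im, Complex.ofReal_im]
      ring
  obtain ⟨K₂, hK₂, hd₂, hG₂, hI₂⟩ := edges he (box N₂) (q s (1 / 2) 0) (fun _ => ((s / 2 : ℝ) : ℂ))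
    s hs (fun e _ => by rw [Complex.norm_real, Real.norm_of_nonneg (by positivity)])
    (fun v _ v' _ h => q_sep hs _ _ h) F₁
    (fun e _ => by rw [hu2]; exact hF₁T _)
    (fun e _ => by rw [hu2']; exact hF₁T _)
  set F₂ : ℂ ≃ₜ ℂ := K₂.trans F₁ with hF₂
  have hF₂C : CSupp F₂ := CSupp.trans hK₂ ⟨R₁, hR₁⟩
  have hF₂T : ∀ v : ℤ × ℤ, TransAt F₂ (q s 0 0 v) := by
    intro v
    refine TransAt.congr' (hF₁T v) (comp_near (hI₂ _ fun e _ => ?_))
    refine le_trans ?_ (Complex.abs_re_le_norm _)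
    have h3 : (q s 0 0 v - q s (1 / 2) 0 e).re = s * (((v.1 - e.1 - 1 : ℤ) : ℝ) + 1 / 2) := by
      simp only [q, Complex.sub_re]
      push_cast
      ring
    rw [h3]
    exact abs_half_ge hs _
  have hF₂G : ∀ z : ℂ, (∃ j : ℤ, z.im = s * j) → Good F₂ z := by
    rintro z ⟨j, hj⟩
    obtain ⟨h1, h2⟩ := floor_cell hs z.re
    set i : ℤ := ⌊z.re / s⌋ with hi
    by_cases hb : (i, j) ∈ box N₂
    · have h3 := hG₂ (i, j) hb ((z.re - s * (i + 1 / 2)) / (s / 2)) (by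
        rw [abs_div, abs_of_pos (by positivity : 0 < s / 2), div_le_one (by positivity), abs_le]
        constructor <;> linarith)
      have h4 : q s (1 / 2) 0 (i, j) +
          (((z.re - s * (i + 1 / 2)) / (s / 2) : ℝ) : ℂ) * ((s / 2 : ℝ) : ℂ) = z := by
        rw [← Complex.ofReal_mul]
        apply Complex.ext
        · simp only [q, Complex.add_re, Complex.ofReal_re]
          rw [div_mul_cancel₀ _ (by positivity)]
          ring
        · simp only [q, Complex.add_im, Complex.ofReal_im]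
          rw [hj]
          ring
      rw [h4] at h3
      exact h3
    · have h3 : (F₁ : ℂ → ℂ) =ᶠ[𝓝 z] fun w => w := by
        refine far hR₁ (lt_of_lt_of_le hN₂ (far_cell hs hb h1 h2.le ?_ ?_))
        · simp only [hj]; exact le_refl _
        · simp only [hj]; nlinarith
      have h4 : (K₂ : ℂ → ℂ) =ᶠ[𝓝 z] fun w => w := hI₂ z fun e hE => by
        have h5 : s ≤ ‖q s (1 / 2) 0 (i, j) - q s (1 / 2) 0 e‖ := q_sep hs _ _ (by
          rintro rfl; exact hb hE)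
        have h6 : ‖z - q s (1 / 2) 0 (i, j)‖ ≤ s / 2 := by
          refine le_trans (Complex.norm_le_abs_re_add_abs_im _) ?_
          have h7 : (z - q s (1 / 2) 0 (i, j)).im = 0 := by
            simp only [q, Complex.sub_im]
            rw [hj]
            ring
          rw [h7, abs_zero, add_zero]
          simp only [q, Complex.sub_re]
          rw [abs_le]
          constructor <;> linarith
        have h8 : ‖q s (1 / 2) 0 (i, j) - q s (1 / 2) 0 e‖ ≤
            ‖z - q s (1 / 2) 0 (i, j)‖ + ‖z - q s (1 / 2) 0 e‖ := by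
          have := norm_sub_le (z - q s (1 / 2) 0 e) (z - q s (1 / 2) 0 (i, j))
          have e1 : z - q s (1 / 2) 0 e - (z - q s (1 / 2) 0 (i, j)) =
            q s (1 / 2) 0 (i, j) - q s (1 / 2) 0 e := by ring
          rw [e1] at this
          linarith
        linarith
      exact good_near ((comp_near (F := F₁) h4).symm.trans h3)
  obtain ⟨R₂, hR₂⟩ := hF₂C
  -- step 3: vertical edges
  obtain ⟨N₃, hN₃⟩ := exists_box hs R₂
  have hu3 : ∀ e : ℤ × ℤ, q s 0 (1 / 2) e + ((s / 2 : ℝ) : ℂ) * Complex.I =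
      q s 0 0 (e.1, e.2 + 1) := by
    intro e
    apply Complex.ext
    · simp only [q, Complex.add_re, Complex.mul_re, Complex.ofReal_re, Complex.I_re,
        Complex.ofReal_im, Complex.I_im]
      ring
    · simp only [q, Complex.add_im, Complex.mul_im, Complex.ofReal_re, Complex.I_re,
        Complex.ofReal_im, Complex.I_im]
      push_cast
      ring
  have hu3' : ∀ e : ℤ × ℤ, q s 0 (1 / 2) e - ((s / 2 : ℝ) : ℂ) * Complex.I = q s 0 0 e := by
    intro e
    apply Complex.ext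
    · simp only [q, Complex.sub_re, Complex.mul_re, Complex.ofReal_re, Complex.I_re,
        Complex.ofReal_im, Complex.I_im]
      ring
    · simp only [q, Complex.sub_im, Complex.mul_im, Complex.ofReal_re, Complex.I_re,
        Complex.ofReal_im, Complex.I_im]
      ring
  obtain ⟨K₃, hK₃, hd₃, hG₃, hI₃⟩ := edges he (box N₃) (q s 0 (1 / 2))
    (fun _ => ((s / 2 : ℝ) : ℂ) * Complex.I)
    s hs (fun e _ => by
      rw [norm_mul, Complex.norm_I, mul_one, Complex.norm_real, Real.norm_of_nonneg (by positivity)])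
    (fun v _ v' _ h => q_sep hs _ _ h) F₂
    (fun e _ => by rw [hu3]; exact hF₂T _)
    (fun e _ => by rw [hu3']; exact hF₂T _)
  set F₃ : ℂ ≃ₜ ℂ := K₃.trans F₂ with hF₃
  have hF₃C : CSupp F₃ := CSupp.trans hK₃ ⟨R₂, hR₂⟩
  have hF₃H : ∀ z : ℂ, (∃ j : ℤ, z.im = s * j) → Good F₃ z := by
    rintro z ⟨j, hj⟩
    refine (hF₂G z ⟨j, hj⟩).congr (comp_near (hI₃ _ fun e _ => ?_))
    refine le_trans ?_ (Complex.abs_im_le_norm _)
    have h3 : (z - q s 0 (1 / 2) e).im = s * (((j - e.2 - 1 : ℤ) : ℝ) + 1 / 2) := by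
      simp only [q, Complex.sub_im]
      rw [hj]
      push_cast
      ring
    rw [h3]
    exact abs_half_ge hs _
  have hF₃V : ∀ z : ℂ, (∃ i : ℤ, z.re = s * i) → Good F₃ z := by
    rintro z ⟨i, hi⟩
    obtain ⟨h1, h2⟩ := floor_cell hs z.im
    set j : ℤ := ⌊z.im / s⌋ with hj
    by_cases hb : (i, j) ∈ box N₃
    · have h3 := hG₃ (i, j) hb ((z.im - s * (j + 1 / 2)) / (s / 2)) (by
        rw [abs_div, abs_of_pos (by positivity : 0 < s / 2), div_le_one (by positivity), abs_le]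
        constructor <;> linarith)
      have h4 : q s 0 (1 / 2) (i, j) +
          (((z.im - s * (j + 1 / 2)) / (s / 2) : ℝ) : ℂ) * (((s / 2 : ℝ) : ℂ) * Complex.I) = z := by
        rw [← mul_assoc, ← Complex.ofReal_mul]
        apply Complex.ext
        · simp only [q, Complex.add_re, Complex.mul_re, Complex.ofReal_re, Complex.I_re,
            Complex.ofReal_im, Complex.I_im]
          rw [hi]
          ring
        · simp only [q, Complex.add_im, Complex.mul_im, Complex.ofReal_re, Complex.I_re,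
            Complex.ofReal_im, Complex.I_im]
          rw [div_mul_cancel₀ _ (by positivity)]
          ring
      rw [h4] at h3
      exact h3
    · have h3 : (F₂ : ℂ → ℂ) =ᶠ[𝓝 z] fun w => w := by
        refine far hR₂ (lt_of_lt_of_le hN₃ (far_cell hs hb ?_ ?_ h1 h2.le))
        · simp only [hi]; exact le_refl _
        · simp only [hi]; nlinarith
      have h4 : (K₃ : ℂ → ℂ) =ᶠ[𝓝 z] fun w => w := hI₃ z fun e hE => by
        have h5 : s ≤ ‖q s 0 (1 / 2) (i, j) - q s 0 (1 / 2) e‖ := q_sep hs _ _ (by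
          rintro rfl; exact hb hE)
        have h6 : ‖z - q s 0 (1 / 2) (i, j)‖ ≤ s / 2 := by
          refine le_trans (Complex.norm_le_abs_re_add_abs_im _) ?_
          have h7 : (z - q s 0 (1 / 2) (i, j)).re = 0 := by
            simp only [q, Complex.sub_re]
            rw [hi]
            ring
          rw [h7, abs_zero, zero_add]
          simp only [q, Complex.sub_im]
          rw [abs_le]
          constructor <;> linarith
        have h8 : ‖q s 0 (1 / 2) (i, j) - q s 0 (1 / 2) e‖ ≤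
            ‖z - q s 0 (1 / 2) (i, j)‖ + ‖z - q s 0 (1 / 2) e‖ := by
          have := norm_sub_le (z - q s 0 (1 / 2) e) (z - q s 0 (1 / 2) (i, j))
          have e1 : z - q s 0 (1 / 2) e - (z - q s 0 (1 / 2) (i, j)) =
            q s 0 (1 / 2) (i, j) - q s 0 (1 / 2) e := by ring
          rw [e1] at this
          linarith
        linarith
      exact good_near ((comp_near (F := F₂) h4).symm.trans h3)
  obtain ⟨R₃, hR₃⟩ := hF₃C
  -- step 4: cells
  obtain ⟨N₄, hN₄⟩ := exists_box hs R₃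
  obtain ⟨K₄, hK₄, hd₄, hG₄⟩ := cells hc (box N₄) (fun e => s * e.1) (fun e => s * (e.1 + 1))
    (fun e => s * e.2) (fun e => s * (e.2 + 1)) (2 * s) (by positivity)
    (fun e _ => by nlinarith) (fun e _ => by nlinarith)
    (fun e _ e' _ hne => by
      rw [Set.disjoint_left]
      rintro z ⟨h1, h2, h3, h4⟩ ⟨g1, g2, g3, g4⟩
      apply hne
      have key : ∀ (x : ℝ) (k l : ℤ), s * k < x → x < s * (k + 1) → s * l < x →
          x < s * (l + 1) → k = l := by
        intro x k l a1 a2 a3 a4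
        have b1 : (k : ℝ) < l + 1 := by
          by_contra hcon
          push Not at hcon
          nlinarith
        have b2 : (l : ℝ) < k + 1 := by
          by_contra hcon
          push Not at hcon
          nlinarith
        have b1' : k < l + 1 := by exact_mod_cast b1
        have b2' : l < k + 1 := by exact_mod_cast b2
        omega
      exact Prod.ext (key _ _ _ h1 h2 g1 g2) (key _ _ _ h3 h4 g3 g4))
    (fun e _ => by nlinarith) F₃
    (fun z hz => by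
      obtain ⟨h1, h2⟩ := floor_cell hs z.re
      obtain ⟨h3, h4⟩ := floor_cell hs z.im
      by_cases hb : ((⌊z.re / s⌋, ⌊z.im / s⌋) : ℤ × ℤ) ∈ box N₄
      · rcases h1.eq_or_lt with h1 | h1
        · exact hF₃V z ⟨_, h1.symm⟩
        · rcases h3.eq_or_lt with h3 | h3
          · exact hF₃H z ⟨_, h3.symm⟩
          · exact absurd ⟨h1, h2, h3, h4⟩ (hz _ hb)
      · exact good_near (far hR₃ (lt_of_lt_of_le hN₄ (far_cell hs hb h1 h2.le h3 h4.le))))
    (fun e _ z hz hz' => by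
      obtain ⟨h1, h2, h3, h4⟩ := hz
      rcases h1.eq_or_lt with h1 | h1
      · exact hF₃V z ⟨_, h1.symm⟩
      rcases h2.eq_or_lt with h2 | h2
      · exact hF₃V z ⟨e.1 + 1, by rw [h2]; push_cast; ring⟩
      rcases h3.eq_or_lt with h3 | h3
      · exact hF₃H z ⟨_, h3.symm⟩
      rcases h4.eq_or_lt with h4 | h4
      · exact hF₃H z ⟨e.2 + 1, by rw [h4]; push_cast; ring⟩
      exact absurd ⟨h1, h2, h3, h4⟩ hz')
  -- conclusion
  refine ⟨K₄.trans (K₃.trans (K₂.trans K₁)),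
    hK₄.trans (hK₃.trans (hK₂.trans hK₁)), fun z => ?_, hG₄⟩
  show ‖K₁ (K₂ (K₃ (K₄ z))) - z‖ ≤ δ
  have h1 := hd₁ (K₂ (K₃ (K₄ z)))
  have h2 := hd₂ (K₃ (K₄ z))
  have h3 := hd₃ (K₄ z)
  have h4 := hd₄ z
  have h5 : K₁ (K₂ (K₃ (K₄ z))) - z = (K₁ (K₂ (K₃ (K₄ z))) - K₂ (K₃ (K₄ z))) +
      (K₂ (K₃ (K₄ z)) - K₃ (K₄ z)) + (K₃ (K₄ z) - K₄ z) + (K₄ z - z) := by ring
  rw [h5]
  refine le_trans (norm_add_le _ _) ?_
  refine le_trans (add_le_add (norm_add_le _ _) le_rfl) ?_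
  refine le_trans (add_le_add (add_le_add (norm_add_le _ _) le_rfl) le_rfl) ?_
  rw [hs'] at h1 h2 h3 h4
  linarith

end Pool.Agent.H114.SM2
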