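import Pool.Agent.H10.MW.Edge0
import Pool.Agent.H10.MW.Fin
import Pool.Agent.H10.MW.Orient
import Pool.Agent.H10.MW.KL
import Pool.Agent.H10.MW.RL
import Pool.Agent.H10.MW.Germ
import Pool.Agent.H10.MW.Cone
import Pool.Agent.H10.MW.Edge
import Pool.Agent.H10.MW.Cell
import Pool.Agent.H10.MW.Smooth
import Pool.Agent.H10.MW.Fib
import Pool.Agent.H10.MW.Moser
import Pool.Agent.H10.MW.Bal
import Pool.Agent.H10.MW.Lines
import Pool.Agent.H10.MW.Corr
import Pool.Agent.H10.MW.Radial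

/-!
# Project SM2 (helper10): all the parts together
-/

set_option autoImplicit false

namespace Pool.Agent.H10.MW

theorem p_RL : S_RL := Pool.Agent.H287.SM2.RL.main

theorem p_EDGE : S_EDGE :=
  Pool.Agent.H484.SM2.main (edge0 p_RL Pool.Agent.H249.SM2.Germ.main Pool.Agent.H282.SM2.main)

theorem p_VTX : S_VTX := Pool.Agent.H331.SM2.vtx Pool.Agent.H553.SM2.opa Pool.Agent.H553.SM2.opb

theorem p_INF : S_INF := Pool.Agent.H331.SM2.inf Pool.Agent.H553.SM2.opa Pool.Agent.H553.SM2.opb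

theorem p_SMOOTH : S_SMOOTH :=
  Pool.Agent.H114.SM2.main Pool.Agent.H553.SM2.opa p_VTX p_EDGE Pool.Agent.H677.SM2.main

theorem p_MOSER : S_MOSER :=
  Pool.Agent.H811.SM2.Moser.main Pool.Agent.H225.SM2.fibv Pool.Agent.H225.SM2.fibh

theorem p_BAL : S_BAL := Pool.Agent.H597.SM2Bal.main Pool.Agent.H225.SM2.fibh

theorem p_LINES : S_LINES :=
  Pool.Agent.H356.SM2.Lines.main Pool.Agent.H225.SM2.fibv Pool.Agent.H225.SM2.fibh

theorem p_CORR : S_CORR := Pool.Agent.H114.SM2.Corr.main p_BAL p_LINES p_MOSER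

theorem p_FIN : S_FIN := fin p_INF p_SMOOTH p_CORR Pool.Agent.H287.SM2.Radial.main

end Pool.Agent.H10.MW
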