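import Pool.Agent.H10.MW.Stm

/-!
# Project SM2 (helper10): basic lemmas
-/

set_option autoImplicit false

open Set Filter Topology Metric MeasureTheory
open scoped ContDiff

noncomputable section

namespace Pool.Agent.H10.MW

open Pool.Agent.Helper11.PlaneEuler

theorem Good.self {f : ℂ → ℂ} {z : ℂ} (h : Good f z) :
    ContDiffAt ℝ ∞ f z ∧ 0 < (fderiv ℝ f z).det := h.self_of_nhds

theorem Good.contDiffAt {f : ℂ → ℂ} {z : ℂ} (h : Good f z) : ContDiffAt ℝ ∞ f z := h.self.1

theorem Good.pos {f : ℂ → ℂ} {z : ℂ} (h : Good f z) : 0 < J f z := h.self.2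

theorem Good.continuousAt {f : ℂ → ℂ} {z : ℂ} (h : Good f z) : ContinuousAt f z :=
  h.contDiffAt.continuousAt

theorem Good.differentiableAt {f : ℂ → ℂ} {z : ℂ} (h : Good f z) : DifferentiableAt ℝ f z :=
  h.contDiffAt.differentiableAt (by simp)

theorem Good.eventually {f : ℂ → ℂ} {z : ℂ} (h : Good f z) : ∀ᶠ w in 𝓝 z, Good f w :=
  eventually_eventually_nhds.2 h

theorem isOpen_good (f : ℂ → ℂ) : IsOpen {z | Good f z} :=
  isOpen_iff_mem_nhds.2 fun _ hz => Good.eventually hz

theorem Good.congr {f g : ℂ → ℂ} {z : ℂ} (hf : Good f z) (h : f =ᶠ[𝓝 z] g) : Good g z := by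
  unfold Good at *
  filter_upwards [hf, h.eventuallyEq_nhds] with w hw hw2
  exact ⟨hw.1.congr_of_eventuallyEq hw2.symm, by rw [← hw2.fderiv_eq]; exact hw.2⟩

theorem good_of_isOpen {f : ℂ → ℂ} {U : Set ℂ} (hU : IsOpen U) (hs : ContDiffOn ℝ ∞ f U)
    (hd : ∀ w ∈ U, 0 < (fderiv ℝ f w).det) {z : ℂ} (hz : z ∈ U) : Good f z := by
  unfold Good
  filter_upwards [hU.mem_nhds hz] with w hw
  exact ⟨hs.contDiffAt (hU.mem_nhds hw), hd w hw⟩

theorem good_of_contDiff {f : ℂ → ℂ} (hs : ContDiff ℝ ∞ f)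
    (hd : ∀ w, 0 < (fderiv ℝ f w).det) (z : ℂ) : Good f z :=
  good_of_isOpen isOpen_univ hs.contDiffOn (fun w _ => hd w) (mem_univ z)

theorem contDiff_of_good {f : ℂ → ℂ} (h : ∀ z, Good f z) : ContDiff ℝ ∞ f :=
  contDiff_iff_contDiffAt.2 fun z => (h z).contDiffAt

theorem contDiffOn_of_good {f : ℂ → ℂ} {U : Set ℂ} (h : ∀ z ∈ U, Good f z) :
    ContDiffOn ℝ ∞ f U := fun z hz => (h z hz).contDiffAt.contDiffWithinAt

theorem det_comp' (f g : ℂ →L[ℝ] ℂ) : (f.comp g).det = f.det * g.det :=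
  LinearMap.det_comp _ _

theorem J_comp {f g : ℂ → ℂ} {z : ℂ} (hg : DifferentiableAt ℝ g (f z))
    (hf : DifferentiableAt ℝ f z) : J (fun z => g (f z)) z = J g (f z) * J f z := by
  unfold J
  have h : fderiv ℝ (fun z => g (f z)) z = (fderiv ℝ g (f z)).comp (fderiv ℝ f z) :=
    (hg.hasFDerivAt.comp z hf.hasFDerivAt).fderiv
  rw [h, det_comp']

theorem Good.comp {f g : ℂ → ℂ} {z : ℂ} (hg : Good g (f z)) (hf : Good f z) :
    Good (fun z => g (f z)) z := by
  unfold Good
  filter_upwards [hf.eventually, hf.continuousAt.eventually hg.eventually] with w h1 h2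
  refine ⟨h2.contDiffAt.comp w h1.contDiffAt, ?_⟩
  have := J_comp h2.differentiableAt h1.differentiableAt
  unfold J at this
  rw [this]
  exact mul_pos h2.pos h1.pos

@[simp] theorem det_id' : (ContinuousLinearMap.id ℝ ℂ).det = 1 := LinearMap.det_id

theorem J_id (z : ℂ) : J (fun z => z) z = 1 := by
  unfold J
  rw [fderiv_fun_id]
  exact det_id'

theorem good_id (z : ℂ) : Good (fun z => z) z :=
  good_of_contDiff (f := fun z => z) contDiff_fun_id (fun w => by
    have := J_id w
    unfold J at this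
    rw [this]
    exact one_pos) z

theorem J_congr {f g : ℂ → ℂ} {z : ℂ} (h : f =ᶠ[𝓝 z] g) : J f z = J g z := by
  unfold J
  rw [h.fderiv_eq]

theorem J_add_const (f : ℂ → ℂ) (c z : ℂ) : J (fun z => f z + c) z = J f z := by
  unfold J
  rw [fderiv_add_const]

theorem good_add_const {f : ℂ → ℂ} {z : ℂ} (h : Good f z) (c : ℂ) :
    Good (fun z => f z + c) z := by
  unfold Good at *
  filter_upwards [h] with w hw
  refine ⟨hw.1.add contDiffAt_const, ?_⟩
  rw [fderiv_add_const]
  exact hw.2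

theorem good_trans {f : ℂ → ℂ} {p : ℂ} (h : TransAt f p) : ∀ᶠ z in 𝓝 p, Good f z := by
  obtain ⟨δ, hδ, c, hc⟩ := h
  filter_upwards [isOpen_ball.mem_nhds (mem_ball_self hδ)] with z hz
  refine (good_add_const (good_id z) c).congr ?_
  filter_upwards [isOpen_ball.mem_nhds hz] with w hw
  rw [mem_ball, dist_eq_norm] at hw
  exact (hc w hw).symm

theorem TransAt.good {f : ℂ → ℂ} {p : ℂ} (h : TransAt f p) : Good f p := (good_trans h).self_of_nhds

/-- local inverse of a homeomorphism -/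
theorem Good.symm_at (κ : ℂ ≃ₜ ℂ) {z : ℂ} (h : Good κ z) : Good κ.symm (κ z) := by
  have key : ∀ w, Good κ w → ContDiffAt ℝ ∞ κ.symm (κ w) ∧ 0 < (fderiv ℝ κ.symm (κ w)).det := by
    intro w hw
    obtain ⟨e, he'⟩ : ∃ e : ℂ ≃L[ℝ] ℂ, (e : ℂ →L[ℝ] ℂ) = fderiv ℝ κ w :=
      ⟨(fderiv ℝ κ w).toContinuousLinearEquivOfDetNeZero hw.pos.ne',
        ContinuousLinearMap.coe_toContinuousLinearEquivOfDetNeZero _ _⟩
    have he : HasFDerivAt κ (e : ℂ →L[ℝ] ℂ) w := by
      rw [he']
      exact hw.differentiableAt.hasFDerivAt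
    have h1 : ContDiffAt ℝ ∞ κ.symm (κ w) := by
      have := κ.toOpenPartialHomeomorph.contDiffAt_symm (n := ∞) (a := κ w) (f₀' := e)
        (by simp) (by simpa using he) (by simpa using hw.contDiffAt)
      simpa using this
    refine ⟨h1, ?_⟩
    have h2 : DifferentiableAt ℝ κ.symm (κ w) := h1.differentiableAt (by simp)
    have h3 := J_comp (f := κ) (g := κ.symm) h2 hw.differentiableAt
    have h4 : J (fun z => κ.symm (κ z)) w = 1 := by
      have : (fun z => κ.symm (κ z)) = fun z => z := funext fun z => κ.symm_apply_apply z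
      rw [this]
      exact J_id w
    rw [h4] at h3
    have h5 := hw.pos
    by_contra h6
    have h7 : J κ.symm (κ w) ≤ 0 := not_lt.1 h6
    nlinarith
  unfold Good
  have h1 : ∀ᶠ w in 𝓝 (κ z), Good κ (κ.symm w) := by
    have hc : ContinuousAt κ.symm (κ z) := κ.symm.continuous.continuousAt
    have h2 : ∀ᶠ v in 𝓝 (κ.symm (κ z)), Good κ v := by
      rw [κ.symm_apply_apply]
      exact h.eventually
    exact hc.eventually h2
  filter_upwards [h1] with w hw
  have := key _ hw
  rwa [κ.apply_symm_apply] at this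

theorem good_symm (κ : ℂ ≃ₜ ℂ) (h : ∀ z, Good κ z) (z : ℂ) : Good κ.symm z := by
  have := (h (κ.symm z)).symm_at
  rwa [κ.apply_symm_apply] at this

theorem J_symm (κ : ℂ ≃ₜ ℂ) {z : ℂ} (h : Good κ z) : J κ.symm (κ z) * J κ z = 1 := by
  have h3 := J_comp (f := κ) (g := κ.symm) h.symm_at.differentiableAt h.differentiableAt
  have h4 : J (fun z => κ.symm (κ z)) z = 1 := by
    have : (fun z => κ.symm (κ z)) = fun z => z := funext fun z => κ.symm_apply_apply z
    rw [this]
    exact J_id z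
  rw [h4] at h3
  exact h3.symm

/-- holomorphic functions -/
theorem J_holo {g : ℂ → ℂ} {z : ℂ} (hg : DifferentiableAt ℂ g z) :
    J g z = ‖deriv g z‖ ^ 2 := by
  unfold J
  have h1 : HasFDerivAt g ((ContinuousLinearMap.toSpanSingleton ℂ (deriv g z)).restrictScalars ℝ) z :=
    (hg.hasDerivAt.hasFDerivAt).restrictScalars ℝ
  rw [h1.fderiv]
  change LinearMap.det _ = _
  rw [← LinearMap.det_toMatrix Complex.basisOneI, Matrix.det_fin_two, ← Complex.normSq_eq_norm_sq,
    Complex.normSq_apply]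
  simp [LinearMap.toMatrix_apply, Complex.basisOneI]

theorem good_holo {g : ℂ → ℂ} {U : Set ℂ} (hU : IsOpen U) (hg : DifferentiableOn ℂ g U)
    (h : ∀ z ∈ U, deriv g z ≠ 0) {z : ℂ} (hz : z ∈ U) : Good g z := by
  refine good_of_isOpen hU ?_ ?_ hz
  · exact (hg.contDiffOn hU (n := ∞)).restrict_scalars ℝ
  · intro w hw
    have := J_holo ((hg w hw).differentiableAt (hU.mem_nhds hw))
    unfold J at this
    rw [this]
    have := norm_pos_iff.2 (h w hw)
    positivity

theorem measurable_J (g : ℂ → ℂ) : Measurable (J g) := by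
  unfold J
  exact (ContinuousLinearMap.continuous_det (𝕜 := ℝ) (E := ℂ)).measurable.comp (measurable_fderiv ℝ g)

theorem continuous_J {g : ℂ → ℂ} (h : ContDiff ℝ ∞ g) : Continuous (J g) := by
  unfold J
  exact (ContinuousLinearMap.continuous_det (𝕜 := ℝ) (E := ℂ)).comp
    (h.continuous_fderiv (by simp))

/-- change of variables -/
theorem integral_image (κ : ℂ ≃ₜ ℂ) (h : ∀ z, Good κ z) {S : Set ℂ} (hS : MeasurableSet S)
    (ρ : ℂ → ℝ) : ∫ z in κ '' S, ρ z = ∫ z in S, ρ (κ z) * J κ z := by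
  rw [integral_image_eq_integral_abs_det_fderiv_smul volume hS
    (fun z _ => (h z).differentiableAt.hasFDerivAt.hasFDerivWithinAt) κ.injective.injOn ρ]
  refine setIntegral_congr_fun hS fun z _ => ?_
  have := (h z).pos
  unfold J at *
  simp only [smul_eq_mul]
  rw [abs_of_pos this, mul_comm]

theorem integral_J (g : ℂ ≃ₜ ℂ) (h : ∀ z, Good g z) {S : Set ℂ} (hS : MeasurableSet S) :
    ∫ z in S, J g z = (volume (g '' S)).toReal := by
  have h1 := integral_image g h hS (fun _ => (1 : ℝ))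
  simp only [one_mul] at h1
  rw [← h1]
  simp [Measure.real]

theorem integral_J_comp (g κ : ℂ ≃ₜ ℂ) (hg : ∀ z, Good g z) (hκ : ∀ z, Good κ z) {S : Set ℂ}
    (hS : MeasurableSet S) : ∫ z in S, J (fun z => g (κ z)) z = ∫ z in κ '' S, J g z := by
  rw [integral_image κ hκ hS]
  refine setIntegral_congr_fun hS fun z _ => ?_
  exact J_comp (hg _).differentiableAt (hκ _).differentiableAt

/-! ### supports -/

theorem CSupp.trans {F G : ℂ ≃ₜ ℂ} (hF : CSupp F) (hG : CSupp G) : CSupp (F.trans G) := by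
  obtain ⟨R, hR⟩ := hF
  obtain ⟨R', hR'⟩ := hG
  refine ⟨max R R', fun z hz => ?_⟩
  show G (F z) = z
  rw [hR z ((le_max_left _ _).trans hz), hR' z ((le_max_right _ _).trans hz)]

theorem CSupp.symm {F : ℂ ≃ₜ ℂ} (hF : CSupp F) : CSupp F.symm := by
  obtain ⟨R, hR⟩ := hF
  refine ⟨R, fun z hz => ?_⟩
  rw [Homeomorph.symm_apply_eq, hR z hz]

theorem CSupp.refl : CSupp (Homeomorph.refl ℂ) := ⟨0, fun _ _ => rfl⟩

theorem OP.trans {F G : ℂ ≃ₜ ℂ} (hF : OP F) (hG : OP G) : OP (F.trans G) := by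
  obtain ⟨A, rfl⟩ := hF
  obtain ⟨B, rfl⟩ := hG
  exact ⟨B * A, rfl⟩

theorem OP.symm {F : ℂ ≃ₜ ℂ} (hF : OP F) : OP F.symm := by
  obtain ⟨A, rfl⟩ := hF
  exact ⟨A⁻¹, rfl⟩

/-- a homeomorphism with support in `U` maps `U` onto itself -/
theorem supp_mem {κ : ℂ ≃ₜ ℂ} {U : Set ℂ} (h : ∀ z, z ∉ U → κ z = z) {z : ℂ} (hz : z ∈ U) :
    κ z ∈ U := by
  by_contra h1
  have h2 := h _ h1
  have h3 : κ z = z := κ.injective h2
  rw [h3] at h1
  exact h1 hz

theorem supp_symm {κ : ℂ ≃ₜ ℂ} {U : Set ℂ} (h : ∀ z, z ∉ U → κ z = z) (z : ℂ) (hz : z ∉ U) :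
    κ.symm z = z := by
  rw [Homeomorph.symm_apply_eq, h z hz]

/-- gluing of finitely many homeomorphisms with disjoint supports -/
theorem glue {ι : Type*} (s : Finset ι) (κ : ι → ℂ ≃ₜ ℂ) (U : ι → Set ℂ)
    (h : ∀ i ∈ s, ∀ z, z ∉ U i → κ i z = z)
    (hd : ∀ i ∈ s, ∀ j ∈ s, i ≠ j → Disjoint (U i) (U j)) :
    ∃ K : ℂ ≃ₜ ℂ, (∀ i ∈ s, ∀ z ∈ U i, K z = κ i z) ∧ ∀ z, (∀ i ∈ s, z ∉ U i) → K z = z := by
  classical
  induction s using Finset.induction_on with
  | empty => exact ⟨Homeomorph.refl ℂ, by simp, fun _ _ => rfl⟩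
  | insert a s ha ih =>
    obtain ⟨K, h1, h2⟩ := ih (fun i hi => h i (Finset.mem_insert_of_mem hi))
      (fun i hi j hj => hd i (Finset.mem_insert_of_mem hi) j (Finset.mem_insert_of_mem hj))
    have hda : ∀ i ∈ s, Disjoint (U a) (U i) := fun i hi =>
      hd a (Finset.mem_insert_self _ _) i (Finset.mem_insert_of_mem hi) (by
        rintro rfl; exact ha hi)
    refine ⟨K.trans (κ a), ?_, ?_⟩
    · intro i hi z hz
      show κ a (K z) = κ i z
      rcases Finset.mem_insert.1 hi with rfl | hi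
      · rw [h2 z fun j hj hzj => Set.disjoint_left.1 (hda j hj) hz hzj]
      · rw [h1 i hi z hz, h a (Finset.mem_insert_self _ _)]
        intro hc
        exact Set.disjoint_left.1 (hda i hi) hc
          (supp_mem (h i (Finset.mem_insert_of_mem hi)) hz)
    · intro z hz
      show κ a (K z) = z
      rw [h2 z fun i hi => hz i (Finset.mem_insert_of_mem hi),
        h a (Finset.mem_insert_self _ _) z (hz a (Finset.mem_insert_self _ _))]

/-! ### rectangles -/

theorem isOpen_Rect (a b c d : ℝ) : IsOpen (Rect a b c d) := by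
  unfold Rect
  exact (isOpen_lt continuous_const Complex.continuous_re).inter
    ((isOpen_lt Complex.continuous_re continuous_const).inter
      ((isOpen_lt continuous_const Complex.continuous_im).inter
        (isOpen_lt Complex.continuous_im continuous_const)))

theorem isClosed_CRect (a b c d : ℝ) : IsClosed (CRect a b c d) := by
  unfold CRect
  exact (isClosed_le continuous_const Complex.continuous_re).inter
    ((isClosed_le Complex.continuous_re continuous_const).inter
      ((isClosed_le continuous_const Complex.continuous_im).inter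
        (isClosed_le Complex.continuous_im continuous_const)))

theorem CRect_eq (a b c d : ℝ) : CRect a b c d = Icc a b ×ℂ Icc c d := by
  ext z
  simp only [CRect, Complex.mem_reProdIm, mem_Icc, Set.mem_ofPred_eq]
  tauto

theorem Rect_eq (a b c d : ℝ) : Rect a b c d = Ioo a b ×ℂ Ioo c d := by
  ext z
  simp only [Rect, Complex.mem_reProdIm, mem_Ioo, Set.mem_ofPred_eq]
  tauto

theorem isCompact_CRect (a b c d : ℝ) : IsCompact (CRect a b c d) := by
  rw [CRect_eq]
  exact isCompact_Icc.reProdIm isCompact_Icc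

theorem measurableSet_CRect (a b c d : ℝ) : MeasurableSet (CRect a b c d) :=
  (isClosed_CRect a b c d).measurableSet

theorem Rect_subset_CRect (a b c d : ℝ) : Rect a b c d ⊆ CRect a b c d :=
  fun _ h => ⟨h.1.le, h.2.1.le, h.2.2.1.le, h.2.2.2.le⟩

theorem volume_CRect (a b c d : ℝ) (_hab : a ≤ b) (_hcd : c ≤ d) :
    volume (CRect a b c d) = ENNReal.ofReal ((b - a) * (d - c)) := by
  have h1 : CRect a b c d = Complex.measurableEquivRealProd ⁻¹' (Icc a b ×ˢ Icc c d) := by
    ext z
    simp only [CRect, Set.mem_ofPred_eq, mem_preimage, mem_prod, mem_Icc,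
      Complex.measurableEquivRealProd_apply]
    tauto
  rw [h1, Complex.volume_preserving_equiv_real_prod.measure_preimage
    (measurableSet_Icc.prod measurableSet_Icc).nullMeasurableSet, Measure.volume_eq_prod,
    Measure.prod_prod, Real.volume_Icc, Real.volume_Icc, ENNReal.ofReal_mul (by linarith)]

/-- set integrals over rectangles are iterated integrals -/
theorem integral_CRect {f : ℂ → ℝ} (hf : Continuous f) {a b c d : ℝ} (hab : a ≤ b) (hcd : c ≤ d) :
    ∫ z in CRect a b c d, f z = ∫ x in a..b, ∫ y in c..d, f ⟨x, y⟩ := by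
  have h1 : CRect a b c d = Complex.measurableEquivRealProd ⁻¹' (Icc a b ×ˢ Icc c d) := by
    ext z
    simp only [CRect, Set.mem_ofPred_eq, mem_preimage, mem_prod, mem_Icc,
      Complex.measurableEquivRealProd_apply]
    tauto
  have h2 : ∫ z in CRect a b c d, f z =
      ∫ p in Icc a b ×ˢ Icc c d, f (Complex.measurableEquivRealProd.symm p) := by
    rw [h1]
    have := Complex.volume_preserving_equiv_real_prod.setIntegral_preimage_emb
      Complex.measurableEquivRealProd.measurableEmbedding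
      (fun p => f (Complex.measurableEquivRealProd.symm p)) (Icc a b ×ˢ Icc c d)
    rw [← this]
    simp
  have hc : Continuous fun p : ℝ × ℝ => f (Complex.measurableEquivRealProd.symm p) := by
    refine hf.comp ?_
    exact Complex.equivRealProdCLM.symm.continuous
  rw [h2, Measure.volume_eq_prod, setIntegral_prod _ (hc.continuousOn.integrableOn_compact
    (isCompact_Icc.prod isCompact_Icc))]
  rw [intervalIntegral.integral_of_le hab, integral_Icc_eq_integral_Ioc]
  refine setIntegral_congr_fun measurableSet_Ioc fun x _ => ?_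
  rw [intervalIntegral.integral_of_le hcd, integral_Icc_eq_integral_Ioc]
  rfl

end Pool.Agent.H10.MW
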