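import Pool.Agent.H10.MW.Basic
import Pool.Graph.R_pool_sql_team_seeded_63374d34.N935.SH.Cir

/-!
# Project SM2 (helper10): lifts of homeomorphisms of the circle
-/

set_option autoImplicit false

open Set Filter Topology Metric MeasureTheory
open scoped ContDiff

noncomputable section

namespace Pool.Agent.H10.MW

open Pool.Agent.N935.SH

theorem lift_pm (s : Circle ≃ₜ Circle) : ∃ h : C(ℝ, ℝ),
    (∀ x, Circle.exp (h x) = s (Circle.exp x)) ∧ Function.Injective h ∧
    ((∀ x, h (x + 2 * Real.pi) = h x + 2 * Real.pi) ∨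
      ∀ x, h (x + 2 * Real.pi) = h x - 2 * Real.pi) := by
  obtain ⟨h, hh⟩ := lift_exists ⟨s, s.continuous⟩
  obtain ⟨h', hh'⟩ := lift_exists ⟨s.symm, s.symm.continuous⟩
  obtain ⟨d, hd⟩ := deg_exists _ h hh
  obtain ⟨d', hd'⟩ := deg_exists _ h' hh'
  have hs : ∀ x, Circle.exp (h x) = s (Circle.exp x) := hh
  have hs' : ∀ x, Circle.exp (h' x) = s.symm (Circle.exp x) := hh'
  obtain ⟨m, hm⟩ := lift_unique ⟨fun x => h' (h x), by fun_prop⟩ (ContinuousMap.id ℝ) (fun x => by
    show Circle.exp (h' (h x)) = Circle.exp x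
    rw [hs', hs, Homeomorph.symm_apply_apply])
  have hm' : ∀ x, h' (h x) = x + m * (2 * Real.pi) := hm
  have hpi := Real.pi_pos
  have hdd : d' * d = 1 := by
    have e1 : h (0 + 2 * Real.pi) = h 0 + d * (2 * Real.pi) := by
      have := hd 0 1
      simpa using this
    have e2 : h' (h 0 + d * (2 * Real.pi)) = h' (h 0) + d' * d * (2 * Real.pi) := hd' (h 0) d
    have e3 := hm' (0 + 2 * Real.pi)
    rw [e1, e2, hm' 0] at e3
    have e4 : ((d' : ℝ) * d - 1) * (2 * Real.pi) = 0 := by linarith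
    have e5 : (d' : ℝ) * d - 1 = 0 := by
      rcases mul_eq_zero.1 e4 with h | h
      · exact h
      · exfalso; linarith
    have e6 : ((d' * d : ℤ) : ℝ) = ((1 : ℤ) : ℝ) := by push_cast; linarith
    exact_mod_cast e6
  have hinj : Function.Injective h := by
    intro x y hxy
    have h1 := hm' x
    have h2 := hm' y
    rw [hxy] at h1
    linarith
  refine ⟨h, hs, hinj, ?_⟩
  rcases Int.mul_eq_one_iff_eq_one_or_neg_one.1 hdd with ⟨-, hd1⟩ | ⟨-, hd1⟩
  · left
    intro x
    have := hd x 1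
    rw [hd1] at this
    simpa using this
  · right
    intro x
    have := hd x 1
    rw [hd1] at this
    push_cast at this
    rw [one_mul] at this
    rw [this]
    ring

theorem lift_smooth (h : C(ℝ, ℝ)) (x₀ : ℝ) (u W : ℂ → ℂ) (δ : ℝ) (hδ : 0 < δ)
    (hW : DifferentiableOn ℂ W (ball 0 δ)) (hW0 : W 0 = 0)
    (hWim : ∀ x : ℝ, |x| < δ → (W x).im = 0)
    (hWr : ∀ x : ℝ, |x| < δ → ∃ r : ℝ, 0 < r ∧ deriv W (x : ℂ) = (r : ℂ))
    (hh : ∀ x : ℝ, u (Complex.exp (x * Complex.I)) = Complex.exp (h x * Complex.I))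
    (hu : ∀ x : ℝ, |x| < δ →
      u (Complex.exp (x₀ * Complex.I) * Complex.exp (Complex.I * x)) =
        u (Complex.exp (x₀ * Complex.I)) * Complex.exp (Complex.I * W x)) :
    ∀ᶠ y in 𝓝 x₀, ContDiffAt ℝ ∞ h y ∧ 0 < deriv h y := by
  have hmem : ∀ x : ℝ, |x| < δ → (x : ℂ) ∈ ball (0 : ℂ) δ := fun x hx => by
    rw [mem_ball_zero_iff, Complex.norm_real]
    exact hx
  have hWc : ContinuousAt (fun x : ℝ => (W x).re) 0 := by
    have h1 : ContinuousAt W ((0 : ℝ) : ℂ) :=
      (hW _ (hmem 0 (by simpa using hδ))).continuousWithinAt.continuousAt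
        (isOpen_ball.mem_nhds (hmem 0 (by simpa using hδ)))
    have h2 : ContinuousAt (fun x : ℝ => W x) 0 :=
      ContinuousAt.comp (g := W) (f := fun x : ℝ => (x : ℂ)) h1 Complex.continuous_ofReal.continuousAt
    exact Complex.continuous_re.continuousAt.comp h2
  have hD : ∀ᶠ x in 𝓝 (0 : ℝ), |h (x₀ + x) - h x₀ - (W x).re| < 2 * Real.pi := by
    have h1 : ContinuousAt (fun x : ℝ => |h (x₀ + x) - h x₀ - (W x).re|) 0 := by
      refine ContinuousAt.abs (ContinuousAt.sub ?_ hWc)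
      fun_prop
    have h2 : |h (x₀ + 0) - h x₀ - (W ((0 : ℝ) : ℂ)).re| = 0 := by
      rw [Complex.ofReal_zero, hW0]
      simp
    have h3 : Tendsto (fun x : ℝ => |h (x₀ + x) - h x₀ - (W x).re|) (𝓝 0)
        (𝓝 |h (x₀ + 0) - h x₀ - (W ((0 : ℝ) : ℂ)).re|) := h1
    rw [h2] at h3
    exact h3.eventually_lt_const (by positivity)
  have hloc : ∀ᶠ x in 𝓝 (0 : ℝ), h (x₀ + x) = h x₀ + (W x).re := by
    filter_upwards [hD, isOpen_ball.mem_nhds (mem_ball_self (x := (0 : ℝ)) hδ)] with x hx hx'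
    have hxδ : |x| < δ := by simpa using hx'
    have h1 := hu x hxδ
    have h2 : Complex.exp (x₀ * Complex.I) * Complex.exp (Complex.I * x) =
        Complex.exp (((x₀ + x : ℝ) : ℂ) * Complex.I) := by
      rw [← Complex.exp_add]
      congr 1
      push_cast
      ring
    have h3 : W x = (((W x).re : ℝ) : ℂ) := by
      apply Complex.ext
      · simp
      · simp [hWim x hxδ]
    rw [h2, hh, hh, h3, ← Complex.exp_add] at h1
    have h4 : (h x₀ : ℂ) * Complex.I + Complex.I * (((W x).re : ℝ) : ℂ) =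
        ((h x₀ + (W x).re : ℝ) : ℂ) * Complex.I := by
      push_cast
      ring
    rw [h4] at h1
    have h5 : Circle.exp (h (x₀ + x)) = Circle.exp (h x₀ + (W x).re) := by
      apply Circle.coe_injective
      rw [Circle.coe_exp, Circle.coe_exp]
      exact h1
    obtain ⟨m, hm⟩ := Circle.exp_eq_exp.1 h5
    have hpi := Real.pi_pos
    have h6 : |(m : ℝ) * (2 * Real.pi)| < 2 * Real.pi := by
      have : h (x₀ + x) - h x₀ - (W x).re = m * (2 * Real.pi) := by linarith
      rw [← this]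
      exact hx
    rw [abs_mul, abs_of_pos (by positivity : (0 : ℝ) < 2 * Real.pi)] at h6
    have h7 : |(m : ℝ)| < 1 := by
      by_contra h8
      have h9 : (1 : ℝ) ≤ |(m : ℝ)| := not_lt.1 h8
      nlinarith
    have h8 : m = 0 := by
      have : |m| < 1 := by exact_mod_cast h7
      exact Int.abs_lt_one_iff.1 this
    rw [hm, h8]
    simp
  have hloc2 : ∀ᶠ y in 𝓝 x₀, h y = h x₀ + (W ((y - x₀ : ℝ) : ℂ)).re := by
    have h1 : Tendsto (fun y : ℝ => y - x₀) (𝓝 x₀) (𝓝 0) := by
      have : Continuous fun y : ℝ => y - x₀ := by fun_prop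
      have := this.tendsto x₀
      rwa [sub_self] at this
    filter_upwards [h1.eventually hloc] with y hy
    rw [← hy]
    congr 1
    ring
  have hnear : ∀ᶠ y in 𝓝 x₀, |y - x₀| < δ := by
    have h1 : Tendsto (fun y : ℝ => |y - x₀|) (𝓝 x₀) (𝓝 0) := by
      have : Continuous fun y : ℝ => |y - x₀| := by fun_prop
      have := this.tendsto x₀
      simpa using this
    exact h1.eventually_lt_const hδ
  filter_upwards [hloc2.eventually_nhds, hnear] with y hy hyδ
  have hWd : DifferentiableAt ℂ W ((y - x₀ : ℝ) : ℂ) :=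
    (hW _ (hmem _ hyδ)).differentiableAt (isOpen_ball.mem_nhds (hmem _ hyδ))
  obtain ⟨r, hr, hr'⟩ := hWr _ hyδ
  constructor
  · have h1 : ContDiffAt ℝ ∞ (fun y : ℝ => h x₀ + (W ((y - x₀ : ℝ) : ℂ)).re) y := by
      refine contDiffAt_const.add ?_
      have h2 : ContDiffAt ℝ ∞ W ((y - x₀ : ℝ) : ℂ) :=
        ((hW.contDiffOn isOpen_ball (n := ∞)).contDiffAt
          (isOpen_ball.mem_nhds (hmem _ hyδ))).restrict_scalars ℝ
      have h3 : ContDiffAt ℝ ∞ (fun y : ℝ => ((y - x₀ : ℝ) : ℂ)) y :=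
        (Complex.ofRealCLM.contDiff.comp (contDiff_id.sub contDiff_const)).contDiffAt
      have h4 : ContDiffAt ℝ ∞ (fun y : ℝ => W ((y - x₀ : ℝ) : ℂ)) y :=
        ContDiffAt.comp (g := W) (f := fun y : ℝ => ((y - x₀ : ℝ) : ℂ)) y h2 h3
      exact Complex.reCLM.contDiff.contDiffAt.comp y h4
    exact h1.congr_of_eventuallyEq hy
  · have h1 : HasDerivAt (fun y : ℝ => W ((y - x₀ : ℝ) : ℂ)) (r : ℂ) y := by
      have h2 : HasDerivAt W (r : ℂ) ((y - x₀ : ℝ) : ℂ) := by
        rw [← hr']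
        exact hWd.hasDerivAt
      have h3 : HasDerivAt (fun y : ℝ => ((y - x₀ : ℝ) : ℂ)) 1 y := by
        have := (hasDerivAt_id y).sub_const x₀
        simpa using this.ofReal_comp
      have := HasDerivAt.comp_of_eq (h₂ := W) (h := fun y : ℝ => ((y - x₀ : ℝ) : ℂ)) y h2 h3 rfl
      rw [mul_one] at this
      exact this
    have h4 : HasDerivAt (fun y : ℝ => (W ((y - x₀ : ℝ) : ℂ)).re) r y := by
      have := Complex.reCLM.hasFDerivAt.comp_hasDerivAt y h1
      rw [Complex.reCLM_apply, Complex.ofReal_re] at this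
      exact this
    have h5 : HasDerivAt h r y := by
      have := (h4.const_add (h x₀)).congr_of_eventuallyEq hy
      exact this
    rw [h5.deriv]
    exact hr

theorem lift_mono (h : C(ℝ, ℝ)) (hinj : Function.Injective h)
    (hpm : (∀ x, h (x + 2 * Real.pi) = h x + 2 * Real.pi) ∨
      ∀ x, h (x + 2 * Real.pi) = h x - 2 * Real.pi) (x₀ : ℝ) (hd : 0 < deriv h x₀) :
    StrictMono h ∧ ∀ x, h (x + 2 * Real.pi) = h x + 2 * Real.pi := by
  have hpi := Real.pi_pos
  have hmono : StrictMono h := by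
    rcases h.continuous.strictMono_of_inj hinj with hm | hm
    · exact hm
    · exfalso
      have := hm.antitone.deriv_nonpos (x := x₀)
      linarith
  refine ⟨hmono, ?_⟩
  rcases hpm with h1 | h1
  · exact h1
  · exfalso
    have h2 : h 0 < h (0 + 2 * Real.pi) := hmono (by linarith)
    rw [h1] at h2
    linarith

end Pool.Agent.H10.MW
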