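import Pool.Agent.H10.MW.Loc

/-!
# Project SM2 (helper10): transfer of diffeomorphisms to a neighbourhood of a point of the circle
-/

set_option autoImplicit false

open Set Filter Topology Metric MeasureTheory
open scoped ContDiff

noncomputable section

namespace Pool.Agent.H10.MW

/-- transfer of a homeomorphism with compact support through a chart -/
theorem transfer (e : OpenPartialHomeomorph ℂ ℂ) (k : ℂ ≃ₜ ℂ) (C : Set ℂ) (hC : IsCompact C)
    (hCs : C ⊆ e.source) (hk : ∀ z, z ∉ C → k z = z) :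
    ∃ K : ℂ ≃ₜ ℂ, (∀ z ∈ e.source, K (e z) = e (k z)) ∧ ∀ z, z ∉ e '' C → K z = z := by
  classical
  have hcl : IsClosed (e '' C) := (hC.image_of_continuousOn (e.continuousOn.mono hCs)).isClosed
  have hmem : ∀ (k : ℂ ≃ₜ ℂ), (∀ z, z ∉ C → k z = z) → ∀ z ∈ e.source, k z ∈ e.source := by
    intro k hk z hz
    by_cases h : z ∈ C
    · exact hCs (supp_mem hk h)
    · rw [hk z h]
      exact hz
  have hcont : ∀ (k : ℂ ≃ₜ ℂ), (∀ z, z ∉ C → k z = z) →
      Continuous fun z => if z ∈ e.target then e (k (e.symm z)) else z := by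
    intro k hk
    rw [continuous_iff_continuousAt]
    intro z
    by_cases hz : z ∈ e.target
    · have h1 : ContinuousAt (fun z => e (k (e.symm z))) z := by
        have h2 : ContinuousAt e.symm z := e.symm.continuousAt hz
        have h3 : ContinuousAt (fun z => k (e.symm z)) z := k.continuous.continuousAt.comp h2
        have h4 : ContinuousAt e (k (e.symm z)) :=
          e.continuousAt (hmem k hk _ (e.map_target hz))
        exact ContinuousAt.comp (f := fun z => k (e.symm z)) h4 h3
      refine h1.congr ?_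
      filter_upwards [e.open_target.mem_nhds hz] with w hw
      rw [if_pos hw]
    · have hz' : z ∉ e '' C := by
        rintro ⟨w, hw, rfl⟩
        exact hz (e.map_source (hCs hw))
      refine continuousAt_id.congr ?_
      filter_upwards [hcl.isOpen_compl.mem_nhds hz'] with w hw
      show w = if w ∈ e.target then e (k (e.symm w)) else w
      split_ifs with h
      · rw [hk (e.symm w), e.right_inv h]
        intro hc
        exact hw ⟨_, hc, e.right_inv h⟩
      · rfl
  have hks : ∀ z, z ∉ C → k.symm z = z := supp_symm hk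
  have hinv : ∀ (k k' : ℂ ≃ₜ ℂ), (∀ z, k' (k z) = z) → (∀ z, z ∉ C → k z = z) → ∀ z,
      (fun z => if z ∈ e.target then e (k' (e.symm z)) else z)
        ((fun z => if z ∈ e.target then e (k (e.symm z)) else z) z) = z := by
    intro k k' hkk hk z
    by_cases hz : z ∈ e.target
    · have h1 : k (e.symm z) ∈ e.source := hmem k hk _ (e.map_target hz)
      simp only [hz, if_true, e.map_source h1]
      rw [e.left_inv h1, hkk, e.right_inv hz]
    · simp only [hz, if_false]
  refine ⟨{ toFun := fun z => if z ∈ e.target then e (k (e.symm z)) else z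
            invFun := fun z => if z ∈ e.target then e (k.symm (e.symm z)) else z
            left_inv := hinv k k.symm (fun z => k.symm_apply_apply z) hk
            right_inv := hinv k.symm k (fun z => k.apply_symm_apply z) hks
            continuous_toFun := hcont k hk
            continuous_invFun := hcont k.symm hks }, ?_, ?_⟩
  · intro z hz
    show (if e z ∈ e.target then e (k (e.symm (e z))) else e z) = e (k z)
    rw [if_pos (e.map_source hz), e.left_inv hz]
  · intro z hz
    show (if z ∈ e.target then e (k (e.symm z)) else z) = z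
    split_ifs with h
    · rw [hk (e.symm z), e.right_inv h]
      intro hc
      exact hz ⟨_, hc, e.right_inv h⟩
    · rfl

/-- the chart `ζ ↦ q exp (i ζ)` -/
def chart (q : ℂ) (hq : q ≠ 0) : OpenPartialHomeomorph ℂ ℂ :=
  ((Homeomorph.mulLeft₀ Complex.I Complex.I_ne_zero).toOpenPartialHomeomorph.trans
    Complex.expOpenPartialHomeomorph).trans (Homeomorph.mulLeft₀ q hq).toOpenPartialHomeomorph

theorem chart_apply (q : ℂ) (hq : q ≠ 0) (ζ : ℂ) :
    chart q hq ζ = q * Complex.exp (Complex.I * ζ) := rfl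

theorem chart_symm_apply (q : ℂ) (hq : q ≠ 0) (z : ℂ) :
    (chart q hq).symm z = Complex.I⁻¹ * Complex.log (q⁻¹ * z) := rfl

theorem chart_source (q : ℂ) (hq : q ≠ 0) : ball (0 : ℂ) 3 ⊆ (chart q hq).source := by
  intro ζ hζ
  have h1 : |ζ.re| < 3 := (Complex.abs_re_le_norm ζ).trans_lt (mem_ball_zero_iff.1 hζ)
  have h2 := abs_lt.1 h1
  have h3 := Real.pi_gt_three
  simp only [chart, OpenPartialHomeomorph.trans_source, Homeomorph.toOpenPartialHomeomorph_source,
    univ_inter, preimage_univ, inter_univ, mem_preimage]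
  simp only [Complex.expOpenPartialHomeomorph, mem_ofPred_eq]
  constructor
  · show -Real.pi < (Complex.I * ζ).im
    simp
    linarith
  · show (Complex.I * ζ).im < Real.pi
    simp
    linarith

theorem chart_norm (q : ℂ) (hq : ‖q‖ = 1) (ζ : ℂ) :
    ‖q * Complex.exp (Complex.I * ζ)‖ = Real.exp (-ζ.im) := by
  rw [norm_mul, hq, one_mul, Complex.norm_exp]
  simp

theorem holo_good {f : ℂ → ℂ} {z d : ℂ} (h : ∀ᶠ w in 𝓝 z, DifferentiableAt ℂ f w)
    (hd : HasDerivAt f d z) (hd0 : d ≠ 0) : Good f z := by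
  have h1 : AnalyticAt ℂ f z := Complex.analyticAt_iff_eventually_differentiableAt.2 h
  have h2 : ∀ᶠ w in 𝓝 z, deriv f w ≠ 0 := by
    refine h1.deriv.continuousAt.eventually_ne ?_
    rwa [hd.deriv]
  obtain ⟨δ, hδ, hb⟩ := Metric.eventually_nhds_iff_ball.1 (h.and h2)
  exact good_holo isOpen_ball (fun w hw => (hb w hw).1.differentiableWithinAt)
    (fun w hw => (hb w hw).2) (mem_ball_self hδ)

/-- the correction near a point of the circle -/
theorem locfix (hG : S_GERM) (S : ℂ ≃ₜ ℂ) (u W : ℂ → ℂ) (q : ℂ) (hq : ‖q‖ = 1) (hS : Good S q)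
    (hSq : ‖S q‖ = 1) (δ : ℝ) (hδ : 0 < δ) (hW : DifferentiableOn ℂ W (ball 0 δ)) (hW0 : W 0 = 0)
    (r : ℂ) (hr0 : r ≠ 0) (hr : deriv W 0 = r) (hSu : ∀ z : ℂ, ‖z‖ = 1 → S z = u z)
    (hu : ∀ ζ ∈ ball (0 : ℂ) δ, 0 ≤ ζ.im → u (q * Complex.exp (Complex.I * ζ)) =
      u q * Complex.exp (Complex.I * W ζ)) (U : Set ℂ) (hU : U ∈ 𝓝 q) :
    ∃ K : ℂ ≃ₜ ℂ, (∀ z, Good K z) ∧ (∀ z, z ∉ U → K z = z) ∧ (∀ z, ‖z‖ = 1 → K z = z) ∧
      (∀ z, ‖z‖ < 1 → ‖K z‖ < 1) ∧ ∀ᶠ z in 𝓝 q, ‖z‖ ≤ 1 → S (K z) = u z := by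
  have hq0 : q ≠ 0 := norm_pos_iff.1 (by rw [hq]; exact one_pos)
  have hSq0 : S q ≠ 0 := norm_pos_iff.1 (by rw [hSq]; exact one_pos)
  have hI : Complex.I ≠ 0 := Complex.I_ne_zero
  set E : ℂ → ℂ := fun ζ => q * Complex.exp (Complex.I * ζ) with hE
  have hEc : Continuous E := by rw [hE]; fun_prop
  have hE0 : E 0 = q := by simp [hE]
  have hEd : ∀ ζ, HasDerivAt E (q * (Complex.exp (Complex.I * ζ) * Complex.I)) ζ := by
    intro ζ
    have h1 : HasDerivAt (fun ζ : ℂ => Complex.I * ζ) Complex.I ζ := by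
      simpa using (hasDerivAt_id ζ).const_mul Complex.I
    exact (h1.cexp).const_mul q
  have hEg : ∀ ζ, Good E ζ := fun ζ =>
    holo_good (Eventually.of_forall fun w => (hEd w).differentiableAt) (hEd ζ)
      (mul_ne_zero hq0 (mul_ne_zero (Complex.exp_ne_zero _) hI))
  set A : ℂ → ℂ := fun ζ => -Complex.I * Complex.log (S (E ζ) / S q) with hA
  have hLg : ∀ w : ℂ, w / S q ∈ Complex.slitPlane →
      HasDerivAt (fun w => -Complex.I * Complex.log (w / S q))
        (-Complex.I * ((1 / S q) / (w / S q))) w := by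
    intro w hw
    have h1 : HasDerivAt (fun w : ℂ => w / S q) (1 / S q) w := (hasDerivAt_id w).div_const _
    exact (h1.clog hw).const_mul _
  have hslit : IsOpen {w : ℂ | w / S q ∈ Complex.slitPlane} :=
    Complex.isOpen_slitPlane.preimage (continuous_id.div_const _)
  have hLgood : Good (fun w => -Complex.I * Complex.log (w / S q)) (S q) := by
    have h1 : S q / S q ∈ Complex.slitPlane := by
      rw [div_self hSq0]
      exact Complex.one_mem_slitPlane
    refine holo_good ?_ (hLg _ h1) ?_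
    · filter_upwards [hslit.mem_nhds h1] with w hw
      exact (hLg w hw).differentiableAt
    · rw [div_self hSq0]
      exact mul_ne_zero (neg_ne_zero.2 hI) (div_ne_zero (one_div_ne_zero hSq0) one_ne_zero)
  have hAg : Good A 0 := by
    have h1 : Good (fun ζ => S (E ζ)) 0 := by
      refine Good.comp (g := S) (f := E) ?_ (hEg 0)
      rw [hE0]
      exact hS
    refine Good.comp (g := fun w => -Complex.I * Complex.log (w / S q)) (f := fun ζ => S (E ζ))
      ?_ h1
    show Good _ (S (E 0))
    rw [hE0]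
    exact hLgood
  have hAexp : ∀ ζ, S (E ζ) ≠ 0 → S (E ζ) = S q * Complex.exp (Complex.I * A ζ) := by
    intro ζ h0
    have h1 : Complex.I * A ζ = Complex.log (S (E ζ) / S q) := by
      rw [hA]
      simp only
      rw [← mul_assoc, mul_neg, Complex.I_mul_I, neg_neg, one_mul]
    rw [h1, Complex.exp_log (div_ne_zero h0 hSq0), mul_div_cancel₀ _ hSq0]
  have hA0 : A 0 = 0 := by
    rw [hA]
    simp only
    rw [hE0, div_self hSq0, Complex.log_one, mul_zero]
  have hWd : DifferentiableAt ℂ W 0 :=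
    (hW 0 (mem_ball_self hδ)).differentiableAt (isOpen_ball.mem_nhds (mem_ball_self hδ))
  have hWg : Good W 0 := by
    refine holo_good ?_ (d := r) (by rw [← hr]; exact hWd.hasDerivAt) hr0
    filter_upwards [isOpen_ball.mem_nhds (mem_ball_self (x := (0 : ℂ)) hδ)] with w hw
    exact (hW w hw).differentiableAt (isOpen_ball.mem_nhds hw)
  have hEn : ∀ ζ, ‖E ζ‖ = Real.exp (-ζ.im) := fun ζ => chart_norm q hq ζ
  have hAB : ∀ᶠ z in 𝓝 (0 : ℂ), z.im = 0 → A z = W z := by
    have h1 : ∀ᶠ z in 𝓝 (0 : ℂ), ‖W z‖ < 3 := by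
      have h2 : Tendsto (fun z => ‖W z‖) (𝓝 0) (𝓝 0) := by
        have := hWd.continuousAt.norm
        rw [ContinuousAt, hW0, norm_zero] at this
        exact this
      exact h2.eventually_lt_const (by norm_num)
    filter_upwards [h1, isOpen_ball.mem_nhds (mem_ball_self (x := (0 : ℂ)) hδ)] with z hz hz' him
    have h2 : ‖E z‖ = 1 := by rw [hEn, him, neg_zero, Real.exp_zero]
    have h3 : S (E z) = S q * Complex.exp (Complex.I * W z) := by
      rw [hSu _ h2, hSu _ hq]
      exact hu z hz' him.ge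
    rw [hA]
    simp only
    have h4 := abs_lt.1 ((Complex.abs_re_le_norm (W z)).trans_lt hz)
    have hpi := Real.pi_gt_three
    rw [h3, mul_div_cancel_left₀ _ hSq0, Complex.log_exp (by simp; linarith) (by simp; linarith),
      ← mul_assoc, neg_mul, Complex.I_mul_I, neg_neg, one_mul]
  -- the size of the support
  have hEU : ∀ᶠ ζ in 𝓝 (0 : ℂ), E ζ ∈ U := by
    have h1 := hEc.continuousAt (x := (0 : ℂ))
    unfold ContinuousAt at h1
    rw [hE0] at h1
    exact h1 hU
  obtain ⟨ε₀, hε₀, hεb⟩ := Metric.eventually_nhds_iff_ball.1 hEU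
  set ε : ℝ := min (ε₀ / 2) 1 with hε
  have hε0 : 0 < ε := lt_min (by positivity) one_pos
  obtain ⟨k, hk1, hk2, hk3, hk4, hk5⟩ := match_germ hG A W hAg hWg (by rw [hA0, hW0]) hAB ε hε0
  have hCs : closedBall (0 : ℂ) ε ⊆ (chart q hq0).source := by
    refine Subset.trans (closedBall_subset_ball ?_) (chart_source q hq0)
    exact (min_le_right _ _).trans_lt (by norm_num)
  have hCU : ∀ ζ ∈ closedBall (0 : ℂ) ε, E ζ ∈ U := fun ζ hζ =>
    hεb ζ (closedBall_subset_ball ((min_le_left _ _).trans_lt (by linarith)) hζ)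
  obtain ⟨K, hK1, hK2⟩ := transfer (chart q hq0) k (closedBall 0 ε) (isCompact_closedBall _ _) hCs
    (fun z hz => hk2 z (by
      rw [mem_closedBall_zero_iff, not_le] at hz
      exact hz.le))
  have hK1' : ∀ ζ ∈ (chart q hq0).source, K (E ζ) = E (k ζ) := hK1
  have hK2' : ∀ z, (∀ ζ ∈ closedBall (0 : ℂ) ε, E ζ ≠ z) → K z = z := fun z hz => hK2 z (by
    rintro ⟨ζ, hζ, rfl⟩
    exact hz ζ hζ rfl)
  have hcl : IsClosed ((chart q hq0) '' closedBall 0 ε) :=
    ((isCompact_closedBall _ _).image_of_continuousOn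
      ((chart q hq0).continuousOn.mono hCs)).isClosed
  have hcases : ∀ z, (∃ ζ ∈ closedBall (0 : ℂ) ε, E ζ = z) ∨ K z = z := by
    intro z
    by_cases h : ∃ ζ ∈ closedBall (0 : ℂ) ε, E ζ = z
    · exact Or.inl h
    · right
      refine hK2' z fun ζ hζ hc => h ⟨ζ, hζ, hc⟩
  refine ⟨K, ?_, ?_, ?_, ?_, ?_⟩
  · intro z
    by_cases hz : z ∈ (chart q hq0) '' closedBall 0 ε
    · obtain ⟨ζ, hζ, rfl⟩ := hz
      have hζs := hCs hζ
      have h1 : Good (fun w => E (k ((chart q hq0).symm w))) (chart q hq0 ζ) := by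
        have h2 : Good (chart q hq0).symm (chart q hq0 ζ) := good_symm_local _ hζs (hEg ζ)
        have h3 : Good (fun w => k ((chart q hq0).symm w)) (chart q hq0 ζ) :=
          Good.comp (g := k) (hk1 _) h2
        exact Good.comp (g := E) (hEg _) h3
      refine h1.congr ?_
      filter_upwards [(chart q hq0).open_target.mem_nhds ((chart q hq0).map_source hζs)] with w hw
      rw [← hK1' _ ((chart q hq0).map_target hw)]
      exact congrArg K ((chart q hq0).right_inv hw)
    · refine (good_id z).congr ?_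
      filter_upwards [hcl.isOpen_compl.mem_nhds hz] with w hw
      exact (hK2 w hw).symm
  · intro z hz
    refine hK2' z fun ζ hζ hc => hz ?_
    rw [← hc]
    exact hCU ζ hζ
  · intro z hz
    rcases hcases z with ⟨ζ, hζ, rfl⟩ | h
    · rw [hK1' ζ (hCs hζ), hk3]
      rw [hEn, Real.exp_eq_one_iff] at hz
      linarith
    · exact h
  · intro z hz
    rcases hcases z with ⟨ζ, hζ, rfl⟩ | h
    · rw [hK1' ζ (hCs hζ), hEn, Real.exp_lt_one_iff]
      rw [hEn, Real.exp_lt_one_iff] at hz
      have := hk4 ζ (by linarith)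
      linarith
    · rw [h]
      exact hz
  · -- near `q`
    have hs0 : (0 : ℂ) ∈ (chart q hq0).source := chart_source q hq0 (mem_ball_self (by norm_num))
    have hq' : chart q hq0 0 = q := hE0
    have hqt : q ∈ (chart q hq0).target := by
      have := (chart q hq0).map_source hs0
      rwa [hq'] at this
    have hsq : (chart q hq0).symm q = 0 := by
      have := (chart q hq0).left_inv hs0
      rwa [hq'] at this
    have hc : Tendsto (chart q hq0).symm (𝓝 q) (𝓝 0) := by
      have := (chart q hq0).symm.continuousAt hqt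
      unfold ContinuousAt at this
      rwa [hsq] at this
    have h1 : ∀ᶠ ζ in 𝓝 (0 : ℂ), S (E (k ζ)) ≠ 0 := by
      have h2 : Continuous fun ζ => S (E (k ζ)) := S.continuous.comp (hEc.comp k.continuous)
      refine h2.continuousAt.eventually_ne ?_
      show S (E (k 0)) ≠ 0
      rw [hk3 0 (by simp), hE0]
      exact hSq0
    have h2 := hc.eventually (hk5.and (h1.and
      (isOpen_ball.mem_nhds (mem_ball_self (x := (0 : ℂ)) hδ))))
    filter_upwards [h2, (chart q hq0).open_target.mem_nhds hqt] with z hz hzt hzn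
    obtain ⟨h3, h4, h5⟩ := hz
    set ζ := (chart q hq0).symm z with hζ
    have h6 : E ζ = z := (chart q hq0).right_inv hzt
    have h7 : 0 ≤ ζ.im := by
      rw [← h6, hEn, Real.exp_le_one_iff] at hzn
      linarith
    rw [← h6, hK1' ζ ((chart q hq0).map_target hzt), hAexp _ h4, h3, hSu q hq]
    exact (hu ζ h5 h7).symm

end Pool.Agent.H10.MW
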