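import Pool.Agent.H10.MW.Reg
import Pool.Agent.H10.MW.Tra
import Pool.Agent.H10.MW.Lif
import Pool.Graph.R_pool_sql_team_seeded_63374d34.N75.SH.RM
import Pool.Graph.R_pool_sql_team_seeded_63374d34.N767.SH.EXT
import Pool.Graph.R_pool_sql_team_seeded_63374d34.N565.SH.C1
import Pool.Graph.R_pool_sql_team_seeded_63374d34.N311.SH.C2
import Pool.Graph.R_pool_sql_team_seeded_63374d34.N985.SH.LA
import Pool.Graph.R_pool_sql_team_seeded_63374d34.N170.SH.KLCa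

/-!
# Project SM2 (helper10): the 1-handle `S_EDGE0`
-/

set_option autoImplicit false

open Set Filter Topology Metric MeasureTheory
open scoped ContDiff

noncomputable section

namespace Pool.Agent.H10.MW

open Pool.Agent.N311.SH (Bi)

theorem disc_symm (T : ℂ ≃ₜ ℂ) (h1 : ∀ z : ℂ, ‖z‖ < 1 → ‖T z‖ < 1)
    (h2 : ∀ z : ℂ, ‖z‖ = 1 → ‖T z‖ = 1) :
    (∀ z : ℂ, ‖z‖ < 1 → ‖T.symm z‖ < 1) ∧ ∀ z : ℂ, ‖z‖ ≤ 1 → ‖T.symm z‖ ≤ 1 := by
  have hA : IsOpen {w : ℂ | ‖T.symm w‖ < 1} :=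
    isOpen_lt (T.symm.continuous.norm) continuous_const
  have hB : IsOpen {w : ℂ | 1 < ‖T.symm w‖} :=
    isOpen_lt continuous_const (T.symm.continuous.norm)
  have hD : IsPreconnected (ball (0 : ℂ) 1) := (convex_ball 0 1).isPreconnected
  have hsub : ball (0 : ℂ) 1 ⊆ {w : ℂ | ‖T.symm w‖ < 1} ∪ {w : ℂ | 1 < ‖T.symm w‖} := by
    intro w hw
    rcases lt_trichotomy ‖T.symm w‖ 1 with h | h | h
    · exact Or.inl h
    · exfalso
      have := h2 _ h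
      rw [T.apply_symm_apply] at this
      rw [mem_ball_zero_iff, this] at hw
      exact lt_irrefl _ hw
    · exact Or.inr h
  have hdisj : Disjoint {w : ℂ | ‖T.symm w‖ < 1} {w : ℂ | 1 < ‖T.symm w‖} := by
    rw [Set.disjoint_left]
    intro w hw hw'
    exact lt_asymm (show ‖T.symm w‖ < 1 from hw) hw'
  have hlt : ball (0 : ℂ) 1 ⊆ {w : ℂ | ‖T.symm w‖ < 1} := by
    refine hD.subset_left_of_subset_union hA hB hdisj hsub ?_
    refine ⟨T 0, ?_, ?_⟩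
    · rw [mem_ball_zero_iff]
      exact h1 0 (by simp)
    · show ‖T.symm (T 0)‖ < 1
      rw [T.symm_apply_apply]
      simp
  refine ⟨fun z hz => hlt (mem_ball_zero_iff.2 hz), ?_⟩
  intro z hz
  have hcl : IsClosed {w : ℂ | ‖T.symm w‖ ≤ 1} := isClosed_le (T.symm.continuous.norm) continuous_const
  have h3 : closure (ball (0 : ℂ) 1) ⊆ {w : ℂ | ‖T.symm w‖ ≤ 1} :=
    closure_minimal (fun w hw => (show ‖T.symm w‖ < 1 from hlt hw).le) hcl
  rw [closure_ball (0 : ℂ) one_ne_zero] at h3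
  exact h3 (mem_closedBall_zero_iff.2 hz)

theorem bi_good {F : ℂ ≃ₜ ℂ} {φ ψ : ℂ → ℂ} (hBi : Bi F φ ψ) {z : ℂ} (hz : ‖z‖ < 1) :
    Good φ z := by
  have hVo : IsOpen (F '' ball (0 : ℂ) 1) := F.isOpenMap _ isOpen_ball
  refine good_holo isOpen_ball hBi.dφ ?_ (mem_ball_zero_iff.2 hz)
  intro w hw h0
  have h1 : HasDerivAt φ (deriv φ w) w :=
    ((hBi.dφ w hw).differentiableAt (isOpen_ball.mem_nhds hw)).hasDerivAt
  have h2 : HasDerivAt ψ (deriv ψ (φ w)) (φ w) :=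
    ((hBi.dψ _ (hBi.mφ hw)).differentiableAt (hVo.mem_nhds (hBi.mφ hw))).hasDerivAt
  have h3 : HasDerivAt (fun z => ψ (φ z)) (deriv ψ (φ w) * deriv φ w) w := h2.comp w h1
  have h4 : HasDerivAt (fun z => ψ (φ z)) 1 w := by
    refine (hasDerivAt_id w).congr_of_eventuallyEq ?_
    filter_upwards [isOpen_ball.mem_nhds hw] with y hy
    exact hBi.left y hy
  have h5 := h3.unique h4
  rw [h0, mul_zero] at h5
  exact zero_ne_one h5

theorem edge0_aux (hRL : S_RL) (hG : S_GERM) (hC : S_CONE) (F : ℂ ≃ₜ ℂ) (hF0 : F 0 = 0)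
    (hF1 : TransAt F 1) (hF2 : TransAt F (-1)) :
    ∃ κ : ℂ ≃ₜ ℂ, (∀ z, 1 ≤ ‖z‖ → κ z = z) ∧
      (∃ δ : ℝ, 0 < δ ∧ ∀ z, ‖z - 1‖ < δ ∨ ‖z + 1‖ < δ → κ z = z) ∧
      ∀ x : ℝ, |x| ≤ 1 → Good (fun z => F (κ z)) x := by
  obtain ⟨φ, ψ, hBi, -, -⟩ := Pool.Agent.N75.SH.rm F hF0
  obtain ⟨u, v, hu, hv, huv, hin⟩ := Pool.Agent.N767.SH.ext_pair
    (Pool.Agent.N565.SH.c1 Pool.Agent.N985.SH.la) (Pool.Agent.N311.SH.c2 Pool.Agent.N985.SH.la)
    F φ ψ hBi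
  have hu1 : ∀ z : ℂ, ‖z‖ = 1 → ‖u z‖ = 1 := by
    intro z hz
    refine le_antisymm (huv z hz.le).1 (not_lt.1 fun hlt => ?_)
    have := (hin (u z) hlt).2.1
    rw [(huv z hz.le).2.2.1, hz] at this
    exact lt_irrefl _ this
  have hv1 : ∀ z : ℂ, ‖z‖ = 1 → ‖v z‖ = 1 := by
    intro z hz
    refine le_antisymm (huv z hz.le).2.1 (not_lt.1 fun hlt => ?_)
    have := (hin (v z) hlt).1
    rw [(huv z hz.le).2.2.2, hz] at this
    exact lt_irrefl _ this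
  have hcirc : ∀ w : ℂ → ℂ, ContinuousOn w (closedBall 0 1) → ∀ h : ∀ z : ℂ, ‖z‖ = 1 → ‖w z‖ = 1,
      Continuous fun ζ : Circle => (⟨w ζ, mem_sphere_zero_iff_norm.2 (h ζ ζ.norm_coe)⟩ : Circle) := by
    intro w hw h
    refine Continuous.subtype_mk ?_ _
    exact hw.comp_continuous continuous_subtype_val fun ζ =>
      mem_closedBall_zero_iff.2 (Circle.norm_coe ζ).le
  let s : Circle ≃ₜ Circle :=
    { toFun := fun ζ => ⟨u ζ, mem_sphere_zero_iff_norm.2 (hu1 ζ ζ.norm_coe)⟩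
      invFun := fun ζ => ⟨v ζ, mem_sphere_zero_iff_norm.2 (hv1 ζ ζ.norm_coe)⟩
      left_inv := fun ζ => Circle.ext (huv ζ ζ.norm_coe.le).2.2.1
      right_inv := fun ζ => Circle.ext (huv ζ ζ.norm_coe.le).2.2.2
      continuous_toFun := hcirc u hu hu1
      continuous_invFun := hcirc v hv hv1 }
  obtain ⟨h, hh, hinj, hpm⟩ := lift_pm s
  have hh' : ∀ x : ℝ, u (Complex.exp (x * Complex.I)) = Complex.exp (h x * Complex.I) := by
    intro x
    have h1 := congrArg (fun ζ : Circle => (ζ : ℂ)) (hh x)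
    simp only [Circle.coe_exp] at h1
    rw [h1]
    show u _ = u _
    rw [Circle.coe_exp]
  -- regularity near the end points
  have hreg : ∀ x₀ : ℝ, TransAt F (Complex.exp (x₀ * Complex.I)) →
      ∃ (W : ℂ → ℂ) (δ : ℝ), 0 < δ ∧ DifferentiableOn ℂ W (ball 0 δ) ∧ W 0 = 0 ∧
      (∀ ζ ∈ ball (0 : ℂ) δ, 0 ≤ ζ.im →
        u (Complex.exp (x₀ * Complex.I) * Complex.exp (Complex.I * ζ)) =
        u (Complex.exp (x₀ * Complex.I)) * Complex.exp (Complex.I * W ζ)) ∧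
      (∃ r : ℝ, 0 < r ∧ deriv W 0 = (r : ℂ)) ∧
      ∀ᶠ y in 𝓝 x₀, ContDiffAt ℝ ∞ h y ∧ 0 < deriv h y := by
    intro x₀ hx₀
    obtain ⟨W, δ, hδ, hWd, hW0, hWu, hWim, hWr⟩ := reg hRL F φ ψ u v hBi hu huv hin
      (Complex.exp (x₀ * Complex.I)) (Complex.norm_exp_ofReal_mul_I x₀) hx₀
    refine ⟨W, δ, hδ, hWd, hW0, hWu, ?_, ?_⟩
    · have := hWr 0 (by simpa using hδ)
      simpa using this
    · refine lift_smooth h x₀ u W δ hδ hWd hW0 hWim hWr hh' ?_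
      intro x hx
      exact hWu x (by rw [mem_ball_zero_iff, Complex.norm_real]; exact hx) (by simp)
  have he0 : Complex.exp (((0 : ℝ) : ℂ) * Complex.I) = 1 := by simp
  have heπ : Complex.exp ((Real.pi : ℂ) * Complex.I) = -1 := Complex.exp_pi_mul_I
  obtain ⟨W₁, δ₁, hδ₁, hW₁d, hW₁0, hW₁u, ⟨r₁, hr₁, hr₁'⟩, hsm₁⟩ := hreg 0 (by rw [he0]; exact hF1)
  obtain ⟨W₂, δ₂, hδ₂, hW₂d, hW₂0, hW₂u, ⟨r₂, hr₂, hr₂'⟩, hsm₂⟩ := hreg Real.pi
    (by rw [heπ]; exact hF2)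
  rw [he0] at hW₁u
  rw [heπ] at hW₂u
  obtain ⟨hmono, hper⟩ := lift_mono h hinj hpm 0 hsm₁.self_of_nhds.2
  obtain ⟨S, hSn, hS0, hSp, hSg⟩ := hC h hmono hper
  have hSu : ∀ z : ℂ, ‖z‖ = 1 → S z = u z := by
    intro z hz
    have h1 : z = Complex.exp (z.arg * Complex.I) := by
      have := Complex.norm_mul_exp_arg_mul_I z
      rw [hz, Complex.ofReal_one, one_mul] at this
      exact this.symm
    have h2 := hSp 1 z.arg (by norm_num)
    rw [Complex.ofReal_one, one_mul, one_mul, ← hh'] at h2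
    rw [h1]
    exact h2
  have hSreal : ∀ x : ℝ, Good S x := by
    intro x
    rcases lt_trichotomy x 0 with hx | hx | hx
    · have := hSg (-x) Real.pi (by linarith) hsm₂
      rw [heπ] at this
      simpa using this
    · rw [hx]
      refine (good_id _).congr ?_
      filter_upwards [isOpen_ball.mem_nhds (mem_ball_self (x := ((0 : ℝ) : ℂ))
        (ε := 1 / 4) (by norm_num))] with w hw
      rw [Complex.ofReal_zero, mem_ball_zero_iff] at hw
      exact (hS0 w hw.le).symm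
    · have := hSg x 0 hx hsm₁
      rw [he0] at this
      simpa using this
  have hSg1 : Good S 1 := by simpa using hSreal 1
  have hSg2 : Good S (-1) := by simpa using hSreal (-1)
  set U₁ : Set ℂ := {z | Good S z} ∩ ball 1 1 with hU₁
  set U₂ : Set ℂ := {z | Good S z} ∩ ball (-1) 1 with hU₂
  have hU₁n : U₁ ∈ 𝓝 (1 : ℂ) :=
    ((isOpen_good S).inter isOpen_ball).mem_nhds ⟨hSg1, mem_ball_self one_pos⟩
  have hU₂n : U₂ ∈ 𝓝 (-1 : ℂ) :=
    ((isOpen_good S).inter isOpen_ball).mem_nhds ⟨hSg2, mem_ball_self one_pos⟩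
  have hdisj : ∀ z ∈ U₂, z ∉ U₁ := by
    intro z hz hz'
    have h1 : ‖z - -1‖ < 1 := by simpa [dist_eq_norm] using hz.2
    have h2 : ‖z - 1‖ < 1 := by simpa [dist_eq_norm] using hz'.2
    have h3 : (2 : ℂ) = (z - -1) - (z - 1) := by ring
    have h4 : ‖(2 : ℂ)‖ ≤ ‖z - -1‖ + ‖z - 1‖ := by
      conv_lhs => rw [h3]
      exact norm_sub_le _ _
    have h5 : ‖(2 : ℂ)‖ = 2 := by simp
    linarith
  obtain ⟨K₁, hK₁g, hK₁s, hK₁c, hK₁d, hK₁n⟩ := locfix hG S u W₁ 1 (by simp) hSg1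
    (by rw [hSn]; simp) δ₁ hδ₁ hW₁d hW₁0 r₁ (by exact_mod_cast hr₁.ne') hr₁' hSu hW₁u U₁ hU₁n
  obtain ⟨K₂, hK₂g, hK₂s, hK₂c, hK₂d, hK₂n⟩ := locfix hG S u W₂ (-1) (by simp) hSg2
    (by rw [hSn]; simp) δ₂ hδ₂ hW₂d hW₂0 r₂ (by exact_mod_cast hr₂.ne') hr₂' hSu hW₂u U₂ hU₂n
  set T : ℂ ≃ₜ ℂ := (K₂.trans K₁).trans S with hT
  have hTa : ∀ z, T z = S (K₁ (K₂ z)) := fun z => rfl
  have hT1 : ∀ z : ℂ, ‖z‖ = 1 → T z = u z := by
    intro z hz
    rw [hTa, hK₂c z hz, hK₁c z hz, hSu z hz]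
  have hTlt : ∀ z : ℂ, ‖z‖ < 1 → ‖T z‖ < 1 := by
    intro z hz
    rw [hTa, hSn]
    exact hK₁d _ (hK₂d _ hz)
  have hTeq : ∀ z : ℂ, ‖z‖ = 1 → ‖T z‖ = 1 := fun z hz => by rw [hT1 z hz, hu1 z hz]
  have hTle : ∀ z : ℂ, ‖z‖ ≤ 1 → ‖T z‖ ≤ 1 := by
    intro z hz
    rcases hz.lt_or_eq with h1 | h1
    · exact (hTlt z h1).le
    · exact (hTeq z h1).le
  obtain ⟨-, hTs⟩ := disc_symm T hTlt hTeq
  have hTreal : ∀ x : ℝ, Good T x := by
    intro x
    have h1 : Good (fun z => K₁ (K₂ z)) x := (hK₁g _).comp (hK₂g _)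
    refine Good.comp (g := S) (f := fun z => K₁ (K₂ z)) ?_ h1
    show Good S (K₁ (K₂ x))
    by_cases hx : (x : ℂ) ∈ U₂
    · have h2 : K₂ x ∈ U₂ := supp_mem hK₂s hx
      rw [hK₁s _ (hdisj _ h2)]
      exact h2.1
    · rw [hK₂s _ hx]
      by_cases hx' : (x : ℂ) ∈ U₁
      · exact (supp_mem hK₁s hx').1
      · rw [hK₁s _ hx']
        exact hSreal x
  -- the homeomorphism
  set A : ℂ → ℂ := fun z => v (T z) with hA
  set B : ℂ → ℂ := fun z => T.symm (u z) with hB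
  have hAc : ContinuousOn A (closedBall 0 1) := by
    refine hv.comp T.continuous.continuousOn ?_
    intro z hz
    rw [mem_closedBall_zero_iff]
    exact hTle z (mem_closedBall_zero_iff.1 hz)
  have hBc : ContinuousOn B (closedBall 0 1) := T.symm.continuous.comp_continuousOn hu
  have hAb : ∀ z : ℂ, ‖z‖ = 1 → A z = z := by
    intro z hz
    show v (T z) = z
    rw [hT1 z hz, (huv z hz.le).2.2.1]
  have hBb : ∀ z : ℂ, ‖z‖ = 1 → B z = z := by
    intro z hz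
    show T.symm (u z) = z
    rw [← hT1 z hz, T.symm_apply_apply]
  have hAn : ∀ z : ℂ, ‖z‖ ≤ 1 → ‖A z‖ ≤ 1 := fun z hz => (huv _ (hTle z hz)).2.1
  have hBn : ∀ z : ℂ, ‖z‖ ≤ 1 → ‖B z‖ ≤ 1 := fun z hz => hTs _ (huv z hz).1
  have hBA : ∀ z : ℂ, ‖z‖ ≤ 1 → B (A z) = z := by
    intro z hz
    show T.symm (u (v (T z))) = z
    rw [(huv _ (hTle z hz)).2.2.2, T.symm_apply_apply]
  have hAB : ∀ z : ℂ, ‖z‖ ≤ 1 → A (B z) = z := by
    intro z hz
    show v (T (T.symm (u z))) = z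
    rw [T.apply_symm_apply, (huv z hz).2.2.1]
  let κ : ℂ ≃ₜ ℂ :=
    { toFun := fun z => if ‖z‖ ≤ 1 then A z else z
      invFun := fun z => if ‖z‖ ≤ 1 then B z else z
      left_inv := fun z => by
        show (if ‖(if ‖z‖ ≤ 1 then A z else z)‖ ≤ 1 then B (if ‖z‖ ≤ 1 then A z else z) else
          (if ‖z‖ ≤ 1 then A z else z)) = z
        by_cases h : ‖z‖ ≤ 1
        · rw [if_pos h, if_pos (hAn z h), hBA z h]
        · rw [if_neg h, if_neg h]
      right_inv := fun z => by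
        show (if ‖(if ‖z‖ ≤ 1 then B z else z)‖ ≤ 1 then A (if ‖z‖ ≤ 1 then B z else z) else
          (if ‖z‖ ≤ 1 then B z else z)) = z
        by_cases h : ‖z‖ ≤ 1
        · rw [if_pos h, if_pos (hBn z h), hAB z h]
        · rw [if_neg h, if_neg h]
      continuous_toFun := Pool.Agent.N170.SH.glue hAc hAb
      continuous_invFun := Pool.Agent.N170.SH.glue hBc hBb }
  have hk : ∀ z, κ z = if ‖z‖ ≤ 1 then A z else z := fun z => rfl
  have hk1 : ∀ z : ℂ, 1 ≤ ‖z‖ → κ z = z := by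
    intro z hz
    rw [hk]
    split_ifs with h
    · exact hAb z (le_antisymm h hz)
    · rfl
  have hkT : ∀ z : ℂ, (‖z‖ ≤ 1 → T z = u z) → κ z = z := by
    intro z hz
    rw [hk]
    split_ifs with h
    · show v (T z) = z
      rw [hz h, (huv z h).2.2.1]
    · rfl
  have hnear1 : ∀ᶠ z in 𝓝 (1 : ℂ), κ z = z := by
    have h1 : ∀ᶠ z in 𝓝 (1 : ℂ), z ∈ ball (1 : ℂ) 1 := isOpen_ball.mem_nhds (mem_ball_self one_pos)
    filter_upwards [hK₁n, h1] with z hz hz1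
    refine hkT z fun hle => ?_
    have h2 : z ∉ U₂ := by
      intro hc
      have h1 : ‖z - -1‖ < 1 := by simpa [dist_eq_norm] using hc.2
      have h2 : ‖z - 1‖ < 1 := by simpa [dist_eq_norm] using hz1
      have h3 : (2 : ℂ) = (z - -1) - (z - 1) := by ring
      have h4 : ‖(2 : ℂ)‖ ≤ ‖z - -1‖ + ‖z - 1‖ := by
        conv_lhs => rw [h3]
        exact norm_sub_le _ _
      have h5 : ‖(2 : ℂ)‖ = 2 := by simp
      linarith
    rw [hTa, hK₂s z h2]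
    exact hz hle
  have hnear2 : ∀ᶠ z in 𝓝 (-1 : ℂ), κ z = z := by
    have h1 : ∀ᶠ z in 𝓝 (-1 : ℂ), K₂ z ∈ ball (-1 : ℂ) 1 := by
      have h2 : ContinuousAt K₂ (-1 : ℂ) := K₂.continuous.continuousAt
      refine h2.eventually (isOpen_ball.mem_nhds ?_)
      rw [hK₂c (-1) (by simp)]
      exact mem_ball_self one_pos
    filter_upwards [hK₂n, h1] with z hz hz1
    refine hkT z fun hle => ?_
    have h2 : K₂ z ∉ U₁ := by
      intro hc
      have h1 : ‖K₂ z - 1‖ < 1 := by simpa [dist_eq_norm] using hc.2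
      have h2 : ‖K₂ z - -1‖ < 1 := by simpa [dist_eq_norm] using hz1
      have h3 : (2 : ℂ) = (K₂ z - -1) - (K₂ z - 1) := by ring
      have h4 : ‖(2 : ℂ)‖ ≤ ‖K₂ z - -1‖ + ‖K₂ z - 1‖ := by
        conv_lhs => rw [h3]
        exact norm_sub_le _ _
      have h5 : ‖(2 : ℂ)‖ = 2 := by simp
      linarith
    rw [hTa, hK₁s _ h2]
    exact hz hle
  refine ⟨κ, hk1, ?_, ?_⟩
  · obtain ⟨d₁, hd₁, hb₁⟩ := Metric.eventually_nhds_iff.1 hnear1
    obtain ⟨d₂, hd₂, hb₂⟩ := Metric.eventually_nhds_iff.1 hnear2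
    refine ⟨min d₁ d₂, lt_min hd₁ hd₂, ?_⟩
    rintro z (hz | hz)
    · exact hb₁ (by rw [dist_eq_norm]; exact hz.trans_le (min_le_left _ _))
    · exact hb₂ (by rw [dist_eq_norm, sub_neg_eq_add]; exact hz.trans_le (min_le_right _ _))
  · intro x hx
    rcases hx.lt_or_eq with hx | hx
    · have hxn : ‖(x : ℂ)‖ < 1 := by rw [Complex.norm_real]; exact hx
      have h1 : Good (fun z => φ (T z)) x := Good.comp (g := φ) (bi_good hBi (hTlt _ hxn)) (hTreal x)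
      refine h1.congr ?_
      filter_upwards [isOpen_ball.mem_nhds (mem_ball_zero_iff.2 hxn)] with z hz
      rw [mem_ball_zero_iff] at hz
      have h2 : ‖T z‖ < 1 := hTlt z hz
      rw [hk, if_pos hz.le]
      show φ (T z) = F (v (T z))
      rw [(hin _ (hin _ h2).2.1).2.2, (huv _ h2.le).2.2.2]
    · rcases eq_or_eq_neg_of_abs_eq hx with rfl | rfl
      · have h1 : Good F 1 := hF1.good
        rw [Complex.ofReal_one]
        refine h1.congr ?_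
        filter_upwards [hnear1] with z hz
        rw [hz]
      · have h1 : Good F (-1) := hF2.good
        rw [Complex.ofReal_neg, Complex.ofReal_one]
        refine h1.congr ?_
        filter_upwards [hnear2] with z hz
        rw [hz]

theorem edge0 (hRL : S_RL) (hG : S_GERM) (hC : S_CONE) : S_EDGE0 := by
  intro F hF1 hF2
  set F' : ℂ ≃ₜ ℂ := F.trans (Homeomorph.addRight (-(F 0))) with hF'
  have hF'a : ∀ z, F' z = F z + -(F 0) := fun z => rfl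
  have htr : ∀ p, TransAt F p → TransAt F' p := by
    rintro p ⟨δ, hδ, c, hc⟩
    refine ⟨δ, hδ, c + -(F 0), fun z hz => ?_⟩
    rw [hF'a, hc z hz]
    ring
  obtain ⟨κ, h1, h2, h3⟩ := edge0_aux hRL hG hC F' (by rw [hF'a]; ring) (htr _ hF1) (htr _ hF2)
  refine ⟨κ, h1, h2, fun x hx => ?_⟩
  have h4 := good_add_const (h3 x hx) (F 0)
  have h5 : (fun z => F' (κ z) + F 0) = fun z => F (κ z) := by
    funext z
    rw [hF'a]
    ring
  rwa [h5] at h4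

end Pool.Agent.H10.MW
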