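import Pool.Agent.H10.MW.Basic

/-!
# Project SM2 (helper10): matching of germs
-/

set_option autoImplicit false

open Set Filter Topology Metric MeasureTheory
open scoped ContDiff

noncomputable section

namespace Pool.Agent.H10.MW

/-- local inverse of a partial homeomorphism -/
theorem good_symm_local (P : OpenPartialHomeomorph ℂ ℂ) {z : ℂ} (hz : z ∈ P.source)
    (h : Good P z) : Good P.symm (P z) := by
  have key : ∀ w ∈ P.source, Good P w →
      ContDiffAt ℝ ∞ P.symm (P w) ∧ 0 < (fderiv ℝ P.symm (P w)).det := by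
    intro w hws hw
    obtain ⟨e, he'⟩ : ∃ e : ℂ ≃L[ℝ] ℂ, (e : ℂ →L[ℝ] ℂ) = fderiv ℝ P w :=
      ⟨(fderiv ℝ P w).toContinuousLinearEquivOfDetNeZero hw.pos.ne',
        ContinuousLinearMap.coe_toContinuousLinearEquivOfDetNeZero _ _⟩
    have he : HasFDerivAt P (e : ℂ →L[ℝ] ℂ) w := by
      rw [he']
      exact hw.differentiableAt.hasFDerivAt
    have h1 : ContDiffAt ℝ ∞ P.symm (P w) := by
      have := P.contDiffAt_symm (n := ∞) (a := P w) (f₀' := e)
        (P.map_source hws) (by simpa [P.left_inv hws] using he)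
        (by simpa [P.left_inv hws] using hw.contDiffAt)
      exact this
    refine ⟨h1, ?_⟩
    have h2 : DifferentiableAt ℝ P.symm (P w) := h1.differentiableAt (by simp)
    have h3 := J_comp (f := P) (g := P.symm) h2 hw.differentiableAt
    have h4 : J (fun z => P.symm (P z)) w = 1 := by
      have : (fun z => P.symm (P z)) =ᶠ[𝓝 w] fun z => z := by
        filter_upwards [P.open_source.mem_nhds hws] with v hv
        exact P.left_inv hv
      rw [J_congr this]
      exact J_id w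
    rw [h4] at h3
    have h5 := hw.pos
    by_contra h6
    have h7 : J P.symm (P w) ≤ 0 := not_lt.1 h6
    nlinarith
  unfold Good
  have h1 : ∀ᶠ w in 𝓝 (P z), Good P (P.symm w) := by
    have hc : ContinuousAt P.symm (P z) := P.symm.continuousAt (P.map_source hz)
    have h2 : ∀ᶠ v in 𝓝 (P.symm (P z)), Good P v := by
      rw [P.left_inv hz]
      exact h.eventually
    exact hc.eventually h2
  filter_upwards [h1, P.open_target.mem_nhds (P.map_source hz)] with w hw hwt
  have := key _ (P.map_target hwt) hw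
  rwa [P.right_inv hwt] at this

/-- two germs which coincide on the real line differ by a diffeomorphism with small support -/
theorem match_germ (hG : S_GERM) (A B : ℂ → ℂ) (hA : Good A 0) (hB : Good B 0) (h0 : A 0 = B 0)
    (hAB : ∀ᶠ z in 𝓝 (0 : ℂ), z.im = 0 → A z = B z) (ε : ℝ) (hε : 0 < ε) :
    ∃ K : ℂ ≃ₜ ℂ, (∀ z, Good K z) ∧ (∀ z, ε ≤ ‖z‖ → K z = z) ∧ (∀ z, z.im = 0 → K z = z) ∧
      (∀ z, 0 < z.im → 0 < (K z).im) ∧ ∀ᶠ z in 𝓝 (0 : ℂ), A (K z) = B z := by
  obtain ⟨e, he'⟩ : ∃ e : ℂ ≃L[ℝ] ℂ, (e : ℂ →L[ℝ] ℂ) = fderiv ℝ A 0 :=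
    ⟨(fderiv ℝ A 0).toContinuousLinearEquivOfDetNeZero hA.pos.ne',
      ContinuousLinearMap.coe_toContinuousLinearEquivOfDetNeZero _ _⟩
  have he : HasFDerivAt A (e : ℂ →L[ℝ] ℂ) 0 := by
    rw [he']
    exact hA.differentiableAt.hasFDerivAt
  set P : OpenPartialHomeomorph ℂ ℂ :=
    hA.contDiffAt.toOpenPartialHomeomorph A he (by simp) with hP
  have hPA : ∀ z, P z = A z := fun z => rfl
  have hPs : (0 : ℂ) ∈ P.source := hA.contDiffAt.mem_toOpenPartialHomeomorph_source he (by simp)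
  have hGP : Good P 0 := hA
  have hGs : Good P.symm (B 0) := by
    rw [← h0]
    exact good_symm_local P hPs hGP
  have hk : Good (fun z => P.symm (B z)) 0 := hGs.comp hB
  have hev1 : ∀ᶠ z in 𝓝 (0 : ℂ), Good (fun z => P.symm (B z)) z := hk.eventually
  have hev2 : ∀ᶠ z in 𝓝 (0 : ℂ), z ∈ P.source := P.open_source.mem_nhds hPs
  have hBt : B 0 ∈ P.target := by
    rw [← h0]
    exact P.map_source hPs
  have hev3 : ∀ᶠ z in 𝓝 (0 : ℂ), B z ∈ P.target :=
    hB.continuousAt.eventually (P.open_target.mem_nhds hBt)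
  obtain ⟨δ, hδ, hb⟩ := Metric.eventually_nhds_iff_ball.1 (hev1.and (hev2.and hAB))
  obtain ⟨K, hK1, hK2, hK3, hK4, δ', hδ', hK5⟩ := hG (fun z => P.symm (B z)) δ ε hδ hε
    (fun z hz => (hb z hz).1.contDiffAt.contDiffWithinAt)
    (fun z hz h => by
      show P.symm (B z) = z
      rw [← (hb z hz).2.2 h]
      exact P.left_inv (hb z hz).2.1) hk.pos
  refine ⟨K, hK1, hK2, hK3, hK4, ?_⟩
  filter_upwards [hev3, isOpen_ball.mem_nhds (mem_ball_self (x := (0 : ℂ)) hδ')] with z hz hz'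
  rw [hK5 z (mem_ball_zero_iff.1 hz')]
  exact P.right_inv hz

end Pool.Agent.H10.MW
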