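import Pool.Agent.H10.MW.KL
import Pool.Agent.H10.MW.Orient

/-!
# Project SM2 (helper10): exactly one of `f`, `conj ∘ f` preserves the orientation
-/

set_option autoImplicit false

open Set Filter Topology Metric MeasureTheory
open scoped OnePoint

noncomputable section

namespace Pool.Agent.H10.MW

/-- complex conjugation -/
def conjHomeo : ℂ ≃ₜ ℂ := Complex.conjCLE.toHomeomorph

theorem conjHomeo_apply (z : ℂ) : conjHomeo z = (starRingEnd ℂ) z := rfl

/-- `f` is a translation or a reflection near `0`, up to a homeomorphism with compact support -/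
theorem normal_form (f : ℂ ≃ₜ ℂ) : ∃ (κ : ℂ ≃ₜ ℂ) (δ : ℝ) (e : Bool), (∀ z, 1 ≤ ‖z‖ → κ z = z) ∧
    0 < δ ∧ ∀ z, ‖z‖ < δ → f (κ z) = Pool.Agent.N311.SH.cj e z + f 0 := by
  let T : ℂ ≃ₜ ℂ := f.trans (Homeomorph.addRight (-f 0))
  have hT : ∀ z, T z = f z + -f 0 := fun z => rfl
  have hT0 : Pool.Agent.N311.SH.ext T ((0 : ℂ) : Pool.Agent.N311.SH.Sph) =
      ((0 : ℂ) : Pool.Agent.N311.SH.Sph) := by
    rw [Pool.Agent.N311.SH.ext_coe, hT, add_neg_cancel]
  obtain ⟨k, hk, hk0, δ, e, hδ, hkδ⟩ :=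
    Pool.Agent.H331.SM2.t_KL (Pool.Agent.N311.SH.ext T) hT0 1 one_pos
  refine ⟨k, δ, e, hk, hδ, fun z hz => ?_⟩
  have h1 := hkδ z hz
  rw [Pool.Agent.N311.SH.ext_coe] at h1
  have h2 := OnePoint.coe_injective h1
  rw [hT] at h2
  rw [← h2]
  ring

theorem op_of_normal (κ : ℂ ≃ₜ ℂ) (hκ : ∀ z, 1 ≤ ‖z‖ → κ z = z) : OP κ := by
  refine Pool.Agent.H553.SM2.opa κ 2 1 one_pos fun z hz => hκ z ?_
  have h2 : ‖(2 : ℂ)‖ ≤ ‖z‖ + ‖z - 2‖ := by
    have e1 : (2 : ℂ) = z - (z - 2) := by ring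
    conv_lhs => rw [e1]
    exact norm_sub_le _ _
  have h3 : ‖(2 : ℂ)‖ = 2 := by simp
  linarith

theorem op_trans (c : ℂ) : OP (Homeomorph.addRight c) := by
  refine ⟨⟨Homeomorph.addRight c, ⟨fun _ => 0, continuous_const⟩, ?_⟩, rfl⟩
  rintro ⟨⟨p, q⟩, hpq⟩
  have h0 : q - p ≠ 0 := sub_ne_zero.2 (Ne.symm hpq)
  show (q + c - (p + c)) / (q - p) = (‖(q + c - (p + c)) / (q - p)‖ : ℂ) *
    Complex.exp (((0 : ℝ) : ℂ) * Complex.I)
  have h1 : q + c - (p + c) = q - p := by ring
  rw [h1, div_self h0]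
  simp

/-- exactly one of `f`, `conj ∘ f` preserves the orientation -/
theorem op_iff (f : ℂ ≃ₜ ℂ) : OP f ↔ ¬ OP (f.trans conjHomeo) := by
  constructor
  · intro h1 h2
    have h3 : OP (f.symm.trans (f.trans conjHomeo)) := h1.symm.trans h2
    refine Pool.Agent.H553.SM2.opb _ h3 0 0 1 one_pos fun z _ => ?_
    show conjHomeo (f (f.symm z)) = _
    rw [f.apply_symm_apply, sub_zero, add_zero]
    rfl
  · intro h
    obtain ⟨κ, δ, e, hκ, hδ, hf⟩ := normal_form f
    have hκO : OP κ := op_of_normal κ hκ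
    cases e with
    | false =>
      have h1 : OP ((κ.trans f).trans (Homeomorph.addRight (-(f 0)))) := by
        refine Pool.Agent.H553.SM2.opa _ 0 δ hδ fun z hz => ?_
        rw [sub_zero] at hz
        show f (κ z) + -(f 0) = z
        rw [hf z hz, Pool.Agent.N311.SH.cj_false]
        ring
      have h2 := (hκO.symm.trans h1).trans (op_trans (f 0))
      have h3 : (κ.symm.trans ((κ.trans f).trans (Homeomorph.addRight (-(f 0))))).trans
          (Homeomorph.addRight (f 0)) = f := by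
        ext z
        show f (κ (κ.symm z)) + -(f 0) + f 0 = f z
        rw [κ.apply_symm_apply]
        ring
      rwa [h3] at h2
    | true =>
      exfalso
      apply h
      have h1 : OP ((κ.trans (f.trans conjHomeo)).trans
          (Homeomorph.addRight (-((starRingEnd ℂ) (f 0))))) := by
        refine Pool.Agent.H553.SM2.opa _ 0 δ hδ fun z hz => ?_
        rw [sub_zero] at hz
        show (starRingEnd ℂ) (f (κ z)) + -((starRingEnd ℂ) (f 0)) = z
        rw [hf z hz, Pool.Agent.N311.SH.cj_true, map_add, Complex.conj_conj]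
        ring
      have h2 := (hκO.symm.trans h1).trans (op_trans ((starRingEnd ℂ) (f 0)))
      have h3 : (κ.symm.trans ((κ.trans (f.trans conjHomeo)).trans
          (Homeomorph.addRight (-((starRingEnd ℂ) (f 0)))))).trans
          (Homeomorph.addRight ((starRingEnd ℂ) (f 0))) = f.trans conjHomeo := by
        ext z
        show (starRingEnd ℂ) (f (κ (κ.symm z))) + -((starRingEnd ℂ) (f 0)) +
          (starRingEnd ℂ) (f 0) = (starRingEnd ℂ) (f z)
        rw [κ.apply_symm_apply]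
        ring
      rwa [h3] at h2

end Pool.Agent.H10.MW
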