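import Pool.Agent.H10.MW.Basic
import Pool.Graph.R_seed8.W585.Param
import Pool.Graph.R_pool_sql_team_seeded_63374d34.N550.KH.Disc

set_option autoImplicit false

open Set Filter Topology Metric MeasureTheory
open scoped ContDiff ComplexConjugate

noncomputable section

namespace Pool.Agent.H287.SM2.Radial

open Pool.Agent.H10.MW

/-- twice the weighted mean of the density on a ray -/
def u (ρ : ℂ → ℝ) (z : ℂ) : ℝ := 2 * ∫ t in (0 : ℝ)..1, ρ ((t : ℂ) * z) * t

/-- mass of a ray segment -/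
def M (ρ : ℂ → ℝ) (z : ℂ) (t : ℝ) : ℝ := 2 * ∫ s in (0 : ℝ)..t, ρ ((s : ℂ) * z) * s

variable {ρ : ℂ → ℝ}

lemma M_eq (z : ℂ) (t : ℝ) : M ρ z t = t ^ 2 * u ρ ((t : ℂ) * z) := by
  unfold M u
  have h := intervalIntegral.smul_integral_comp_mul_left (a := 0) (b := 1)
    (fun s : ℝ => ρ ((s : ℂ) * z) * s) t
  rw [mul_zero, mul_one] at h
  rw [← h]
  simp only [smul_eq_mul]
  have e : ∀ x : ℝ, ρ (((t * x : ℝ) : ℂ) * z) * (t * x) = t * (ρ ((x : ℂ) * ((t : ℂ) * z)) * x) := by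
    intro x
    have : ((t * x : ℝ) : ℂ) * z = (x : ℂ) * ((t : ℂ) * z) := by push_cast; ring
    rw [this]
    ring
  simp_rw [e]
  rw [intervalIntegral.integral_const_mul]
  ring

lemma M_zero (z : ℂ) : M ρ z 0 = 0 := by simp [M]

lemma M_one (z : ℂ) : M ρ z 1 = u ρ z := by simp [M_eq]

lemma cont_ray (hρ : Continuous ρ) (z : ℂ) : Continuous fun s : ℝ => ρ ((s : ℂ) * z) * s := by
  fun_prop

lemma M_deriv (hρ : Continuous ρ) (z : ℂ) (t : ℝ) :
    HasDerivAt (M ρ z) (2 * (ρ ((t : ℂ) * z) * t)) t := by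
  unfold M
  exact (intervalIntegral.integral_hasDerivAt_right ((cont_ray hρ z).intervalIntegrable _ _)
    (cont_ray hρ z).stronglyMeasurable.stronglyMeasurableAtFilter
    (cont_ray hρ z).continuousAt).const_mul 2

lemma M_strictMono (hρ : Continuous ρ) (hp : ∀ z, 0 < ρ z) (z : ℂ) : StrictMonoOn (M ρ z) (Ici 0) := by
  refine strictMonoOn_of_deriv_pos (convex_Ici 0) ?_ ?_
  · exact fun t _ => (M_deriv hρ z t).continuousAt.continuousWithinAt
  · intro t ht
    rw [interior_Ici] at ht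
    rw [(M_deriv hρ z t).deriv]
    have : 0 < t := ht
    have := hp ((t : ℂ) * z)
    positivity

lemma u_smooth (hρ : ContDiff ℝ ∞ ρ) : ContDiff ℝ ∞ (u ρ) := by
  unfold u
  refine contDiff_const.mul ?_
  refine Pool.Agent.W585.contDiff_param (F := fun (z : ℂ) (t : ℝ) => ρ ((t : ℂ) * z) * t) ?_ 0 1
  have h1 : ContDiff ℝ ∞ fun p : ℂ × ℝ => (p.2 : ℂ) * p.1 :=
    (Complex.ofRealCLM.contDiff.comp contDiff_snd).mul contDiff_fst
  exact (hρ.comp h1).mul contDiff_snd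

lemma u_pos (hρ : Continuous ρ) (hp : ∀ z, 0 < ρ z) (z : ℂ) : 0 < u ρ z := by
  have h := M_strictMono hρ hp z (mem_Ici.2 le_rfl) (mem_Ici.2 zero_le_one) zero_lt_one
  rwa [M_zero, M_one] at h

lemma euler (hρ : ContDiff ℝ ∞ ρ) (z : ℂ) : 2 * u ρ z + fderiv ℝ (u ρ) z z = 2 * ρ z := by
  have h1 := M_deriv hρ.continuous z 1
  have h2 : HasDerivAt (fun t : ℝ => t ^ 2 * u ρ ((t : ℂ) * z))
      (2 * u ρ z + fderiv ℝ (u ρ) z z) 1 := by
    have h3 : HasDerivAt (fun t : ℝ => (t : ℂ) * z) z 1 := by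
      have := (Complex.ofRealCLM.hasDerivAt (x := (1 : ℝ))).mul_const z
      simpa using this
    have h4 : HasFDerivAt (u ρ) (fderiv ℝ (u ρ) z) (((1 : ℝ) : ℂ) * z) := by
      rw [Complex.ofReal_one, one_mul]
      exact ((u_smooth hρ).differentiable (by simp) z).hasFDerivAt
    have h5 : HasDerivAt (fun t : ℝ => u ρ ((t : ℂ) * z)) (fderiv ℝ (u ρ) z z) 1 :=
      HasFDerivAt.comp_hasDerivAt (l := u ρ) (f := fun t : ℝ => (t : ℂ) * z) 1 h4 h3
    have h6 : HasDerivAt (fun t : ℝ => t ^ 2 * u ρ ((t : ℂ) * z))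
        (((2 : ℕ) : ℝ) * 1 ^ (2 - 1) * u ρ (((1 : ℝ) : ℂ) * z) + 1 ^ 2 * fderiv ℝ (u ρ) z z) 1 :=
      (hasDerivAt_pow 2 (1 : ℝ)).mul h5
    convert h6 using 1
    simp
  have h3 : (fun t : ℝ => t ^ 2 * u ρ ((t : ℂ) * z)) = M ρ z := funext fun t => (M_eq z t).symm
  rw [h3] at h2
  have h4 := h2.unique h1
  simpa using h4

/-- stretching factor -/
def q (ρ : ℂ → ℝ) (z : ℂ) : ℝ := Real.sqrt (u ρ z)

/-- the radial map -/
def K (ρ : ℂ → ℝ) (z : ℂ) : ℂ := (q ρ z : ℂ) * z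

lemma q_smooth (hρ : ContDiff ℝ ∞ ρ) (hp : ∀ z, 0 < ρ z) : ContDiff ℝ ∞ (q ρ) :=
  (u_smooth hρ).sqrt fun z => (u_pos hρ.continuous hp z).ne'

lemma K_smooth (hρ : ContDiff ℝ ∞ ρ) (hp : ∀ z, 0 < ρ z) : ContDiff ℝ ∞ (K ρ) :=
  (Complex.ofRealCLM.contDiff.comp (q_smooth hρ hp)).mul contDiff_id

lemma q_pos (hρ : Continuous ρ) (hp : ∀ z, 0 < ρ z) (z : ℂ) : 0 < q ρ z :=
  Real.sqrt_pos.2 (u_pos hρ hp z)

lemma q_sq (hρ : Continuous ρ) (hp : ∀ z, 0 < ρ z) (z : ℂ) : q ρ z ^ 2 = u ρ z :=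
  Real.sq_sqrt (u_pos hρ hp z).le

lemma J_K (hρ : ContDiff ℝ ∞ ρ) (hp : ∀ z, 0 < ρ z) (z : ℂ) : J (K ρ) z = ρ z := by
  have hq : HasFDerivAt (q ρ) (fderiv ℝ (q ρ) z) z :=
    ((q_smooth hρ hp).differentiable (by simp) z).hasFDerivAt
  have hqc : HasFDerivAt (fun z => (q ρ z : ℂ)) (Complex.ofRealCLM.comp (fderiv ℝ (q ρ) z)) z :=
    Complex.ofRealCLM.hasFDerivAt.comp z hq
  have hK := hqc.mul (hasFDerivAt_id (𝕜 := ℝ) z)
  have hKe : ∀ v, fderiv ℝ (K ρ) z v = (q ρ z : ℂ) * v + z * (fderiv ℝ (q ρ) z v : ℂ) := by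
    intro v
    have : fderiv ℝ (K ρ) z = _ := hK.fderiv
    rw [this]
    simp
  have hu : fderiv ℝ (u ρ) z z = 2 * q ρ z * fderiv ℝ (q ρ) z z := by
    have h1 : u ρ = fun z => q ρ z ^ 2 := funext fun z => (q_sq hρ.continuous hp z).symm
    have h2 := hq.pow 2
    rw [h1]
    have h3 : fderiv ℝ (fun z => q ρ z ^ 2) z = _ := h2.fderiv
    rw [h3]
    simp
  have hz : fderiv ℝ (q ρ) z z = z.re * fderiv ℝ (q ρ) z 1 + z.im * fderiv ℝ (q ρ) z Complex.I := by
    conv_lhs => rw [show z = z.re • (1 : ℂ) + z.im • Complex.I by apply Complex.ext <;> simp]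
    rw [map_add, map_smul, map_smul]
    simp
  have he := euler hρ z
  rw [hu, hz] at he
  have hqs := q_sq hρ.continuous hp z
  unfold J
  rw [Pool.Agent.N550.KH.Disc.det_formula, hKe, hKe]
  simp only [mul_one, Complex.add_re, Complex.ofReal_re, Complex.mul_re, Complex.ofReal_im, mul_zero,
    sub_zero, Complex.add_im, Complex.mul_im, Complex.I_im, Complex.I_re, zero_mul, add_zero, zero_add]
  nlinarith

lemma K_inj (hρ : Continuous ρ) (hp : ∀ z, 0 < ρ z) : Function.Injective (K ρ) := by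
  intro z w h
  unfold K at h
  have hqz := q_pos hρ hp z
  have hqw := q_pos hρ hp w
  have hqzc : (q ρ z : ℂ) ≠ 0 := by exact_mod_cast hqz.ne'
  have hqwc : (q ρ w : ℂ) ≠ 0 := by exact_mod_cast hqw.ne'
  by_cases hz : z = 0
  · subst hz
    rw [mul_zero] at h
    exact ((mul_eq_zero.1 h.symm).resolve_left hqwc).symm
  set c : ℝ := q ρ z / q ρ w with hc
  have hc0 : 0 < c := div_pos hqz hqw
  have hw : w = (c : ℂ) * z := by
    rw [hc]
    push_cast
    field_simp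
    rw [h]
    ring
  have h1 : M ρ z 1 = q ρ z ^ 2 := by rw [M_one, q_sq hρ hp]
  have h2 : M ρ z c = q ρ z ^ 2 := by
    rw [M_eq, ← hw, ← q_sq hρ hp w, hc]
    field_simp
  have h3 : c = 1 := (M_strictMono hρ hp z).injOn (mem_Ici.2 hc0.le) (mem_Ici.2 zero_le_one)
    (h2.trans h1.symm)
  rw [hw, h3]
  simp

lemma K_surj (hρ : Continuous ρ) (hp : ∀ z, 0 < ρ z) {c₀ : ℝ} (hc : 0 < c₀) (hlow : ∀ z, c₀ ≤ ρ z) :
    Function.Surjective (K ρ) := by
  intro y
  have hlow2 : ∀ t : ℝ, 0 ≤ t → c₀ * t ^ 2 ≤ M ρ y t := by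
    intro t ht
    unfold M
    have h1 : ∫ s in (0 : ℝ)..t, c₀ * s ≤ ∫ s in (0 : ℝ)..t, ρ ((s : ℂ) * y) * s := by
      refine intervalIntegral.integral_mono_on ht ?_ ((cont_ray hρ y).intervalIntegrable _ _) ?_
      · exact (by fun_prop : Continuous fun s : ℝ => c₀ * s).intervalIntegrable _ _
      · intro s hs
        exact mul_le_mul_of_nonneg_right (hlow _) hs.1
    rw [intervalIntegral.integral_const_mul, integral_id] at h1
    nlinarith
  have h1 : ∃ t ∈ Icc (0 : ℝ) (1 / Real.sqrt c₀), M ρ y t = 1 := by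
    have hs : 0 < Real.sqrt c₀ := Real.sqrt_pos.2 hc
    have h2 : ContinuousOn (M ρ y) (Icc 0 (1 / Real.sqrt c₀)) :=
      fun t _ => (M_deriv hρ y t).continuousAt.continuousWithinAt
    have h3 := intermediate_value_Icc (by positivity) h2
    refine h3 ⟨?_, ?_⟩
    · rw [M_zero]; exact zero_le_one
    · have h4 := hlow2 (1 / Real.sqrt c₀) (by positivity)
      rw [div_pow, one_pow, Real.sq_sqrt hc.le] at h4
      have h5 : c₀ * (1 / c₀) = 1 := by field_simp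
      linarith
  obtain ⟨t, ht, hM⟩ := h1
  refine ⟨(t : ℂ) * y, ?_⟩
  unfold K
  rw [M_eq] at hM
  have h2 : (q ρ ((t : ℂ) * y) * t) ^ 2 = 1 := by
    rw [mul_pow, q_sq hρ hp]
    linarith
  have h3 : q ρ ((t : ℂ) * y) * t = 1 := by
    have h4 : 0 ≤ q ρ ((t : ℂ) * y) * t := mul_nonneg (q_pos hρ hp _).le ht.1
    nlinarith
  rw [← mul_assoc, ← Complex.ofReal_mul, h3]
  simp

lemma J_smooth {g : ℂ → ℂ} (hg : ContDiff ℝ ∞ g) : ContDiff ℝ ∞ (J g) := by
  have h1 : ContDiff ℝ ∞ (fderiv ℝ g) := hg.fderiv_right (by simp)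
  have h2 : ∀ v : ℂ, ContDiff ℝ ∞ fun z => fderiv ℝ g z v := fun v => h1.clm_apply contDiff_const
  have h3 : J g = fun z => (fderiv ℝ g z 1).re * (fderiv ℝ g z Complex.I).im -
      (fderiv ℝ g z 1).im * (fderiv ℝ g z Complex.I).re :=
    funext fun z => Pool.Agent.N550.KH.Disc.det_formula _
  rw [h3]
  exact ((Complex.reCLM.contDiff.comp (h2 1)).mul (Complex.imCLM.contDiff.comp (h2 Complex.I))).sub
    ((Complex.imCLM.contDiff.comp (h2 1)).mul (Complex.reCLM.contDiff.comp (h2 Complex.I)))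

theorem main : S_RADIAL := by
  intro g r hr hg hsupp hJ
  set ρ : ℂ → ℝ := J g with hρd
  have hgs : ContDiff ℝ ∞ g := contDiff_of_good hg
  have hρ : ContDiff ℝ ∞ ρ := J_smooth hgs
  have hp : ∀ z, 0 < ρ z := fun z => (hg z).pos
  obtain ⟨R, hR⟩ := hsupp
  -- lower bound
  obtain ⟨c₀, hc₀, hlow⟩ : ∃ c₀ : ℝ, 0 < c₀ ∧ ∀ z, c₀ ≤ ρ z := by
    obtain ⟨z₀, -, hz₀⟩ := (isCompact_closedBall (0 : ℂ) (|R| + 1)).exists_isMinOn
      ⟨0, mem_closedBall_self (by positivity)⟩ hρ.continuous.continuousOn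
    refine ⟨min (ρ z₀) 1, lt_min (hp z₀) one_pos, fun z => ?_⟩
    by_cases hz : z ∈ closedBall (0 : ℂ) (|R| + 1)
    · exact (min_le_left _ _).trans (hz₀ hz)
    · refine (min_le_right _ _).trans (le_of_eq ?_)
      rw [mem_closedBall_zero_iff, not_le] at hz
      have h1 : (g : ℂ → ℂ) =ᶠ[𝓝 z] fun z => z := by
        have h2 : ∀ᶠ w in 𝓝 z, |R| + 1 < ‖w‖ := continuous_norm.continuousAt.eventually
          (lt_mem_nhds hz)
        filter_upwards [h2] with w hw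
        exact hR w (by linarith [le_abs_self R])
      rw [hρd, J_congr h1, J_id]
  have hKs := K_smooth hρ hp
  have hKb : Function.Bijective (K ρ) := ⟨K_inj hρ.continuous hp, K_surj hρ.continuous hp hc₀ hlow⟩
  have hKd : ∀ x, 0 < (fderiv ℝ (K ρ) x).det := by
    intro x
    have := J_K hρ hp x
    unfold J at this
    rw [this]
    exact hp x
  have hst : ∀ x, HasStrictFDerivAt (K ρ)
      (((fderiv ℝ (K ρ) x).toContinuousLinearEquivOfDetNeZero (hKd x).ne' : ℂ ≃L[ℝ] ℂ) :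
        ℂ →L[ℝ] ℂ) x := by
    intro x
    rw [ContinuousLinearMap.coe_toContinuousLinearEquivOfDetNeZero]
    exact hKs.contDiffAt.hasStrictFDerivAt (by simp)
  have hop : IsOpenMap (K ρ) := isOpenMap_of_hasStrictFDerivAt_equiv hst
  let e : ℂ ≃ₜ ℂ := (Equiv.ofBijective (K ρ) hKb).toHomeomorphOfContinuousOpen hKs.continuous hop
  have he : ∀ z, e z = K ρ z := fun z => rfl
  have hec : (e : ℂ → ℂ) = K ρ := rfl
  have heg : ∀ z, Good e z := by
    rw [hec]
    exact good_of_contDiff hKs hKd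
  refine ⟨e.symm.trans g, fun z => ?_, fun z => ?_, fun z hz => ?_⟩
  · exact Good.comp (f := e.symm) (g := g) (hg _) (good_symm e heg z)
  · have h1 : J (fun z => g (e.symm z)) z = J g (e.symm z) * J e.symm z :=
      J_comp (hg _).differentiableAt (good_symm e heg z).differentiableAt
    have h2 := J_symm e (heg (e.symm z))
    rw [e.apply_symm_apply] at h2
    have h3 : J e (e.symm z) = ρ (e.symm z) := by
      rw [hec]
      exact J_K hρ hp _
    have h4 : J (e.symm.trans g) z = J (fun z => g (e.symm z)) z := rfl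
    rw [h4, h1]
    rw [h3] at h2
    rw [← hρd, mul_comm]
    exact h2
  · have h1 : u ρ z = 1 := by
      unfold u
      have h2 : ∫ t in (0 : ℝ)..1, ρ ((t : ℂ) * z) * t = ∫ t in (0 : ℝ)..1, t := by
        refine intervalIntegral.integral_congr fun t ht => ?_
        rw [uIcc_of_le zero_le_one] at ht
        have h3 : ‖(t : ℂ) * z‖ < r := by
          rw [norm_mul, Complex.norm_real, Real.norm_eq_abs, abs_of_nonneg ht.1]
          have := norm_nonneg z
          nlinarith [ht.2]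
        simp only [hJ _ h3, one_mul]
      rw [h2, integral_id]
      norm_num
    have h2 : K ρ z = z := by
      unfold K q
      rw [h1]
      simp
    have h3 : e.symm z = z := by
      rw [Homeomorph.symm_apply_eq, he, h2]
    show g (e.symm z) = g z
    rw [h3]

end Pool.Agent.H287.SM2.Radial
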