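import Pool.Agent.H10.MW.Basic
import Pool.Graph.R_pool_sql_team_seeded_63374d34.N311.SH.Fin

/-!
# Project SM2 (helper10): boundary regularity of the Riemann map at a point where the
homeomorphism is a translation
-/

set_option autoImplicit false

open Set Filter Topology Metric MeasureTheory
open scoped ContDiff

noncomputable section

namespace Pool.Agent.H10.MW

open Pool.Agent.N311.SH (Bi)

theorem norm_exp_I (ζ : ℂ) : ‖Complex.exp (Complex.I * ζ)‖ = Real.exp (-ζ.im) := by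
  rw [Complex.norm_exp]
  simp

/-- the map near a point of the circle in logarithmic coordinates -/
theorem reg (hRL : S_RL) (F : ℂ ≃ₜ ℂ) (φ ψ u v : ℂ → ℂ) (hBi : Bi F φ ψ)
    (hu : ContinuousOn u (closedBall 0 1))
    (huv : ∀ z : ℂ, ‖z‖ ≤ 1 → ‖u z‖ ≤ 1 ∧ ‖v z‖ ≤ 1 ∧ v (u z) = z ∧ u (v z) = z)
    (hin : ∀ z : ℂ, ‖z‖ < 1 → ‖u z‖ < 1 ∧ ‖v z‖ < 1 ∧ F z = φ (u z))
    (q : ℂ) (hq : ‖q‖ = 1) (hF : TransAt F q) :
    ∃ (W : ℂ → ℂ) (δ : ℝ), 0 < δ ∧ DifferentiableOn ℂ W (ball 0 δ) ∧ W 0 = 0 ∧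
      (∀ ζ ∈ ball (0 : ℂ) δ, 0 ≤ ζ.im → u (q * Complex.exp (Complex.I * ζ)) =
        u q * Complex.exp (Complex.I * W ζ)) ∧
      (∀ x : ℝ, |x| < δ → (W x).im = 0) ∧
      ∀ x : ℝ, |x| < δ → ∃ r : ℝ, 0 < r ∧ deriv W (x : ℂ) = (r : ℂ) := by
  obtain ⟨δ₀, hδ₀, c, hc⟩ := hF
  have hu1 : ∀ z : ℂ, ‖z‖ = 1 → ‖u z‖ = 1 := by
    intro z hz
    refine le_antisymm (huv z hz.le).1 (not_lt.1 fun hlt => ?_)
    have := (hin (u z) hlt).2.1
    rw [(huv z hz.le).2.2.1, hz] at this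
    exact lt_irrefl _ this
  have huq : ‖u q‖ = 1 := hu1 q hq
  have huq0 : u q ≠ 0 := norm_pos_iff.1 (by rw [huq]; exact one_pos)
  have hq0 : q ≠ 0 := norm_pos_iff.1 (by rw [hq]; exact one_pos)
  set E : ℂ → ℂ := fun ζ => q * Complex.exp (Complex.I * ζ) with hE
  have hEc : Continuous E := by
    rw [hE]
    fun_prop
  have hE0 : E 0 = q := by simp [hE]
  have hEn : ∀ ζ, ‖E ζ‖ = Real.exp (-ζ.im) := fun ζ => by
    rw [hE]
    simp only
    rw [norm_mul, hq, one_mul, norm_exp_I]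
  have hEle : ∀ ζ : ℂ, 0 ≤ ζ.im → ‖E ζ‖ ≤ 1 := fun ζ h => by
    rw [hEn, Real.exp_le_one_iff]
    linarith
  have hElt : ∀ ζ : ℂ, 0 < ζ.im → ‖E ζ‖ < 1 := fun ζ h => by
    rw [hEn, Real.exp_lt_one_iff]
    linarith
  have hEeq : ∀ ζ : ℂ, ζ.im = 0 → ‖E ζ‖ = 1 := fun ζ h => by
    rw [hEn, h, neg_zero, Real.exp_zero]
  -- continuity of `u` at `q`
  have hcq : ContinuousWithinAt (fun ζ => u (E ζ) / u q) {ζ : ℂ | 0 ≤ ζ.im} 0 := by
    have h1 : ContinuousWithinAt u (closedBall 0 1) (E 0) := by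
      rw [hE0]
      exact hu q (by rw [mem_closedBall_zero_iff, hq])
    have h2 : MapsTo E {ζ : ℂ | 0 ≤ ζ.im} (closedBall 0 1) := fun ζ hζ => by
      rw [mem_closedBall_zero_iff]
      exact hEle ζ hζ
    exact (h1.comp hEc.continuousWithinAt h2).div_const _
  have hq1 : u (E 0) / u q = 1 := by rw [hE0, div_self huq0]
  have hev1 : ∀ᶠ ζ in 𝓝[{ζ : ℂ | 0 ≤ ζ.im}] (0 : ℂ), ‖u (E ζ) / u q - 1‖ < 1 := by
    have h1 : Tendsto (fun ζ => ‖u (E ζ) / u q - 1‖) (𝓝[{ζ : ℂ | 0 ≤ ζ.im}] (0 : ℂ)) (𝓝 0) := by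
      have h2 : Tendsto (fun ζ => ‖u (E ζ) / u q - 1‖) (𝓝[{ζ : ℂ | 0 ≤ ζ.im}] (0 : ℂ))
          (𝓝 ‖u (E 0) / u q - 1‖) := (hcq.sub (continuousWithinAt_const (b := (1 : ℂ)))).norm
      have h3 : ‖u (E 0) / u q - 1‖ = 0 := by rw [hq1, sub_self, norm_zero]
      rwa [h3] at h2
    exact h1.eventually_lt_const one_pos
  have hev2 : ∀ᶠ ζ in 𝓝 (0 : ℂ), ‖E ζ - q‖ < δ₀ := by
    have h1 : Tendsto (fun ζ => ‖E ζ - q‖) (𝓝 (0 : ℂ)) (𝓝 0) := by
      have h2 : Continuous fun ζ => ‖E ζ - q‖ := by fun_prop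
      have h3 := h2.tendsto 0
      rwa [hE0, sub_self, norm_zero] at h3
    exact h1.eventually_lt_const hδ₀
  rw [eventually_nhdsWithin_iff] at hev1
  obtain ⟨δ₁, hδ₁, hb⟩ := Metric.eventually_nhds_iff.1 (hev1.and hev2)
  set δ : ℝ := min δ₁ 1 with hδ
  have hδ0 : 0 < δ := lt_min hδ₁ one_pos
  have hb1 : ∀ ζ ∈ ball (0 : ℂ) δ, 0 ≤ ζ.im → ‖u (E ζ) / u q - 1‖ < 1 := fun ζ hζ h0 =>
    (hb (lt_of_lt_of_le hζ (min_le_left _ _))).1 h0
  have hb2 : ∀ ζ ∈ ball (0 : ℂ) δ, ‖E ζ - q‖ < δ₀ := fun ζ hζ =>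
    (hb (lt_of_lt_of_le hζ (min_le_left _ _))).2
  have hslit : ∀ w : ℂ, ‖w - 1‖ < 1 → w ∈ Complex.slitPlane := by
    intro w hw
    left
    have h1 := (abs_lt.1 ((Complex.abs_re_le_norm (w - 1)).trans_lt hw)).1
    simp only [Complex.sub_re, Complex.one_re] at h1
    linarith
  set w : ℂ → ℂ := fun ζ => -Complex.I * Complex.log (u (E ζ) / u q) with hw
  have hne : ∀ ζ ∈ ball (0 : ℂ) δ, 0 ≤ ζ.im → u (E ζ) / u q ≠ 0 := fun ζ hζ h0 =>
    Complex.slitPlane_ne_zero (hslit _ (hb1 ζ hζ h0))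
  have hexp : ∀ ζ ∈ ball (0 : ℂ) δ, 0 ≤ ζ.im → u (E ζ) = u q * Complex.exp (Complex.I * w ζ) := by
    intro ζ hζ h0
    have h1 : Complex.I * w ζ = Complex.log (u (E ζ) / u q) := by
      rw [hw]
      simp only
      rw [← mul_assoc, mul_neg, Complex.I_mul_I, neg_neg, one_mul]
    rw [h1, Complex.exp_log (hne ζ hζ h0), mul_div_cancel₀ _ huq0]
  have him : ∀ ζ, (w ζ).im = -Real.log ‖u (E ζ) / u q‖ := by
    intro ζ
    rw [hw]
    simp [Complex.log_re]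
  have hwn : ∀ ζ, ‖u (E ζ) / u q‖ = ‖u (E ζ)‖ := fun ζ => by rw [norm_div, huq, div_one]
  have k1 : ContinuousOn w ({z | 0 ≤ z.im} ∩ ball 0 δ) := by
    -- continuity
    intro ζ hζ
    have h1 : ContinuousWithinAt (fun ζ => u (E ζ) / u q) ({z | 0 ≤ z.im} ∩ ball 0 δ) ζ := by
      have h2 : ContinuousWithinAt u (closedBall 0 1) (E ζ) :=
        hu _ (by rw [mem_closedBall_zero_iff]; exact hEle ζ hζ.1)
      have h3 : MapsTo E ({z | 0 ≤ z.im} ∩ ball 0 δ) (closedBall 0 1) := fun z hz => by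
        rw [mem_closedBall_zero_iff]
        exact hEle z hz.1
      exact (h2.comp hEc.continuousWithinAt h3).div_const _
    exact (continuousWithinAt_const (b := -Complex.I)).mul
      (h1.clog (hslit _ (hb1 ζ hζ.2 hζ.1)))
  have k2 : DifferentiableOn ℂ w ({z | 0 < z.im} ∩ ball 0 δ) := by
    -- differentiability
    intro ζ hζ
    have hζ0 : 0 < ζ.im := hζ.1
    have hopen : IsOpen ({z : ℂ | 0 < z.im} ∩ ball 0 δ) :=
      (isOpen_lt continuous_const Complex.continuous_im).inter isOpen_ball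
    refine DifferentiableAt.differentiableWithinAt ?_
    have hmem : E ζ + c ∈ F '' ball 0 1 := by
      rw [← hc _ (hb2 ζ hζ.2)]
      exact mem_image_of_mem _ (mem_ball_zero_iff.2 (hElt ζ hζ0))
    have hVo : IsOpen (F '' ball (0 : ℂ) 1) := F.isOpenMap _ isOpen_ball
    have h1 : DifferentiableAt ℂ ψ (E ζ + c) :=
      (hBi.dψ _ hmem).differentiableAt (hVo.mem_nhds hmem)
    have h2 : DifferentiableAt ℂ (fun z => E z + c) ζ := by
      rw [hE]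
      fun_prop
    have h3 : DifferentiableAt ℂ (fun z => ψ (E z + c)) ζ :=
      DifferentiableAt.comp (g := ψ) (f := fun z => E z + c) ζ h1 h2
    have h4 : (fun z => ψ (E z + c)) =ᶠ[𝓝 ζ] fun z => u (E z) := by
      filter_upwards [hopen.mem_nhds hζ] with z hz
      have hz1 := hElt z hz.1
      rw [← hc _ (hb2 z hz.2), (hin _ hz1).2.2]
      exact hBi.left _ (mem_ball_zero_iff.2 (hin _ hz1).1)
    have h5 : DifferentiableAt ℂ (fun z => u (E z)) ζ := h3.congr_of_eventuallyEq h4.symm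
    have h6 : DifferentiableAt ℂ (fun z => u (E z) / u q) ζ := h5.div_const _
    exact (h6.clog (hslit _ (hb1 ζ hζ.2 hζ0.le))).const_mul _
  have k3 : InjOn w ({z | 0 ≤ z.im} ∩ ball 0 δ) := by
    -- injectivity
    intro ζ hζ ζ' hζ' hww
    have h1 := hexp ζ hζ.2 hζ.1
    have h2 := hexp ζ' hζ'.2 hζ'.1
    have h3 : u (E ζ) = u (E ζ') := by rw [h1, h2, hww]
    have h4 : E ζ = E ζ' := by
      rw [← (huv _ (hEle ζ hζ.1)).2.2.1, ← (huv _ (hEle ζ' hζ'.1)).2.2.1, h3]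
    have h5 : Complex.exp (Complex.I * ζ) = Complex.exp (Complex.I * ζ') := mul_left_cancel₀ hq0 h4
    have hn : ∀ z ∈ ball (0 : ℂ) δ, |z.re| < 1 := fun z hz => by
      rw [mem_ball_zero_iff] at hz
      exact (Complex.abs_re_le_norm z).trans_lt (hz.trans_le (min_le_right _ _))
    have h6 := abs_lt.1 (hn ζ hζ.2)
    have h7 := abs_lt.1 (hn ζ' hζ'.2)
    have hpi := Real.pi_gt_three
    have h8 := Complex.exp_inj_of_neg_pi_lt_of_le_pi (x := Complex.I * ζ) (y := Complex.I * ζ')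
      (by simp; linarith) (by simp; linarith) (by simp; linarith) (by simp; linarith) h5
    exact mul_left_cancel₀ Complex.I_ne_zero h8
  have k4 : ∀ z ∈ ball (0 : ℂ) δ, z.im = 0 → (w z).im = 0 := by
    intro ζ _ h0
    rw [him, hwn, hu1 _ (hEeq _ h0), Real.log_one, neg_zero]
  have k5 : ∀ z ∈ ball (0 : ℂ) δ, 0 < z.im → 0 < (w z).im := by
    intro ζ hζ h0
    rw [him, hwn]
    have h1 : ‖u (E ζ)‖ < 1 := (hin _ (hElt ζ h0)).1
    have h2 : 0 < ‖u (E ζ)‖ := by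
      rw [← hwn]
      exact norm_pos_iff.2 (hne ζ hζ h0.le)
    have := Real.log_neg h2 h1
    linarith
  obtain ⟨W, hWd, hWw, hWr⟩ := hRL w δ hδ0 k1 k2 k3 k4 k5
  refine ⟨W, δ, hδ0, hWd, ?_, ?_, ?_, hWr⟩
  · rw [hWw 0 (mem_ball_self hδ0) le_rfl]
    rw [hw]
    simp only
    rw [hq1, Complex.log_one, mul_zero]
  · intro ζ hζ h0
    rw [hWw ζ hζ h0]
    exact hexp ζ hζ h0
  · intro x hx
    have hxb : (x : ℂ) ∈ ball (0 : ℂ) δ := by
      rw [mem_ball_zero_iff, Complex.norm_real]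
      exact hx
    rw [hWw _ hxb (by simp), him, hwn, hu1 _ (hEeq _ (by simp)), Real.log_one, neg_zero]

end Pool.Agent.H10.MW
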