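import Pool.Graph.R_seed8.Helper11.PlaneEuler.Lift

/-!
# Project SM2 (helper10, page MP_cbfcf7_gt): smoothing of homeomorphisms of the plane

Every orientation preserving, area preserving homeomorphism of the plane is a limit, uniform on
compact sets, of area preserving diffeomorphisms.  Definitions and statements of the parts; every
`S_…` is a proposition to be proved in its own module.

Plan: `F` is changed near infinity (`S_INF`), near the vertices of a fine grid (`S_VTX`), along the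
edges (`S_EDGE`), in the cells (`S_CELL`); the result (`S_SMOOTH`) is a diffeomorphism `g = F ∘ κ`
with `κ` close to the identity.  Then `g` is corrected (`S_BAL`, `S_LINES`, `S_MOSER`, `S_CORR`,
`S_RADIAL`) to an area preserving diffeomorphism.
-/

set_option autoImplicit false

open Set Filter Topology Metric MeasureTheory
open scoped ContDiff

noncomputable section

namespace Pool.Agent.H10.MW

open Pool.Agent.Helper11.PlaneEuler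

/-! ### Definitions -/

/-- `f` is smooth with positive Jacobian determinant near `z` -/
def Good (f : ℂ → ℂ) (z : ℂ) : Prop :=
  ∀ᶠ w in 𝓝 z, ContDiffAt ℝ ∞ f w ∧ 0 < (fderiv ℝ f w).det

/-- the Jacobian determinant -/
def J (f : ℂ → ℂ) (z : ℂ) : ℝ := (fderiv ℝ f z).det

/-- the homeomorphism preserves the orientation: it has a lift to `PlaneLift` -/
def OP (F : ℂ ≃ₜ ℂ) : Prop := ∃ L : PlaneLift, L.homeo = F

/-- the homeomorphism is the identity near infinity -/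
def CSupp (F : ℂ ≃ₜ ℂ) : Prop := ∃ R : ℝ, ∀ z, R ≤ ‖z‖ → F z = z

/-- `f` is a translation near `p` -/
def TransAt (f : ℂ → ℂ) (p : ℂ) : Prop := ∃ δ : ℝ, 0 < δ ∧ ∃ c : ℂ, ∀ z, ‖z - p‖ < δ → f z = z + c

/-- open rectangle -/
def Rect (a b c d : ℝ) : Set ℂ := {z | a < z.re ∧ z.re < b ∧ c < z.im ∧ z.im < d}

/-- closed rectangle -/
def CRect (a b c d : ℝ) : Set ℂ := {z | a ≤ z.re ∧ z.re ≤ b ∧ c ≤ z.im ∧ z.im ≤ d}

/-! ### Orientation -/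

/-- A homeomorphism which is the identity near a point preserves the orientation.
(`exists_lift` of `PlaneEuler.Lift` with the strict derivative `id` at `p`.) -/
def S_OPA : Prop := ∀ (κ : ℂ ≃ₜ ℂ) (p : ℂ) (δ : ℝ), 0 < δ → (∀ z, ‖z - p‖ < δ → κ z = z) → OP κ

/-- A homeomorphism which coincides near a point with a reflection does not preserve the
orientation: `angle` on the pairs `(p, p + r exp (i θ))`, `r < δ`, would be a continuous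
`2π`-periodic function `A` of `θ` with `exp (i A θ) = exp (- 2 i θ)`. -/
def S_OPB : Prop := ∀ F : ℂ ≃ₜ ℂ, OP F → ∀ (p c : ℂ) (δ : ℝ), 0 < δ →
  (∀ z, ‖z - p‖ < δ → F z = (starRingEnd ℂ) (z - p) + c) → False

/-! ### Handles -/

/-- INF: `F` can be changed outside a disc to a map with compact support. -/
def S_INF : Prop := ∀ F : ℂ ≃ₜ ℂ, OP F → ∀ R : ℝ,
  ∃ F' : ℂ ≃ₜ ℂ, (∀ z, ‖z‖ ≤ R → F' z = F z) ∧ CSupp F'

/-- VTX: `F` can be made a translation near a given point (0-handle). -/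
def S_VTX : Prop := ∀ F : ℂ ≃ₜ ℂ, OP F → ∀ (p : ℂ) (r : ℝ), 0 < r →
  ∃ κ : ℂ ≃ₜ ℂ, (∀ z, r ≤ ‖z - p‖ → κ z = z) ∧ TransAt (fun z => F (κ z)) p

/-- RL: Schwarz reflection. -/
def S_RL : Prop := ∀ (w : ℂ → ℂ) (δ : ℝ), 0 < δ →
  ContinuousOn w ({z | 0 ≤ z.im} ∩ ball 0 δ) →
  DifferentiableOn ℂ w ({z | 0 < z.im} ∩ ball 0 δ) →
  InjOn w ({z | 0 ≤ z.im} ∩ ball 0 δ) →
  (∀ z ∈ ball (0 : ℂ) δ, z.im = 0 → (w z).im = 0) →
  (∀ z ∈ ball (0 : ℂ) δ, 0 < z.im → 0 < (w z).im) →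
  ∃ W : ℂ → ℂ, DifferentiableOn ℂ W (ball 0 δ) ∧ (∀ z ∈ ball (0 : ℂ) δ, 0 ≤ z.im → W z = w z) ∧
    ∀ x : ℝ, |x| < δ → ∃ r : ℝ, 0 < r ∧ deriv W (x : ℂ) = (r : ℂ)

/-- GERM: the germ at `0` of a diffeomorphism which fixes the real line pointwise extends to a
diffeomorphism of the plane with small support. -/
def S_GERM : Prop := ∀ (k : ℂ → ℂ) (δ ε : ℝ), 0 < δ → 0 < ε → ContDiffOn ℝ ∞ k (ball 0 δ) →
  (∀ z ∈ ball (0 : ℂ) δ, z.im = 0 → k z = z) → 0 < (fderiv ℝ k 0).det →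
  ∃ K : ℂ ≃ₜ ℂ, (∀ z, Good K z) ∧ (∀ z, ε ≤ ‖z‖ → K z = z) ∧ (∀ z, z.im = 0 → K z = z) ∧
    (∀ z, 0 < z.im → 0 < (K z).im) ∧ ∃ δ' : ℝ, 0 < δ' ∧ ∀ z, ‖z‖ < δ' → K z = k z

/-- CONE: the extension of an orientation preserving homeomorphism `exp (i x) ↦ exp (i h x)` of the
circle to the plane, smooth on the rays over the points where `h` is smooth. -/
def S_CONE : Prop := ∀ h : C(ℝ, ℝ), StrictMono h → (∀ x, h (x + 2 * Real.pi) = h x + 2 * Real.pi) →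
  ∃ S : ℂ ≃ₜ ℂ, (∀ z, ‖S z‖ = ‖z‖) ∧ (∀ z, ‖z‖ ≤ 1 / 4 → S z = z) ∧
    (∀ t x : ℝ, 3 / 4 ≤ t → S (t * Complex.exp (x * Complex.I)) =
      t * Complex.exp (h x * Complex.I)) ∧
    ∀ t x : ℝ, 0 < t → (∀ᶠ y in 𝓝 x, ContDiffAt ℝ ∞ h y ∧ 0 < deriv h y) →
      Good S (t * Complex.exp (x * Complex.I))

/-- EDGE0: the 1-handle, normalized: the edge is the diameter `[-1, 1]` of the unit disc. -/
def S_EDGE0 : Prop := ∀ F : ℂ ≃ₜ ℂ, TransAt F 1 → TransAt F (-1) →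
  ∃ κ : ℂ ≃ₜ ℂ, (∀ z, 1 ≤ ‖z‖ → κ z = z) ∧
    (∃ δ : ℝ, 0 < δ ∧ ∀ z, ‖z - 1‖ < δ ∨ ‖z + 1‖ < δ → κ z = z) ∧
    ∀ x : ℝ, |x| ≤ 1 → Good (fun z => F (κ z)) x

/-- EDGE: the 1-handle: the edge is the diameter `[m - a, m + a]` of the disc of radius `‖a‖`
about `m`. -/
def S_EDGE : Prop := ∀ (F : ℂ ≃ₜ ℂ) (m a : ℂ), a ≠ 0 → TransAt F (m + a) → TransAt F (m - a) →
  ∃ κ : ℂ ≃ₜ ℂ, (∀ z, ‖a‖ ≤ ‖z - m‖ → κ z = z) ∧
    (∃ δ : ℝ, 0 < δ ∧ ∀ z, ‖z - (m + a)‖ < δ ∨ ‖z - (m - a)‖ < δ → κ z = z) ∧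
    ∀ x : ℝ, |x| ≤ 1 → Good (fun z => F (κ z)) (m + x * a)

/-- CELL: the 2-handle: `F` is smooth in an open rectangle outside a compact subset. -/
def S_CELL : Prop := ∀ (F : ℂ ≃ₜ ℂ) (a b c d : ℝ) (K : Set ℂ), a < b → c < d → IsCompact K →
  K ⊆ Rect a b c d → (∀ z ∈ Rect a b c d, z ∉ K → Good F z) →
  ∃ (κ : ℂ ≃ₜ ℂ) (K' : Set ℂ), IsCompact K' ∧ K' ⊆ Rect a b c d ∧ (∀ z, z ∉ K' → κ z = z) ∧
    ∀ z ∈ Rect a b c d, Good (fun z => F (κ z)) z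

/-- SMOOTH: smoothing of homeomorphisms with compact support. -/
def S_SMOOTH : Prop := ∀ F : ℂ ≃ₜ ℂ, CSupp F → ∀ δ : ℝ, 0 < δ →
  ∃ κ : ℂ ≃ₜ ℂ, CSupp κ ∧ (∀ z, ‖κ z - z‖ ≤ δ) ∧ ∀ z, Good (fun z => F (κ z)) z

/-! ### Area -/

/-- FIBV: diffeomorphisms which preserve the vertical lines -/
def S_FIBV : Prop := ∀ (Y : ℂ → ℝ) (C : ℝ), ContDiff ℝ ∞ Y → (∀ z, 0 < fderiv ℝ Y z Complex.I) →
  (∀ z, |Y z - z.im| ≤ C) →
  ∃ κ : ℂ ≃ₜ ℂ, (∀ z, κ z = ⟨z.re, Y z⟩) ∧ (∀ z, Good κ z) ∧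
    ∀ z, J κ z = fderiv ℝ Y z Complex.I

/-- FIBH: diffeomorphisms which preserve the horizontal lines -/
def S_FIBH : Prop := ∀ (X : ℂ → ℝ) (C : ℝ), ContDiff ℝ ∞ X → (∀ z, 0 < fderiv ℝ X z 1) →
  (∀ z, |X z - z.re| ≤ C) →
  ∃ κ : ℂ ≃ₜ ℂ, (∀ z, κ z = ⟨X z, z.im⟩) ∧ (∀ z, Good κ z) ∧
    ∀ z, J κ z = fderiv ℝ X z 1

/-- MOSER: a density which is `1` near the boundary of a rectangle and has the right total mass is
the Jacobian determinant of a diffeomorphism supported in the rectangle. -/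
def S_MOSER : Prop := ∀ (ρ : ℂ → ℝ) (a b c d : ℝ) (K : Set ℂ), a < b → c < d →
  ContDiff ℝ ∞ ρ → (∀ z, 0 < ρ z) → IsCompact K → K ⊆ Rect a b c d → (∀ z, z ∉ K → ρ z = 1) →
  ∫ z in CRect a b c d, ρ z = (b - a) * (d - c) →
  ∃ (κ : ℂ ≃ₜ ℂ) (K' : Set ℂ), IsCompact K' ∧ K' ⊆ Rect a b c d ∧ (∀ z, z ∉ K' → κ z = z) ∧
    (∀ z, Good κ z) ∧ ∀ z, J κ z = ρ z

/-- BAL: balancing of the areas of the cells of a grid. -/
def S_BAL : Prop := ∀ (n : ℕ) (s x₀ y₀ η : ℝ), 0 < n → 0 < s → 0 < η → ∃ δ : ℝ, 0 < δ ∧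
  ∀ g : ℂ ≃ₜ ℂ, (∀ z, Good g z) →
    (∀ a b c d : ℝ, x₀ ≤ a → a ≤ b → b ≤ x₀ + (n + 1) * s → y₀ ≤ c → c ≤ d → d ≤ y₀ + n * s →
      |(∫ z in CRect a b c d, J g z) - (b - a) * (d - c)| ≤ δ) →
    ∃ κ : ℂ ≃ₜ ℂ, CSupp κ ∧ (∀ z, Good κ z) ∧ (∀ z, ‖κ z - z‖ ≤ η) ∧
      ∀ i j : ℕ, i < n → j < n →
        ∫ z in CRect (x₀ + i * s) (x₀ + (i + 1) * s) (y₀ + j * s) (y₀ + (j + 1) * s),
          J (fun z => g (κ z)) z = s ^ 2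

/-- LINES: the Jacobian determinant can be made equal to `1` near the lines of a grid, by a
diffeomorphism which preserves the cells. -/
def S_LINES : Prop := ∀ (n : ℕ) (s x₀ y₀ : ℝ) (g : ℂ ≃ₜ ℂ), 0 < s → (∀ z, Good g z) → CSupp g →
  ∃ κ : ℂ ≃ₜ ℂ, CSupp κ ∧ (∀ z, Good κ z) ∧
    (∀ i j : ℕ, i < n → j < n →
      κ '' CRect (x₀ + i * s) (x₀ + (i + 1) * s) (y₀ + j * s) (y₀ + (j + 1) * s) =
        CRect (x₀ + i * s) (x₀ + (i + 1) * s) (y₀ + j * s) (y₀ + (j + 1) * s)) ∧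
    ∀ z : ℂ, ((∃ i : ℕ, i ≤ n ∧ z.re = x₀ + i * s) ∨ (∃ j : ℕ, j ≤ n ∧ z.im = y₀ + j * s)) →
      ∀ᶠ w in 𝓝 z, J (fun z => g (κ z)) w = 1

/-- CORR: correction of the area on a square. -/
def S_CORR : Prop := ∀ L η : ℝ, 0 < L → 0 < η → ∃ δ : ℝ, 0 < δ ∧
  ∀ g : ℂ ≃ₜ ℂ, (∀ z, Good g z) → CSupp g →
    (∀ a b c d : ℝ, -(L + 1) ≤ a → a ≤ b → b ≤ L + 1 → -(L + 1) ≤ c → c ≤ d → d ≤ L + 1 →
      |(∫ z in CRect a b c d, J g z) - (b - a) * (d - c)| ≤ δ) →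
    ∃ κ : ℂ ≃ₜ ℂ, CSupp κ ∧ (∀ z, Good κ z) ∧
      (∀ z ∈ CRect (-L) L (-L) L, ‖κ z - z‖ ≤ η) ∧
      ∀ z ∈ Rect (-L) L (-L) L, J (fun z => g (κ z)) z = 1

/-- RADIAL: from a disc to the plane. -/
def S_RADIAL : Prop := ∀ (g : ℂ ≃ₜ ℂ) (r : ℝ), 0 < r → (∀ z, Good g z) → CSupp g →
  (∀ z, ‖z‖ < r → J g z = 1) →
  ∃ h : ℂ ≃ₜ ℂ, (∀ z, Good h z) ∧ (∀ z, J h z = 1) ∧ ∀ z, ‖z‖ < r → h z = g z

/-- FIN: every orientation and area preserving homeomorphism is a limit, uniform on compact sets, of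
area preserving diffeomorphisms. -/
def S_FIN : Prop := ∀ F : ℂ ≃ₜ ℂ, OP F → MeasurePreserving F → ∀ r ε : ℝ, 0 < ε →
  ∃ h : ℂ ≃ₜ ℂ, (∀ z, Good h z) ∧ (∀ z, J h z = 1) ∧ ∀ z, ‖z‖ ≤ r → ‖h z - F z‖ < ε

end Pool.Agent.H10.MW
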